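import Pool.Agent.AcyUp.Targets2

set_option autoImplicit false

/-!
# All rounds together
-/

namespace Pool.Agent.AcyUp

open Finset Pool.Agent.AcyTest Filter
open scoped Classical

namespace ALLx

/-- the cost of the last step -/
theorem base_cost (d : ℕ) (a lg : ℝ) (ha : 0 ≤ a) (hag : a * (1 + Real.log (d + 1)) ≤ 1 / 4)
    (hlg : 0 ≤ lg) (hC : 1 + 16 * (2 * (d : ℝ) + 2) ≤ Real.exp (lg / 8)) (Rm W : ℕ)
    (hR : (Rm : ℝ) ≤ a * lg) (hW : (W : ℝ) ≤ Real.exp (a * lg)) :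
    ((W + cB d W Rm ((d + 1) ^ Rm) : ℕ) : ℝ) ≤ Real.exp (lg / 2) := by
  set g := Real.log (d + 1) with hg
  set u := Real.exp (lg / 8) with hu
  have hd1 : (1 : ℝ) ≤ (d : ℝ) + 1 := by
    have : (0 : ℝ) ≤ d := Nat.cast_nonneg d
    linarith
  have hg0 : 0 ≤ g := Real.log_nonneg hd1
  have hu1 : 1 ≤ u := Real.one_le_exp (by positivity)
  have hlu : lg / 8 ≤ u := by
    have := Real.add_one_le_exp (lg / 8)
    linarith
  have hu2 : u ^ 2 = Real.exp (lg / 4) := by
    rw [hu, ← Real.exp_nat_mul]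
    congr 1
    push_cast
    ring
  have hu4 : u ^ 4 = Real.exp (lg / 2) := by
    rw [hu, ← Real.exp_nat_mul]
    congr 1
    push_cast
    ring
  have ha4 : a ≤ 1 / 4 := by nlinarith
  -- the three factors
  have hs : (((d + 1) ^ Rm : ℕ) : ℝ) ≤ Real.exp (g * (a * lg)) := by
    have h1 : (((d + 1) ^ Rm : ℕ) : ℝ) = Real.exp (g * Rm) := by
      rw [mul_comm, Real.exp_nat_mul, hg, Real.exp_log (by linarith)]
      push_cast
      rfl
    rw [h1]
    exact Real.exp_le_exp.2 (mul_le_mul_of_nonneg_left hR hg0)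
  have hs1 : (((d + 1) ^ Rm : ℕ) : ℝ) + 1 ≤ 2 * Real.exp (g * (a * lg)) := by
    have : 1 ≤ Real.exp (g * (a * lg)) := Real.one_le_exp (by positivity)
    linarith
  have hW1 : (W : ℝ) + 1 ≤ 2 * Real.exp (a * lg) := by
    have : 1 ≤ Real.exp (a * lg) := Real.one_le_exp (by positivity)
    linarith
  have hWu : (W : ℝ) ≤ u ^ 2 := by
    rw [hu2]
    refine hW.trans (Real.exp_le_exp.2 ?_)
    nlinarith
  have hprod : ((((d + 1) ^ Rm : ℕ) : ℝ) + 1) * ((W : ℝ) + 1) ≤ 4 * u ^ 2 := by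
    calc ((((d + 1) ^ Rm : ℕ) : ℝ) + 1) * ((W : ℝ) + 1) ≤
          (2 * Real.exp (g * (a * lg))) * (2 * Real.exp (a * lg)) :=
          mul_le_mul hs1 hW1 (by positivity) (by positivity)
      _ = 4 * Real.exp (a * (1 + g) * lg) := by
          rw [show (2 * Real.exp (g * (a * lg))) * (2 * Real.exp (a * lg)) =
            4 * (Real.exp (g * (a * lg)) * Real.exp (a * lg)) by ring, ← Real.exp_add]
          congr 2
          ring
      _ ≤ 4 * u ^ 2 := by
          rw [hu2]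
          apply mul_le_mul_of_nonneg_left _ (by norm_num)
          apply Real.exp_le_exp.2
          nlinarith
  have hRu : (Rm : ℝ) + 2 ≤ 4 * u := by
    have : a * lg ≤ 1 / 4 * lg := mul_le_mul_of_nonneg_right ha4 hlg
    linarith
  have hcast : ((W + cB d W Rm ((d + 1) ^ Rm) : ℕ) : ℝ) = (W : ℝ) + ((Rm : ℝ) + 2) *
      (2 * (d : ℝ) + 2) * (((((d + 1) ^ Rm : ℕ) : ℝ) + 1) * ((W : ℝ) + 1)) := by
    unfold cB
    push_cast
    ring
  rw [hcast]
  have h1 : ((Rm : ℝ) + 2) * (2 * (d : ℝ) + 2) * (((((d + 1) ^ Rm : ℕ) : ℝ) + 1) * ((W : ℝ) + 1)) ≤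
      (4 * u) * (2 * (d : ℝ) + 2) * (4 * u ^ 2) := by
    apply mul_le_mul _ hprod (by positivity) (by positivity)
    exact mul_le_mul_of_nonneg_right hRu (by positivity)
  rw [← hu4]
  have h2 : (4 * u) * (2 * (d : ℝ) + 2) * (4 * u ^ 2) = 16 * (2 * (d : ℝ) + 2) * u ^ 3 := by ring
  have h3 : u ^ 2 ≤ u ^ 3 := pow_le_pow_right₀ hu1 (by norm_num)
  have h4 : (1 + 16 * (2 * (d : ℝ) + 2)) * u ^ 3 ≤ u * u ^ 3 :=
    mul_le_mul_of_nonneg_right hC (by positivity)
  have h5 : u * u ^ 3 = u ^ 4 := by ring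
  linarith

end ALLx

/-- ALL -/
theorem pALL (hXBA : tXBA) (hXST : tXST) (hNUM : tNUM) : tALL := by
  intro d ε hd hε hε1
  obtain ⟨η, τm, θ1, θ, ε1, ε2, ε4, x, Cc, L0, K, h, hC, hx, hCc, hε1', hh, hN⟩ :=
    hNUM d ε hd hε hε1
  obtain ⟨hη, hη1, hτ, hθ1, hθ, hθ1', hε2, hB, h16, h8K, h8θ⟩ := hC
  have hdr : (1 : ℝ) ≤ d := by exact_mod_cast hd
  have hhr : (1 : ℝ) ≤ h := by exact_mod_cast hh
  set g := Real.log (d + 1) with hgdef
  have hg : 0 < g := Real.log_pos (by linarith)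
  have hτ0 : 0 ≤ τm := le_trans (by positivity) hτ
  -- the scales
  set ρ : ℝ := max 1 (Cc / x) with hρdef
  have hρ1 : 1 ≤ ρ := le_max_left _ _
  have hρ0 : 0 < ρ := by linarith
  have hρx : Cc ≤ x * ρ := by
    have h1 : Cc / x ≤ ρ := le_max_right _ _
    rw [div_le_iff₀ hx] at h1
    linarith
  set x0 : ℝ := min (1 / Cc) (1 / (4 * x * (1 + g))) with hx0def
  have hCc0 : 0 < Cc := by linarith
  have hx0 : 0 < x0 := by
    apply lt_min
    · positivity
    · positivity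
  have hx0C : Cc * x0 ≤ 1 := by
    have h1 : x0 ≤ 1 / Cc := min_le_left _ _
    rw [le_div_iff₀ hCc0] at h1
    linarith
  have hx0g : x * x0 * (1 + g) ≤ 1 / 4 := by
    have h1 : x0 ≤ 1 / (4 * x * (1 + g)) := min_le_right _ _
    rw [le_div_iff₀ (by positivity)] at h1
    linarith
  -- the constants
  set b : ℝ := x * (x0 / ρ ^ K) with hbdef
  have hb : 0 < b := by positivity
  set c : ℝ := min b (1 / 2) / 2 with hcdef
  have hc : 0 < c := by
    have : 0 < min b (1 / 2) := lt_min hb (by norm_num)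
    positivity
  have hcb : 2 * c ≤ b := by
    have : min b (1 / 2) ≤ b := min_le_left _ _
    linarith
  have hch : 2 * c ≤ 1 / 2 := by
    have : min b (1 / 2) ≤ 1 / 2 := min_le_right _ _
    linarith
  set prK : ℝ := (ε * d / 2 - 2 * d * η) / d with hprK
  have hprK' : prK = ε / 2 - 2 * η := by
    rw [hprK]
    field_simp
  have hprK0 : 0 < prK := by rw [hprK']; linarith
  have hprK1 : prK ≤ 1 := by rw [hprK']; linarith
  set q : ℝ := ε1 / (8 * d * h) with hqdef
  have hq0 : 0 < q := by positivity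
  -- large n
  have hlog : Tendsto (fun n : ℕ => Real.log (n : ℝ)) atTop atTop :=
    Real.tendsto_log_atTop.comp tendsto_natCast_atTop_atTop
  have ev1 : ∀ᶠ n : ℕ in atTop, 1 + 16 * (2 * (d : ℝ) + 2) ≤ Real.exp (Real.log n / 8) :=
    (Real.tendsto_exp_atTop.comp (hlog.atTop_div_const (by norm_num))).eventually_ge_atTop _
  have hκ : 0 < x0 / ρ ^ K := by positivity
  have ev2 : ∀ᶠ n : ℕ in atTop, L0 ≤ x0 / ρ ^ K * Real.log n :=
    (hlog.const_mul_atTop hκ).eventually_ge_atTop _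
  have ev3 : ∀ᶠ n : ℕ in atTop, 1 ≤ b * Real.log n :=
    (hlog.const_mul_atTop hb).eventually_ge_atTop _
  have ev4 : ∀ᶠ n : ℕ in atTop, (K : ℝ) + 1 ≤ Real.exp (c * Real.log n) :=
    (Real.tendsto_exp_atTop.comp (hlog.const_mul_atTop hc)).eventually_ge_atTop _
  obtain ⟨n0, hn0⟩ := eventually_atTop.1 (ev1.and (ev2.and (ev3.and (ev4.and
    (eventually_ge_atTop 1)))))
  refine ⟨η, τm, θ1, ε * d / 2 + K * ε2, prK * q ^ K, c, n0, by positivity, hc, hη, hθ1, hτ0,
    by nlinarith, ?_⟩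
  intro n hn
  obtain ⟨hn1, hn2, hn3, hn4, hn5⟩ := hn0 n hn
  have hnr : (1 : ℝ) ≤ n := by exact_mod_cast hn5
  have hn0' : (0 : ℝ) < n := by linarith
  have hne : Nonempty (Fin n) := ⟨⟨0, hn5⟩⟩
  set lg := Real.log n with hlgdef
  have hlg : 0 ≤ lg := Real.log_nonneg hnr
  have hexp : Real.exp lg = n := Real.exp_log hn0'
  -- the scales are ordered
  have hsc : ∀ s ≤ K, x0 / ρ ^ K * lg ≤ x0 / ρ ^ s * lg := by
    intro s hs
    apply mul_le_mul_of_nonneg_right _ hlg
    apply div_le_div_of_nonneg_left hx0.le (by positivity)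
    exact pow_le_pow_right₀ hρ1 hs
  have hsc1 : ∀ s : ℕ, x0 / ρ ^ s * lg ≤ x0 * lg := by
    intro s
    apply mul_le_mul_of_nonneg_right _ hlg
    apply div_le_self hx0.le
    exact one_le_pow₀ hρ1
  have key : ∀ s ≤ K, ∀ Rm W : ℕ, (Rm : ℝ) ≤ x * (x0 / ρ ^ s * lg) →
      (W : ℝ) ≤ Real.exp (x * (x0 / ρ ^ s * lg)) →
      ∃ c' : ℕ, (c' : ℝ) ≤ s * (n * Real.exp (-(x * (x0 / ρ ^ K * lg)))) + Real.exp (lg / 2) ∧
        XOK (Fin n) d g η τm θ1 Rm (θ ^ (K - s) * g ^ 2) W c' (ε * d / 2 + s * ε2)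
          (prK * q ^ s) := by
    intro s
    induction s with
    | zero =>
      intro _ Rm W hR hW
      have h1 := hXBA (Fin n) d g η τm θ1 Rm (θ ^ K * g ^ 2) W (ε * d / 2) hd hη hη1 hB hθ1 hτ
        (by nlinarith)
      refine ⟨W + cB d W Rm ((d + 1) ^ Rm), ?_, ?_⟩
      · have h2 := ALLx.base_cost d (x * x0) lg (by positivity) hx0g hlg hn1 Rm W
          (by
            refine hR.trans (le_of_eq ?_)
            rw [pow_zero, div_one]
            ring)
          (by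
            refine hW.trans (le_of_eq ?_)
            rw [pow_zero, div_one]
            congr 1
            ring)
        refine h2.trans ?_
        simp
      · simpa using h1
    | succ s ih =>
      intro hs Rm W hR hW
      have hs' : s ≤ K := by omega
      set L := x0 / ρ ^ (s + 1) * lg with hLdef
      have hLK : x0 / ρ ^ K * lg ≤ L := hsc (s + 1) hs
      have hL0 : L0 ≤ L := hn2.trans hLK
      have hLnn : 0 ≤ L := by positivity
      have hCL : Real.exp (Cc * L) ≤ n := by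
        rw [← hexp]
        apply Real.exp_le_exp.2
        have h1 : L ≤ x0 * lg := hsc1 (s + 1)
        have h2 : Cc * L ≤ Cc * (x0 * lg) := mul_le_mul_of_nonneg_left h1 hCc0.le
        have h3 : Cc * x0 * lg ≤ 1 * lg := mul_le_mul_of_nonneg_right hx0C hlg
        linarith
      obtain ⟨p, Rm', N, N2, P0, P1, hgm, hpη, hph, hrnd, hpL, hpL2, hNN, hNN2, hP0, hP1, hP1', hRm',
        hW2, hcR⟩ := hN L n Rm W hL0 hCL hR hW
      have hstep : Cc * L ≤ x * (x0 / ρ ^ s * lg) := by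
        have h1 : x0 / ρ ^ s * lg = ρ * L := by
          rw [hLdef, pow_succ]
          field_simp
        have h2 := mul_le_mul_of_nonneg_right hρx hLnn
        rw [h1]
        linarith
      obtain ⟨c', hc', hX⟩ := ih hs' Rm' (W2 d W P0 P1 N) (hRm'.trans hstep)
        (hW2.trans (Real.exp_le_exp.2 hstep))
      have hε1d : ε1 ≤ 2 * d := hrnd.2.2.2.2.2.2.1
      have hq1 : q ≤ 1 := by
        rw [hqdef, div_le_one (by positivity)]
        nlinarith
      have hcard : Fintype.card (Fin n) = n := Fintype.card_fin n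
      have hBB : θ * (θ ^ (K - (s + 1)) * g ^ 2) = θ ^ (K - s) * g ^ 2 := by
        rw [← mul_assoc, ← pow_succ']
        congr 2
        omega
      have hpr0 : 0 ≤ prK * q ^ s := by positivity
      have hpr1 : prK * q ^ s ≤ 1 :=
        mul_le_one₀ hprK1 (by positivity) (pow_le_one₀ hq0.le hq1)
      have hrnd' : RndOK (Fintype.card (Fin n)) d p θ τm θ1 ε1 ε2 ε4 Rm Rm' := by
        rw [hcard]
        exact hrnd
      have hX' : XOK (Fin n) d p.gm p.η τm θ1 Rm' (θ * (θ ^ (K - (s + 1)) * g ^ 2))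
          (W2 d W P0 P1 N) c' (ε * d / 2 + s * ε2) (prK * q ^ s) := by
        rw [hBB, hgm, hpη]
        exact hX
      have h1 := hXST (Fin n) d p θ τm θ1 ε1 ε2 ε4 Rm Rm' N N2 P0 P1
        (θ ^ (K - (s + 1)) * g ^ 2) W c' (ε * d / 2 + s * ε2) (prK * q ^ s)
        hrnd' hpL hpL2 hNN hNN2 hP0 hP1 hP1' hpr0 hpr1 hX'
      rw [hgm, hpη, hph] at h1
      refine ⟨cR d W P0 P1 N N2 p + c', ?_, ?_⟩
      · push_cast
        have h2 : (n : ℝ) * Real.exp (-(x * L)) ≤ n * Real.exp (-(x * (x0 / ρ ^ K * lg))) := by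
          apply mul_le_mul_of_nonneg_left _ hn0'.le
          apply Real.exp_le_exp.2
          have := mul_le_mul_of_nonneg_left hLK hx.le
          linarith
        have h3 := hcR.trans h2
        linarith
      · have e1 : ε * d / 2 + ((s + 1 : ℕ) : ℝ) * ε2 = ε * d / 2 + s * ε2 + ε2 := by
          push_cast
          ring
        have e2 : prK * q ^ (s + 1) = prK * q ^ s * (ε1 / (8 * d * h)) := by
          rw [pow_succ, ← hqdef]
          ring
        rw [e1, e2]
        exact h1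
  have e3 : x * (x0 / ρ ^ K * lg) = b * lg := by
    rw [hbdef]
    ring
  obtain ⟨Q, hQ, hX⟩ := key K le_rfl 1 0 (by rw [e3]; exact_mod_cast hn3)
    (by
      push_cast
      exact (Real.exp_pos _).le)
  refine ⟨Q, ?_, ?_⟩
  · refine hQ.trans ?_
    rw [e3]
    have h1 : (n : ℝ) ^ (1 - c) = Real.exp (lg * (1 - c)) := Real.rpow_def_of_pos hn0' _
    rw [h1]
    have h2 : (n : ℝ) * Real.exp (-(b * lg)) ≤ Real.exp (lg * (1 - 2 * c)) := by
      rw [← hexp, ← Real.exp_add]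
      apply Real.exp_le_exp.2
      nlinarith
    have h3 : Real.exp (lg / 2) ≤ Real.exp (lg * (1 - 2 * c)) := by
      apply Real.exp_le_exp.2
      nlinarith
    have h4 : (K : ℝ) * (n * Real.exp (-(b * lg))) ≤ K * Real.exp (lg * (1 - 2 * c)) :=
      mul_le_mul_of_nonneg_left h2 (Nat.cast_nonneg K)
    have h5 : ((K : ℝ) + 1) * Real.exp (lg * (1 - 2 * c)) ≤
        Real.exp (c * lg) * Real.exp (lg * (1 - 2 * c)) :=
      mul_le_mul_of_nonneg_right hn4 (Real.exp_pos _).le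
    have h6 : Real.exp (c * lg) * Real.exp (lg * (1 - 2 * c)) = Real.exp (lg * (1 - c)) := by
      rw [← Real.exp_add]
      congr 1
      ring
    linarith
  · have h1 : θ ^ (K - K) * g ^ 2 = g ^ 2 := by simp
    rw [h1] at hX
    exact hX

end Pool.Agent.AcyUp
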