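import Pool.Agent.AcyUp.Targets2

set_option autoImplicit false

/-!
# AMP: amplification
-/

namespace Pool.Agent.AcyUp

open Finset Pool.Agent.AcyTest
open scoped Classical

theorem pAMP (hC : tCMP) (hF : tFAS) : tAMP := by
  intro V _ d c pr Ω _ _ D t G0 hpr hD hG0
  refine ⟨Fin t → Ω, inferInstance, inferInstance,
    fun ω G => univ.biUnion fun i => D (ω i) G, ?_, ?_⟩
  · intro ω
    obtain ⟨-, -, -, h4, h5, h6⟩ := hC V d Set.univ
    have h7 := h6 (Fin t) Unit univ (fun _ _ => ()) (fun i G => (D (ω i) G : Set V))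
      (fun _ _ => c) (fun i _ => hD (ω i))
    have h8 := h5 _ Unit _ _ _ (fun _ => ()) h7
    refine h4 Unit _ _ _ _ _ _ Set.univ h8 subset_rfl ?_
    intro G _
    refine ⟨rfl, ?_, ?_⟩
    · intro x hx
      simpa using hx
    · simp
  · intro G hG
    set N : Finset Ω := univ.filter fun ω => ¬ Cyc G.E (D ω G) with hN
    have h1 : (N.card : ℝ) ≤ (1 - pr) * Fintype.card Ω := by
      have h2 := hG0 G hG
      have h3 : (univ.filter fun ω => Cyc G.E (D ω G)).card + N.card = Fintype.card Ω := by
        rw [hN, card_filter_add_card_filter_not, card_univ]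
      have h4 : ((univ.filter fun ω => Cyc G.E (D ω G)).card : ℝ) + N.card = Fintype.card Ω := by
        exact_mod_cast h3
      linarith
    have h2 : (univ.filter fun ω : Fin t → Ω =>
        ¬ Cyc G.E (univ.biUnion fun i => D (ω i) G)) ⊆ Fintype.piFinset fun _ => N := by
      intro ω hω
      rw [mem_filter] at hω
      rw [Fintype.mem_piFinset]
      intro i
      rw [hN, mem_filter]
      refine ⟨mem_univ _, fun hc => hω.2 ?_⟩
      obtain ⟨-, -, -, -, h5, -⟩ := hF V G.E 0
      exact h5 _ _ (fun x hx => mem_biUnion.2 ⟨i, mem_univ _, hx⟩) hc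
    have h3 := card_le_card h2
    rw [Fintype.card_piFinset, prod_const, card_univ, Fintype.card_fin] at h3
    have h4 : ((univ.filter fun ω : Fin t → Ω =>
        ¬ Cyc G.E (univ.biUnion fun i => D (ω i) G)).card : ℝ) ≤ (N.card : ℝ) ^ t := by
      exact_mod_cast h3
    refine h4.trans ?_
    rw [Fintype.card_fun, Fintype.card_fin, Nat.cast_pow, ← mul_pow]
    exact pow_le_pow_left₀ (Nat.cast_nonneg _) h1 t

end Pool.Agent.AcyUp
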