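import Pool.Agent.AcyUp.Targets

set_option autoImplicit false

/-!
# Basic facts about balls
-/

namespace Pool.Agent.AcyUp

open Finset Pool.Agent.AcyTest
open scoped Classical

namespace BALx

variable {V : Type} [Fintype V] {E : V → V → Prop} {b : Bool} {S : Finset V}

lemma mem_zero {x y : V} : y ∈ ball E b S 0 x ↔ y ∈ S ∧ y = x := by
  simp [ball]

lemma mem_succ {r : ℕ} {x y : V} : y ∈ ball E b S (r + 1) x ↔
    y ∈ S ∧ (y ∈ ball E b S r x ∨ ∃ u ∈ ball E b S r x, de E b u y) := by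
  simp [ball]

lemma sub (r : ℕ) (x : V) : ball E b S r x ⊆ S := by
  intro y hy
  cases r with
  | zero => exact (mem_zero.1 hy).1
  | succ r => exact (mem_succ.1 hy).1

lemma succ_mono (r : ℕ) (x : V) : ball E b S r x ⊆ ball E b S (r + 1) x := fun _ hy =>
  mem_succ.2 ⟨sub r x hy, Or.inl hy⟩

lemma mono (r s : ℕ) (x : V) (h : r ≤ s) : ball E b S r x ⊆ ball E b S s x := by
  induction s, h using Nat.le_induction with
  | base => exact Subset.refl _
  | succ n _ ih => exact ih.trans (succ_mono n x)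

lemma self (r : ℕ) (x : V) (hx : x ∈ S) : x ∈ ball E b S r x :=
  mono 0 r x (Nat.zero_le r) (mem_zero.2 ⟨hx, rfl⟩)

lemma emp (r : ℕ) (x : V) (hx : x ∉ S) : ball E b S r x = ∅ := by
  induction r with
  | zero =>
    rw [eq_empty_iff_forall_notMem]
    intro y hy
    obtain ⟨h1, h2⟩ := mem_zero.1 hy
    exact hx (h2 ▸ h1)
  | succ r ih =>
    rw [eq_empty_iff_forall_notMem]
    intro y hy
    obtain ⟨_, h | ⟨u, hu, _⟩⟩ := mem_succ.1 hy
    · rw [ih] at h
      exact notMem_empty _ h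
    · rw [ih] at hu
      exact notMem_empty _ hu

lemma add (r s : ℕ) (x y z : V) (h1 : y ∈ ball E b S r x) (h2 : z ∈ ball E b S s y) :
    z ∈ ball E b S (r + s) x := by
  induction s generalizing z with
  | zero =>
    obtain ⟨_, h⟩ := mem_zero.1 h2
    rw [h]
    exact h1
  | succ s ih =>
    obtain ⟨hz, h | ⟨u, hu, hd⟩⟩ := mem_succ.1 h2
    · exact succ_mono _ _ (ih z h)
    · exact mem_succ.2 ⟨hz, Or.inr ⟨u, ih u hu, hd⟩⟩

lemma split (r s : ℕ) (x z : V) (h : z ∈ ball E b S (r + s) x) :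
    ∃ y ∈ ball E b S r x, z ∈ ball E b S s y := by
  induction s generalizing z with
  | zero => exact ⟨z, h, mem_zero.2 ⟨sub _ _ h, rfl⟩⟩
  | succ s ih =>
    obtain ⟨hz, h | ⟨u, hu, hd⟩⟩ := mem_succ.1 h
    · obtain ⟨y, hy, hzy⟩ := ih z h
      exact ⟨y, hy, succ_mono _ _ hzy⟩
    · obtain ⟨y, hy, huy⟩ := ih u hu
      exact ⟨y, hy, mem_succ.2 ⟨hz, Or.inr ⟨u, huy, hd⟩⟩⟩

lemma de_not {u y : V} (h : de E b u y) : de E (!b) y u := by
  cases b <;> simpa [de] using h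

lemma dual (r : ℕ) (x y : V) (h : y ∈ ball E b S r x) : x ∈ ball E (!b) S r y := by
  induction r generalizing y with
  | zero =>
    obtain ⟨h1, h2⟩ := mem_zero.1 h
    subst h2
    exact mem_zero.2 ⟨h1, rfl⟩
  | succ r ih =>
    obtain ⟨hy, h | ⟨u, hu, hd⟩⟩ := mem_succ.1 h
    · exact succ_mono _ _ (ih y h)
    · have h1 : u ∈ ball E (!b) S 1 y :=
        mem_succ.2 ⟨sub _ _ hu, Or.inr ⟨y, mem_zero.2 ⟨hy, rfl⟩, de_not hd⟩⟩
      have := add 1 r y u x h1 (ih u hu)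
      rwa [add_comm] at this

lemma mono_set (S' : Finset V) (r : ℕ) (x : V) (h : S ⊆ S') :
    ball E b S r x ⊆ ball E b S' r x := by
  induction r with
  | zero =>
    intro y hy
    obtain ⟨h1, h2⟩ := mem_zero.1 hy
    exact mem_zero.2 ⟨h h1, h2⟩
  | succ r ih =>
    intro y hy
    obtain ⟨hy1, h1 | ⟨u, hu, hd⟩⟩ := mem_succ.1 hy
    · exact mem_succ.2 ⟨h hy1, Or.inl (ih h1)⟩
    · exact mem_succ.2 ⟨h hy1, Or.inr ⟨u, ih hu, hd⟩⟩

lemma edge (r : ℕ) (x y : V) (hx : x ∈ S) (hy : y ∈ S) (hd : de E b x y) :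
    ball E b S r y ⊆ ball E b S (r + 1) x := by
  intro z hz
  have h1 : y ∈ ball E b S 1 x := mem_succ.2 ⟨hy, Or.inr ⟨x, mem_zero.2 ⟨hx, rfl⟩, hd⟩⟩
  have := add 1 r x y z h1 hz
  rwa [add_comm] at this

end BALx

open BALx in
theorem pBAL : tBAL := by
  intro V _ E b S
  exact ⟨sub, fun r s x h => mono r s x h, self, emp, add, split, dual, mono_set, edge⟩

end Pool.Agent.AcyUp
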