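import Pool.Agent.AcyUp.Targets2

set_option autoImplicit false

/-!
# CBL: exploration of a ball
-/

namespace Pool.Agent.AcyUp

open Finset Pool.Agent.AcyTest
open scoped Classical

namespace CBLx

variable {V : Type} {d : ℕ}

/-- neighbours read off from the answers -/
noncomputable def nb (b : Bool) (B : Finset V) (J : V → Option (Info V d)) : Finset V :=
  (B ×ˢ (univ : Finset (Fin d))).biUnion fun p =>
    ((J p.1).bind fun q => (if b then q.1 else q.2) p.2).toFinset

theorem card_nb (b : Bool) (B : Finset V) (J : V → Option (Info V d)) :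
    (nb b B J).card ≤ B.card * d := by
  unfold nb
  refine card_biUnion_le.trans ?_
  refine (sum_le_sum (g := fun _ => 1) fun p _ => ?_).trans ?_
  · cases (J p.1).bind fun q => (if b then q.1 else q.2) p.2 <;> simp
  · simp

/-- the answers on `B` -/
noncomputable def asw (B : Finset V) (G : DG V d) (x : V) : Option (Info V d) :=
  if x ∈ B then some (G.out x, G.inn x) else none

theorem mem_nb (b : Bool) (B : Finset V) (G : DG V d) (y : V) :
    y ∈ nb b B (asw B G) ↔ ∃ u ∈ B, de G.E b u y := by
  unfold nb asw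
  simp only [mem_biUnion, mem_product, mem_univ, and_true, Option.mem_toFinset, Prod.exists]
  constructor
  · rintro ⟨u, i, hu, h⟩
    refine ⟨u, hu, ?_⟩
    simp only [hu, if_true, Option.bind_some, Option.mem_def] at h
    cases b
    · simp only [Bool.false_eq_true, if_false] at h
      simp only [de, Bool.false_eq_true, if_false]
      exact (G.compat y u).2 ⟨i, h⟩
    · simp only [if_true] at h
      simp only [de, if_true]
      exact ⟨i, h⟩
  · rintro ⟨u, hu, h⟩
    cases b
    · simp only [de, Bool.false_eq_true, if_false] at h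
      obtain ⟨i, hi⟩ := (G.compat y u).1 h
      exact ⟨u, i, hu, by simpa [hu] using hi⟩
    · simp only [de, if_true] at h
      obtain ⟨i, hi⟩ := h
      exact ⟨u, i, hu, by simpa [hu] using hi⟩

theorem ball_succ [Fintype V] (hB : tBAL) (G : DG V d) {α : Type} (l : V → α) (a : α) (b : Bool) (r : ℕ)
    (x : V) (B : Finset V) (hb : ball G.E b (cl l a) r x = B) :
    ball G.E b (cl l a) (r + 1) x = B ∪ (nb b B (asw B G)).filter fun y => l y = a := by
  have hsub : B ⊆ cl l a := hb ▸ (hB V G.E b (cl l a)).1 r x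
  ext y
  simp only [ball, hb, mem_filter, mem_union, mem_nb]
  constructor
  · rintro ⟨h1, h2 | h2⟩
    · exact Or.inl h2
    · refine Or.inr ⟨h2, ?_⟩
      simpa [cl] using h1
  · rintro (h | ⟨h1, h2⟩)
    · exact ⟨hsub h, Or.inl h⟩
    · exact ⟨by simpa [cl] using h2, Or.inr h1⟩

theorem main [Fintype V] (hC : tCMP) (hB : tBAL) {α : Type} (K : Set (DG V d)) (l : DG V d → V → α) (W : ℕ)
    (hl : ∀ x, Cmp K (fun G => l G x) (fun _ => ∅) fun _ => W) (b : Bool) (a : α) (x : V) :
    ∀ r, Cmp K (fun G => ball G.E b (cl (l G) a) r x) (fun _ => ∅)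
      fun G => W + r * ((ball G.E b (cl (l G) a) r x).card * (1 + d * W)) := by
  intro r
  induction r with
  | zero =>
    have h1 := (hC V d K).2.2.2.2.1 α (Finset V) (fun G => l G x) (fun _ => ∅) (fun _ => W)
      (fun c => if c = a then {x} else ∅) (hl x)
    refine (hC V d K).2.2.2.1 _ _ _ _ _ _ _ K h1 subset_rfl fun G _ => ⟨?_, subset_rfl, by simp⟩
    ext y
    simp only [ball, cl, mem_filter, mem_univ, true_and]
    constructor
    · intro h
      split_ifs at h with h2
      · rw [mem_singleton] at h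
        subst h
        exact ⟨h2, rfl⟩
      · simp at h
    · rintro ⟨h2, rfl⟩
      rw [if_pos h2]
      exact mem_singleton_self _
  | succ r ih =>
    have key : ∀ B : Finset V, Cmp {G | G ∈ K ∧ ball G.E b (cl (l G) a) r x = B}
        (fun G => ball G.E b (cl (l G) a) (r + 1) x) (fun _ => ∅)
        fun G => (ball G.E b (cl (l G) a) r x).card * (1 + d * W) := by
      intro B
      set K1 : Set (DG V d) := {G | G ∈ K ∧ ball G.E b (cl (l G) a) r x = B} with hK1
      have hask := (hC V d K1).2.2.2.2.2 V (Info V d) B (fun u G => (G.out u, G.inn u))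
        (fun u _ => {u}) (fun _ _ => 1) (fun u _ => (hC V d K1).2.1 u)
      have hstep : ∀ J : V → Option (Info V d), Cmp {G | G ∈ K1 ∧ asw B G = J}
          (fun G => ball G.E b (cl (l G) a) (r + 1) x) (fun _ => ∅) fun _ => B.card * (d * W) := by
        intro J
        set K2 : Set (DG V d) := {G | G ∈ K1 ∧ asw B G = J} with hK2
        have hlab := (hC V d K2).2.2.2.2.2 V α (nb b B J) (fun y G => l G y) (fun _ _ => ∅)
          (fun _ _ => W) (fun y _ => (hC V d K).2.2.2.1 _ _ _ _ _ _ _ K2 (hl y)
            (fun G hG => hG.1.1) fun G _ => ⟨rfl, subset_rfl, le_rfl⟩)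
        have hlast : ∀ LV : V → Option α,
            Cmp {G | G ∈ K2 ∧ (fun y => if y ∈ nb b B J then some (l G y) else none) = LV}
            (fun G => ball G.E b (cl (l G) a) (r + 1) x) (fun _ => ∅) fun _ => 0 := by
          intro LV
          set K3 : Set (DG V d) :=
            {G | G ∈ K2 ∧ (fun y => if y ∈ nb b B J then some (l G y) else none) = LV} with hK3
          have h0 := (hC V d K3).1 (Finset V) (B ∪ (nb b B J).filter fun y => LV y = some a)
          refine (hC V d K3).2.2.2.1 _ _ _ _ _ _ _ K3 h0 subset_rfl fun G hG =>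
            ⟨?_, subset_rfl, le_rfl⟩
          have h1 : ball G.E b (cl (l G) a) r x = B := hG.1.1.2
          have h2 : asw B G = J := hG.1.2
          have h3 : (fun y => if y ∈ nb b B J then some (l G y) else none) = LV := hG.2
          rw [ball_succ hB G (l G) a b r x B h1, h2]
          congr 1
          refine filter_congr fun y hy => ?_
          rw [← h3]
          simp [hy]
        have h4 := (hC V d K2).2.2.1 _ _ _ _ _ (fun _ => ∅) _ (fun _ => 0) hlab hlast
        refine (hC V d K2).2.2.2.1 _ _ _ _ _ _ _ K2 h4 subset_rfl fun G _ =>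
          ⟨rfl, Set.empty_subset _, ?_⟩
        simp only [sum_const, smul_eq_mul, add_zero]
        calc (nb b B J).card * W ≤ (B.card * d) * W := Nat.mul_le_mul_right _ (card_nb _ _ _)
          _ = B.card * (d * W) := by ring
      have h5 := (hC V d K1).2.2.1 _ _ _ _ _ (fun _ => ∅) _ (fun _ => B.card * (d * W)) hask hstep
      refine (hC V d K1).2.2.2.1 _ _ _ _ _ _ _ K1 h5 subset_rfl fun G hG =>
        ⟨rfl, Set.empty_subset _, ?_⟩
      have h1 : ball G.E b (cl (l G) a) r x = B := hG.2
      rw [h1]
      simp only [sum_const, smul_eq_mul, mul_one]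
      exact le_of_eq (by ring)
    have h6 := (hC V d K).2.2.1 _ _ _ _ _ (fun _ => ∅) _
      (fun G => (ball G.E b (cl (l G) a) r x).card * (1 + d * W)) ih key
    refine (hC V d K).2.2.2.1 _ _ _ _ _ _ _ K h6 subset_rfl fun G hG =>
        ⟨rfl, Set.empty_subset _, ?_⟩
    have h7 : (ball G.E b (cl (l G) a) r x).card ≤ (ball G.E b (cl (l G) a) (r + 1) x).card :=
      card_le_card ((hB V G.E b (cl (l G) a)).2.1 r (r + 1) x (Nat.le_succ r))
    calc W + r * ((ball G.E b (cl (l G) a) r x).card * (1 + d * W)) +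
          (ball G.E b (cl (l G) a) r x).card * (1 + d * W) =
          W + (r + 1) * ((ball G.E b (cl (l G) a) r x).card * (1 + d * W)) := by ring
      _ ≤ _ := by gcongr

end CBLx

open CBLx in
/-- CBL: exploration of a ball -/
theorem pCBL (hC : tCMP) (hB : tBAL) : tCBL := by
  intro V α _ d K l W hl b a r x
  have h1 := main hC hB K l W hl b a x r
  have key : ∀ B : Finset V, Cmp {G | G ∈ K ∧ ball G.E b (cl (l G) a) r x = B}
      (fun G => ball G.E b (cl (l G) a) r x) (fun G => (ball G.E b (cl (l G) a) r x : Set V))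
      fun G => (ball G.E b (cl (l G) a) r x).card := by
    intro B
    set K1 : Set (DG V d) := {G | G ∈ K ∧ ball G.E b (cl (l G) a) r x = B} with hK1
    have hask := (hC V d K1).2.2.2.2.2 V (Info V d) B (fun u G => (G.out u, G.inn u))
      (fun u _ => {u}) (fun _ _ => 1) (fun u _ => (hC V d K1).2.1 u)
    have h2 := (hC V d K1).2.2.2.2.1 _ (Finset V) _ _ _ (fun _ => B) hask
    refine (hC V d K1).2.2.2.1 _ _ _ _ _ _ _ K1 h2 subset_rfl fun G hG => ?_
    have h3 : ball G.E b (cl (l G) a) r x = B := hG.2
    refine ⟨h3.symm, ?_, ?_⟩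
    · rw [h3]
      intro y hy
      exact Set.mem_biUnion hy rfl
    · rw [h3]
      simp
  have h4 := (hC V d K).2.2.1 _ _ _ _ _ _ _ _ h1 key
  refine (hC V d K).2.2.2.1 _ _ _ _ _ _ _ K h4 subset_rfl fun G _ =>
    ⟨rfl, Set.subset_union_right, ?_⟩
  unfold cB
  generalize (ball G.E b (cl (l G) a) r x).card = s
  nlinarith [Nat.zero_le (r * s * d * W), Nat.zero_le (r * s * d), Nat.zero_le (r * s * W),
    Nat.zero_le (r * s), Nat.zero_le (r * d * W), Nat.zero_le (r * W), Nat.zero_le (r * d),
    Nat.zero_le (s * d * W), Nat.zero_le (s * d), Nat.zero_le (s * W), Nat.zero_le (d * W),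
    Nat.zero_le r, Nat.zero_le s, Nat.zero_le d, Nat.zero_le W]

end Pool.Agent.AcyUp
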