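import Pool.Agent.AcyUp.Targets2

set_option autoImplicit false

/-!
# CFD: the exploration at the end
-/

namespace Pool.Agent.AcyUp

open Finset Pool.Agent.AcyTest
open scoped Classical

namespace CFDx

variable {V : Type} [Fintype V] {d : ℕ}

lemma card_le_of (f : Fin d → Option V) (P : V → Prop) (h : ∀ u, P u → ∃ i, f i = some u) :
    (univ.filter P).card ≤ d := by
  have h1 : ((univ.filter P).image (some : V → Option V)).card = (univ.filter P).card :=
    card_image_of_injective _ (Option.some_injective V)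
  have h2 : (univ.filter P).image (some : V → Option V) ⊆ univ.image f := by
    intro y hy
    obtain ⟨u, hu, rfl⟩ := mem_image.1 hy
    obtain ⟨i, hi⟩ := h u (mem_filter.1 hu).2
    exact mem_image.2 ⟨i, mem_univ i, hi⟩
  calc (univ.filter P).card = ((univ.filter P).image (some : V → Option V)).card := h1.symm
    _ ≤ (univ.image f).card := card_le_card h2
    _ ≤ (univ : Finset (Fin d)).card := card_image_le
    _ = d := by simp

lemma dg (G : DG V d) : Dg G.E d := by
  intro v
  constructor
  · exact card_le_of (G.inn v) _ fun u hu => (G.compat u v).1 hu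
  · exact card_le_of (G.out v) _ fun u hu => hu

lemma cB_mono {d W r r' s s' : ℕ} (hr : r ≤ r') (hs : s ≤ s') : cB d W r s ≤ cB d W r' s' := by
  unfold cB
  exact Nat.mul_le_mul_right _ (Nat.mul_le_mul (by omega) (by omega))

end CFDx

open CFDx in
theorem pCFD (hCMP : tCMP) (hCBL : tCBL) (hGRO : tGRO) : tCFD := by
  intro V _ d K l W Rm gm η x hl hG
  have hb := (hCMP V d K).2.2.1 (Option Lb) Unit (fun G => l G x) (fun _ => ())
    (fun _ => ∅) (fun G => (finD G.E (l G) gm η x : Set V)) (fun _ => W)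
    (fun _ => cB d W Rm ((d + 1) ^ Rm)) (hl x) ?_
  · refine (hCMP V d K).2.2.2.1 Unit _ _ _ _ _ _ K hb subset_rfl ?_
    intro G _
    exact ⟨rfl, by simp, le_rfl⟩
  · intro v
    obtain ⟨K', hK'⟩ : ∃ K' : Set (DG V d), K' = {G | G ∈ K ∧ l G x = v} := ⟨_, rfl⟩
    rw [← hK']
    have hsub : K' ⊆ K := by
      rw [hK']
      exact fun G hG => hG.1
    have hv : ∀ G ∈ K', l G x = v := by
      intro G hG
      rw [hK'] at hG
      exact hG.2
    cases v with
    | none =>
      refine (hCMP V d K').2.2.2.1 Unit _ _ _ _ _ _ K' ((hCMP V d K').1 Unit ()) subset_rfl ?_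
      intro G hG'
      refine ⟨rfl, ?_, Nat.zero_le _⟩
      simp [finD, hv G hG']
    | some a =>
      have hl' : ∀ y, Cmp K' (fun G => l G y) (fun _ => ∅) fun _ => W := fun y =>
        (hCMP V d K).2.2.2.1 (Option Lb) _ _ _ _ _ _ K' (hl y) hsub fun G _ =>
          ⟨rfl, le_rfl, le_rfl⟩
      have h1 := hCBL V (Option Lb) d K' l W hl' (decide (gr gm a true ≤ η)) (some a)
        (rd a (decide (gr gm a true ≤ η))) x
      have h2 := (hCMP V d K').2.2.2.2.1 _ Unit _ _ _ (fun _ => ()) h1
      refine (hCMP V d K').2.2.2.1 Unit _ _ _ _ _ _ K' h2 subset_rfl ?_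
      intro G hG'
      refine ⟨rfl, ?_, ?_⟩
      · simp [finD, hv G hG']
      · have hr : rd a (decide (gr gm a true ≤ η)) ≤ Rm :=
          (hG G (hsub hG') x a (hv G hG') (decide (gr gm a true ≤ η))).2.2.2.1
        refine cB_mono hr ?_
        exact ((hGRO V G.E _ _).1 d (dg G) _ x).trans (Nat.pow_le_pow_right (by omega) hr)

end Pool.Agent.AcyUp
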