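import Pool.Agent.AcyUp.Targets2

set_option autoImplicit false

/-!
# CKY: computation of a key
-/

namespace Pool.Agent.AcyUp

open Finset Pool.Agent.AcyTest
open scoped Classical

namespace CKYx

section det

variable {V : Type} [Fintype V] {E E' : V → V → Prop} {l l' : V → Option Lb} {p : Pm}
  {R : Finset V}

lemma cB_mono {d W r r' s s' : ℕ} (hr : r ≤ r') (hs : s ≤ s') : cB d W r s ≤ cB d W r' s' := by
  unfold cB
  exact Nat.mul_le_mul_right _ (Nat.mul_le_mul (by omega) (by omega))

lemma lab_eq (h : sdat E l p R = sdat E' l' p R) (s : V) (hs : s ∈ R) : l s = l' s := by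
  have h1 := congrFun h s
  unfold sdat at h1
  rw [if_pos hs, if_pos hs] at h1
  exact congrArg Prod.fst (Option.some_injective _ h1)

lemma ball_eq (h : sdat E l p R = sdat E' l' p R) (s : V) (hs : s ∈ R) (a : Lb)
    (ha : l s = some a) (hact : p.act a) (b : Bool) :
    ball E b (cl l (some a)) (p.P a b) s = ball E' b (cl l' (some a)) (p.P a b) s := by
  have h1 := congrFun h s
  have ha' : l' s = some a := by rw [← lab_eq h s hs, ha]
  unfold sdat at h1
  rw [if_pos hs, if_pos hs] at h1
  have h2 := congrFun (congrArg Prod.snd (Option.some_injective _ h1)) b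
  simp only [ha, ha', if_pos hact] at h2
  exact h2

/-- meeting of two balls -/
lemma meet (hBAL : tBAL) (E : V → V → Prop) (b : Bool) (S : Finset V) (r q : ℕ) (x z : V) :
    z ∈ ball E b S (r + q) x ↔ (ball E b S r x ∩ ball E (!b) S q z).Nonempty := by
  obtain ⟨-, -, -, -, h5, h6, h7, -, -⟩ := hBAL V E b S
  obtain ⟨-, -, -, -, -, -, h7', -, -⟩ := hBAL V E (!b) S
  constructor
  · intro h
    obtain ⟨y, hy, hz⟩ := h6 r q x z h
    exact ⟨y, mem_inter.2 ⟨hy, h7 q y z hz⟩⟩
  · rintro ⟨y, hy⟩
    obtain ⟨hy1, hy2⟩ := mem_inter.1 hy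
    have h8 := h7' q z y hy2
    rw [Bool.not_not] at h8
    exact h5 r q x y z hy1 h8

lemma lk_eq (hBAL : tBAL) (h : sdat E l p R = sdat E' l' p R) (s s' : V) (hs : s ∈ R)
    (hs' : s' ∈ R) : lk E l p s s' ↔ lk E' l' p s s' := by
  have key : ∀ (E E' : V → V → Prop) (l l' : V → Option Lb), sdat E l p R = sdat E' l' p R →
      lk E l p s s' → lk E' l' p s s' := by
    intro E E' l l' h
    rintro ⟨hne, a, ha, ha', hact, hb⟩
    refine ⟨hne, a, by rw [← lab_eq h s hs, ha], by rw [← lab_eq h s' hs', ha'], hact, ?_⟩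
    have hA : p.A a = p.P a true + p.P a false := rfl
    rw [hA, meet hBAL] at hb ⊢
    rw [← ball_eq h s hs a ha hact true]
    have h1 := ball_eq h s' hs' a ha' hact false
    rw [Bool.not_true] at hb ⊢
    rw [← h1]
    exact hb
  exact ⟨key E E' l l' h, key E' E l' l h.symm⟩

lemma fR_eq (hBAL : tBAL) (h : sdat E l p R = sdat E' l' p R) : fR E l p R = fR E' l' p R := by
  unfold fR
  have h1 : rsl R l = rsl R l' := by
    funext x
    unfold rsl
    by_cases hx : x ∈ R
    · rw [if_pos hx, if_pos hx, lab_eq h x hx]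
    · rw [if_neg hx, if_neg hx]
  have h2 : rsr R (lk E l p) = rsr R (lk E' l' p) := by
    funext s s'
    unfold rsr
    apply propext
    constructor
    · rintro ⟨hs, hs', hh⟩
      exact ⟨hs, hs', (lk_eq hBAL h s s' hs hs').1 hh⟩
    · rintro ⟨hs, hs', hh⟩
      exact ⟨hs, hs', (lk_eq hBAL h s s' hs hs').2 hh⟩
  rw [h1, h2]

lemma int_eq (hBAL : tBAL) (h : sdat E l p R = sdat E' l' p R) (R1 : Finset V) (hR1 : R1 ⊆ R)
    (a : Lb) (hact : p.act a) (b : Bool) (x : V) (r : ℕ)
    (hb : ball E b (cl l (some a)) r x = ball E' b (cl l' (some a)) r x) :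
    ball E b (cl l (some a)) (r + p.P a (!b)) x ∩ R1 =
      ball E' b (cl l' (some a)) (r + p.P a (!b)) x ∩ R1 := by
  have key : ∀ (E E' : V → V → Prop) (l l' : V → Option Lb), sdat E l p R = sdat E' l' p R →
      ball E b (cl l (some a)) r x = ball E' b (cl l' (some a)) r x →
      ball E b (cl l (some a)) (r + p.P a (!b)) x ∩ R1 ⊆
      ball E' b (cl l' (some a)) (r + p.P a (!b)) x ∩ R1 := by
    intro E E' l l' h hb s hs
    obtain ⟨hs1, hs2⟩ := mem_inter.1 hs
    refine mem_inter.2 ⟨?_, hs2⟩
    have hsl : l s = some a := by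
      have h1 := (hBAL V E b (cl l (some a))).1 _ _ hs1
      unfold cl at h1
      simpa using h1
    rw [meet hBAL] at hs1 ⊢
    rw [← ball_eq h s (hR1 hs2) a hsl hact (!b), ← hb]
    exact hs1
  exact Finset.Subset.antisymm (key E E' l l' h hb) (key E' E l' l h.symm hb.symm)

lemma key_eq (hBAL : tBAL) (ω : Fin p.M → V) (i j : ℕ)
    (h : sdat E l p (als ω) = sdat E' l' p (als ω)) (x : V) (a : Lb) (ha : l x = some a)
    (ha' : l' x = some a) (hact : p.act a) (hm : ∀ b, p.m ≤ p.P a b)
    (hb : ∀ b, ball E b (cl l (some a)) (p.P a b - p.m + j) x =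
      ball E' b (cl l' (some a)) (p.P a b - p.m + j) x) :
    (ctx E l p ω i).key j x = (ctx E' l' p ω i).key j x := by
  have hR1 : pre ω i ⊆ als ω := by
    intro s hs
    unfold pre at hs
    unfold als
    exact image_subset_image (filter_subset _ _) hs
  have hlo : (ctx E l p ω i).lo j a x = (ctx E' l' p ω i).lo j a x := by
    have h1 := int_eq hBAL h (pre ω i) hR1 a hact false x _ (hb false)
    have h2 : p.P a false - p.m + j + p.P a (!false) = p.A a - p.m + j := by
      have h3 : p.A a = p.P a true + p.P a false := rfl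
      have h4 := hm false
      rw [Bool.not_false, h3]
      omega
    rw [h2] at h1
    show (ball E false (cl l (some a)) (p.A a - p.m + j) x ∩ pre ω i).sup (fR E l p (als ω)) =
      (ball E' false (cl l' (some a)) (p.A a - p.m + j) x ∩ pre ω i).sup (fR E' l' p (als ω))
    rw [h1, fR_eq hBAL h]
  have hhi : (ctx E l p ω i).hi j a x = (ctx E' l' p ω i).hi j a x := by
    have h1 := int_eq hBAL h (pre ω i) hR1 a hact true x _ (hb true)
    have h2 : p.P a true - p.m + j + p.P a (!true) = p.A a - p.m + j := by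
      have h3 : p.A a = p.P a true + p.P a false := rfl
      have h4 := hm true
      rw [Bool.not_true, h3]
      omega
    rw [h2] at h1
    show (2 ^ p.k - 1) - (ball E true (cl l (some a)) (p.A a - p.m + j) x ∩ pre ω i).sup
        (fun s => 2 ^ p.k - 1 - fR E l p (als ω) s) =
      (2 ^ p.k - 1) - (ball E' true (cl l' (some a)) (p.A a - p.m + j) x ∩ pre ω i).sup
        (fun s => 2 ^ p.k - 1 - fR E' l' p (als ω) s)
    rw [h1, fR_eq hBAL h]
  have e1 : (ctx E l p ω i).l x = some a := ha
  have e2 : (ctx E' l' p ω i).l x = some a := ha'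
  unfold Cx.key
  rw [e1, e2]
  show (if p.act a then kv ((ctx E l p ω i).lo j a x) ((ctx E l p ω i).hi j a x) else 0) =
    (if p.act a then kv ((ctx E' l' p ω i).lo j a x) ((ctx E' l' p ω i).hi j a x) else 0)
  rw [hlo, hhi]

end det

end CKYx

open CKYx in
theorem pCKY (hCMP : tCMP) (hCBL : tCBL) (hRAD : tRAD) (hBAL : tBAL) : tCKY := by
  intro V _ d K l W Rm N P0 p ω i j D hl hG hη hL hL2 hN hP0 hj hP hD x
  have hb := (hCMP V d K).2.2.1 (Option Lb) (Option Lb × ℕ) (fun G => l G x)
    (fun G => (l G x, (ctx G.E (l G) p ω i).key j x))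
    (fun _ => ∅) (fun _ => ∅) (fun _ => W)
    (fun _ => 2 * cB d W P0 N) (hl x) ?_
  · refine (hCMP V d K).2.2.2.1 (Option Lb × ℕ) _ _ _ _ _ _ K hb subset_rfl ?_
    intro G _
    exact ⟨rfl, by simp, le_rfl⟩
  · intro v
    obtain ⟨K', hK'⟩ : ∃ K' : Set (DG V d), K' = {G | G ∈ K ∧ l G x = v} := ⟨_, rfl⟩
    rw [← hK']
    have hsub : K' ⊆ K := by
      rw [hK']
      exact fun G hG => hG.1
    have hv : ∀ G ∈ K', l G x = v := by
      intro G hG
      rw [hK'] at hG
      exact hG.2
    cases v with
    | none =>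
      refine (hCMP V d K').2.2.2.1 _ _ _ _ _ _ _ K'
        ((hCMP V d K').1 (Option Lb × ℕ) (none, 0)) subset_rfl ?_
      intro G hG'
      refine ⟨?_, le_rfl, Nat.zero_le _⟩
      have e1 : (ctx G.E (l G) p ω i).l x = none := hv G hG'
      rw [hv G hG', Cx.key, e1]
    | some a =>
      by_cases hact : p.act a
      swap
      · refine (hCMP V d K').2.2.2.1 _ _ _ _ _ _ _ K'
          ((hCMP V d K').1 (Option Lb × ℕ) (some a, 0)) subset_rfl ?_
        intro G hG'
        refine ⟨?_, le_rfl, Nat.zero_le _⟩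
        have e1 : (ctx G.E (l G) p ω i).l x = some a := hv G hG'
        rw [hv G hG', Cx.key, e1]
        show (some a, 0) = (some a, if p.act a then _ else 0)
        rw [if_neg hact]
      · have hl' : ∀ (K'' : Set (DG V d)), K'' ⊆ K → ∀ y,
            Cmp K'' (fun G => l G y) (fun _ => ∅) fun _ => W := fun K'' hs y =>
          (hCMP V d K).2.2.2.1 (Option Lb) _ _ _ _ _ _ K'' (hl y) hs fun G _ =>
            ⟨rfl, le_rfl, le_rfl⟩
        -- the exploration of one ball
        have hball : ∀ (K'' : Set (DG V d)), K'' ⊆ K' → ∀ b : Bool,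
            Cmp K'' (fun G => ball G.E b (cl (l G) (some a)) (p.P a b - p.m + j) x) (fun _ => ∅)
              fun _ => cB d W P0 N := by
          intro K'' hs b
          have h1 := hCBL V (Option Lb) d K'' l W (hl' K'' (hs.trans hsub)) b (some a)
            (p.P a b - p.m + j) x
          refine (hCMP V d K'').2.2.2.1 _ _ _ _ _ _ _ K'' h1 subset_rfl ?_
          intro G hG'
          have hGK := hsub (hs hG')
          have hok : LbOK p.gm Rm a := by
            intro b'
            obtain ⟨g1, g2, g3, g4, -⟩ := hG G hGK x a (hv G (hs hG')) b'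
            exact ⟨g1, g2, g3, g4⟩
          have hPm := hP a hok hact b
          obtain ⟨r1, r2, -⟩ := hRAD V G.E (l G) p Rm x a b (hG G hGK) hη hL hL2
            (hv G (hs hG')) hact
          have hle : p.P a b - p.m + j ≤ p.P a b := by omega
          have hle0 : p.P a b ≤ P0 := by
            have h5 : (p.P a b : ℝ) ≤ P0 := r1.1.trans hP0
            exact_mod_cast h5
          have hcard : (ball G.E b (cl (l G) (some a)) (p.P a b - p.m + j) x).card ≤ N := by
            have h5 := (r2 _ hle).trans hN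
            exact_mod_cast h5
          exact ⟨rfl, Set.empty_subset _, cB_mono (hle.trans hle0) hcard⟩
        have h1 := (hCMP V d K').2.2.1 _ (Option Lb × ℕ) _
          (fun G => (l G x, (ctx G.E (l G) p ω i).key j x)) _ (fun _ => ∅) _
          (fun _ => cB d W P0 N) (hball K' subset_rfl true) ?_
        · refine (hCMP V d K').2.2.2.1 (Option Lb × ℕ) _ _ _ _ _ _ K' h1 subset_rfl ?_
          intro G _
          exact ⟨rfl, by simp, by omega⟩
        · intro B1
          obtain ⟨K2, hK2⟩ : ∃ K2 : Set (DG V d), K2 = {G | G ∈ K' ∧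
            ball G.E true (cl (l G) (some a)) (p.P a true - p.m + j) x = B1} := ⟨_, rfl⟩
          rw [← hK2]
          have hsub2 : K2 ⊆ K' := by
            rw [hK2]
            exact fun G hG => hG.1
          have h2 := (hCMP V d K2).2.2.1 _ (Option Lb × ℕ) _
            (fun G => (l G x, (ctx G.E (l G) p ω i).key j x)) _ (fun _ => ∅) _
            (fun _ => 0) (hball K2 hsub2 false) ?_
          · refine (hCMP V d K2).2.2.2.1 (Option Lb × ℕ) _ _ _ _ _ _ K2 h2 subset_rfl ?_
            intro G _
            exact ⟨rfl, by simp, by omega⟩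
          · intro B2
            by_cases hne : ∃ G0, G0 ∈ K2 ∧
              ball G0.E false (cl (l G0) (some a)) (p.P a false - p.m + j) x = B2
            · obtain ⟨G0, hG0, hB0⟩ := hne
              refine (hCMP V d _).2.2.2.1 _ _ _ _ _ _ _ _ ((hCMP V d _).1 (Option Lb × ℕ)
                (l G0 x, (ctx G0.E (l G0) p ω i).key j x)) subset_rfl ?_
              rintro G ⟨hG2, hB2⟩
              refine ⟨?_, le_rfl, le_rfl⟩
              have hGK := hsub (hsub2 hG2)
              have hGK0 := hsub (hsub2 hG0)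
              have hok : LbOK p.gm Rm a := by
                intro b'
                obtain ⟨g1, g2, g3, g4, -⟩ := hG G hGK x a (hv G (hsub2 hG2)) b'
                exact ⟨g1, g2, g3, g4⟩
              have hk := key_eq (E := G0.E) (E' := G.E) (l := l G0) (l' := l G) (p := p) hBAL ω i j
                ((hD G0 hGK0).trans (hD G hGK).symm) x a (hv G0 (hsub2 hG0)) (hv G (hsub2 hG2))
                hact (hP a hok hact) ?_
              · rw [hk, hv G0 (hsub2 hG0), hv G (hsub2 hG2)]
              · intro b
                cases b with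
                | false => rw [hB0, hB2]
                | true =>
                  rw [hK2] at hG0 hG2
                  rw [hG0.2, hG2.2]
            · refine (hCMP V d _).2.2.2.1 _ _ _ _ _ _ _ _ ((hCMP V d _).1 (Option Lb × ℕ)
                (none, 0)) subset_rfl ?_
              rintro G ⟨hG2, hB2⟩
              exact absurd ⟨G, hG2, hB2⟩ hne

end Pool.Agent.AcyUp
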