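import Pool.Agent.AcyUp.Targets2

set_option autoImplicit false

/-! ACU-CMP: rules for `Cmp`. -/

namespace Pool.Agent.AcyUp

open Finset Pool.Agent.AcyTest
open scoped Classical

namespace CMP_

variable {V : Type} {d : ℕ} {α β : Type}

/-- composition of explorations -/
def bind : Prog V d α → (α → Prog V d β) → Prog V d β
  | .ret a, f => f a
  | .ask v k, f => .ask v (fun i => bind (k i) f)

lemma run_bind (p : Prog V d α) (f : α → Prog V d β) (G : DG V d) :
    (bind p f).run G = (f (p.run G)).run G := by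
  induction p with
  | ret a => rfl
  | ask v k ih => exact ih (G.out v, G.inn v)

lemma asked_bind (p : Prog V d α) (f : α → Prog V d β) (G : DG V d) :
    (bind p f).asked G = p.asked G ∪ (f (p.run G)).asked G := by
  induction p with
  | ret a => exact (Set.empty_union _).symm
  | ask v k ih =>
    show insert v ((bind (k (G.out v, G.inn v)) f).asked G) =
      insert v ((k (G.out v, G.inn v)).asked G) ∪ _
    rw [ih, Set.insert_union]
    rfl

lemma len_bind (p : Prog V d α) (f : α → Prog V d β) (G : DG V d) :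
    (bind p f).len G = p.len G + (f (p.run G)).len G := by
  induction p with
  | ret a => exact (Nat.zero_add _).symm
  | ask v k ih =>
    show (bind (k (G.out v, G.inn v)) f).len G + 1 =
      (k (G.out v, G.inn v)).len G + 1 + ((k (G.out v, G.inn v)).run G |> f).len G
    rw [ih]
    omega

lemma r_ret (K : Set (DG V d)) (a : α) : Cmp K (fun _ => a) (fun _ => ∅) fun _ => 0 :=
  ⟨.ret a, fun _ _ => ⟨rfl, Set.empty_subset _, le_rfl⟩⟩

lemma r_ask (K : Set (DG V d)) (v : V) :
    Cmp K (fun G => (G.out v, G.inn v)) (fun _ => {v}) fun _ => 1 := by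
  refine ⟨.ask v fun i => .ret i, fun G _ => ⟨rfl, ?_, le_rfl⟩⟩
  intro x hx
  rw [Set.mem_singleton_iff] at hx
  subst hx
  exact Set.mem_insert _ _

lemma r_bind (K : Set (DG V d)) (F : DG V d → α) (H : DG V d → β) (D D' : DG V d → Set V)
    (c c' : DG V d → ℕ) (h1 : Cmp K F D c) (h2 : ∀ a, Cmp {G | G ∈ K ∧ F G = a} H D' c') :
    Cmp K H (fun G => D G ∪ D' G) fun G => c G + c' G := by
  obtain ⟨p, hp⟩ := h1
  choose f hf using h2
  refine ⟨bind p f, fun G hG => ?_⟩
  obtain ⟨p1, p2, p3⟩ := hp G hG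
  obtain ⟨q1, q2, q3⟩ := hf (F G) G ⟨hG, rfl⟩
  rw [run_bind, asked_bind, len_bind, p1]
  exact ⟨q1, Set.union_subset_union p2 q2, Nat.add_le_add p3 q3⟩

lemma r_mono (K : Set (DG V d)) (F F' : DG V d → α) (D D' : DG V d → Set V) (c c' : DG V d → ℕ)
    (K' : Set (DG V d)) (h1 : Cmp K F D c) (h2 : K' ⊆ K)
    (h3 : ∀ G ∈ K', F G = F' G ∧ D' G ⊆ D G ∧ c G ≤ c' G) : Cmp K' F' D' c' := by
  obtain ⟨p, hp⟩ := h1
  refine ⟨p, fun G hG => ?_⟩
  obtain ⟨p1, p2, p3⟩ := hp G (h2 hG)
  obtain ⟨q1, q2, q3⟩ := h3 G hG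
  exact ⟨p1.trans q1, q2.trans p2, p3.trans q3⟩

lemma r_map (K : Set (DG V d)) (F : DG V d → α) (D : DG V d → Set V) (c : DG V d → ℕ)
    (h : α → β) (h1 : Cmp K F D c) : Cmp K (fun G => h (F G)) D c := by
  obtain ⟨p, hp⟩ := h1
  refine ⟨bind p fun a => .ret (h a), fun G hG => ?_⟩
  obtain ⟨p1, p2, p3⟩ := hp G hG
  rw [run_bind, asked_bind, len_bind, p1]
  refine ⟨rfl, p2.trans Set.subset_union_left, ?_⟩
  show p.len G + 0 ≤ c G
  omega

/-- one more value of a function -/
noncomputable def comb {ι : Type} (a : ι) (g : ι → Option α) (b : α) (x : ι) : Option α :=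
  if x = a then some b else g x

lemma r_fin {ι : Type} (K : Set (DG V d)) (T : Finset ι) (F : ι → DG V d → α)
    (D : ι → DG V d → Set V) (c : ι → DG V d → ℕ) (hT : ∀ x ∈ T, Cmp K (F x) (D x) (c x)) :
    Cmp K (fun G x => if x ∈ T then some (F x G) else none) (fun G => ⋃ x ∈ T, D x G)
      fun G => ∑ x ∈ T, c x G := by
  induction T using Finset.induction_on with
  | empty =>
    refine r_mono K (fun _ => fun _ => none) _ (fun _ => ∅) _ (fun _ => 0) _ K (r_ret K _)
      subset_rfl fun G _ => ⟨?_, ?_, ?_⟩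
    · funext x
      simp
    · simp
    · simp
  | insert a T ha ih =>
    have h1 := ih fun x hx => hT x (Finset.mem_insert_of_mem hx)
    have h2 := r_bind K _ (fun G x => if x ∈ insert a T then some (F x G) else none) _ (D a) _
      (c a) h1 ?_
    · refine r_mono K _ _ _ _ _ _ K h2 subset_rfl fun G _ => ⟨rfl, ?_, ?_⟩
      · intro v hv
        simp only [Set.mem_iUnion, Finset.mem_insert, exists_prop] at hv
        obtain ⟨x, hx, hv⟩ := hv
        rcases hx with rfl | hx
        · exact Or.inr hv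
        · refine Or.inl ?_
          simp only [Set.mem_iUnion, exists_prop]
          exact ⟨x, hx, hv⟩
      · rw [Finset.sum_insert ha, add_comm]
    · intro g
      refine r_mono K (fun G => comb a g (F a G)) _
        (D a) (D a) (c a) (c a) _ (r_map K (F a) (D a) (c a) (comb a g)
          (hT a (Finset.mem_insert_self _ _))) (fun G hG => hG.1) ?_
      rintro G ⟨_, hG⟩
      refine ⟨?_, subset_rfl, le_rfl⟩
      funext x
      unfold comb
      by_cases hx : x = a
      · subst hx
        simp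
      · have h3 : g x = if x ∈ T then some (F x G) else none := by
          rw [← hG]
        simp only [hx, if_false, Finset.mem_insert, false_or]
        rw [h3]

end CMP_

open CMP_ in
theorem pCMP : tCMP := by
  intro V d K
  refine ⟨fun α a => r_ret K a, fun v => r_ask K v, fun α β F H D D' c c' h1 h2 =>
    r_bind K F H D D' c c' h1 h2, fun α F F' D D' c c' K' h1 h2 h3 =>
    r_mono K F F' D D' c c' K' h1 h2 h3, fun α β F D c h h1 => r_map K F D c h h1,
    fun ι α T F D c hT => r_fin K T F D c hT⟩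

end Pool.Agent.AcyUp
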