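import Pool.Agent.AcyUp.CFD

set_option autoImplicit false

/-!
# CNL: computation of the new labels
-/

namespace Pool.Agent.AcyUp

open Finset Pool.Agent.AcyTest
open scoped Classical

namespace CNLx

variable {V : Type} [Fintype V] {d : ℕ}

lemma nd_eq (C : Cx V) (j : ℕ) (a : Lb) (c : ℕ) :
    C.nd j a c = cl (fun y => (C.l y, C.key j y)) (some a, c) := by
  unfold Cx.nd cl
  apply Finset.filter_congr
  intro y _
  rw [Prod.mk.injEq]

lemma cball (hCMP : tCMP) (hCBL : tCBL) (hGRO : tGRO) (K : Set (DG V d)) (C : DG V d → Cx V)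
    (W P1 j : ℕ) (hE : ∀ G ∈ K, (C G).E = G.E)
    (hW : ∀ x, Cmp K (fun G => ((C G).l x, (C G).key j x)) (fun _ => ∅) fun _ => W)
    (b : Bool) (a : Lb) (c r : ℕ) (x : V) (hr : r ≤ P1) :
    Cmp K (fun G => ball (C G).E b ((C G).nd j a c) r x) (fun _ => ∅)
      fun _ => cB d W P1 ((d + 1) ^ P1) := by
  have h1 := hCBL V (Option Lb × ℕ) d K (fun G y => ((C G).l y, (C G).key j y)) W hW b
    (some a, c) r x
  refine (hCMP V d K).2.2.2.1 _ _ _ _ _ _ _ K h1 subset_rfl ?_
  intro G hG
  refine ⟨?_, by simp, ?_⟩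
  · rw [hE G hG, nd_eq]
  · refine CFDx.cB_mono hr ?_
    exact ((hGRO V G.E _ _).1 d (CFDx.dg G) _ x).trans (Nat.pow_le_pow_right (by omega) hr)

lemma const (hCMP : tCMP) {α : Type} (K : Set (DG V d)) (F : DG V d → α) (a : α) (c : ℕ)
    (h : ∀ G ∈ K, F G = a) : Cmp K F (fun _ => ∅) fun _ => c :=
  (hCMP V d K).2.2.2.1 α _ _ _ _ _ _ K ((hCMP V d K).1 α a) subset_rfl
    fun G hG => ⟨(h G hG).symm, by simp, Nat.zero_le _⟩

end CNLx

open CNLx in
theorem pCNL (hCMP : tCMP) (hCBL : tCBL) (hGRO : tGRO) : tCNL := by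
  intro V _ d K C W Rm P1 j o o2 p hK hW hP x
  set c0 : ℕ := cB d W P1 ((d + 1) ^ P1) with hc0
  have hb := (hCMP V d K).2.2.1 (Option Lb × ℕ) (Option Lb)
    (fun G => ((C G).l x, (C G).key j x)) (fun G => (C G).nl j o o2 x)
    (fun _ => ∅) (fun _ => ∅) (fun _ => W) (fun _ => 2 * c0) (hW x) ?_
  · refine (hCMP V d K).2.2.2.1 _ _ _ _ _ _ _ K hb subset_rfl ?_
    intro G _
    exact ⟨rfl, by simp, le_rfl⟩
  · rintro ⟨la, c⟩
    obtain ⟨K', hK'⟩ : ∃ K' : Set (DG V d), K' = {G | G ∈ K ∧
      ((C G).l x, (C G).key j x) = (la, c)} := ⟨_, rfl⟩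
    rw [← hK']
    have hsub : K' ⊆ K := by
      rw [hK']
      exact fun G hG => hG.1
    have hv : ∀ G ∈ K', (C G).l x = la ∧ (C G).key j x = c := by
      intro G hG
      rw [hK'] at hG
      exact Prod.mk.injEq _ _ _ _ ▸ hG.2
    have hp : ∀ G ∈ K', (C G).p = p := fun G hG => (hK G (hsub hG)).2.1
    have hE : ∀ G ∈ K', (C G).E = G.E := fun G hG => (hK G (hsub hG)).1
    have hW' : ∀ y, Cmp K' (fun G => ((C G).l y, (C G).key j y)) (fun _ => ∅) fun _ => W :=
      fun y => (hCMP V d K).2.2.2.1 _ _ _ _ _ _ _ K' (hW y) hsub fun G _ =>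
        ⟨rfl, le_rfl, le_rfl⟩
    by_cases hne : K'.Nonempty
    swap
    · exact const hCMP K' _ none _ fun G hG => absurd ⟨G, hG⟩ hne
    cases la with
    | none =>
      refine const hCMP K' _ none _ fun G hG => ?_
      simp only [Cx.nl, (hv G hG).1]
    | some a =>
      by_cases hact : p.act a
      swap
      · refine const hCMP K' _ (some ((0, true, rd a true, gr p.gm a true) :: a)) _
          fun G hG => ?_
        simp only [Cx.nl, (hv G hG).1, hp G hG, hact, not_false_eq_true, if_true]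
      obtain ⟨G0, hG0⟩ := hne
      have hLb : LbOK p.gm Rm a := by
        intro b
        have h := (hK G0 (hsub hG0)).2.2 x a (hv G0 hG0).1 b
        exact ⟨h.1, h.2.1, h.2.2.1, h.2.2.2.1⟩
      obtain ⟨hr1, hr2⟩ := hP a hLb hact
      by_cases hc : c = 0
      · refine const hCMP K' _ none _ fun G hG => ?_
        simp only [Cx.nl, (hv G hG).1, (hv G hG).2, hp G hG, hact, not_true_eq_false, if_false,
          hc, if_true]
      by_cases hev : Even c
      · -- two balls
        have hB1 := cball hCMP hCBL hGRO K' C W P1 j hE hW' true a c (p.r1 a o) x hr1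
        have hb2 := (hCMP V d K').2.2.1 (Finset V) (Option Lb)
          (fun G => ball (C G).E true ((C G).nd j a c) (p.r1 a o) x)
          (fun G => (C G).nl j o o2 x) (fun _ => ∅) (fun _ => ∅) (fun _ => c0) (fun _ => c0)
          hB1 ?_
        · refine (hCMP V d K').2.2.2.1 _ _ _ _ _ _ _ K' hb2 subset_rfl ?_
          intro G _
          exact ⟨rfl, by simp, by omega⟩
        · intro B1
          obtain ⟨K'', hK''⟩ : ∃ K'' : Set (DG V d), K'' = {G | G ∈ K' ∧
            ball (C G).E true ((C G).nd j a c) (p.r1 a o) x = B1} := ⟨_, rfl⟩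
          rw [← hK'']
          have hsub2 : K'' ⊆ K' := by
            rw [hK'']
            exact fun G hG => hG.1
          have hv2 : ∀ G ∈ K'', ball (C G).E true ((C G).nd j a c) (p.r1 a o) x = B1 := by
            intro G hG
            rw [hK''] at hG
            exact hG.2
          have hW'' : ∀ y, Cmp K'' (fun G => ((C G).l y, (C G).key j y)) (fun _ => ∅)
              fun _ => W :=
            fun y => (hCMP V d K').2.2.2.1 _ _ _ _ _ _ _ K'' (hW' y) hsub2 fun G _ =>
              ⟨rfl, le_rfl, le_rfl⟩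
          have hB2 := cball hCMP hCBL hGRO K'' C W P1 j (fun G hG => hE G (hsub2 hG)) hW'' false
            a c (p.r1 a o) x hr1
          have hB3 := (hCMP V d K'').2.2.2.2.1 _ (Option Lb) _ _ _ (fun B2 : Finset V =>
            if B1.card < p.Ns then
              some ((c, true, p.r1 a o, Real.log p.Ns / p.r1 a o) :: a)
            else if B2.card < p.Ns then
              some ((c, false, p.r1 a o, Real.log p.Ns / p.r1 a o) :: a)
            else none) hB2
          refine (hCMP V d K'').2.2.2.1 _ _ _ _ _ _ _ K'' hB3 subset_rfl ?_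
          intro G hG
          refine ⟨?_, by simp, le_rfl⟩
          have hG' := hsub2 hG
          simp only [Cx.nl, (hv G hG').1, (hv G hG').2, hp G hG', hact, not_true_eq_false,
            if_false, hc, hev, if_true, hv2 G hG]
      · -- one ball
        have hB1 := cball hCMP hCBL hGRO K' C W P1 j hE hW' (!p.dir a) a c (p.r2 a o2) x hr2
        have hB3 := (hCMP V d K').2.2.2.2.1 _ (Option Lb) _ _ _ (fun B2 : Finset V =>
          if B2.card < p.Nt then
            some ((c, !p.dir a, p.r2 a o2, Real.log p.Nt / p.r2 a o2) :: a)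
          else none) hB1
        refine (hCMP V d K').2.2.2.1 _ _ _ _ _ _ _ K' hB3 subset_rfl ?_
        intro G hG
        refine ⟨?_, by simp, by omega⟩
        simp only [Cx.nl, (hv G hG).1, (hv G hG).2, hp G hG, hact, not_true_eq_false,
          if_false, hc, hev]

end Pool.Agent.AcyUp
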