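import Pool.Agent.AcyUp.CFD

set_option autoImplicit false

/-!
# CRD: the explorations of a round
-/

namespace Pool.Agent.AcyUp

open Finset Pool.Agent.AcyTest
open scoped Classical

namespace CRDx

lemma rad {rd : ℕ} {g η L : ℝ} (hη : 0 < η) (hg : η < g) (hL : 0 ≤ L) (hr : 1 ≤ rd) :
    ((rd * ⌊L / (g * rd)⌋₊ : ℕ) : ℝ) ≤ L / η := by
  have hg0 : 0 < g := hη.trans hg
  have hr0 : (0 : ℝ) < rd := by exact_mod_cast hr
  have h1 : ((⌊L / (g * rd)⌋₊ : ℕ) : ℝ) ≤ L / (g * rd) :=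
    Nat.floor_le (div_nonneg hL (by positivity))
  push_cast
  calc (rd : ℝ) * (⌊L / (g * rd)⌋₊ : ℝ) ≤ rd * (L / (g * rd)) :=
        mul_le_mul_of_nonneg_left h1 hr0.le
    _ = L / g := by field_simp
    _ ≤ L / η := div_le_div_of_nonneg_left hL hη hg.le

lemma radii {p : Pm} {θ : ℝ} {Rm Rm' P1 : ℕ} (hN : NumOK p θ Rm Rm') (hη : 0 < p.η)
    (hL : 0 ≤ p.L) (hL2 : 0 ≤ p.L2) (h1 : p.L2 / p.η ≤ P1) (h2 : 2 * p.L / p.η ≤ P1)
    {o o2 : ℕ} (ho : o < p.m) (ho2 : o2 < p.m2) (a : Lb) (ha : LbOK p.gm Rm a) (hact : p.act a) :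
    p.r1 a o ≤ P1 ∧ p.r2 a o2 ≤ P1 := by
  obtain ⟨_, _, _, _, _, hN'⟩ := hN
  obtain ⟨_, _, hA, hP2, _, _⟩ := hN' a ha hact
  have hgr : ∀ b, p.η < gr p.gm a b := by
    intro b
    cases b
    · exact hact.2
    · exact hact.1
  have hP : ∀ b, (p.P a b : ℝ) ≤ p.L / p.η := fun b => rad hη (hgr b) hL (ha b).2.2.1
  have hP2' : ∀ b, (p.P2 a b : ℝ) ≤ p.L2 / p.η := fun b => rad hη (hgr b) hL2 (ha b).2.2.1
  constructor
  · have h3 : p.r1 a o ≤ p.A a := by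
      unfold Pm.r1
      omega
    have h4 : (p.A a : ℝ) ≤ P1 := by
      refine le_trans ?_ h2
      unfold Pm.A
      push_cast
      have := hP true
      have := hP false
      have h5 : 2 * p.L / p.η = p.L / p.η + p.L / p.η := by ring
      rw [h5]
      linarith
    exact h3.trans (by exact_mod_cast h4)
  · have h3 : p.r2 a o2 ≤ p.P2 a (p.dir a) := by
      unfold Pm.r2
      omega
    have h4 : (p.P2 a (p.dir a) : ℝ) ≤ P1 := (hP2' _).trans h1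
    exact h3.trans (by exact_mod_cast h4)

lemma als_card {V : Type} [Fintype V] {M : ℕ} (ω : Fin M → V) : (als ω).card ≤ M := by
  unfold als
  calc (univ.image ω).card ≤ (univ : Finset (Fin M)).card := card_image_le
    _ = M := by simp

end CRDx

open CRDx in
theorem pCRD (hCMP : tCMP) (hCSD : tCSD) (hCKY : tCKY) (hCNL : tCNL) (hCST : tCST) : tCRD := by
  intro V _ d K l W Rm Rm' N N2 P0 P1 c p θ z D hl hG hN hη hL hL2 hLN hL2N hP0 hP1 hP1' hmb hyp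
  have hjm : z.2.2.1.1 ≤ p.m := (z.2.2.1.2.le).trans hmb
  have hs := hCSD V d K l W Rm N P0 p (als z.1) hl hG hη hL hL2 hLN hP0
  have hb := (hCMP V d K).2.2.1 _ Unit (fun G => sdat G.E (l G) p (als z.1)) (fun _ => ())
    (fun G => (seedD G.E (l G) p (als z.1) : Set V))
    (fun G => (((ctx G.E (l G) p z.1 (p.i1 + z.2.1.1)).satD z.2.2.1.1 z.2.2.2.2.2.1
      z.2.2.2.2.2.2 : Finset V) : Set V) ∪ D G)
    (fun _ => (als z.1).card * (W + 2 * cB d W P0 N))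
    (fun _ => ((p.q + 1) * W1 d W P0 N + p.cap * cB d W P1 N2) + c) hs ?_
  · refine (hCMP V d K).2.2.2.1 Unit _ _ _ _ _ _ K hb subset_rfl ?_
    intro G _
    refine ⟨rfl, ?_, ?_⟩
    · simp only [Dz, coe_union]
      rw [Set.union_assoc]
    · have h1 := Nat.mul_le_mul_right (W + 2 * cB d W P0 N) (als_card z.1)
      simp only [cR, W1]
      omega
  · intro v
    obtain ⟨K', hK'⟩ : ∃ K' : Set (DG V d), K' = {G | G ∈ K ∧ sdat G.E (l G) p (als z.1) = v} :=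
      ⟨_, rfl⟩
    rw [← hK']
    have hsub : K' ⊆ K := by
      rw [hK']
      exact fun G hG => hG.1
    have hv : ∀ G ∈ K', sdat G.E (l G) p (als z.1) = v := by
      intro G hG
      rw [hK'] at hG
      exact hG.2
    have hl' : ∀ y, Cmp K' (fun G => l G y) (fun _ => ∅) fun _ => W := fun y =>
      (hCMP V d K).2.2.2.1 (Option Lb) _ _ _ _ _ _ K' (hl y) hsub fun G _ =>
        ⟨rfl, le_rfl, le_rfl⟩
    have hG' : ∀ G ∈ K', Gw G.E (l G) p.gm Rm := fun G h => hG G (hsub h)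
    have hmP : ∀ a, LbOK p.gm Rm a → p.act a → ∀ b, p.m ≤ p.P a b := by
      intro a ha hact b
      obtain ⟨_, _, _, _, _, hN'⟩ := hN
      obtain ⟨h1, h2, _⟩ := hN' a ha hact
      cases b
      · exact h2
      · exact h1
    have hk : ∀ x, Cmp K' (fun G => (l G x,
        (ctx G.E (l G) p z.1 (p.i1 + z.2.1.1)).key z.2.2.1.1 x)) (fun _ => ∅)
        fun _ => W1 d W P0 N :=
      hCKY V d K' l W Rm N P0 p z.1 (p.i1 + z.2.1.1) z.2.2.1.1 v hl' hG' hη hL hL2 hLN hP0 hjm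
        hmP hv
    have hst := hCST V d K' (fun G => ctx G.E (l G) p z.1 (p.i1 + z.2.1.1)) W (W1 d W P0 N) Rm N2
      P1 z.2.2.1.1 p z.2.2.2.2.2.1 z.2.2.2.2.2.2 (fun G h => ⟨rfl, rfl, hG' G h⟩) hk hl' hη hL hL2
      hL2N hP1
    refine (hCMP V d K').2.2.1 Unit Unit (fun _ => ()) (fun _ => ()) _ D _ (fun _ => c) hst ?_
    intro u
    obtain ⟨K2, hK2⟩ : ∃ K2 : Set (DG V d), K2 = {G | G ∈ K' ∧ () = u} := ⟨_, rfl⟩
    rw [← hK2]
    have hsub2 : K2 ⊆ K' := by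
      rw [hK2]
      exact fun G hG => hG.1
    refine hyp K2 (hsub2.trans hsub) ?_
    have hk2 : ∀ x, Cmp K2 (fun G => (l G x,
        (ctx G.E (l G) p z.1 (p.i1 + z.2.1.1)).key z.2.2.1.1 x)) (fun _ => ∅)
        fun _ => W1 d W P0 N := fun y =>
      (hCMP V d K').2.2.2.1 _ _ _ _ _ _ _ K2 (hk y) hsub2 fun G _ => ⟨rfl, le_rfl, le_rfl⟩
    exact hCNL V d K2 (fun G => ctx G.E (l G) p z.1 (p.i1 + z.2.1.1)) (W1 d W P0 N) Rm P1
      z.2.2.1.1 z.2.2.2.1.1 z.2.2.2.2.1.1 p (fun G h => ⟨rfl, rfl, hG' G (hsub2 h)⟩) hk2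
      fun a ha hact => radii hN hη hL hL2 hP1 hP1' z.2.2.2.1.2 z.2.2.2.2.1.2 a ha hact

end Pool.Agent.AcyUp
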