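import Pool.Agent.AcyUp.Targets

set_option autoImplicit false

/-!
# Thresholds are crossed once
-/

namespace Pool.Agent.AcyUp

open Finset Pool.Agent.AcyTest
open scoped Classical

namespace CROx

variable {V : Type} [Fintype V]

/-- sets which are pairwise disjoint have total size at most `|V|` -/
lemma sum_card_le (m : ℕ) (A : ℕ → Finset V)
    (h : ∀ o o' x, o < o' → x ∈ A o → x ∈ A o' → False) :
    ∑ o ∈ range m, (A o).card ≤ Fintype.card V := by
  have hd : ((range m : Finset ℕ) : Set ℕ).PairwiseDisjoint A := by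
    intro o _ o' _ hne
    refine Finset.disjoint_left.2 fun x hx hx' => ?_
    rcases Nat.lt_or_gt_of_ne hne with hlt | hlt
    · exact h o o' x hlt hx hx'
    · exact h o' o x hlt hx' hx
  rw [← Finset.card_biUnion (fun o ho o' ho' hne => hd (by exact_mod_cast ho)
    (by exact_mod_cast ho') hne)]
  exact Finset.card_le_univ _

lemma disj1 (hB : tBAL) (C : Cx V) (j o o' : ℕ) (x : V) (hlt : o < o') (hx : x ∈ C.cr1 j o)
    (hx' : x ∈ C.cr1 j o') : False := by
  rw [Cx.cr1, mem_filter] at hx hx'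
  obtain ⟨-, a, ha, -, -, -, -, h2⟩ := hx
  obtain ⟨-, a', ha', -, -, -, h1, -⟩ := hx'
  have hE : a' = a := Option.some.inj (ha'.symm.trans ha)
  subst hE
  have hle : C.p.r1 a' o + 1 ≤ C.p.r1 a' o' := by
    show C.p.A a' - 2 * C.p.m + o + 1 ≤ C.p.A a' - 2 * C.p.m + o'
    omega
  have := card_le_card ((hB V C.E true (C.nd j a' (C.key j x))).2.1 _ _ x hle)
  omega

lemma disj2 (hB : tBAL) (C : Cx V) (j o o' : ℕ) (x : V) (hlt : o < o') (hx : x ∈ C.cr2 j o)
    (hx' : x ∈ C.cr2 j o') : False := by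
  rw [Cx.cr2, mem_filter] at hx hx'
  obtain ⟨-, a, ha, -, -, -, h2⟩ := hx
  obtain ⟨-, a', ha', -, -, h1, -⟩ := hx'
  have hE : a' = a := Option.some.inj (ha'.symm.trans ha)
  subst hE
  have hle : C.p.r2 a' o + 1 ≤ C.p.r2 a' o' := by
    show C.p.P2 a' (C.p.dir a') - C.p.m2 + o + 1 ≤ C.p.P2 a' (C.p.dir a') - C.p.m2 + o'
    omega
  have := card_le_card ((hB V C.E (!C.p.dir a') (C.nd j a' (C.key j x))).2.1 _ _ x hle)
  omega

end CROx

theorem pCRO (hB : tBAL) : tCRO := by
  intro V _ C j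
  exact ⟨CROx.sum_card_le _ _ fun o o' x => CROx.disj1 hB C j o o' x,
    CROx.sum_card_le _ _ fun o o' x => CROx.disj2 hB C j o o' x⟩

end Pool.Agent.AcyUp
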