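import Pool.Agent.AcyUp.Targets

set_option autoImplicit false

/-!
# ACU-CRV: carving of balls
-/

namespace Pool.Agent.AcyUp

open Finset Pool.Agent.AcyTest
open scoped Classical

namespace CRV_

variable {V : Type} [Fintype V]

lemma cnt_out {E : V → V → Prop} {d : ℕ} (h : Dg E d) (P : Finset (V × V)) (A : Finset V)
    (hP : ∀ p ∈ P, p.1 ∈ A ∧ E p.1 p.2) : P.card ≤ d * A.card := by
  have h1 := Finset.card_le_mul_card_image (f := Prod.fst) P d (fun a _ => by
    refine le_trans ?_ (h a).2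
    refine Finset.card_le_card_of_injOn Prod.snd (fun p hp => ?_) fun p hp q hq hpq => ?_
    · obtain ⟨hp1, hp2⟩ := Finset.mem_filter.1 (Finset.mem_coe.1 hp)
      refine Finset.mem_coe.2 (Finset.mem_filter.2 ⟨Finset.mem_univ _, ?_⟩)
      rw [← hp2]
      exact (hP p hp1).2
    · obtain ⟨-, hp2⟩ := Finset.mem_filter.1 (Finset.mem_coe.1 hp)
      obtain ⟨-, hq2⟩ := Finset.mem_filter.1 (Finset.mem_coe.1 hq)
      exact Prod.ext (hp2.trans hq2.symm) hpq)
  refine h1.trans (Nat.mul_le_mul_left d (Finset.card_le_card ?_))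
  intro a ha
  obtain ⟨p, hp, rfl⟩ := Finset.mem_image.1 ha
  exact (hP p hp).1

lemma cnt_in {E : V → V → Prop} {d : ℕ} (h : Dg E d) (P : Finset (V × V)) (A : Finset V)
    (hP : ∀ p ∈ P, p.2 ∈ A ∧ E p.1 p.2) : P.card ≤ d * A.card := by
  have h1 := Finset.card_le_mul_card_image (f := Prod.snd) P d (fun a _ => by
    refine le_trans ?_ (h a).1
    refine Finset.card_le_card_of_injOn Prod.fst (fun p hp => ?_) fun p hp q hq hpq => ?_
    · obtain ⟨hp1, hp2⟩ := Finset.mem_filter.1 (Finset.mem_coe.1 hp)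
      refine Finset.mem_coe.2 (Finset.mem_filter.2 ⟨Finset.mem_univ _, ?_⟩)
      rw [← hp2]
      exact (hP p hp1).2
    · obtain ⟨-, hp2⟩ := Finset.mem_filter.1 (Finset.mem_coe.1 hp)
      obtain ⟨-, hq2⟩ := Finset.mem_filter.1 (Finset.mem_coe.1 hq)
      exact Prod.ext hpq (hp2.trans hq2.symm))
  refine h1.trans (Nat.mul_le_mul_left d (Finset.card_le_card ?_))
  intro a ha
  obtain ⟨p, hp, rfl⟩ := Finset.mem_image.1 ha
  exact (hP p hp).1

/-- The vertices of `Z` are placed at the end. -/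
lemma fas_remove (hF : tFAS) {E : V → V → Prop} {d : ℕ} (h : Dg E d) (S Z : Finset V) :
    fas E S ≤ fas E (S \ Z) + d * Z.card := by
  obtain ⟨f1, f2, -⟩ := hF V E d
  obtain ⟨rk, hrk⟩ := f1 (S \ Z)
  set M : ℕ := (univ.sup rk) + 1 with hM
  have hlt : ∀ v, rk v < M := fun v => Nat.lt_succ_of_le (Finset.le_sup (Finset.mem_univ v))
  refine (f2 S fun x => if x ∈ Z then M else rk x).trans ?_
  rw [← hrk]
  unfold bad
  have hsub : ((S ×ˢ S).filter fun p => E p.1 p.2 ∧
      (if p.2 ∈ Z then M else rk p.2) ≤ (if p.1 ∈ Z then M else rk p.1)) ⊆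
      (((S \ Z) ×ˢ (S \ Z)).filter fun p => E p.1 p.2 ∧ rk p.2 ≤ rk p.1) ∪
      ((S ×ˢ S).filter fun p => E p.1 p.2 ∧ p.1 ∈ Z) := by
    intro p hp
    obtain ⟨hp1, hp2, hp3⟩ := Finset.mem_filter.1 hp
    obtain ⟨hpa, hpb⟩ := Finset.mem_product.1 hp1
    by_cases h1 : p.1 ∈ Z
    · exact Finset.mem_union_right _ (Finset.mem_filter.2 ⟨hp1, hp2, h1⟩)
    · rw [if_neg h1] at hp3
      by_cases h2 : p.2 ∈ Z
      · rw [if_pos h2] at hp3
        exact absurd (hlt p.1) (not_lt.2 hp3)
      · rw [if_neg h2] at hp3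
        refine Finset.mem_union_left _ (Finset.mem_filter.2 ⟨Finset.mem_product.2 ⟨?_, ?_⟩,
          hp2, hp3⟩)
        · exact Finset.mem_sdiff.2 ⟨hpa, h1⟩
        · exact Finset.mem_sdiff.2 ⟨hpb, h2⟩
  refine (Finset.card_le_card hsub).trans ((Finset.card_union_le _ _).trans ?_)
  refine Nat.add_le_add_left ?_ _
  refine cnt_out h _ Z fun p hp => ?_
  obtain ⟨-, hp2, hp3⟩ := Finset.mem_filter.1 hp
  exact ⟨hp3, hp2⟩

/-- Splitting off a part `T` without cycles. -/
lemma fas_split (hF : tFAS) {E : V → V → Prop} (d : ℕ) (U T : Finset V) (hTU : T ⊆ U)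
    (hT : fas E T = 0) (b : Bool) :
    fas E U ≤ fas E (U \ T) +
      ((U ×ˢ U).filter fun p => if b then (E p.1 p.2 ∧ p.1 ∈ T ∧ p.2 ∉ T)
        else (E p.1 p.2 ∧ p.1 ∉ T ∧ p.2 ∈ T)).card := by
  obtain ⟨-, -, -, -, -, -, -, f8⟩ := hF V E d
  let key : V → ℕ := fun x => if b then (if x ∈ T then 1 else 0) else (if x ∈ T then 0 else 1)
  have h8 := f8 U key
  have hsum : ∑ c ∈ U.image key, fas E (U.filter fun x => key x = c) ≤ fas E (U \ T) := by
    have h1 : ∑ c ∈ U.image key, fas E (U.filter fun x => key x = c) ≤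
        ∑ c ∈ ({0, 1} : Finset ℕ), fas E (U.filter fun x => key x = c) := by
      refine Finset.sum_le_sum_of_subset ?_
      intro c hc
      obtain ⟨x, -, rfl⟩ := Finset.mem_image.1 hc
      simp only [key]
      split_ifs <;> simp
    refine h1.trans (le_of_eq ?_)
    rw [Finset.sum_pair (by norm_num)]
    have hA : (U.filter fun x => x ∈ T) = T := by
      ext x
      simp only [Finset.mem_filter]
      exact ⟨fun h => h.2, fun h => ⟨hTU h, h⟩⟩
    have hB : (U.filter fun x => x ∉ T) = U \ T := by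
      ext x
      simp only [Finset.mem_filter, Finset.mem_sdiff]
    cases b
    · have e0 : (U.filter fun x => key x = 0) = U.filter fun x => x ∈ T := by
        refine Finset.filter_congr fun x _ => ?_
        simp only [key]
        by_cases hx : x ∈ T <;> simp [hx]
      have e1 : (U.filter fun x => key x = 1) = U.filter fun x => x ∉ T := by
        refine Finset.filter_congr fun x _ => ?_
        simp only [key]
        by_cases hx : x ∈ T <;> simp [hx]
      rw [e0, e1, hA, hB, hT, zero_add]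
    · have e0 : (U.filter fun x => key x = 0) = U.filter fun x => x ∉ T := by
        refine Finset.filter_congr fun x _ => ?_
        simp only [key]
        by_cases hx : x ∈ T <;> simp [hx]
      have e1 : (U.filter fun x => key x = 1) = U.filter fun x => x ∈ T := by
        refine Finset.filter_congr fun x _ => ?_
        simp only [key]
        by_cases hx : x ∈ T <;> simp [hx]
      rw [e0, e1, hA, hB, hT, add_zero]
  refine h8.trans (Nat.add_le_add hsum (Finset.card_le_card ?_))
  intro p hp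
  obtain ⟨hp1, hp2, hp3⟩ := Finset.mem_filter.1 hp
  refine Finset.mem_filter.2 ⟨hp1, ?_⟩
  simp only [key] at hp3
  cases b
  · by_cases ha : p.1 ∈ T <;> by_cases hb : p.2 ∈ T <;> simp [ha, hb] at hp3 ⊢
    exact hp2
  · by_cases ha : p.1 ∈ T <;> by_cases hb : p.2 ∈ T <;> simp [ha, hb] at hp3 ⊢
    exact hp2

/-- The edges that leave a ball in the wrong direction. -/
lemma cross_le {E : V → V → Prop} {d : ℕ} (h : Dg E d) (b : Bool) (U : Finset V) (r : ℕ) (x : V)
    (hB : tBAL) :
    ((U ×ˢ U).filter fun p => if b then (E p.1 p.2 ∧ p.1 ∈ ball E b U r x ∧ p.2 ∉ ball E b U r x)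
        else (E p.1 p.2 ∧ p.1 ∉ ball E b U r x ∧ p.2 ∈ ball E b U r x)).card +
      d * (ball E b U r x).card ≤ d * (ball E b U (r + 1) x).card := by
  obtain ⟨-, b2, -⟩ := hB V E b U
  have hsub : ball E b U r x ⊆ ball E b U (r + 1) x := b2 r (r + 1) x (Nat.le_succ r)
  have hstep : ∀ u ∈ ball E b U r x, ∀ y ∈ U, de E b u y → y ∈ ball E b U (r + 1) x := by
    intro u hu y hy hde
    rw [ball]
    exact Finset.mem_filter.2 ⟨hy, Or.inr ⟨u, hu, hde⟩⟩
  have hcard : (ball E b U (r + 1) x \ ball E b U r x).card + (ball E b U r x).card =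
      (ball E b U (r + 1) x).card := Finset.card_sdiff_add_card_eq_card hsub
  have hmain : ((U ×ˢ U).filter fun p => if b then
      (E p.1 p.2 ∧ p.1 ∈ ball E b U r x ∧ p.2 ∉ ball E b U r x)
        else (E p.1 p.2 ∧ p.1 ∉ ball E b U r x ∧ p.2 ∈ ball E b U r x)).card ≤
      d * (ball E b U (r + 1) x \ ball E b U r x).card := by
    cases b
    · refine cnt_out h _ _ fun p hp => ?_
      obtain ⟨hp1, hp2⟩ := Finset.mem_filter.1 hp
      obtain ⟨hpa, hpb⟩ := Finset.mem_product.1 hp1
      simp only [Bool.false_eq_true, if_false] at hp2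
      obtain ⟨q1, q2, q3⟩ := hp2
      refine ⟨Finset.mem_sdiff.2 ⟨hstep p.2 q3 p.1 hpa ?_, q2⟩, q1⟩
      simp only [de, Bool.false_eq_true, if_false]
      exact q1
    · refine cnt_in h _ _ fun p hp => ?_
      obtain ⟨hp1, hp2⟩ := Finset.mem_filter.1 hp
      obtain ⟨hpa, hpb⟩ := Finset.mem_product.1 hp1
      simp only [if_true] at hp2
      obtain ⟨q1, q2, q3⟩ := hp2
      refine ⟨Finset.mem_sdiff.2 ⟨hstep p.1 q2 p.2 hpb ?_, q3⟩, q1⟩
      simp only [de, if_true]
      exact q1
  rw [← hcard, mul_add]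
  exact Nat.add_le_add_right hmain _

/-- A radius at which the ball grows slowly. -/
lemma exists_radius (a : ℕ → ℕ) (R : ℕ) (hR : 1 ≤ R) (η : ℝ) (h0 : a 0 = 1)
    (hRa : (a R : ℝ) ≤ Real.exp (η * R)) :
    ∃ r < R, (a (r + 1) : ℝ) ≤ Real.exp η * a r := by
  by_contra hcon
  push Not at hcon
  have hlow : ∀ r, r < R → Real.exp (η * r) ≤ a r := by
    intro r
    induction r with
    | zero => intro _; simp [h0]
    | succ r ih =>
      intro hr
      have h1 := ih (by omega)
      have h2 := hcon r (by omega)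
      calc Real.exp (η * ((r + 1 : ℕ) : ℝ)) = Real.exp η * Real.exp (η * r) := by
            rw [← Real.exp_add]
            push_cast
            ring_nf
        _ ≤ Real.exp η * a r := mul_le_mul_of_nonneg_left h1 (Real.exp_pos _).le
        _ ≤ a (r + 1) := h2.le
  obtain ⟨r, rfl⟩ : ∃ r, R = r + 1 := ⟨R - 1, by omega⟩
  have h1 := hlow r (by omega)
  have h2 := hcon r (by omega)
  have h3 : Real.exp (η * ((r + 1 : ℕ) : ℝ)) ≤ Real.exp η * a r := by
    calc Real.exp (η * ((r + 1 : ℕ) : ℝ)) = Real.exp η * Real.exp (η * r) := by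
          rw [← Real.exp_add]
          push_cast
          ring_nf
      _ ≤ Real.exp η * a r := mul_le_mul_of_nonneg_left h1 (Real.exp_pos _).le
  linarith

/-- The part without cyclic balls. -/
lemma carve (hF : tFAS) (hB : tBAL) {E : V → V → Prop} {d : ℕ} (h : Dg E d) (b : Bool)
    (S : Finset V) (R : ℕ) (η : ℝ) (hR : 1 ≤ R)
    (hS : ∀ x ∈ S, ((ball E b S R x).card : ℝ) ≤ Real.exp (η * R)) (n : ℕ) :
    ∀ U : Finset V, U.card = n → U ⊆ S → (∀ x ∈ U, ¬ Cyc E (ball E b S R x)) →
      (fas E U : ℝ) ≤ d * (Real.exp η - 1) * U.card := by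
  induction n using Nat.strong_induction_on with
  | _ n ih =>
    intro U hUn hUS hU
    obtain ⟨f1, f2, f3, f4, f5, f6, -⟩ := hF V E d
    rcases U.eq_empty_or_nonempty with rfl | ⟨x, hx⟩
    · have h1 := f6 h ∅
      rw [Finset.card_empty, mul_zero] at h1
      have h2 : fas E (∅ : Finset V) = 0 := Nat.le_zero.1 h1
      rw [h2]
      simp
    obtain ⟨b1, b2, b3, -, -, -, -, b8, -⟩ := hB V E b U
    have ha0 : (ball E b U 0 x).card = 1 := by
      rw [ball, Finset.card_eq_one]
      refine ⟨x, ?_⟩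
      ext y
      simp only [Finset.mem_filter, Finset.mem_singleton]
      exact ⟨fun h => h.2, fun h => ⟨h ▸ hx, h⟩⟩
    have haR : ((ball E b U R x).card : ℝ) ≤ Real.exp (η * R) := by
      refine le_trans ?_ (hS x (hUS hx))
      exact_mod_cast Finset.card_le_card (b8 S R x hUS)
    obtain ⟨r, hrR, hr⟩ := exists_radius (fun r => (ball E b U r x).card) R hR η ha0 haR
    have hxT : x ∈ ball E b U r x := b3 r x hx
    have hTU : ball E b U r x ⊆ U := b1 r x
    have hT0 : fas E (ball E b U r x) = 0 := by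
      rw [f4]
      intro hc
      refine hU x hx (f5 _ _ ?_ hc)
      exact (b2 r R x hrR.le).trans (b8 S R x hUS)
    have hlt : (U \ ball E b U r x).card < n := by
      rw [← hUn]
      refine Finset.card_lt_card ⟨Finset.sdiff_subset, fun hsub => ?_⟩
      exact (Finset.mem_sdiff.1 (hsub hx)).2 hxT
    have hind := ih _ hlt (U \ ball E b U r x) rfl (Finset.sdiff_subset.trans hUS)
      fun y hy => hU y (Finset.mem_sdiff.1 hy).1
    have hsplit := fas_split hF d U (ball E b U r x) hTU hT0 b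
    have hcross := cross_le h b U r x hB
    set P := ((U ×ˢ U).filter fun p => if b then
      (E p.1 p.2 ∧ p.1 ∈ ball E b U r x ∧ p.2 ∉ ball E b U r x)
        else (E p.1 p.2 ∧ p.1 ∉ ball E b U r x ∧ p.2 ∈ ball E b U r x)).card
    have hcard : ((U \ ball E b U r x).card : ℝ) + (ball E b U r x).card = U.card := by
      exact_mod_cast Finset.card_sdiff_add_card_eq_card hTU
    have h1 : (fas E U : ℝ) ≤ fas E (U \ ball E b U r x) + P := by exact_mod_cast hsplit
    have h2 : (P : ℝ) + d * (ball E b U r x).card ≤ d * (ball E b U (r + 1) x).card := by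
      exact_mod_cast hcross
    have h3 : (d : ℝ) * (ball E b U (r + 1) x).card ≤
        d * (Real.exp η * (ball E b U r x).card) :=
      mul_le_mul_of_nonneg_left hr (Nat.cast_nonneg d)
    calc (fas E U : ℝ) ≤ fas E (U \ ball E b U r x) + P := h1
      _ ≤ d * (Real.exp η - 1) * (U \ ball E b U r x).card +
          d * (Real.exp η - 1) * (ball E b U r x).card := by
            have h4 : (P : ℝ) ≤ d * (Real.exp η - 1) * (ball E b U r x).card := by linarith
            linarith
      _ = d * (Real.exp η - 1) * U.card := by rw [← hcard]; ring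

end CRV_

open CRV_

theorem pCRV (hF : tFAS) (hB : tBAL) : tCRV := by
  intro V _ E d b S R η hd hR hη hS
  set Z := S.filter fun x => Cyc E (ball E b S R x) with hZ
  have h1 : (fas E S : ℝ) ≤ fas E (S \ Z) + d * Z.card := by
    exact_mod_cast fas_remove hF hd S Z
  have h2 := carve hF hB hd b S R η hR hS _ (S \ Z) rfl Finset.sdiff_subset (by
    intro x hx hc
    obtain ⟨hx1, hx2⟩ := Finset.mem_sdiff.1 hx
    exact hx2 (Finset.mem_filter.2 ⟨hx1, hc⟩))
  have h3 : ((S \ Z).card : ℝ) ≤ S.card := by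
    exact_mod_cast Finset.card_le_card Finset.sdiff_subset
  have h4 : (0 : ℝ) ≤ d * (Real.exp η - 1) := by
    have : 1 ≤ Real.exp η := Real.one_le_exp hη
    have h5 : (0 : ℝ) ≤ d := Nat.cast_nonneg d
    nlinarith
  have h6 : d * (Real.exp η - 1) * ((S \ Z).card : ℝ) ≤ d * (Real.exp η - 1) * S.card :=
    mul_le_mul_of_nonneg_left h3 h4
  linarith

end Pool.Agent.AcyUp
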