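import Pool.Agent.AcyUp.Targets2

set_option autoImplicit false

/-!
# MP_08c6cd_lc, CSD: exploration of the seeds
-/

namespace Pool.Agent.AcyUp

open Finset Pool.Agent.AcyTest
open scoped Classical

namespace CSDx

/-- the balls of a seed -/
noncomputable def sb {V : Type} [Fintype V] (E : V → V → Prop) (l : V → Option Lb) (p : Pm) (s : V)
    (b : Bool) : Finset V :=
  match l s with
  | none => ∅
  | some a => if p.act a then ball E b (cl l (some a)) (p.P a b) s else ∅

/-- the set explored by a seed -/
noncomputable def sdf {V : Type} [Fintype V] (E : V → V → Prop) (l : V → Option Lb) (p : Pm)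
    (s : V) : Finset V :=
  match l s with
  | none => ∅
  | some a => if p.act a then
      ball E true (cl l (some a)) (p.P a true) s ∪ ball E false (cl l (some a)) (p.P a false) s
    else ∅

theorem cB_mono (d W : ℕ) {r r' s s' : ℕ} (hr : r ≤ r') (hs : s ≤ s') :
    cB d W r s ≤ cB d W r' s' := by
  unfold cB
  gcongr

/-- the exploration of one seed -/
theorem seed (hCMP : tCMP) (hCBL : tCBL) (hRAD : tRAD) (V : Type) [Fintype V] (d : ℕ)
    (K : Set (DG V d)) (l : DG V d → V → Option Lb) (W Rm N P0 : ℕ) (p : Pm)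
    (hl : ∀ x, Cmp K (fun G => l G x) (fun _ => ∅) fun _ => W)
    (hG : ∀ G ∈ K, Gw G.E (l G) p.gm Rm) (hη : 0 < p.η) (hL : 0 ≤ p.L) (hL2 : 0 ≤ p.L2)
    (hN : Real.exp p.L ≤ N) (hP : p.L / p.η ≤ P0) (s : V) :
    Cmp K (fun G => (l G s, sb G.E (l G) p s)) (fun G => (sdf G.E (l G) p s : Set V))
      fun _ => W + 2 * cB d W P0 N := by
  obtain ⟨-, -, bindK, monoK, -, -⟩ := hCMP V d K
  have main : ∀ o : Option Lb, Cmp {G | G ∈ K ∧ l G s = o} (fun G => (l G s, sb G.E (l G) p s))
      (fun G => (sdf G.E (l G) p s : Set V)) fun _ => 2 * cB d W P0 N := by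
    intro o
    set K' : Set (DG V d) := {G | G ∈ K ∧ l G s = o} with hK'
    have hsub : K' ⊆ K := fun G h => h.1
    obtain ⟨constK', -, bindK', monoK', -, -⟩ := hCMP V d K'
    by_cases hact : ∃ a, o = some a ∧ p.act a
    · obtain ⟨a, rfl, ha⟩ := hact
      have hlK' : ∀ x, Cmp K' (fun G => l G x) (fun _ => ∅) fun _ => W := fun x =>
        monoK _ _ _ _ _ _ _ K' (hl x) hsub fun G _ => ⟨rfl, subset_rfl, le_rfl⟩
      have hball : ∀ b, Cmp K' (fun G => ball G.E b (cl (l G) (some a)) (p.P a b) s)
          (fun G => (ball G.E b (cl (l G) (some a)) (p.P a b) s : Set V))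
          fun _ => cB d W P0 N := by
        intro b
        refine monoK' _ _ _ _ _ _ _ K' (hCBL V (Option Lb) d K' l W hlK' b (some a) (p.P a b) s)
          subset_rfl fun G hGK => ⟨rfl, subset_rfl, ?_⟩
        obtain ⟨⟨h1, -⟩, h2, -⟩ := hRAD V G.E (l G) p Rm s a b (hG G hGK.1) hη hL hL2 hGK.2 ha
        refine cB_mono d W ?_ ?_
        · exact_mod_cast h1.trans hP
        · exact_mod_cast (h2 _ le_rfl).trans hN
      have hstep : Cmp K' (fun G => (l G s, sb G.E (l G) p s))
          (fun G => (ball G.E true (cl (l G) (some a)) (p.P a true) s : Set V) ∪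
            (ball G.E false (cl (l G) (some a)) (p.P a false) s : Set V))
          fun _ => cB d W P0 N + cB d W P0 N := by
        refine bindK' (Finset V) _ (fun G => ball G.E true (cl (l G) (some a)) (p.P a true) s) _ _
          _ _ _ (hball true) fun B1 => ?_
        set K'' : Set (DG V d) := {G | G ∈ K' ∧ ball G.E true (cl (l G) (some a)) (p.P a true) s =
          B1} with hK''
        have hsub' : K'' ⊆ K' := fun G h => h.1
        obtain ⟨-, -, -, monoK'', mapK'', -⟩ := hCMP V d K''
        have h1 := monoK' _ _ _ _ _ _ _ K'' (hball false) hsub'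
          fun G _ => ⟨rfl, subset_rfl, le_rfl⟩
        have h2 := mapK'' _ _ _ _ _
          (fun B2 : Finset V => ((some a : Option Lb), fun b : Bool => if b then B1 else B2)) h1
        refine monoK'' _ _ _ _ _ _ _ K'' h2 subset_rfl fun G hGK => ⟨?_, subset_rfl, le_rfl⟩
        have hls : l G s = some a := hGK.1.2
        refine Prod.ext hls.symm ?_
        funext b
        simp only [sb, hls, if_pos ha]
        cases b
        · simp
        · simp [hGK.2]
      refine monoK' _ _ _ _ _ _ _ K' hstep subset_rfl fun G hGK => ⟨rfl, ?_, by omega⟩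
      have hls : l G s = some a := hGK.2
      simp only [sdf, hls, if_pos ha, coe_union]
      exact subset_rfl
    · refine monoK' _ _ _ _ _ _ _ K' (constK' _ ((o, fun _ => ∅) : Option Lb × (Bool → Finset V)))
        subset_rfl fun G hGK => ?_
      have hls : l G s = o := hGK.2
      have hsb : sb G.E (l G) p s = fun _ => ∅ := by
        funext b
        unfold sb
        rw [hls]
        cases o with
        | none => rfl
        | some a => exact if_neg fun h => hact ⟨a, rfl, h⟩
      have hsd : sdf G.E (l G) p s = ∅ := by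
        unfold sdf
        rw [hls]
        cases o with
        | none => rfl
        | some a => exact if_neg fun h => hact ⟨a, rfl, h⟩
      refine ⟨?_, ?_, Nat.zero_le _⟩
      · rw [hsb, hls]
      · rw [hsd]
        simp
  refine monoK _ _ _ _ _ _ _ K (bindK _ _ _ _ _ _ _ _ (hl s) main) subset_rfl fun G _ =>
    ⟨rfl, ?_, le_rfl⟩
  simp

end CSDx

open CSDx in
/-- CSD: exploration of the seeds -/
theorem pCSD (hCMP : tCMP) (hCBL : tCBL) (hRAD : tRAD) : tCSD := by
  intro V _ d K l W Rm N P0 p R hl hG hη hL hL2 hN hP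
  obtain ⟨-, -, -, monoK, -, famK⟩ := hCMP V d K
  have h := famK V _ R _ _ _ fun s _ =>
    seed hCMP hCBL hRAD V d K l W Rm N P0 p hl hG hη hL hL2 hN hP s
  refine monoK _ _ _ _ _ _ _ K h subset_rfl fun G _ => ⟨?_, ?_, ?_⟩
  · funext s
    unfold sdat
    rfl
  · intro x hx
    have e : seedD G.E (l G) p R = R.biUnion (sdf G.E (l G) p) := rfl
    rw [e] at hx
    simpa using hx
  · simp

end Pool.Agent.AcyUp
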