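import Pool.Agent.AcyUp.Targets2

set_option autoImplicit false

/-!
# ACU-CST: the saturation step as an exploration
-/

namespace Pool.Agent.AcyUp

open Finset Pool.Agent.AcyTest
open scoped Classical

namespace CST_

lemma cB_mono (d W : ℕ) {r r' s s' : ℕ} (hr : r ≤ r') (hs : s ≤ s') :
    cB d W r s ≤ cB d W r' s' := by
  unfold cB
  gcongr

variable {V : Type} [Fintype V]

lemma satD_none (C : Cx V) (j : ℕ) (v : V) {q : ℕ} (Q : Fin q → V) (h : C.l v = none) :
    C.satD j v Q = ∅ := by
  unfold Cx.satD
  rw [h]

lemma satD_some (C : Cx V) (j : ℕ) (v : V) {q : ℕ} (Q : Fin q → V) (a : Lb)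
    (h : C.l v = some a) :
    C.satD j v Q = if C.p.act a ∧ Odd (C.key j v) ∧
        (univ.filter fun t => Q t ∈ C.nd j a (C.key j v)).card ≤ C.p.cap then
      (univ.filter fun t => Q t ∈ C.nd j a (C.key j v)).biUnion fun t =>
        ball C.E (C.p.dir a) (C.S a) (C.p.P2 a (C.p.dir a)) (Q t)
    else ∅ := by
  unfold Cx.satD
  rw [h]

lemma mem_nd (C : Cx V) (j : ℕ) (a : Lb) (c : ℕ) (y : V) :
    y ∈ C.nd j a c ↔ C.l y = some a ∧ C.key j y = c := by
  unfold Cx.nd
  simp

end CST_

theorem pCST (hC : tCMP) (hB : tCBL) (hR : tRAD) : tCST := by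
  intro V _ d K C W Wk Rm N P1 j p v Q hK hkey hl hη hL hL2 hN hP1
  -- the empty set
  have emp : ∀ K' : Set (DG V d), (∀ G ∈ K', (C G).satD j v Q = ∅) → ∀ c' : DG V d → ℕ,
      Cmp K' (fun _ => ()) (fun G => ((C G).satD j v Q : Set V)) c' := by
    intro K' h c'
    refine (hC V d K').2.2.2.1 Unit (fun _ => ()) (fun _ => ()) (fun _ => ∅) _ (fun _ => 0) c' K'
      ((hC V d K').1 Unit ()) (Set.Subset.refl _) ?_
    intro G hG
    refine ⟨rfl, ?_, Nat.zero_le _⟩
    rw [h G hG]
    simp
  -- first step: the label and the key of `v`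
  have step1 : Cmp K (fun _ => ()) (fun G => (∅ : Set V) ∪ ((C G).satD j v Q : Set V))
      (fun _ => Wk + (p.q * Wk + p.cap * cB d W P1 N)) := by
    refine (hC V d K).2.2.1 (Option Lb × ℕ) Unit (fun G => ((C G).l v, (C G).key j v))
      (fun _ => ()) (fun _ => ∅) (fun G => ((C G).satD j v Q : Set V)) (fun _ => Wk)
      (fun _ => p.q * Wk + p.cap * cB d W P1 N) (hkey v) ?_
    rintro ⟨la, k⟩
    rcases la with _ | a
    · apply emp
      rintro G ⟨hG, hv⟩
      simp only [Prod.mk.injEq] at hv
      exact CST_.satD_none _ _ _ _ hv.1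
    by_cases hact : p.act a
    swap
    · apply emp
      rintro G ⟨hG, hv⟩
      simp only [Prod.mk.injEq] at hv
      rw [CST_.satD_some _ _ _ _ a hv.1, if_neg]
      intro hc
      apply hact
      rw [← (hK G hG).2.1]
      exact hc.1
    -- second step: the labels and the keys of the vertices `Q t`
    set K1 : Set (DG V d) := {G | G ∈ K ∧ ((C G).l v, (C G).key j v) = (some a, k)} with hK1
    have hK1K : K1 ⊆ K := fun G hG => hG.1
    have restr : ∀ (α : Type) (F : DG V d → α) (D : DG V d → Set V) (c : DG V d → ℕ)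
        (K' : Set (DG V d)), Cmp K F D c → K' ⊆ K → Cmp K' F D c := by
      intro α F D c K' h hs
      exact (hC V d K).2.2.2.1 α F F D D c c K' h hs
        (fun G _ => ⟨rfl, Set.Subset.refl _, le_rfl⟩)
    have h2 := (hC V d K1).2.2.2.2.2 (Fin p.q) (Option Lb × ℕ) univ
      (fun t G => ((C G).l (Q t), (C G).key j (Q t))) (fun _ _ => ∅) (fun _ _ => Wk)
      (fun t _ => restr _ _ _ _ K1 (hkey (Q t)) hK1K)
    have h2' : Cmp K1 (fun G (t : Fin p.q) => ((C G).l (Q t), (C G).key j (Q t)))
        (fun _ => (∅ : Set V)) (fun _ => p.q * Wk) := by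
      refine (hC V d K1).2.2.2.1 _ _ _ _ _ _ _ K1
        ((hC V d K1).2.2.2.2.1 _ (Fin p.q → Option Lb × ℕ) _ _ _
          (fun f t => (f t).getD (none, 0)) h2) (Set.Subset.refl _) ?_
      intro G _
      refine ⟨?_, Set.empty_subset _, ?_⟩
      · funext t
        simp
      · simp [Finset.sum_const]
    have step2 := (hC V d K1).2.2.1 _ Unit _ (fun _ => ()) _
      (fun G => ((C G).satD j v Q : Set V)) _ (fun _ => p.cap * cB d W P1 N) h2' (by
        intro tt
        set T : Finset (Fin p.q) := univ.filter fun t => tt t = (some a, k) with hT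
        have hTeq : ∀ G, G ∈ K1 ∧ (fun t : Fin p.q => ((C G).l (Q t), (C G).key j (Q t))) = tt →
            (univ.filter fun t => Q t ∈ (C G).nd j a ((C G).key j v)) = T := by
          rintro G ⟨hG, ht⟩
          have hv := hG.2
          simp only [Prod.mk.injEq] at hv
          rw [hT]
          apply Finset.filter_congr
          intro t _
          have htt : tt t = ((C G).l (Q t), (C G).key j (Q t)) := by
            rw [← ht]
          rw [CST_.mem_nd, htt, hv.2]
          simp
        by_cases hcap : Odd k ∧ T.card ≤ p.cap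
        swap
        · apply emp
          rintro G ⟨hG, ht⟩
          have hv := hG.2
          simp only [Prod.mk.injEq] at hv
          rw [CST_.satD_some _ _ _ _ a hv.1, if_neg]
          intro hc
          apply hcap
          rw [hTeq G ⟨hG, ht⟩, (hK G hG.1).2.1, hv.2] at hc
          exact hc.2
        -- third step: the balls
        set K2 : Set (DG V d) := {G | G ∈ K1 ∧ (fun t : Fin p.q =>
          ((C G).l (Q t), (C G).key j (Q t))) = tt} with hK2
        have hK2K : K2 ⊆ K := fun G hG => hG.1.1
        have hb : ∀ t ∈ T, Cmp K2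
            (fun G => ball G.E (p.dir a) (cl (C G).l (some a)) (p.P2 a (p.dir a)) (Q t))
            (fun G => (ball G.E (p.dir a) (cl (C G).l (some a)) (p.P2 a (p.dir a)) (Q t) : Set V))
            (fun G => cB d W (p.P2 a (p.dir a))
              (ball G.E (p.dir a) (cl (C G).l (some a)) (p.P2 a (p.dir a)) (Q t)).card) := by
          intro t _
          exact hB V (Option Lb) d K2 (fun G => (C G).l) W
            (fun x => restr _ _ _ _ K2 (hl x) hK2K) (p.dir a) (some a) (p.P2 a (p.dir a)) (Q t)
        have h3 := (hC V d K2).2.2.2.2.2 (Fin p.q) (Finset V) T _ _ _ hb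
        refine (hC V d K2).2.2.2.1 _ _ (fun _ => ()) _ _ _ _ K2
          ((hC V d K2).2.2.2.2.1 _ Unit _ _ _ (fun _ => ()) h3) (Set.Subset.refl _) ?_
        intro G hG
        have hv := hG.1.2
        simp only [Prod.mk.injEq] at hv
        have hp := (hK G hG.1.1).2.1
        have hE := (hK G hG.1.1).1
        refine ⟨rfl, ?_, ?_⟩
        · rw [CST_.satD_some _ _ _ _ a hv.1, hTeq G hG, hp, hE]
          split_ifs with hc
          · intro y hy
            simp only [Finset.coe_biUnion, Set.mem_iUnion, Finset.mem_coe] at hy ⊢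
            obtain ⟨t, ht, hy⟩ := hy
            exact ⟨t, ht, hy⟩
          · simp
        · calc ∑ t ∈ T, cB d W (p.P2 a (p.dir a))
                (ball G.E (p.dir a) (cl (C G).l (some a)) (p.P2 a (p.dir a)) (Q t)).card
              ≤ ∑ t ∈ T, cB d W P1 N := by
                apply Finset.sum_le_sum
                intro t ht
                have htt := (Finset.mem_filter.1 ht).2
                have hlt : (C G).l (Q t) = some a := by
                  have := hG.2
                  rw [← this] at htt
                  simp only [Prod.mk.injEq] at htt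
                  exact htt.1
                obtain ⟨r1, -, r3⟩ := hR V G.E (C G).l p Rm (Q t) a (p.dir a)
                  (hK G hG.1.1).2.2 hη hL hL2 hlt hact
                apply CST_.cB_mono
                · have := r1.2.trans hP1
                  exact_mod_cast this
                · have := (r3 _ le_rfl).trans hN
                  exact_mod_cast this
            _ = T.card * cB d W P1 N := by
                rw [Finset.sum_const, smul_eq_mul]
            _ ≤ p.cap * cB d W P1 N := Nat.mul_le_mul_right _ hcap.2)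
    refine (hC V d K1).2.2.2.1 _ _ (fun _ => ()) _ _ _ _ K1 step2 (Set.Subset.refl _) ?_
    intro G _
    refine ⟨rfl, ?_, ?_⟩
    · exact Set.subset_union_right
    · simp
  refine (hC V d K).2.2.2.1 _ _ (fun _ => ()) _ _ _ _ K step1 (Set.Subset.refl _) ?_
  intro G _
  refine ⟨rfl, Set.subset_union_right, ?_⟩
  apply le_of_eq
  ring

end Pool.Agent.AcyUp
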