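import Pool.Agent.AcyUp.Targets

set_option autoImplicit false
set_option linter.unusedSectionVars false

/-!
# The feedback arc account of a round
-/

namespace Pool.Agent.AcyUp

open Finset Pool.Agent.AcyTest
open scoped Classical

namespace DETx

section Gen

variable {V : Type} [Fintype V]

theorem card_fst {E : V → V → Prop} {d : ℕ} (hd : Dg E d) (T : Finset (V × V)) (U : Finset V)
    (h : ∀ p ∈ T, p.1 ∈ U ∧ E p.1 p.2) : T.card ≤ d * U.card := by
  apply Finset.card_le_mul_card_image_of_maps_to (f := Prod.fst) (fun p hp => (h p hp).1)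
  intro u _
  refine le_trans ?_ (hd u).2
  apply Finset.card_le_card_of_injOn Prod.snd
  · intro p hp
    rw [Finset.mem_coe, Finset.mem_filter] at hp
    rw [Finset.mem_coe, Finset.mem_filter]
    refine ⟨Finset.mem_univ _, ?_⟩
    have := (h p hp.1).2
    rwa [hp.2] at this
  · intro p hp q hq hpq
    rw [Finset.mem_coe, Finset.mem_filter] at hp hq
    exact Prod.ext (hp.2.trans hq.2.symm) hpq

theorem card_snd {E : V → V → Prop} {d : ℕ} (hd : Dg E d) (T : Finset (V × V)) (U : Finset V)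
    (h : ∀ p ∈ T, p.2 ∈ U ∧ E p.1 p.2) : T.card ≤ d * U.card := by
  apply Finset.card_le_mul_card_image_of_maps_to (f := Prod.snd) (fun p hp => (h p hp).1)
  intro u _
  refine le_trans ?_ (hd u).1
  apply Finset.card_le_card_of_injOn Prod.fst
  · intro p hp
    rw [Finset.mem_coe, Finset.mem_filter] at hp
    rw [Finset.mem_coe, Finset.mem_filter]
    refine ⟨Finset.mem_univ _, ?_⟩
    have := (h p hp.1).2
    rwa [hp.2] at this
  · intro p hp q hq hpq
    rw [Finset.mem_coe, Finset.mem_filter] at hp hq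
    exact Prod.ext hpq (hp.2.trans hq.2.symm)

theorem split (hF : tFAS) (E : V → V → Prop) (S A : Finset V) :
    fas E S ≤ fas E (S.filter fun x => x ∈ A) + fas E (S.filter fun x => x ∉ A) +
      ((S ×ˢ S).filter fun p => E p.1 p.2 ∧ p.1 ∉ A ∧ p.2 ∈ A).card := by
  obtain ⟨-, -, hmono, -, -, -, -, h8⟩ := hF V E 0
  have h := h8 S (fun x => if x ∈ A then 0 else 1)
  have h1 : (∑ c ∈ S.image (fun x => if x ∈ A then 0 else 1),
      fas E (S.filter fun x => (if x ∈ A then 0 else 1) = c)) ≤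
      fas E (S.filter fun x => x ∈ A) + fas E (S.filter fun x => x ∉ A) := by
    calc _ ≤ ∑ c ∈ ({0, 1} : Finset ℕ),
          fas E (S.filter fun x => (if x ∈ A then 0 else 1) = c) := by
          apply Finset.sum_le_sum_of_subset
          intro c hc
          rw [Finset.mem_image] at hc
          obtain ⟨x, -, rfl⟩ := hc
          split_ifs <;> simp
      _ ≤ _ := by
          rw [Finset.sum_pair (by norm_num)]
          apply Nat.add_le_add
          · apply hmono
            intro x hx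
            rw [Finset.mem_filter] at hx ⊢
            refine ⟨hx.1, ?_⟩
            by_contra h2
            simp [h2] at hx
          · apply hmono
            intro x hx
            rw [Finset.mem_filter] at hx ⊢
            refine ⟨hx.1, ?_⟩
            intro h2
            simp [h2] at hx
  refine h.trans (Nat.add_le_add h1 ?_)
  apply Finset.card_le_card
  intro p hp
  rw [Finset.mem_filter] at hp ⊢
  refine ⟨hp.1, hp.2.1, ?_⟩
  obtain ⟨-, -, h3⟩ := hp
  by_cases h4 : p.1 ∈ A
  · simp [h4] at h3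
  · by_cases h5 : p.2 ∈ A
    · exact ⟨h4, h5⟩
    · simp [h4, h5] at h3

/-- disjoint parts -/
theorem parts {β : Type} (X : Finset V) (R : Finset β) (N : β → Finset V)
    (hN : ∀ x c c', x ∈ N c → x ∈ N c' → c = c') :
    ∑ c ∈ R, (X ∩ N c).card ≤ X.card := by
  rw [← Finset.card_biUnion]
  · apply Finset.card_le_card
    intro x hx
    rw [Finset.mem_biUnion] at hx
    obtain ⟨c, -, hx⟩ := hx
    exact (Finset.mem_inter.1 hx).1
  · intro c _ c' _ hcc
    rw [Function.onFun, Finset.disjoint_left]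
    intro x hx hx'
    exact hcc (hN x c c' (Finset.mem_inter.1 hx).2 (Finset.mem_inter.1 hx').2)

theorem cl_mem {α : Type} (l : V → α) (a : α) (x : V) : x ∈ cl l a ↔ l x = a := by
  unfold cl
  rw [Finset.mem_filter]
  exact ⟨fun h => h.2, fun h => ⟨Finset.mem_univ _, h⟩⟩

end Gen

section Main

variable {V : Type} [Fintype V] (C : Cx V) (j o o2 : ℕ)

/-- the possible new labels -/
noncomputable def lab (a : Lb) (c : ℕ) (b : Bool) : Lb :=
  if ¬ C.p.act a then (c, b, rd a true, gr C.p.gm a true) :: a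
  else if Even c then (c, b, C.p.r1 a o, Real.log C.p.Ns / C.p.r1 a o) :: a
  else (c, b, C.p.r2 a o2, Real.log C.p.Nt / C.p.r2 a o2) :: a

theorem lab_inj (a a' : Lb) (c c' : ℕ) (b b' : Bool)
    (h : lab C o o2 a c b = lab C o o2 a' c' b') : a = a' ∧ c = c' ∧ b = b' := by
  have h1 : ∀ (a : Lb) (c : ℕ) (b : Bool), ∃ (r : ℕ) (s : ℝ),
      lab C o o2 a c b = (c, b, r, s) :: a := by
    intro a c b
    unfold lab
    split_ifs
    · exact ⟨_, _, rfl⟩
    · exact ⟨_, _, rfl⟩
    · exact ⟨_, _, rfl⟩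
  obtain ⟨r, s, h2⟩ := h1 a c b
  obtain ⟨r', s', h3⟩ := h1 a' c' b'
  rw [h2, h3] at h
  simp only [List.cons.injEq, Prod.mk.injEq] at h
  exact ⟨h.2, h.1.1, h.1.2.1⟩

/-- feedback arc number of a new class -/
noncomputable def FF (b : Lb) : ℕ := fas C.E (cl (C.nl j o o2) (some b))

theorem FF_zero (hF : tFAS) (d : ℕ) (hd : Dg C.E d) (b : Lb)
    (hb : b ∉ labs (C.nl j o o2)) : FF C j o o2 b = 0 := by
  obtain ⟨-, -, -, -, -, h6, -, -⟩ := hF V C.E d
  have h1 := h6 hd (cl (C.nl j o o2) (some b))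
  have h2 : cl (C.nl j o o2) (some b) = ∅ := by
    rw [Finset.eq_empty_iff_forall_notMem]
    intro x hx
    rw [cl_mem] at hx
    apply hb
    unfold labs
    rw [Finset.mem_eraseNone, Finset.mem_image]
    exact ⟨x, Finset.mem_univ _, hx⟩
  rw [h2] at h1
  unfold FF
  rw [h2]
  simpa using h1

theorem sum_FF (hF : tFAS) (d : ℕ) (hd : Dg C.E d) (L : Finset Lb) (R : Finset ℕ) :
    ∑ a ∈ L, ∑ c ∈ R, ∑ b : Bool, FF C j o o2 (lab C o o2 a c b) ≤
      TF C.E (C.nl j o o2) := by
  have h1 : ∑ a ∈ L, ∑ c ∈ R, ∑ b : Bool, FF C j o o2 (lab C o o2 a c b) =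
      ∑ y ∈ (L ×ˢ R ×ˢ (Finset.univ : Finset Bool)).image
        (fun z => lab C o o2 z.1 z.2.1 z.2.2), FF C j o o2 y := by
    rw [Finset.sum_image]
    · rw [Finset.sum_product]
      refine Finset.sum_congr rfl fun a _ => ?_
      rw [Finset.sum_product]
    · intro z _ z' _ h
      obtain ⟨h1, h2, h3⟩ := lab_inj C o o2 _ _ _ _ _ _ h
      exact Prod.ext h1 (Prod.ext h2 h3)
  rw [h1]
  set B := (L ×ˢ R ×ˢ (Finset.univ : Finset Bool)).image
        (fun z => lab C o o2 z.1 z.2.1 z.2.2)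
  calc ∑ y ∈ B, FF C j o o2 y = ∑ y ∈ B.filter (fun y => y ∈ labs (C.nl j o o2)),
        FF C j o o2 y := by
        rw [Finset.sum_filter]
        refine Finset.sum_congr rfl fun y _ => ?_
        split_ifs with h
        · rfl
        · exact FF_zero C j o o2 hF d hd y h
    _ ≤ ∑ y ∈ labs (C.nl j o o2), FF C j o o2 y := by
        apply Finset.sum_le_sum_of_subset
        intro y hy
        rw [Finset.mem_filter] at hy
        exact hy.2
    _ = TF C.E (C.nl j o o2) := rfl

/-- the part of `X` in the node `(a, c)` -/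
noncomputable def pt (X : Finset V) (a : Lb) (c : ℕ) : Finset V := X ∩ C.nd j a c

theorem nd_mem {a : Lb} {c : ℕ} {x : V} : x ∈ C.nd j a c ↔ C.l x = some a ∧ C.key j x = c := by
  unfold Cx.nd
  rw [Finset.mem_filter]
  exact ⟨fun h => h.2, fun h => ⟨Finset.mem_univ _, h⟩⟩

/-- coarse nodes -/
theorem part_even (hF : tFAS) (hB : tBAL) (d : ℕ) (hd : Dg C.E d) (a : Lb) (c : ℕ)
    (ha : C.p.act a) (hc : c ≠ 0) (he : Even c) :
    fas C.E (C.nd j a c) ≤ ∑ b : Bool, FF C j o o2 (lab C o o2 a c b) +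
      2 * d * (pt C j (C.LL j o) a c).card + d * (pt C j (C.cr1 j o) a c).card := by
  obtain ⟨-, -, hmono, -, -, -, h7, -⟩ := hF V C.E d
  set N := C.nd j a c with hN
  set T3 := pt C j (C.LL j o) a c with hT3
  -- the second set
  set A := N.filter fun x => C.p.Ns ≤ (ball C.E true N (C.p.r1 a o) x).card with hA
  have h1 := h7 hd N T3
  have h2 := split hF C.E (N \ T3) A
  have hlt : lab C o o2 a c true = (c, true, C.p.r1 a o, Real.log C.p.Ns / C.p.r1 a o) :: a := by
    unfold lab
    rw [if_neg (by simpa using ha), if_pos he]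
  have hlf : lab C o o2 a c false = (c, false, C.p.r1 a o, Real.log C.p.Ns / C.p.r1 a o) :: a := by
    unfold lab
    rw [if_neg (by simpa using ha), if_pos he]
  -- forward class
  have h3 : fas C.E ((N \ T3).filter fun x => x ∉ A) ≤ FF C j o o2 (lab C o o2 a c true) := by
    apply hmono
    intro x hx
    rw [Finset.mem_filter, Finset.mem_sdiff] at hx
    obtain ⟨⟨hxN, -⟩, hxA⟩ := hx
    have hx1 := (nd_mem C j).1 hxN
    have hx2 : (ball C.E true N (C.p.r1 a o) x).card < C.p.Ns := by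
      by_contra h
      exact hxA (Finset.mem_filter.2 ⟨hxN, not_lt.1 h⟩)
    rw [cl_mem]
    rw [hlt]
    unfold Cx.nl
    rw [hx1.1]
    simp only [hx1.2]
    rw [if_neg (by simpa using ha), if_neg hc, if_pos he, if_pos hx2]
  -- backward class
  have h4 : fas C.E ((N \ T3).filter fun x => x ∈ A) ≤ FF C j o o2 (lab C o o2 a c false) := by
    apply hmono
    intro x hx
    rw [Finset.mem_filter, Finset.mem_sdiff] at hx
    obtain ⟨⟨hxN, hx3⟩, hxA⟩ := hx
    have hx1 := (nd_mem C j).1 hxN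
    have hx2 : C.p.Ns ≤ (ball C.E true N (C.p.r1 a o) x).card := (Finset.mem_filter.1 hxA).2
    have hx4 : (ball C.E false N (C.p.r1 a o) x).card < C.p.Ns := by
      by_contra h
      apply hx3
      rw [hT3]
      unfold pt Cx.LL
      rw [Finset.mem_inter, Finset.mem_filter]
      refine ⟨⟨Finset.mem_univ _, a, hx1.1, ha, ?_, ?_, ?_⟩, hxN⟩
      · rw [hx1.2]; exact hc
      · rw [hx1.2]; exact he
      · rw [hx1.2]
        intro b
        cases b
        · exact not_lt.1 h
        · exact hx2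
    rw [cl_mem]
    rw [hlf]
    unfold Cx.nl
    rw [hx1.1]
    simp only [hx1.2]
    rw [if_neg (by simpa using ha), if_neg hc, if_pos he, if_neg (not_lt.2 hx2), if_pos hx4]
  -- the edges
  have h5 : (((N \ T3) ×ˢ (N \ T3)).filter fun p => C.E p.1 p.2 ∧ p.1 ∉ A ∧ p.2 ∈ A).card ≤
      d * (pt C j (C.cr1 j o) a c).card := by
    apply card_fst hd
    rintro ⟨u, v⟩ hp
    rw [Finset.mem_filter, Finset.mem_product, Finset.mem_sdiff, Finset.mem_sdiff] at hp
    obtain ⟨⟨⟨huN, -⟩, hvN, -⟩, hE, huA, hvA⟩ := hp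
    simp only at huN hvN hE huA hvA ⊢
    refine ⟨?_, hE⟩
    have hu1 := (nd_mem C j).1 huN
    have hu2 : (ball C.E true N (C.p.r1 a o) u).card < C.p.Ns := by
      by_contra h
      exact huA (Finset.mem_filter.2 ⟨huN, not_lt.1 h⟩)
    have hv2 : C.p.Ns ≤ (ball C.E true N (C.p.r1 a o) v).card := (Finset.mem_filter.1 hvA).2
    have hb := (hB V C.E true N).2.2.2.2.2.2.2.2 (C.p.r1 a o) u v huN hvN (by simpa [de] using hE)
    have hb2 := hv2.trans (Finset.card_le_card hb)
    unfold pt Cx.cr1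
    rw [Finset.mem_inter, Finset.mem_filter]
    refine ⟨⟨Finset.mem_univ _, a, hu1.1, ha, ?_, ?_, ?_, ?_⟩, huN⟩
    · rw [hu1.2]; exact hc
    · rw [hu1.2]; exact he
    · rw [hu1.2]; exact hu2
    · rw [hu1.2]; exact hb2
  have h6 : ∑ b : Bool, FF C j o o2 (lab C o o2 a c b) =
      FF C j o o2 (lab C o o2 a c true) + FF C j o o2 (lab C o o2 a c false) := by
    simp
  rw [h6]
  omega

/-- windows -/
theorem part_odd (hF : tFAS) (hB : tBAL) (d : ℕ) (hd : Dg C.E d) (a : Lb) (c : ℕ)
    (ha : C.p.act a) (ho : Odd c) :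
    fas C.E (C.nd j a c) ≤ ∑ b : Bool, FF C j o o2 (lab C o o2 a c b) +
      d * (pt C j (C.cr2 j o2) a c).card + fas C.E (C.HH j o2 a c) := by
  obtain ⟨-, -, hmono, -, -, -, h7, -⟩ := hF V C.E d
  set N := C.nd j a c with hN
  have hHH : C.HH j o2 a c = N.filter fun x =>
      C.p.Nt ≤ (ball C.E (!C.p.dir a) N (C.p.r2 a o2) x).card := rfl
  set H := C.HH j o2 a c with hH
  have hc : c ≠ 0 := by
    rintro rfl
    simp at ho
  have hne : ¬ Even c := by simpa using ho
  have hl : lab C o o2 a c (!C.p.dir a) =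
      (c, !C.p.dir a, C.p.r2 a o2, Real.log C.p.Nt / C.p.r2 a o2) :: a := by
    unfold lab
    rw [if_neg (by simpa using ha), if_neg hne]
  have hle : FF C j o o2 (lab C o o2 a c (!C.p.dir a)) ≤
      ∑ b : Bool, FF C j o o2 (lab C o o2 a c b) :=
    Finset.single_le_sum (f := fun b => FF C j o o2 (lab C o o2 a c b))
      (fun _ _ => Nat.zero_le _) (Finset.mem_univ _)
  have h3 : fas C.E (N.filter fun x => x ∉ H) ≤ FF C j o o2 (lab C o o2 a c (!C.p.dir a)) := by
    apply hmono
    intro x hx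
    rw [Finset.mem_filter] at hx
    obtain ⟨hxN, hxA⟩ := hx
    have hx1 := (nd_mem C j).1 hxN
    have hx2 : (ball C.E (!C.p.dir a) N (C.p.r2 a o2) x).card < C.p.Nt := by
      by_contra h
      apply hxA
      rw [hHH]
      exact Finset.mem_filter.2 ⟨hxN, not_lt.1 h⟩
    rw [cl_mem]
    rw [hl]
    unfold Cx.nl
    rw [hx1.1]
    simp only [hx1.2]
    rw [if_neg (by simpa using ha), if_neg hc, if_neg hne, if_pos hx2]
  have h4 : ∀ x, x ∈ N → x ∉ H → (ball C.E (!C.p.dir a) N (C.p.r2 a o2) x).card < C.p.Nt := by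
    intro x hxN hxA
    by_contra h
    apply hxA
    rw [hHH]
    exact Finset.mem_filter.2 ⟨hxN, not_lt.1 h⟩
  have h5 : ∀ x, x ∈ H → x ∈ N ∧ C.p.Nt ≤ (ball C.E (!C.p.dir a) N (C.p.r2 a o2) x).card := by
    intro x hx
    rw [hHH] at hx
    exact Finset.mem_filter.1 hx
  -- crossing
  have h6 : ∀ x y, x ∈ N → y ∈ N → x ∉ H → y ∈ H → de C.E (!C.p.dir a) x y →
      x ∈ pt C j (C.cr2 j o2) a c := by
    intro x y hx hy hxH hyH hE
    have hx1 := (nd_mem C j).1 hx
    have hb := (hB V C.E (!C.p.dir a) N).2.2.2.2.2.2.2.2 (C.p.r2 a o2) x y hx hy hE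
    have hb2 := (h5 y hyH).2.trans (Finset.card_le_card hb)
    unfold pt Cx.cr2
    rw [Finset.mem_inter, Finset.mem_filter]
    refine ⟨⟨Finset.mem_univ _, a, hx1.1, ha, ?_, ?_, ?_⟩, hx⟩
    · rw [hx1.2]; exact ho
    · rw [hx1.2]; exact h4 x hx hxH
    · rw [hx1.2]; exact hb2
  have h7 : N.filter (fun x => x ∈ H) ⊆ H := by
    intro x hx
    exact (Finset.mem_filter.1 hx).2
  have h8 := hmono _ _ h7
  by_cases hdir : C.p.dir a = true
  · -- the good part first
    have h9 := split hF C.E N (N.filter fun x => x ∉ H)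
    have h10 : (N.filter fun x => x ∈ N.filter fun x => x ∉ H) ⊆ N.filter fun x => x ∉ H := by
      intro x hx
      exact (Finset.mem_filter.1 hx).2
    have h11 : (N.filter fun x => x ∉ N.filter fun x => x ∉ H) ⊆ H := by
      intro x hx
      rw [Finset.mem_filter] at hx
      by_contra h
      exact hx.2 (Finset.mem_filter.2 ⟨hx.1, h⟩)
    have h12 := hmono _ _ h10
    have h13 := hmono _ _ h11
    have h14 : ((N ×ˢ N).filter fun p => C.E p.1 p.2 ∧ p.1 ∉ (N.filter fun x => x ∉ H) ∧
        p.2 ∈ N.filter fun x => x ∉ H).card ≤ d * (pt C j (C.cr2 j o2) a c).card := by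
      apply card_snd hd
      rintro ⟨u, v⟩ hp
      rw [Finset.mem_filter, Finset.mem_product] at hp
      obtain ⟨⟨huN, hvN⟩, hE, huA, hvA⟩ := hp
      simp only at huN hvN hE huA hvA ⊢
      refine ⟨?_, hE⟩
      have huH : u ∈ H := by
        by_contra h
        exact huA (Finset.mem_filter.2 ⟨huN, h⟩)
      have hvH : v ∉ H := (Finset.mem_filter.1 hvA).2
      apply h6 v u hvN huN hvH huH
      rw [hdir]
      simpa [de] using hE
    omega
  · have h9 := split hF C.E N H
    have h14 : ((N ×ˢ N).filter fun p => C.E p.1 p.2 ∧ p.1 ∉ H ∧ p.2 ∈ H).card ≤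
        d * (pt C j (C.cr2 j o2) a c).card := by
      apply card_fst hd
      rintro ⟨u, v⟩ hp
      rw [Finset.mem_filter, Finset.mem_product] at hp
      obtain ⟨⟨huN, hvN⟩, hE, huA, hvA⟩ := hp
      simp only at huN hvN hE huA hvA ⊢
      refine ⟨?_, hE⟩
      apply h6 u v huN hvN huA hvA
      have : C.p.dir a = false := by simpa using hdir
      rw [this]
      simpa [de] using hE
    omega

/-- the vertices of `un` with label `a` -/
noncomputable def ua (a : Lb) : Finset V := C.un j ∩ cl C.l (some a)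

theorem part_act (hF : tFAS) (hB : tBAL) (hM : tMON) (hE : tEDG) (d : ℕ) (hd : Dg C.E d) (a : Lb)
    (ha : C.p.act a) :
    fas C.E (cl C.l (some a)) ≤
      ∑ c ∈ range (2 ^ (C.p.k + 1)), ∑ b : Bool, FF C j o o2 (lab C o o2 a c b) +
      3 * d * (ua C j a).card +
      2 * d * ∑ c ∈ range (2 ^ (C.p.k + 1)), (pt C j (C.LL j o) a c).card +
      d * ∑ c ∈ range (2 ^ (C.p.k + 1)), (pt C j (C.cr1 j o) a c).card +
      d * ∑ c ∈ range (2 ^ (C.p.k + 1)), (pt C j (C.cr2 j o2) a c).card +
      ∑ c ∈ (range (2 ^ (C.p.k + 1))).filter Odd, fas C.E (C.HH j o2 a c) := by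
  obtain ⟨-, -, hmono, -, -, h6, h7, h8⟩ := hF V C.E d
  have h1 := h8 (cl C.l (some a)) (C.key j)
  set R := range (2 ^ (C.p.k + 1)) with hR
  -- the edges
  have h2 : (((cl C.l (some a)) ×ˢ (cl C.l (some a))).filter fun p =>
      C.E p.1 p.2 ∧ C.key j p.2 < C.key j p.1).card ≤ 2 * d * (ua C j a).card := by
    set T := ((cl C.l (some a)) ×ˢ (cl C.l (some a))).filter fun p =>
      C.E p.1 p.2 ∧ C.key j p.2 < C.key j p.1 with hT
    have h3 : ∀ x, C.l x = some a → ¬ (C.key j x ≠ 0 ∧ C.key (j + 1) x = C.key j x) →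
        x ∈ ua C j a := by
      intro x hx h
      unfold ua Cx.un
      rw [Finset.mem_inter, Finset.mem_filter, cl_mem]
      refine ⟨⟨Finset.mem_univ _, a, hx, ha, ?_⟩, hx⟩
      by_contra h4
      push Not at h4
      exact h ⟨h4.2, h4.1⟩
    have h4 : ∀ p ∈ T, p.1 ∈ ua C j a ∨ p.2 ∈ ua C j a := by
      rintro ⟨u, v⟩ hp
      rw [hT, Finset.mem_filter, Finset.mem_product] at hp
      obtain ⟨⟨hu, hv⟩, hEuv, hlt⟩ := hp
      simp only at hu hv hEuv hlt ⊢
      have hu' : C.l u = some a := (cl_mem _ _ _).1 hu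
      have hv' : C.l v = some a := (cl_mem _ _ _).1 hv
      by_contra h5
      push Not at h5
      have h5u : C.key j u ≠ 0 ∧ C.key (j + 1) u = C.key j u := by
        by_contra h
        exact h5.1 (h3 u hu' h)
      have h5v : C.key j v ≠ 0 ∧ C.key (j + 1) v = C.key j v := by
        by_contra h
        exact h5.2 (h3 v hv' h)
      have := hE V C u v j a hu' hv' hEuv h5u.1 h5v.1 h5u.2 h5v.2
      omega
    have h5 : T ⊆ (T.filter fun p => p.1 ∈ ua C j a) ∪ T.filter fun p => p.2 ∈ ua C j a := by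
      intro p hp
      rw [Finset.mem_union]
      rcases h4 p hp with h | h
      · exact Or.inl (Finset.mem_filter.2 ⟨hp, h⟩)
      · exact Or.inr (Finset.mem_filter.2 ⟨hp, h⟩)
    have h6 : (T.filter fun p => p.1 ∈ ua C j a).card ≤ d * (ua C j a).card := by
      apply card_fst hd
      intro p hp
      rw [Finset.mem_filter] at hp
      exact ⟨hp.2, (Finset.mem_filter.1 hp.1).2.1⟩
    have h7 : (T.filter fun p => p.2 ∈ ua C j a).card ≤ d * (ua C j a).card := by
      apply card_snd hd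
      intro p hp
      rw [Finset.mem_filter] at hp
      exact ⟨hp.2, (Finset.mem_filter.1 hp.1).2.1⟩
    have h8 := (Finset.card_le_card h5).trans (Finset.card_union_le _ _)
    calc T.card ≤ d * (ua C j a).card + d * (ua C j a).card := h8.trans (Nat.add_le_add h6 h7)
      _ = 2 * d * (ua C j a).card := by ring
  -- the parts
  have h3 : ∑ c ∈ (cl C.l (some a)).image (C.key j),
      fas C.E ((cl C.l (some a)).filter fun x => C.key j x = c) ≤
      ∑ c ∈ R, fas C.E (C.nd j a c) := by
    calc _ ≤ ∑ c ∈ R, fas C.E ((cl C.l (some a)).filter fun x => C.key j x = c) := by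
          apply Finset.sum_le_sum_of_subset
          intro c hc
          rw [Finset.mem_image] at hc
          obtain ⟨x, -, rfl⟩ := hc
          rw [hR, Finset.mem_range]
          exact (hM V C x j j C.R1 le_rfl (Finset.Subset.refl _)).1
      _ ≤ _ := by
          apply Finset.sum_le_sum
          intro c _
          apply hmono
          intro x hx
          rw [Finset.mem_filter] at hx
          rw [nd_mem]
          exact ⟨(cl_mem _ _ _).1 hx.1, hx.2⟩
  have h4 : ∀ c ∈ R, fas C.E (C.nd j a c) ≤ ∑ b : Bool, FF C j o o2 (lab C o o2 a c b) +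
      (if c = 0 then d * (ua C j a).card else 0) +
      2 * d * (pt C j (C.LL j o) a c).card + d * (pt C j (C.cr1 j o) a c).card +
      d * (pt C j (C.cr2 j o2) a c).card + (if Odd c then fas C.E (C.HH j o2 a c) else 0) := by
    intro c _
    by_cases hc : c = 0
    · have h5 : C.nd j a c ⊆ ua C j a := by
        intro x hx
        have hx1 := (nd_mem C j).1 hx
        unfold ua Cx.un
        rw [Finset.mem_inter, Finset.mem_filter, cl_mem]
        exact ⟨⟨Finset.mem_univ _, a, hx1.1, ha, Or.inr (hx1.2.trans hc)⟩, hx1.1⟩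
      have h9 := h6 hd (C.nd j a c)
      have h10 := Nat.mul_le_mul_left d (Finset.card_le_card h5)
      rw [if_pos hc]
      have := h9.trans h10
      omega
    · rw [if_neg hc]
      by_cases he : Even c
      · have := part_even C j o o2 hF hB d hd a c ha hc he
        omega
      · have ho : Odd c := by simpa using he
        have := part_odd C j o o2 hF hB d hd a c ha ho
        rw [if_pos ho]
        omega
  have h5 := h1.trans (Nat.add_le_add (h3.trans (Finset.sum_le_sum h4)) h2)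
  simp only [Finset.sum_add_distrib] at h5
  have e1 : ∑ c ∈ R, (if c = 0 then d * (ua C j a).card else 0) = d * (ua C j a).card := by
    rw [Finset.sum_ite_eq']
    rw [if_pos]
    rw [hR, Finset.mem_range]
    positivity
  have e2 : ∑ c ∈ R, (if Odd c then fas C.E (C.HH j o2 a c) else 0) =
      ∑ c ∈ R.filter Odd, fas C.E (C.HH j o2 a c) := by
    rw [Finset.sum_filter]
  rw [e1, e2, ← Finset.mul_sum, ← Finset.mul_sum, ← Finset.mul_sum] at h5
  refine h5.trans (le_of_eq ?_)
  ring

theorem part_fin (hF : tFAS) (d : ℕ) (a : Lb) (ha : ¬ C.p.act a) :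
    fas C.E (cl C.l (some a)) ≤
      ∑ c ∈ range (2 ^ (C.p.k + 1)), ∑ b : Bool, FF C j o o2 (lab C o o2 a c b) := by
  obtain ⟨-, -, hmono, -, -, -, -, -⟩ := hF V C.E d
  have h1 : fas C.E (cl C.l (some a)) ≤ FF C j o o2 (lab C o o2 a 0 true) := by
    apply hmono
    intro x hx
    have hx' : C.l x = some a := (cl_mem _ _ _).1 hx
    rw [cl_mem]
    unfold lab Cx.nl
    rw [hx']
    simp only [if_pos ha]
  have h2 : FF C j o o2 (lab C o o2 a 0 true) ≤ ∑ b : Bool, FF C j o o2 (lab C o o2 a 0 b) :=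
    Finset.single_le_sum (f := fun b => FF C j o o2 (lab C o o2 a 0 b))
      (fun _ _ => Nat.zero_le _) (Finset.mem_univ _)
  have h3 : ∑ b : Bool, FF C j o o2 (lab C o o2 a 0 b) ≤
      ∑ c ∈ range (2 ^ (C.p.k + 1)), ∑ b : Bool, FF C j o o2 (lab C o o2 a c b) :=
    Finset.single_le_sum (f := fun c => ∑ b : Bool, FF C j o o2 (lab C o o2 a c b))
      (fun _ _ => Nat.zero_le _) (by rw [Finset.mem_range]; positivity)
  exact h1.trans (h2.trans h3)

theorem two_parts (X : Finset V) (L : Finset Lb) (R : Finset ℕ) :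
    ∑ a ∈ L, ∑ c ∈ R, (pt C j X a c).card ≤ X.card := by
  calc ∑ a ∈ L, ∑ c ∈ R, (pt C j X a c).card ≤
        ∑ a ∈ L, (X ∩ cl C.l (some a)).card := by
        apply Finset.sum_le_sum
        intro a _
        have h := parts (X ∩ cl C.l (some a)) R (fun c => C.nd j a c) (fun x c c' h h' => by
          rw [nd_mem] at h h'
          exact h.2.symm.trans h'.2)
        refine le_trans (Finset.sum_le_sum fun c _ => ?_) h
        apply Finset.card_le_card
        intro x hx
        unfold pt at hx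
        rw [Finset.mem_inter] at hx
        rw [Finset.mem_inter, Finset.mem_inter]
        exact ⟨⟨hx.1, (cl_mem _ _ _).2 ((nd_mem C j).1 hx.2).1⟩, hx.2⟩
    _ ≤ X.card := parts X L (fun a => cl C.l (some a)) (fun x c c' h h' => by
          rw [cl_mem] at h h'
          exact Option.some.inj (h.symm.trans h'))

theorem one_part (L : Finset Lb) : ∑ a ∈ L, (ua C j a).card ≤ (C.un j).card :=
  parts (C.un j) L (fun a => cl C.l (some a)) (fun x c c' h h' => by
    rw [cl_mem] at h h'
    exact Option.some.inj (h.symm.trans h'))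

end Main

end DETx

/-- DET -/
theorem pDET (hF : tFAS) (hB : tBAL) (hM : tMON) (hE : tEDG) : tDET := by
  intro V _ C d j o o2 hd
  set L := labs C.l with hL
  set R := range (2 ^ (C.p.k + 1)) with hR
  have h1 : ∀ a ∈ L, fas C.E (cl C.l (some a)) ≤
      ∑ c ∈ R, ∑ b : Bool, DETx.FF C j o o2 (DETx.lab C o o2 a c b) +
      3 * d * (DETx.ua C j a).card +
      2 * d * ∑ c ∈ R, (DETx.pt C j (C.LL j o) a c).card +
      d * ∑ c ∈ R, (DETx.pt C j (C.cr1 j o) a c).card +
      d * ∑ c ∈ R, (DETx.pt C j (C.cr2 j o2) a c).card +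
      (if C.p.act a then ∑ c ∈ R.filter Odd, fas C.E (C.HH j o2 a c) else 0) := by
    intro a _
    by_cases ha : C.p.act a
    · rw [if_pos ha]
      exact DETx.part_act C j o o2 hF hB hM hE d hd a ha
    · rw [if_neg ha]
      have := DETx.part_fin C j o o2 hF d a ha
      rw [← hR] at this
      omega
  have h2 := Finset.sum_le_sum h1
  simp only [Finset.sum_add_distrib] at h2
  rw [← Finset.mul_sum, ← Finset.mul_sum, ← Finset.mul_sum, ← Finset.mul_sum] at h2
  have h3 := DETx.sum_FF C j o o2 hF d hd L R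
  have h4 := Nat.mul_le_mul_left (3 * d) (DETx.one_part C j L)
  have h5 := Nat.mul_le_mul_left (2 * d) (DETx.two_parts C j (C.LL j o) L R)
  have h6 := Nat.mul_le_mul_left d (DETx.two_parts C j (C.cr1 j o) L R)
  have h7 := Nat.mul_le_mul_left d (DETx.two_parts C j (C.cr2 j o2) L R)
  have h8 : TF C.E C.l = ∑ a ∈ L, fas C.E (cl C.l (some a)) := rfl
  have h9 : C.HF j o2 =
      ∑ a ∈ L, if C.p.act a then ∑ c ∈ R.filter Odd, fas C.E (C.HH j o2 a c) else 0 := by
    rw [← Finset.sum_filter]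
    rfl
  rw [h8, h9]
  omega

end Pool.Agent.AcyUp
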