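import Pool.Agent.AcyUp.Targets

set_option autoImplicit false

/-!
# MP_08c6cd_lc, DRP: a new seed in `Y` lowers the sum of the heights
-/

namespace Pool.Agent.AcyUp

open Finset Pool.Agent.AcyTest
open scoped Classical

namespace DRPx

/-- the interval shrinks so that it does not contain the old key -/
theorem kv_lt (hKEY : tKEY) {lo hi lo' hi' κ : ℕ} (h1 : lo ≤ lo') (h2 : hi' ≤ hi)
    (hk : kv lo hi = κ) (h0 : κ ≠ 0) (he : Even κ) (h : 2 * hi' + 1 < κ ∨ κ < 2 * lo' + 1) :
    padicValNat 2 (kv lo' hi') < padicValNat 2 κ := by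
  obtain ⟨k1, k2, k3, -, -, -⟩ := hKEY
  have hle : lo ≤ hi := by
    by_contra hh
    exact h0 (hk ▸ (k3 lo hi).2 (not_le.1 hh))
  have hpos : 1 ≤ padicValNat 2 κ :=
    one_le_padicValNat_of_dvd h0 he.two_dvd
  by_cases hl' : lo' ≤ hi'
  · have e1 : kv lo hi = mv (2 * lo + 1) (2 * hi + 1) := if_pos hle
    have e2 : kv lo' hi' = mv (2 * lo' + 1) (2 * hi' + 1) := if_pos hl'
    have hb := k1 (2 * lo' + 1) (2 * hi' + 1) (by omega) (by omega)
    rcases k2 (2 * lo + 1) (2 * hi + 1) (2 * lo' + 1) (2 * hi' + 1) (by omega) (by omega)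
      (by omega) (by omega) with h3 | h3
    · rw [h3, ← e1, hk] at hb
      omega
    · rw [e2, ← hk, e1]
      exact h3
  · rw [(k3 lo' hi').2 (not_le.1 hl')]
    have h5 : padicValNat 2 0 = 0 := by simp
    rw [h5]
    exact hpos

theorem key_eq {V : Type} [Fintype V] (C : Cx V) (j : ℕ) {y : V} {a : Lb} (hl : C.l y = some a)
    (ha : C.p.act a) : C.key j y = kv (C.lo j a y) (C.hi j a y) := by
  unfold Cx.key
  rw [hl]
  simp only [if_pos ha]

theorem sum_le {V : Type} [Fintype V] (B : Finset V) (T T' : V → ℕ) (N : ℕ) (hN : N ≤ B.card)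
    (h1 : ∀ x, T' x ≤ T x) (h2 : ∀ x ∈ B, T' x < T x) : (∑ x, T' x) + N ≤ ∑ x, T x := by
  have e : (∑ x, T' x) + B.card = ∑ x, (T' x + if x ∈ B then 1 else 0) := by
    rw [sum_add_distrib]
    congr 1
    rw [← card_filter]
    congr 1
    ext x
    simp
  have : (∑ x, T' x) + B.card ≤ ∑ x, T x := by
    rw [e]
    refine sum_le_sum fun x _ => ?_
    split_ifs with h
    · exact h2 x h
    · exact h1 x
  omega

/-- the lower end with a new seed -/
theorem lo_le {V : Type} [Fintype V] (C : Cx V) (s : V) (j : ℕ) (a : Lb) (y : V) :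
    C.lo j a y ≤ ({ C with R1 := insert s C.R1 } : Cx V).lo j a y := by
  unfold Cx.lo
  exact sup_mono (inter_subset_inter_left (subset_insert s C.R1))

theorem hi_le {V : Type} [Fintype V] (C : Cx V) (s : V) (j : ℕ) (a : Lb) (y : V) :
    ({ C with R1 := insert s C.R1 } : Cx V).hi j a y ≤ C.hi j a y := by
  unfold Cx.hi
  exact Nat.sub_le_sub_left (sup_mono (inter_subset_inter_left (subset_insert s C.R1))) _

end DRPx

open DRPx in
/-- DRP: a new seed in `Y` lowers the sum of the heights -/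
theorem pDRP (hBAL : tBAL) (hKEY : tKEY) (hMON : tMON) : tDRP := by
  intro V _ C j s hf hs
  obtain ⟨a, hla, hact, h0, hev, hball⟩ := (mem_filter.1 hs).2
  set κ := C.key j s with hκ
  have hmono : ∀ x, ({ C with R1 := insert s C.R1 } : Cx V).T j x ≤ C.T j x := fun x =>
    (hMON V C x j j (insert s C.R1) le_rfl (subset_insert s C.R1)).2.2.2.2.2.2
  -- a vertex of the window whose new interval avoids the key
  have hdrop : ∀ y ∈ C.nd j a κ,
      (2 * ({ C with R1 := insert s C.R1 } : Cx V).hi j a y + 1 < κ ∨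
        κ < 2 * ({ C with R1 := insert s C.R1 } : Cx V).lo j a y + 1) →
      ({ C with R1 := insert s C.R1 } : Cx V).T j y < C.T j y := by
    intro y hy h
    obtain ⟨hly, hky⟩ := (mem_filter.1 hy).2
    unfold Cx.T
    rw [hky]
    rw [key_eq ({ C with R1 := insert s C.R1 } : Cx V) j hly hact]
    exact kv_lt hKEY (lo_le C s j a y) (hi_le C s j a y) ((key_eq C j hly hact).symm.trans hky)
      h0 hev h
  have hndS : C.nd j a κ ⊆ C.S a := by
    intro y hy
    obtain ⟨hly, -⟩ := (mem_filter.1 hy).2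
    simp [Cx.S, cl, hly]
  -- the seed lies in the balls of the vertices which it reaches
  have hreach : ∀ b, ∀ y ∈ ball C.E b (C.nd j a κ) (C.p.A a - C.p.m) s,
      s ∈ ball C.E (!b) (C.S a) (C.p.A a - C.p.m + j) y := by
    intro b y hy
    obtain ⟨-, -, -, -, -, -, b7, b8, -⟩ := hBAL V C.E b (C.nd j a κ)
    obtain ⟨-, c2, -, -, -, -, -, -, -⟩ := hBAL V C.E (!b) (C.S a)
    obtain ⟨-, -, -, -, -, -, -, d8, -⟩ := hBAL V C.E (!b) (C.nd j a κ)
    exact c2 _ _ _ (by omega) (d8 (C.S a) _ _ hndS (b7 _ _ _ hy))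
  have hsub : ∀ b, ∀ y ∈ ball C.E b (C.nd j a κ) (C.p.A a - C.p.m) s, y ∈ C.nd j a κ := by
    intro b y hy
    exact (hBAL V C.E b (C.nd j a κ)).1 _ _ hy
  have hodd : 2 * C.f s + 1 ≠ κ := by
    intro h
    rw [← h] at hev
    exact (Nat.not_even_iff_odd.2 ⟨C.f s, rfl⟩) hev
  rcases lt_or_gt_of_ne hodd with hlt | hgt
  · refine sum_le (ball C.E false (C.nd j a κ) (C.p.A a - C.p.m) s) _ _ _ (hball false) hmono ?_
    intro y hy
    refine hdrop y (hsub false y hy) (Or.inl ?_)
    have hin : s ∈ ball C.E true (C.S a) (C.p.A a - C.p.m + j) y := hreach false y hy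
    have h1 : 2 ^ C.p.k - 1 - C.f s ≤ (ball C.E true (C.S a) (C.p.A a - C.p.m + j) y ∩
        insert s C.R1).sup fun s => 2 ^ C.p.k - 1 - C.f s :=
      le_sup (f := fun s => 2 ^ C.p.k - 1 - C.f s) (mem_inter.2 ⟨hin, mem_insert_self _ _⟩)
    have h2 := hf s
    have h3 : ({ C with R1 := insert s C.R1 } : Cx V).hi j a y = (2 ^ C.p.k - 1) -
        ((ball C.E true (C.S a) (C.p.A a - C.p.m + j) y ∩
        insert s C.R1).sup fun s => 2 ^ C.p.k - 1 - C.f s) := rfl
    rw [h3]
    omega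
  · refine sum_le (ball C.E true (C.nd j a κ) (C.p.A a - C.p.m) s) _ _ _ (hball true) hmono ?_
    intro y hy
    refine hdrop y (hsub true y hy) (Or.inr ?_)
    have hin : s ∈ ball C.E false (C.S a) (C.p.A a - C.p.m + j) y := hreach true y hy
    have h1 : C.f s ≤ (ball C.E false (C.S a) (C.p.A a - C.p.m + j) y ∩
        insert s C.R1).sup C.f :=
      le_sup (f := C.f) (mem_inter.2 ⟨hin, mem_insert_self _ _⟩)
    have h3 : ({ C with R1 := insert s C.R1 } : Cx V).lo j a y =
        ((ball C.E false (C.S a) (C.p.A a - C.p.m + j) y ∩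
        insert s C.R1).sup C.f) := rfl
    rw [h3]
    omega

end Pool.Agent.AcyUp
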