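import Pool.Agent.AcyTest.Defs

set_option autoImplicit false

/-!
# A sublinear tester for acyclicity (MP_08c6cd_lc): definitions

Proofs: `Blueprint.lean.txt`.  Everything about digraphs is stated for a relation `E` on a finite
type `V` with in- and out-degrees at most `d`.
-/

namespace Pool.Agent.AcyUp

open Finset Pool.Agent.AcyTest
open scoped Classical

/-! ### Digraphs -/

section Graph

variable {V : Type} [Fintype V]

/-- in- and out-degrees at most `d` -/
def Dg (E : V → V → Prop) (d : ℕ) : Prop :=
  ∀ v, (univ.filter fun u => E u v).card ≤ d ∧ (univ.filter fun u => E v u).card ≤ d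

/-- edges in direction `b` (`true`: forwards) -/
def de (E : V → V → Prop) (b : Bool) (u v : V) : Prop := if b then E u v else E v u

/-- vertices reached from `x` by at most `r` steps in direction `b` inside `S` -/
noncomputable def ball (E : V → V → Prop) (b : Bool) (S : Finset V) : ℕ → V → Finset V
  | 0, x => S.filter fun y => y = x
  | r + 1, x => S.filter fun y => y ∈ ball E b S r x ∨ ∃ u ∈ ball E b S r x, de E b u y

/-- number of edges of `E` inside `S` along which `rk` does not increase -/
noncomputable def bad (E : V → V → Prop) (S : Finset V) (rk : V → ℕ) : ℕ :=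
  ((S ×ˢ S).filter fun p => E p.1 p.2 ∧ rk p.2 ≤ rk p.1).card

/-- feedback arc number of the digraph induced on `S` -/
noncomputable def fas (E : V → V → Prop) (S : Finset V) : ℕ := sInf (Set.range (bad E S))

/-- `S` contains a directed cycle -/
def Cyc (E : V → V → Prop) (S : Finset V) : Prop :=
  ∃ v, Relation.TransGen (fun u w => E u w ∧ u ∈ S ∧ w ∈ S) v v

/-- a class of a labelling -/
noncomputable def cl {α : Type} (l : V → α) (a : α) : Finset V := univ.filter fun x => l x = a

end Graph

/-! ### The dyadic tree -/

/-- the element of `[a, b]` with the largest 2-adic valuation -/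
noncomputable def mv (a b : ℕ) : ℕ :=
  ((Icc a b).filter fun t => ∀ u ∈ Icc a b, padicValNat 2 u ≤ padicValNat 2 t).sup id

/-- key of an interval of blocks, `0` if the interval is empty -/
noncomputable def kv (lo hi : ℕ) : ℕ := if lo ≤ hi then mv (2 * lo + 1) (2 * hi + 1) else 0

/-! ### Labels

A label is its history: entries `(key, direction, radius, rate)`, the last one first. -/

abbrev Lb : Type := List (ℕ × Bool × ℕ × ℝ)

/-- growth rate of a label in direction `b` (`gm` at the start) -/
noncomputable def gr (gm : ℝ) : Lb → Bool → ℝ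
  | [], _ => gm
  | e :: a, b => if e.2.1 = b then e.2.2.2 else gr gm a b

/-- base radius of a label in direction `b` (`1` at the start) -/
def rd : Lb → Bool → ℕ
  | [], _ => 1
  | e :: a, b => if e.2.1 = b then e.2.2.1 else rd a b

/-- Parameters of a round.  `gm`: largest rate, `η`: classes with a rate at most `η` are finished,
`L`: logarithm of the scale `N`, `L2`: the same for the saturation step, `2 ^ k` blocks, `m`:
number of steps, `m2`: range of the random radius of the saturation step, `Ns`, `Nt`: thresholds
for the sizes of balls, `M` seeds, of which the first `i1 + i` (`i < i1`) define the keys, the step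
is chosen among `h * mb`, `q` vertices in the saturation step, at most `cap` of them in the
window. -/
structure Pm where
  gm : ℝ
  η : ℝ
  L : ℝ
  L2 : ℝ
  k : ℕ
  m : ℕ
  m2 : ℕ
  Ns : ℕ
  Nt : ℕ
  M : ℕ
  i1 : ℕ
  h : ℕ
  mb : ℕ
  q : ℕ
  cap : ℕ

namespace Pm

/-- unfinished labels -/
def act (p : Pm) (a : Lb) : Prop := p.η < gr p.gm a true ∧ p.η < gr p.gm a false

/-- exploration radius of the seeds in direction `b` -/
noncomputable def P (p : Pm) (a : Lb) (b : Bool) : ℕ :=
  rd a b * ⌊p.L / (gr p.gm a b * rd a b)⌋₊

/-- exploration radius of the saturation step -/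
noncomputable def P2 (p : Pm) (a : Lb) (b : Bool) : ℕ :=
  rd a b * ⌊p.L2 / (gr p.gm a b * rd a b)⌋₊

/-- total radius -/
noncomputable def A (p : Pm) (a : Lb) : ℕ := p.P a true + p.P a false

/-- direction of the saturation step -/
noncomputable def dir (p : Pm) (a : Lb) : Bool := decide (gr p.gm a true ≤ gr p.gm a false)

/-- radius for the types of coarse classes -/
noncomputable def r1 (p : Pm) (a : Lb) (o : ℕ) : ℕ := p.A a - 2 * p.m + o

/-- radius for the types of windows -/
noncomputable def r2 (p : Pm) (a : Lb) (o : ℕ) : ℕ := p.P2 a (p.dir a) - p.m2 + o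

end Pm

section Labels

variable {V : Type} [Fintype V]

/-- the labels which occur -/
noncomputable def labs (l : V → Option Lb) : Finset Lb := eraseNone (univ.image l)

/-- total feedback arc number of the classes -/
noncomputable def TF (E : V → V → Prop) (l : V → Option Lb) : ℕ :=
  ∑ a ∈ labs l, fas E (cl l (some a))

/-- the growth bounds of a labelling -/
def Gw (E : V → V → Prop) (l : V → Option Lb) (gm : ℝ) (Rm : ℕ) : Prop :=
  ∀ x a, l x = some a → ∀ b, 0 < gr gm a b ∧ gr gm a b ≤ gm ∧ 1 ≤ rd a b ∧ rd a b ≤ Rm ∧
    ((ball E b (cl l (some a)) (rd a b) x).card : ℝ) ≤ Real.exp (gr gm a b * rd a b)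

end Labels

/-! ### One round -/

/-- context of a round: digraph, labelling, parameters, the seeds which define the keys and their
blocks -/
structure Cx (V : Type) where
  E : V → V → Prop
  l : V → Option Lb
  p : Pm
  R1 : Finset V
  f : V → ℕ

namespace Cx

variable {V : Type} [Fintype V]

/-- class of the label `a` -/
noncomputable def S (C : Cx V) (a : Lb) : Finset V := cl C.l (some a)

noncomputable def lo (C : Cx V) (j : ℕ) (a : Lb) (x : V) : ℕ :=
  (ball C.E false (C.S a) (C.p.A a - C.p.m + j) x ∩ C.R1).sup C.f

noncomputable def hi (C : Cx V) (j : ℕ) (a : Lb) (x : V) : ℕ :=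
  (2 ^ C.p.k - 1) -
    (ball C.E true (C.S a) (C.p.A a - C.p.m + j) x ∩ C.R1).sup fun s => 2 ^ C.p.k - 1 - C.f s

/-- key of `x` at step `j`: `0` invalid (or finished), odd: in a window, even: coarse -/
noncomputable def key (C : Cx V) (j : ℕ) (x : V) : ℕ :=
  match C.l x with
  | none => 0
  | some a => if C.p.act a then kv (C.lo j a x) (C.hi j a x) else 0

/-- height in the tree -/
noncomputable def T (C : Cx V) (j : ℕ) (x : V) : ℕ := padicValNat 2 (C.key j x)

/-- the vertices of label `a` and key `c` -/
noncomputable def nd (C : Cx V) (j : ℕ) (a : Lb) (c : ℕ) : Finset V :=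
  univ.filter fun y => C.l y = some a ∧ C.key j y = c

/-- the new label -/
noncomputable def nl (C : Cx V) (j o o2 : ℕ) (x : V) : Option Lb :=
  match C.l x with
  | none => none
  | some a =>
    if ¬ C.p.act a then some ((0, true, rd a true, gr C.p.gm a true) :: a)
    else if C.key j x = 0 then none
    else if Even (C.key j x) then
      if (ball C.E true (C.nd j a (C.key j x)) (C.p.r1 a o) x).card < C.p.Ns then
        some ((C.key j x, true, C.p.r1 a o, Real.log C.p.Ns / C.p.r1 a o) :: a)
      else if (ball C.E false (C.nd j a (C.key j x)) (C.p.r1 a o) x).card < C.p.Ns then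
        some ((C.key j x, false, C.p.r1 a o, Real.log C.p.Ns / C.p.r1 a o) :: a)
      else none
    else
      if (ball C.E (!C.p.dir a) (C.nd j a (C.key j x)) (C.p.r2 a o2) x).card < C.p.Nt then
        some ((C.key j x, !C.p.dir a, C.p.r2 a o2, Real.log C.p.Nt / C.p.r2 a o2) :: a)
      else none

/-- coarse vertices both of whose balls are large, radius `A - m` -/
noncomputable def Y (C : Cx V) (j : ℕ) : Finset V :=
  univ.filter fun x => ∃ a, C.l x = some a ∧ C.p.act a ∧ C.key j x ≠ 0 ∧ Even (C.key j x) ∧
    ∀ b, C.p.Ns ≤ (ball C.E b (C.nd j a (C.key j x)) (C.p.A a - C.p.m) x).card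

/-- vertices whose key changes from step `j` to step `j + 1`, and invalid ones -/
noncomputable def un (C : Cx V) (j : ℕ) : Finset V :=
  univ.filter fun x => ∃ a, C.l x = some a ∧ C.p.act a ∧
    (C.key (j + 1) x ≠ C.key j x ∨ C.key j x = 0)

/-- coarse vertices without a new label -/
noncomputable def LL (C : Cx V) (j o : ℕ) : Finset V :=
  univ.filter fun x => ∃ a, C.l x = some a ∧ C.p.act a ∧ C.key j x ≠ 0 ∧ Even (C.key j x) ∧
    ∀ b, C.p.Ns ≤ (ball C.E b (C.nd j a (C.key j x)) (C.p.r1 a o) x).card

/-- coarse vertices whose forward ball crosses the threshold at the radius `r1` -/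
noncomputable def cr1 (C : Cx V) (j o : ℕ) : Finset V :=
  univ.filter fun x => ∃ a, C.l x = some a ∧ C.p.act a ∧ C.key j x ≠ 0 ∧ Even (C.key j x) ∧
    (ball C.E true (C.nd j a (C.key j x)) (C.p.r1 a o) x).card < C.p.Ns ∧
    C.p.Ns ≤ (ball C.E true (C.nd j a (C.key j x)) (C.p.r1 a o + 1) x).card

/-- fine vertices whose ball crosses the threshold at the radius `r2` -/
noncomputable def cr2 (C : Cx V) (j o : ℕ) : Finset V :=
  univ.filter fun x => ∃ a, C.l x = some a ∧ C.p.act a ∧ Odd (C.key j x) ∧
    (ball C.E (!C.p.dir a) (C.nd j a (C.key j x)) (C.p.r2 a o) x).card < C.p.Nt ∧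
    C.p.Nt ≤ (ball C.E (!C.p.dir a) (C.nd j a (C.key j x)) (C.p.r2 a o + 1) x).card

/-- the part of a window with large balls -/
noncomputable def HH (C : Cx V) (j o : ℕ) (a : Lb) (c : ℕ) : Finset V :=
  (C.nd j a c).filter fun x => C.p.Nt ≤ (ball C.E (!C.p.dir a) (C.nd j a c) (C.p.r2 a o) x).card

/-- total feedback arc number of these parts -/
noncomputable def HF (C : Cx V) (j o : ℕ) : ℕ :=
  ∑ a ∈ (labs C.l).filter C.p.act, ∑ c ∈ (range (2 ^ (C.p.k + 1))).filter Odd,
    fas C.E (C.HH j o a c)

/-- the set explored in the saturation step -/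
noncomputable def satD (C : Cx V) (j : ℕ) (v : V) {q : ℕ} (Q : Fin q → V) : Finset V :=
  match C.l v with
  | none => ∅
  | some a =>
    if C.p.act a ∧ Odd (C.key j v) ∧
        (univ.filter fun t => Q t ∈ C.nd j a (C.key j v)).card ≤ C.p.cap then
      (univ.filter fun t => Q t ∈ C.nd j a (C.key j v)).biUnion fun t =>
        ball C.E (C.p.dir a) (C.S a) (C.p.P2 a (C.p.dir a)) (Q t)
    else ∅

end Cx

/-! ### Seeds -/

section Seeds

variable {V : Type} [Fintype V]

/-- set of the first `i` seeds -/
noncomputable def pre {M : ℕ} (ω : Fin M → V) (i : ℕ) : Finset V :=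
  (univ.filter fun t : Fin M => t.1 < i).image ω

/-- set of all seeds -/
noncomputable def als {M : ℕ} (ω : Fin M → V) : Finset V := univ.image ω

/-- `s'` is reached from the seed `s` within the total radius -/
def lk (E : V → V → Prop) (l : V → Option Lb) (p : Pm) (s s' : V) : Prop :=
  s ≠ s' ∧ ∃ a, l s = some a ∧ l s' = some a ∧ p.act a ∧
    s' ∈ ball E true (cl l (some a)) (p.A a) s

/-- `f` is a monotone distribution of the seeds into `2 ^ k` blocks of equal size -/
def IsF (k : ℕ) (R : Finset V) (l : V → Option Lb) (rel : V → V → Prop) (f : V → ℕ) : Prop :=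
  (∀ s ∈ R, ∀ s' ∈ R, rel s s' → f s ≤ f s') ∧ (∀ s, f s < 2 ^ k) ∧
  ∀ a c, (R.filter fun s => l s = some a ∧ f s = c).card * 2 ^ k ≤
    (R.filter fun s => l s = some a).card + 2 ^ k

/-- a choice of the blocks which depends only on the data -/
noncomputable def chF (k : ℕ) (R : Finset V) (l : V → Option Lb) (rel : V → V → Prop) : V → ℕ :=
  if h : ∃ f, IsF k R l rel f then h.choose else fun _ => 0

/-- a labelling restricted to the seeds -/
noncomputable def rsl (R : Finset V) (l : V → Option Lb) (x : V) : Option Lb :=
  if x ∈ R then l x else none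

/-- a relation restricted to the seeds -/
def rsr (R : Finset V) (rel : V → V → Prop) (s s' : V) : Prop := s ∈ R ∧ s' ∈ R ∧ rel s s'

/-- blocks of the seeds -/
noncomputable def fR (E : V → V → Prop) (l : V → Option Lb) (p : Pm) (R : Finset V) : V → ℕ :=
  chF p.k R (rsl R l) (rsr R (lk E l p))

/-- the set explored by the seeds -/
noncomputable def seedD (E : V → V → Prop) (l : V → Option Lb) (p : Pm) (R : Finset V) : Finset V :=
  R.biUnion fun s => match l s with
    | none => ∅
    | some a => if p.act a then
        ball E true (cl l (some a)) (p.P a true) s ∪ ball E false (cl l (some a)) (p.P a false) s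
      else ∅

/-- the context given by the seeds -/
noncomputable def ctx (E : V → V → Prop) (l : V → Option Lb) (p : Pm) {M : ℕ} (ω : Fin M → V)
    (i : ℕ) : Cx V := ⟨E, l, p, pre ω i, fR E l p (als ω)⟩

/-- randomness of a round -/
abbrev Zr (V : Type) (p : Pm) : Type :=
  (Fin p.M → V) × Fin p.i1 × Fin (p.h * p.mb) × Fin p.m × Fin p.m2 × V × (Fin p.q → V)

/-- new labelling of a round -/
noncomputable def nlz (E : V → V → Prop) (l : V → Option Lb) (p : Pm) (z : Zr V p) :
    V → Option Lb :=
  (ctx E l p z.1 (p.i1 + z.2.1.1)).nl z.2.2.1.1 z.2.2.2.1.1 z.2.2.2.2.1.1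

/-- the set explored in a round -/
noncomputable def Dz (E : V → V → Prop) (l : V → Option Lb) (p : Pm) (z : Zr V p) : Finset V :=
  seedD E l p (als z.1) ∪
    (ctx E l p z.1 (p.i1 + z.2.1.1)).satD z.2.2.1.1 z.2.2.2.2.2.1 z.2.2.2.2.2.2

/-- the set explored at the end -/
noncomputable def finD (E : V → V → Prop) (l : V → Option Lb) (gm η : ℝ) (x : V) : Finset V :=
  match l x with
  | none => ∅
  | some a => ball E (decide (gr gm a true ≤ η)) (cl l (some a))
      (rd a (decide (gr gm a true ≤ η))) x

/-- `1 / g⁺ + 1 / g⁻` for unfinished labels, `τm` otherwise -/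
noncomputable def tau (gm η τm : ℝ) : Option Lb → ℝ
  | none => τm
  | some a => if η < gr gm a true ∧ η < gr gm a false then 1 / gr gm a true + 1 / gr gm a false
      else τm

end Seeds

/-! ### Adaptive exploration -/

section Prog

/-- all answers to queries about a vertex -/
abbrev Info (V : Type) (d : ℕ) : Type := (Fin d → Option V) × (Fin d → Option V)

/-- an adaptive exploration: it asks for the lists of vertices and returns a value -/
inductive Prog (V : Type) (d : ℕ) (α : Type) : Type
  | ret (a : α) : Prog V d α
  | ask (v : V) (k : Info V d → Prog V d α) : Prog V d α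

variable {V : Type} {d : ℕ} {α : Type}

/-- the value returned on the digraph `G` -/
def Prog.run : Prog V d α → DG V d → α
  | .ret a, _ => a
  | .ask v k, G => (k (G.out v, G.inn v)).run G

/-- the vertices asked for -/
def Prog.asked : Prog V d α → DG V d → Set V
  | .ret _, _ => ∅
  | .ask v k, G => insert v ((k (G.out v, G.inn v)).asked G)

/-- the number of questions -/
def Prog.len : Prog V d α → DG V d → ℕ
  | .ret _, _ => 0
  | .ask v k, G => (k (G.out v, G.inn v)).len G + 1

/-- on the class `K` of digraphs `F` is computed by an exploration which asks for all vertices of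
`D G` and asks at most `c G` questions -/
def Cmp (K : Set (DG V d)) (F : DG V d → α) (D : DG V d → Set V) (c : DG V d → ℕ) : Prop :=
  ∃ p : Prog V d α, ∀ G ∈ K, p.run G = F G ∧ D G ⊆ p.asked G ∧ p.len G ≤ c G

end Prog

end Pool.Agent.AcyUp
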