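import Pool.Agent.AcyUp.Targets

set_option autoImplicit false

/-!
# ACU-EDG: edges between vertices with stable keys
-/

namespace Pool.Agent.AcyUp

open Finset Pool.Agent.AcyTest
open scoped Classical

namespace EDG_

variable {V : Type} [Fintype V]

lemma key_some (C : Cx V) (j : ℕ) (x : V) (a : Lb) (h : C.l x = some a) :
    C.key j x = if C.p.act a then kv (C.lo j a x) (C.hi j a x) else 0 := by
  unfold Cx.key
  rw [h]

lemma mem_S (C : Cx V) (x : V) (a : Lb) (h : C.l x = some a) : x ∈ C.S a := by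
  unfold Cx.S cl
  simp [h]

lemma lo_le (hB : tBAL) (C : Cx V) (u v : V) (j : ℕ) (a : Lb) (hu : C.l u = some a)
    (hv : C.l v = some a) (huv : C.E u v) : C.lo j a u ≤ C.lo (j + 1) a v := by
  obtain ⟨-, -, -, -, -, -, -, -, h9⟩ := hB V C.E false (C.S a)
  have h := h9 (C.p.A a - C.p.m + j) v u (mem_S C v a hv) (mem_S C u a hu) (by
    unfold de
    simpa using huv)
  unfold Cx.lo
  apply Finset.sup_mono
  exact Finset.inter_subset_inter_right h

lemma hi_le (hB : tBAL) (C : Cx V) (u v : V) (j : ℕ) (a : Lb) (hu : C.l u = some a)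
    (hv : C.l v = some a) (huv : C.E u v) : C.hi (j + 1) a u ≤ C.hi j a v := by
  obtain ⟨-, -, -, -, -, -, -, -, h9⟩ := hB V C.E true (C.S a)
  have h := h9 (C.p.A a - C.p.m + j) u v (mem_S C u a hu) (mem_S C v a hv) (by
    unfold de
    simpa using huv)
  unfold Cx.hi
  apply Nat.sub_le_sub_left
  apply Finset.sup_mono
  exact Finset.inter_subset_inter_right h

lemma kv_facts (hK : tKEY) (lo hi : ℕ) (h : kv lo hi ≠ 0) :
    2 * lo + 1 ≤ kv lo hi ∧ kv lo hi ≤ 2 * hi + 1 ∧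
    ∀ u, 2 * lo + 1 ≤ u → u ≤ 2 * hi + 1 → u ≠ kv lo hi →
      padicValNat 2 u < padicValNat 2 (kv lo hi) := by
  obtain ⟨h1, -, h3, h4, -, -⟩ := hK
  have hle : lo ≤ hi := by
    by_contra hc
    exact h ((h3 lo hi).2 (not_le.1 hc))
  refine ⟨(h4 lo hi hle).2.1, (h4 lo hi hle).2.2, ?_⟩
  have hkv : kv lo hi = mv (2 * lo + 1) (2 * hi + 1) := by
    unfold kv
    rw [if_pos hle]
  rw [hkv]
  exact (h1 (2 * lo + 1) (2 * hi + 1) (by omega) (by omega)).2.2

end EDG_

theorem pEDG (hB : tBAL) (hK : tKEY) : tEDG := by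
  intro V _ C u v j a hu hv huv hku hkv hsu hsv
  have hku' : C.key (j + 1) u ≠ 0 := by rw [hsu]; exact hku
  have hkv' : C.key (j + 1) v ≠ 0 := by rw [hsv]; exact hkv
  have hact : C.p.act a := by
    by_contra hc
    apply hku
    rw [EDG_.key_some C j u a hu, if_neg hc]
  have eu : C.key j u = kv (C.lo j a u) (C.hi j a u) := by
    rw [EDG_.key_some C j u a hu, if_pos hact]
  have eu1 : C.key (j + 1) u = kv (C.lo (j + 1) a u) (C.hi (j + 1) a u) := by
    rw [EDG_.key_some C (j + 1) u a hu, if_pos hact]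
  have ev : C.key j v = kv (C.lo j a v) (C.hi j a v) := by
    rw [EDG_.key_some C j v a hv, if_pos hact]
  have ev1 : C.key (j + 1) v = kv (C.lo (j + 1) a v) (C.hi (j + 1) a v) := by
    rw [EDG_.key_some C (j + 1) v a hv, if_pos hact]
  have hlo := EDG_.lo_le hB C u v j a hu hv huv
  have hhi := EDG_.hi_le hB C u v j a hu hv huv
  obtain ⟨u1, u2, u3⟩ := EDG_.kv_facts hK _ _ (by rw [← eu]; exact hku)
  obtain ⟨u1', u2', -⟩ := EDG_.kv_facts hK _ _ (by rw [← eu1]; exact hku')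
  obtain ⟨v1, v2, v3⟩ := EDG_.kv_facts hK _ _ (by rw [← ev]; exact hkv)
  obtain ⟨v1', v2', -⟩ := EDG_.kv_facts hK _ _ (by rw [← ev1]; exact hkv')
  rw [← eu] at u1 u2 u3
  rw [← eu1, hsu] at u1' u2'
  rw [← ev] at v1 v2 v3
  rw [← ev1, hsv] at v1' v2'
  by_contra hlt
  rw [not_le] at hlt
  have a1 := u3 (C.key j v) (by omega) (by omega) (by omega)
  have a2 := v3 (C.key j u) (by omega) (by omega) (by omega)
  omega

end Pool.Agent.AcyUp
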