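import Pool.Agent.AcyUp.Targets2

set_option autoImplicit false

/-!
# MP_08c6cd_lc, sublinear tester: the theorem from `tALL`
-/

namespace Pool.Agent.AcyUp

open Finset Pool.Agent.AcyTest
open scoped Classical

namespace ENDpf

/-- the initial labelling -/
noncomputable def l0 (V : Type) : V → Option Lb := fun _ => some []

theorem card_le_of_range {V : Type} [Fintype V] {d : ℕ} (f : Fin d → Option V) (S : Finset V)
    (h : ∀ u ∈ S, ∃ i, f i = some u) : S.card ≤ d := by
  have h1 : S.image some ⊆ univ.image f := by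
    intro o ho
    rw [mem_image] at ho
    obtain ⟨u, hu, rfl⟩ := ho
    obtain ⟨i, hi⟩ := h u hu
    rw [mem_image]
    exact ⟨i, mem_univ _, hi⟩
  have h2 : (S.image some).card = S.card :=
    card_image_of_injective _ (Option.some_injective _)
  calc S.card = (S.image some).card := h2.symm
    _ ≤ (univ.image f).card := card_le_card h1
    _ ≤ (univ : Finset (Fin d)).card := card_image_le
    _ = d := by simp

theorem dg {V : Type} [Fintype V] {d : ℕ} (G : DG V d) : Dg G.E d := by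
  intro v
  refine ⟨card_le_of_range (G.inn v) _ ?_, card_le_of_range (G.out v) _ ?_⟩
  · intro u hu
    rw [mem_filter] at hu
    exact (G.compat u v).1 hu.2
  · intro u hu
    rw [mem_filter] at hu
    exact hu.2

theorem log_pos {d : ℕ} (hd : 1 ≤ d) : 0 < Real.log ((d : ℝ) + 1) := by
  apply Real.log_pos
  have : (1 : ℝ) ≤ d := by exact_mod_cast hd
  linarith

theorem gw (hGRO : tGRO) {V : Type} [Fintype V] {d : ℕ} (hd : 1 ≤ d) (G : DG V d) :
    Gw G.E (l0 V) (Real.log ((d : ℝ) + 1)) 1 := by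
  intro x a hxa b
  have ha : a = [] := by
    have h1 : some ([] : Lb) = some a := hxa
    exact (Option.some_injective _ h1).symm
  subst ha
  have hg : 0 < Real.log ((d : ℝ) + 1) := log_pos hd
  refine ⟨hg, le_refl _, le_refl _, le_refl _, ?_⟩
  have h1 := (hGRO V G.E b (cl (l0 V) (some []))).1 d (dg G) 1 x
  have h2 : Real.exp (gr (Real.log ((d : ℝ) + 1)) [] b * (rd [] b : ℕ)) = (d : ℝ) + 1 := by
    show Real.exp (Real.log ((d : ℝ) + 1) * ((1 : ℕ) : ℝ)) = (d : ℝ) + 1
    rw [Nat.cast_one, mul_one, Real.exp_log (by positivity)]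
  rw [h2]
  have h3 : ((ball G.E b (cl (l0 V) (some [])) 1 x).card : ℝ) ≤ (((d + 1) ^ 1 : ℕ) : ℝ) := by
    exact_mod_cast h1
  have h4 : (((d + 1) ^ 1 : ℕ) : ℝ) = (d : ℝ) + 1 := by push_cast; ring
  rw [← h4]
  exact h3

theorem tf {V : Type} [Fintype V] [Nonempty V] (E : V → V → Prop) :
    TF E (l0 V) = fas E univ := by
  have h1 : labs (l0 V) = {([] : Lb)} := by
    ext a
    simp only [labs, l0, mem_eraseNone, mem_image, mem_univ, true_and, mem_singleton]
    constructor
    · rintro ⟨x, hx⟩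
      exact (Option.some_injective _ hx).symm
    · rintro rfl
      exact ⟨Classical.arbitrary V, rfl⟩
  have h2 : cl (l0 V) (some []) = (univ : Finset V) := by
    ext x
    simp [cl, l0]
  rw [TF, h1, sum_singleton, h2]

theorem st_nonneg {V : Type} [Fintype V] {gm η τm : ℝ} (hg : 0 < gm) (hτ : 0 ≤ τm) :
    0 ≤ st gm η τm (l0 V) := by
  apply sum_nonneg
  intro x _
  show 0 ≤ (if η < gr gm [] true ∧ η < gr gm [] false then
    1 / gr gm [] true + 1 / gr gm [] false else τm)
  split_ifs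
  · show 0 ≤ 1 / gm + 1 / gm
    positivity
  · exact hτ

end ENDpf

open ENDpf in
theorem pEND (hALL : tALL) (hAMP : tAMP) (hTST : tTST) (hFRF : tFRF) (hCMP : tCMP)
    (hGRO : tGRO) : tEND := by
  intro d ε hd hε hε1
  obtain ⟨η, τm, θ1, e, pr, c, n0, hpr, hc, hη, hθ1, hτm, he, hall⟩ := hALL d ε hd hε hε1
  have hp2 : 0 < min pr 1 := lt_min hpr one_pos
  have hp21 : min pr 1 ≤ 1 := min_le_right _ _
  obtain ⟨t, ht⟩ := exists_pow_lt_of_lt_one (show (0 : ℝ) < 1 / 3 by norm_num)
    (show 1 - min pr 1 < 1 by linarith)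
  have hlim : Filter.Tendsto (fun n : ℕ => ((n : ℝ)) ^ (c / 2)) Filter.atTop Filter.atTop :=
    (tendsto_rpow_atTop (half_pos hc)).comp tendsto_natCast_atTop_atTop
  obtain ⟨n1, hn1⟩ := Filter.eventually_atTop.1
    (hlim.eventually_ge_atTop (2 * (d : ℝ) * t))
  refine ⟨c / 2, half_pos hc, max (max n0 n1) 1, fun n hn => ?_⟩
  have hnn0 : n0 ≤ n := le_trans (le_trans (le_max_left _ _) (le_max_left _ _)) hn
  have hnn1 : n1 ≤ n := le_trans (le_trans (le_max_right _ _) (le_max_left _ _)) hn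
  have hn1' : 1 ≤ n := le_trans (le_max_right _ _) hn
  have hnpos : (0 : ℝ) < n := by exact_mod_cast hn1'
  have : NeZero n := ⟨by omega⟩
  have : Nonempty (Fin n) := ⟨0⟩
  obtain ⟨Q, hQ, Ω, iF, iN, D, hD1, hD2⟩ := hall n hnn0
  have hlog : 0 < Real.log ((d : ℝ) + 1) := log_pos hd
  have hcmp : ∀ ω, Cmp Set.univ (fun _ => ())
      (fun G : DG (Fin n) d => (D ω G.E (l0 (Fin n)) : Set (Fin n))) fun _ => Q := by
    intro ω
    exact hD1 ω Set.univ (fun _ => l0 (Fin n))
      (fun x => (hCMP (Fin n) d Set.univ).1 (Option Lb) (some []))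
      (fun G _ => gw hGRO hd G)
  have hcyc : ∀ G ∈ {G : DG (Fin n) d | G.Far ε}, min pr 1 * Fintype.card Ω ≤
      (univ.filter fun ω => Cyc G.E (D ω G.E (l0 (Fin n)))).card := by
    intro G hG
    have hfar : ε * d * n < fas G.E univ := hFRF n d G ε hε.le hG
    have h1 : pr * Fintype.card Ω ≤
        (univ.filter fun ω => Cyc G.E (D ω G.E (l0 (Fin n)))).card := by
      apply hD2 G.E (l0 (Fin n)) (dg G) (gw hGRO hd G)
      · intro x a hxa _
        have ha : a = [] := by
          have h1 : some ([] : Lb) = some a := hxa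
          exact (Option.some_injective _ h1).symm
        subst ha
        show Real.log ((d : ℝ) + 1) * Real.log ((d : ℝ) + 1) ≤ Real.log ((d : ℝ) + 1) ^ 2
        rw [sq]
      · rw [tf, Fintype.card_fin]
        have hst : 0 ≤ st (Real.log ((d : ℝ) + 1)) η τm (l0 (Fin n)) := st_nonneg hlog hτm
        have h2 : θ1 * (τm * n - st (Real.log ((d : ℝ) + 1)) η τm (l0 (Fin n))) ≤
            θ1 * (τm * n) := mul_le_mul_of_nonneg_left (by linarith) hθ1
        have h3 : (e + θ1 * τm) * n ≤ ε * d * n := mul_le_mul_of_nonneg_right he hnpos.le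
        have h4 : (e + θ1 * τm) * n = e * n + θ1 * (τm * n) := by ring
        linarith
    have h5 : min pr 1 * (Fintype.card Ω : ℝ) ≤ pr * Fintype.card Ω :=
      mul_le_mul_of_nonneg_right (min_le_left _ _) (Nat.cast_nonneg _)
    exact le_trans h5 h1
  obtain ⟨Ω', iF', iN', D', hD'1, hD'2⟩ := hAMP (Fin n) d Q (min pr 1) Ω
    (fun ω G => D ω G.E (l0 (Fin n))) t {G : DG (Fin n) d | G.Far ε} hp2.le hcmp hcyc
  obtain ⟨T, hT1, hT2⟩ := hTST n d (t * Q) Ω' D' hD'1
  refine ⟨t * Q, 2 * d * (t * Q), T, ?_, hT1, ?_⟩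
  · have h1 : ((2 * d * (t * Q) : ℕ) : ℝ) = 2 * d * t * Q := by push_cast; ring
    rw [h1]
    have h2 : 2 * (d : ℝ) * t * Q ≤ (n : ℝ) ^ (c / 2) * (n : ℝ) ^ (1 - c) :=
      mul_le_mul (hn1 n hnn1) hQ (Nat.cast_nonneg _) (Real.rpow_nonneg hnpos.le _)
    have h3 : (n : ℝ) ^ (c / 2) * (n : ℝ) ^ (1 - c) = (n : ℝ) ^ (1 - c / 2) := by
      rw [← Real.rpow_add hnpos]
      congr 1
      ring
    rw [← h3]
    exact h2
  · intro G hG
    have h1 := hT2 G
    have h2 := hD'2 G hG
    have hcard : (0 : ℝ) < Fintype.card Ω' := by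
      exact_mod_cast Fintype.card_pos
    have h3 : (1 - min pr 1) ^ t * (Fintype.card Ω' : ℝ) ≤ 1 / 3 * Fintype.card Ω' :=
      mul_le_mul_of_nonneg_right ht.le hcard.le
    have h4 : T.prob G * Fintype.card Ω' ≤ 1 / 3 * Fintype.card Ω' :=
      le_trans h1 (le_trans h2 h3)
    exact le_of_mul_le_mul_right h4 hcard

end Pool.Agent.AcyUp
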