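import Pool.Agent.AcyUp.Targets

set_option autoImplicit false
set_option linter.unusedSectionVars false

/-!
# EXC: exchangeability and telescoping
-/

namespace Pool.Agent.AcyUp

open Finset
open scoped Classical

namespace EXC_

variable {V : Type} [Fintype V] {M : ℕ}

theorem pre_succ (ω : Fin M → V) (i : ℕ) (h : i < M) :
    pre ω (i + 1) = insert (ω ⟨i, h⟩) (pre ω i) := by
  unfold pre
  have e : (univ.filter fun t : Fin M => t.1 < i + 1) =
      insert (⟨i, h⟩ : Fin M) (univ.filter fun t : Fin M => t.1 < i) := by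
    ext t
    simp only [mem_filter, mem_univ, true_and, mem_insert, Fin.ext_iff]
    omega
  rw [e, image_insert]

theorem pre_mono (ω : Fin M → V) {i j : ℕ} (h : i ≤ j) : pre ω i ⊆ pre ω j := by
  unfold pre
  refine image_subset_image fun t ht => ?_
  simp only [mem_filter, mem_univ, true_and] at ht ⊢
  omega

theorem pre_swap (ω : Fin M → V) (i : ℕ) (a b : Fin M) (ha : i ≤ a.1) (hb : i ≤ b.1) :
    pre (ω ∘ Equiv.swap a b) i = pre ω i := by
  unfold pre
  refine image_congr fun t ht => ?_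
  have ht' : t.1 < i := by simpa using ht
  have e : Equiv.swap a b t = t := by
    refine Equiv.swap_apply_of_ne_of_ne ?_ ?_
    · rintro rfl
      omega
    · rintro rfl
      omega
  simp only [Function.comp_apply, e]

theorem als_swap (ω : Fin M → V) (a b : Fin M) : als (ω ∘ Equiv.swap a b) = als ω := by
  unfold als
  ext v
  simp only [mem_image, mem_univ, true_and, Function.comp_apply]
  constructor
  · rintro ⟨t, ht⟩
    exact ⟨_, ht⟩
  · rintro ⟨t, ht⟩
    exact ⟨Equiv.swap a b t, by rw [Equiv.swap_apply_self]; exact ht⟩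

theorem card_swap (i : ℕ) (a b : Fin M) (ha : i ≤ a.1) (hb : i ≤ b.1)
    (Y : Finset V → Finset V → Finset V) :
    (univ.filter fun ω : Fin M → V => ω a ∈ Y (pre ω i) (als ω)).card =
      (univ.filter fun ω : Fin M → V => ω b ∈ Y (pre ω i) (als ω)).card := by
  have inv : ∀ ω : Fin M → V, (ω ∘ Equiv.swap a b) ∘ Equiv.swap a b = ω := by
    intro ω
    funext t
    simp only [Function.comp_apply, Equiv.swap_apply_self]
  refine card_bij (fun ω _ => ω ∘ Equiv.swap a b) ?_ ?_ ?_
  · intro ω hω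
    simp only [mem_filter, mem_univ, true_and] at hω ⊢
    rw [pre_swap ω i a b ha hb, als_swap]
    simpa only [Function.comp_apply, Equiv.swap_apply_right] using hω
  · intro ω _ ω' _ h
    have h' : (ω ∘ Equiv.swap a b) ∘ Equiv.swap a b = (ω' ∘ Equiv.swap a b) ∘ Equiv.swap a b := by
      rw [h]
    rwa [inv, inv] at h'
  · intro ω hω
    refine ⟨ω ∘ Equiv.swap a b, ?_, inv ω⟩
    simp only [mem_filter, mem_univ, true_and] at hω ⊢
    rw [pre_swap ω i a b ha hb, als_swap]
    simpa only [Function.comp_apply, Equiv.swap_apply_left] using hω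

theorem hits_le (ω : Fin M → V) (i : ℕ) (A : Finset V) :
    hits ω i A ≤ ∑ t : Fin M, if i ≤ t.1 ∧ ω t ∈ A then 1 else 0 := by
  rw [← card_filter]
  unfold hits
  calc ((univ.filter fun t : Fin M => i ≤ t.1).image ω ∩ A).card
      ≤ ((univ.filter fun t : Fin M => i ≤ t.1 ∧ ω t ∈ A).image ω).card := by
        refine card_le_card fun v hv => ?_
        simp only [mem_inter, mem_image, mem_filter, mem_univ, true_and] at hv ⊢
        obtain ⟨⟨t, ht, rfl⟩, hA⟩ := hv
        exact ⟨t, ⟨ht, hA⟩, rfl⟩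
    _ ≤ _ := card_image_le

/-- The expected number of later hits. -/
theorem sum_hits (i : ℕ) (hi : i < M) (Y : Finset V → Finset V → Finset V) :
    ∑ ω : Fin M → V, hits ω i (Y (pre ω i) (als ω)) ≤
      M * (univ.filter fun ω : Fin M → V => ω ⟨i, hi⟩ ∈ Y (pre ω i) (als ω)).card := by
  calc ∑ ω : Fin M → V, hits ω i (Y (pre ω i) (als ω))
      ≤ ∑ ω : Fin M → V, ∑ t : Fin M,
          (if i ≤ t.1 ∧ ω t ∈ Y (pre ω i) (als ω) then 1 else 0) :=
        sum_le_sum fun ω _ => hits_le ω i _
    _ = ∑ t : Fin M, ∑ ω : Fin M → V,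
          (if i ≤ t.1 ∧ ω t ∈ Y (pre ω i) (als ω) then 1 else 0) := sum_comm
    _ ≤ ∑ _t : Fin M, (univ.filter fun ω : Fin M → V => ω ⟨i, hi⟩ ∈ Y (pre ω i) (als ω)).card := by
        refine sum_le_sum fun t _ => ?_
        rw [← card_filter]
        by_cases ht : i ≤ t.1
        · rw [← card_swap i t ⟨i, hi⟩ ht le_rfl Y]
          refine card_le_card fun ω hω => ?_
          simp only [mem_filter, mem_univ, true_and] at hω ⊢
          exact hω.2
        · have e : (univ.filter fun ω : Fin M → V => i ≤ t.1 ∧ ω t ∈ Y (pre ω i) (als ω)) = ∅ := by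
            refine filter_eq_empty_iff.2 fun ω _ h => ht h.1
          rw [e, card_empty]
          exact Nat.zero_le _
    _ = _ := by rw [sum_const, card_univ, Fintype.card_fin, smul_eq_mul]

/-- Telescoping for one sequence. -/
theorem tele (i1 N B : ℕ) (Y : Finset V → (V → ℕ) → Finset V) (Φ : Finset V → (V → ℕ) → ℕ)
    (f : V → ℕ) (ω : Fin M → V) (hM : 2 * i1 ≤ M) (hB : Φ (pre ω i1) f ≤ B)
    (hm : ∀ R R' : Finset V, R ⊆ R' → Φ R' f ≤ Φ R f)
    (hd : ∀ (R : Finset V) (s : V), s ∈ Y R f → Φ (insert s R) f + N ≤ Φ R f) :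
    ∀ j, j ≤ i1 → N * (∑ i ∈ range j,
      if ∃ h : i1 + i < M, ω ⟨i1 + i, h⟩ ∈ Y (pre ω (i1 + i)) f then 1 else 0) +
        Φ (pre ω (i1 + j)) f ≤ B := by
  intro j
  induction j with
  | zero =>
    intro _
    simpa using hB
  | succ j ih =>
    intro hj
    have h1 := ih (by omega)
    have hlt : i1 + j < M := by omega
    rw [sum_range_succ, mul_add]
    have h2 : N * (if ∃ h : i1 + j < M, ω ⟨i1 + j, h⟩ ∈ Y (pre ω (i1 + j)) f then 1 else 0) +
        Φ (pre ω (i1 + (j + 1))) f ≤ Φ (pre ω (i1 + j)) f := by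
      rw [show i1 + (j + 1) = (i1 + j) + 1 by ring]
      split_ifs with h
      · obtain ⟨h', hh⟩ := h
        rw [pre_succ ω (i1 + j) h', mul_one, add_comm]
        exact hd _ _ hh
      · rw [mul_zero, zero_add]
        exact hm _ _ (pre_mono ω (Nat.le_succ _))
    omega

end EXC_

open EXC_ in
/-- EXC. -/
theorem pEXC : tEXC := by
  intro V _ M i1 N B F Y Φ hM hB hm hd
  set c : ℕ → ℕ := fun i => (univ.filter fun ω : Fin M → V =>
    ∃ h : i1 + i < M, ω ⟨i1 + i, h⟩ ∈ Y (pre ω (i1 + i)) (F (als ω))).card with hc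
  have h1 : ∀ i ∈ range i1, ∑ ω : Fin M → V,
      hits ω (i1 + i) (Y (pre ω (i1 + i)) (F (als ω))) ≤ M * c i := by
    intro i hi
    have hi' : i < i1 := mem_range.1 hi
    have hlt : i1 + i < M := by omega
    refine (sum_hits (i1 + i) hlt fun R R' => Y R (F R')).trans ?_
    refine Nat.mul_le_mul_left _ (card_le_card fun ω hω => ?_)
    simp only [mem_filter, mem_univ, true_and] at hω ⊢
    exact ⟨hlt, hω⟩
  have h2 : N * ∑ i ∈ range i1, c i ≤ B * Fintype.card V ^ M := by
    calc N * ∑ i ∈ range i1, c i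
        = ∑ ω : Fin M → V, N * (∑ i ∈ range i1,
            if ∃ h : i1 + i < M, ω ⟨i1 + i, h⟩ ∈ Y (pre ω (i1 + i)) (F (als ω)) then 1 else 0) := by
          rw [← mul_sum, sum_comm]
          congr 1
          refine sum_congr rfl fun i _ => ?_
          exact card_filter _ _
      _ ≤ ∑ _ω : Fin M → V, B := by
          refine sum_le_sum fun ω _ => ?_
          have h3 := tele i1 N B Y Φ (F (als ω)) ω hM (hB _ _) (fun R R' h => hm R R' _ h)
            (fun R s hs => hd R (als ω) s hs) i1 le_rfl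
          omega
      _ = _ := by
          rw [sum_const, card_univ, Fintype.card_fun, Fintype.card_fin, smul_eq_mul, mul_comm]
  calc N * ∑ i ∈ range i1, ∑ ω : Fin M → V,
        hits ω (i1 + i) (Y (pre ω (i1 + i)) (F (als ω)))
      ≤ N * ∑ i ∈ range i1, M * c i := Nat.mul_le_mul_left _ (sum_le_sum h1)
    _ = M * (N * ∑ i ∈ range i1, c i) := by rw [← mul_sum]; ring
    _ ≤ M * (B * Fintype.card V ^ M) := Nat.mul_le_mul_left _ h2
    _ = _ := by ring

end Pool.Agent.AcyUp
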