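import Pool.Agent.AcyUp.Targets

set_option autoImplicit false

/-!
# Feedback arc numbers
-/

namespace Pool.Agent.AcyUp

open Finset Pool.Agent.AcyTest
open scoped Classical

namespace FASx

variable {V : Type} {E : V → V → Prop} {d : ℕ}

theorem ex_rk (E : V → V → Prop) (S : Finset V) : ∃ rk : V → ℕ, bad E S rk = fas E S :=
  Nat.sInf_mem (Set.range_nonempty (bad E S))

theorem fas_le (E : V → V → Prop) (S : Finset V) (rk : V → ℕ) : fas E S ≤ bad E S rk :=
  Nat.sInf_le ⟨rk, rfl⟩

theorem bad_mono {S S' : Finset V} (h : S ⊆ S') (rk : V → ℕ) : bad E S rk ≤ bad E S' rk :=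
  card_le_card (filter_subset_filter _ (product_subset_product h h))

theorem fas_mono {S S' : Finset V} (h : S ⊆ S') : fas E S ≤ fas E S' := by
  obtain ⟨rk, hrk⟩ := ex_rk E S'
  rw [← hrk]
  exact (fas_le E S rk).trans (bad_mono h rk)

/-- edges inside `S` -/
def R (E : V → V → Prop) (S : Finset V) (u w : V) : Prop := E u w ∧ u ∈ S ∧ w ∈ S

theorem cyc_iff (S : Finset V) : Cyc E S ↔ ∃ v, Relation.TransGen (R E S) v v := Iff.rfl

theorem not_cyc_of_fas {S : Finset V} (h : fas E S = 0) : ¬ Cyc E S := by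
  obtain ⟨rk, hrk⟩ := ex_rk E S
  rw [h] at hrk
  have h1 : ∀ u w, R E S u w → rk u < rk w := by
    intro u w huw
    by_contra hle
    have : (u, w) ∈ (S ×ˢ S).filter fun p => E p.1 p.2 ∧ rk p.2 ≤ rk p.1 :=
      mem_filter.2 ⟨mem_product.2 ⟨huw.2.1, huw.2.2⟩, huw.1, not_lt.1 hle⟩
    have h2 := card_eq_zero.1 hrk
    rw [h2] at this
    simp at this
  have h2 : ∀ u w, Relation.TransGen (R E S) u w → rk u < rk w := by
    intro u w huw
    induction huw with
    | single h => exact h1 _ _ h
    | tail _ h ih => exact ih.trans (h1 _ _ h)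
  rintro ⟨v, hv⟩
  exact (h2 v v hv).false

theorem fas_of_not_cyc {S : Finset V} (h : ¬ Cyc E S) : fas E S = 0 := by
  have key : bad E S (fun v => (S.filter fun u => Relation.TransGen (R E S) u v).card) = 0 := by
    refine card_eq_zero.2 (filter_eq_empty_iff.2 ?_)
    rintro ⟨u, w⟩ hp ⟨hE, hle⟩
    have hS := mem_product.1 hp
    have hR : R E S u w := ⟨hE, hS.1, hS.2⟩
    have hlt : (S.filter fun x => Relation.TransGen (R E S) x u).card <
        (S.filter fun x => Relation.TransGen (R E S) x w).card := by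
      apply card_lt_card
      rw [ssubset_iff_of_subset]
      · refine ⟨u, mem_filter.2 ⟨hS.1, Relation.TransGen.single hR⟩, ?_⟩
        intro hu
        exact h ⟨u, (mem_filter.1 hu).2⟩
      · intro x hx
        have := mem_filter.1 hx
        exact mem_filter.2 ⟨this.1, this.2.tail hR⟩
    exact absurd hle (not_le.2 hlt)
  have := fas_le E S (fun v => (S.filter fun u => Relation.TransGen (R E S) u v).card)
  omega

theorem cyc_mono {S S' : Finset V} (h : S ⊆ S') (hc : Cyc E S) : Cyc E S' := by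
  obtain ⟨v, hv⟩ := hc
  exact ⟨v, Relation.TransGen.mono (fun _ _ huw => ⟨huw.1, h huw.2.1, h huw.2.2⟩) _ _ hv⟩

theorem cnt_out [Fintype V] (hd : Dg E d) (A : Finset V) (X : Finset (V × V))
    (h : ∀ p ∈ X, E p.1 p.2 ∧ p.1 ∈ A) : X.card ≤ d * A.card := by
  rw [card_eq_sum_card_fiberwise (f := Prod.fst) (t := A) fun p hp => (h p hp).2]
  calc ∑ u ∈ A, (X.filter fun p => p.1 = u).card ≤ ∑ _u ∈ A, d := by
        refine sum_le_sum fun u _ => ?_
        refine (card_le_card_of_injOn Prod.snd (t := univ.filter fun w => E u w) ?_ ?_).trans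
          (hd u).2
        · intro p hp
          have hp' := mem_filter.1 hp
          have := (h p hp'.1).1
          rw [hp'.2] at this
          exact mem_filter.2 ⟨mem_univ _, this⟩
        · intro p hp q hq hpq
          have hp' := (mem_filter.1 hp).2
          have hq' := (mem_filter.1 hq).2
          exact Prod.ext (hp'.trans hq'.symm) hpq
    _ = d * A.card := by rw [sum_const, smul_eq_mul, mul_comm]

theorem cnt_in [Fintype V] (hd : Dg E d) (A : Finset V) (X : Finset (V × V))
    (h : ∀ p ∈ X, E p.1 p.2 ∧ p.2 ∈ A) : X.card ≤ d * A.card := by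
  rw [card_eq_sum_card_fiberwise (f := Prod.snd) (t := A) fun p hp => (h p hp).2]
  calc ∑ u ∈ A, (X.filter fun p => p.2 = u).card ≤ ∑ _u ∈ A, d := by
        refine sum_le_sum fun u _ => ?_
        refine (card_le_card_of_injOn Prod.fst (t := univ.filter fun w => E w u) ?_ ?_).trans
          (hd u).1
        · intro p hp
          have hp' := mem_filter.1 hp
          have := (h p hp'.1).1
          rw [hp'.2] at this
          exact mem_filter.2 ⟨mem_univ _, this⟩
        · intro p hp q hq hpq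
          have hp' := (mem_filter.1 hp).2
          have hq' := (mem_filter.1 hq).2
          exact Prod.ext hpq (hp'.trans hq'.symm)
    _ = d * A.card := by rw [sum_const, smul_eq_mul, mul_comm]

theorem fas_deg [Fintype V] (hd : Dg E d) (S : Finset V) : fas E S ≤ d * S.card :=
  (fas_le E S fun _ => 0).trans <| cnt_out hd S _ fun _ hp => by
    have := mem_filter.1 hp
    exact ⟨this.2.1, (mem_product.1 this.1).1⟩

theorem fas_remove [Fintype V] (hd : Dg E d) (S T : Finset V) :
    fas E S ≤ fas E (S \ T) + 2 * d * T.card := by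
  obtain ⟨rk, hrk⟩ := ex_rk E (S \ T)
  refine (fas_le E S rk).trans ?_
  rw [← hrk]
  set X1 : Finset (V × V) := univ.filter fun p => E p.1 p.2 ∧ p.1 ∈ T with hX1
  set X2 : Finset (V × V) := univ.filter fun p => E p.1 p.2 ∧ p.2 ∈ T with hX2
  have h1 : X1.card ≤ d * T.card := cnt_out hd T X1 fun p hp => (mem_filter.1 hp).2
  have h2 : X2.card ≤ d * T.card := cnt_in hd T X2 fun p hp => (mem_filter.1 hp).2
  have hsub : ((S ×ˢ S).filter fun p => E p.1 p.2 ∧ rk p.2 ≤ rk p.1) ⊆
      (((S \ T) ×ˢ (S \ T)).filter fun p => E p.1 p.2 ∧ rk p.2 ≤ rk p.1) ∪ (X1 ∪ X2) := by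
    intro p hp
    have hp' := mem_filter.1 hp
    have hS := mem_product.1 hp'.1
    by_cases hp1 : p.1 ∈ T
    · exact mem_union_right _ (mem_union_left _ (mem_filter.2 ⟨mem_univ _, hp'.2.1, hp1⟩))
    · by_cases hp2 : p.2 ∈ T
      · exact mem_union_right _ (mem_union_right _ (mem_filter.2 ⟨mem_univ _, hp'.2.1, hp2⟩))
      · exact mem_union_left _ (mem_filter.2 ⟨mem_product.2 ⟨mem_sdiff.2 ⟨hS.1, hp1⟩,
          mem_sdiff.2 ⟨hS.2, hp2⟩⟩, hp'.2⟩)
  have h3 := card_le_card hsub
  have h4 := card_union_le (((S \ T) ×ˢ (S \ T)).filter fun p => E p.1 p.2 ∧ rk p.2 ≤ rk p.1)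
    (X1 ∪ X2)
  have h5 := card_union_le X1 X2
  have h6 : 2 * d * T.card = d * T.card + d * T.card := by ring
  unfold bad
  omega

theorem fas_key (S : Finset V) (key : V → ℕ) : fas E S ≤
    (∑ c ∈ S.image key, fas E (S.filter fun x => key x = c)) +
      ((S ×ˢ S).filter fun p => E p.1 p.2 ∧ key p.2 < key p.1).card := by
  choose rk hrk using fun c : ℕ => ex_rk E (S.filter fun x => key x = c)
  set B : ℕ := (∑ x ∈ S, rk (key x) x) + 1 with hB
  have hlt : ∀ x ∈ S, rk (key x) x < B := fun x hx =>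
    Nat.lt_succ_of_le (single_le_sum (f := fun x => rk (key x) x) (fun _ _ => Nat.zero_le _) hx)
  set r : V → ℕ := fun x => key x * B + rk (key x) x with hr
  refine (fas_le E S r).trans ?_
  have hsub : ((S ×ˢ S).filter fun p => E p.1 p.2 ∧ r p.2 ≤ r p.1) ⊆
      ((S.image key).biUnion fun c =>
        (((S.filter fun x => key x = c) ×ˢ (S.filter fun x => key x = c)).filter
          fun p => E p.1 p.2 ∧ rk c p.2 ≤ rk c p.1)) ∪
      ((S ×ˢ S).filter fun p => E p.1 p.2 ∧ key p.2 < key p.1) := by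
    rintro ⟨u, v⟩ hp
    obtain ⟨hp1, hE, hle⟩ := mem_filter.1 hp
    obtain ⟨hu, hv⟩ := mem_product.1 hp1
    simp only at hu hv hE hle
    rcases lt_trichotomy (key v) (key u) with h | h | h
    · exact mem_union_right _ (mem_filter.2 ⟨hp1, hE, h⟩)
    · refine mem_union_left _ (mem_biUnion.2 ⟨key u, mem_image_of_mem key hu, ?_⟩)
      refine mem_filter.2 ⟨mem_product.2 ⟨mem_filter.2 ⟨hu, rfl⟩, mem_filter.2 ⟨hv, h⟩⟩, hE, ?_⟩
      simp only [hr] at hle
      rw [h] at hle
      simp only
      omega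
    · exfalso
      have h1 := hlt u hu
      have h2 : (key u + 1) * B ≤ key v * B := Nat.mul_le_mul_right B h
      simp only [hr] at hle
      have h3 : (key u + 1) * B = key u * B + B := by ring
      omega
  refine (card_le_card hsub).trans ((card_union_le _ _).trans ?_)
  refine Nat.add_le_add_right ?_ _
  refine card_biUnion_le.trans (sum_le_sum fun c _ => ?_)
  rw [← hrk c]
  exact le_rfl

end FASx

open FASx in
theorem pFAS : tFAS := by
  intro V _ E d
  exact ⟨ex_rk E, fas_le E, fun _ _ h => fas_mono h,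
    fun _ => ⟨not_cyc_of_fas, fas_of_not_cyc⟩, fun _ _ h hc => cyc_mono h hc,
    fun hd => fas_deg hd, fun hd => fas_remove hd, fas_key⟩

end Pool.Agent.AcyUp
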