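import Pool.Agent.AcyUp.Targets

set_option autoImplicit false

/-!
# MP_08c6cd_lc, target FIN: the last step
-/

namespace Pool.Agent.AcyUp

open Finset Pool.Agent.AcyTest
open scoped Classical

namespace FINx

lemma exp_le {η : ℝ} (h0 : 0 < η) (h1 : η ≤ 1) : Real.exp η - 1 ≤ 2 * η := by
  have h := Real.abs_exp_sub_one_le (x := η) (by rw [abs_of_pos h0]; exact h1)
  rw [abs_of_pos h0] at h
  exact (le_abs_self _).trans h

variable {V : Type} [Fintype V]

lemma mem_cl {α : Type} {l : V → α} {a : α} {x : V} : x ∈ cl l a ↔ l x = a := by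
  unfold cl
  simp

lemma exists_of_mem_labs {l : V → Option Lb} {a : Lb} (h : a ∈ labs l) : ∃ x, l x = some a := by
  unfold labs at h
  rw [mem_eraseNone] at h
  obtain ⟨x, -, hx⟩ := mem_image.1 h
  exact ⟨x, hx⟩

/-- disjoint parts of the classes -/
lemma sum_card_le (l : V → Option Lb) (F : Lb → Finset V) (T : Finset V)
    (h1 : ∀ a, F a ⊆ cl l (some a)) (h2 : ∀ a ∈ labs l, F a ⊆ T) :
    ∑ a ∈ labs l, ((F a).card : ℝ) ≤ T.card := by
  have hdisj : ∀ a ∈ labs l, ∀ b ∈ labs l, a ≠ b → Disjoint (F a) (F b) := by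
    intro a _ b _ hab
    rw [Finset.disjoint_left]
    intro x hx hy
    have e1 := mem_cl.1 (h1 a hx)
    have e2 := mem_cl.1 (h1 b hy)
    rw [e1] at e2
    exact hab (Option.some.inj e2)
  have h := Finset.card_biUnion hdisj
  have hle : ((labs l).biUnion F).card ≤ T.card := by
    apply card_le_card
    intro x hx
    obtain ⟨a, ha, hxa⟩ := mem_biUnion.1 hx
    exact h2 a ha hxa
  rw [h] at hle
  exact_mod_cast hle

end FINx

open FINx in
/-- FIN: the last step -/
theorem pFIN (hC : tCRV) : tFIN := by
  intro V _ E d l gm η Rm hD hG hη hη1 hfin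
  -- direction of a finished label
  have hdir : ∀ a ∈ labs l, gr gm a (decide (gr gm a true ≤ η)) ≤ η := by
    intro a ha
    obtain ⟨x, hx⟩ := exists_of_mem_labs ha
    by_cases h : gr gm a true ≤ η
    · rw [decide_eq_true h]; exact h
    · rw [decide_eq_false h]
      by_contra h2
      exact hfin x a hx ⟨not_le.1 h, not_le.1 h2⟩
  have hone : ∀ a ∈ labs l, (fas E (cl l (some a)) : ℝ) ≤
      d * (((cl l (some a)).filter fun x => Cyc E (ball E (decide (gr gm a true ≤ η))
        (cl l (some a)) (rd a (decide (gr gm a true ≤ η))) x)).card : ℝ) +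
      d * (Real.exp η - 1) * ((cl l (some a)).card : ℝ) := by
    intro a ha
    obtain ⟨x0, hx0⟩ := exists_of_mem_labs ha
    refine hC V E d (decide (gr gm a true ≤ η)) (cl l (some a))
      (rd a (decide (gr gm a true ≤ η))) η hD ?_ hη.le ?_
    · exact (hG x0 a hx0 _).2.2.1
    · intro x hx
      refine ((hG x a (mem_cl.1 hx) _).2.2.2.2).trans ?_
      apply Real.exp_le_exp.2
      exact mul_le_mul_of_nonneg_right (hdir a ha) (Nat.cast_nonneg _)
  have hd0 : (0 : ℝ) ≤ d := Nat.cast_nonneg d
  have hsum1 := sum_card_le l (fun a => (cl l (some a)).filter fun x =>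
      Cyc E (ball E (decide (gr gm a true ≤ η)) (cl l (some a))
        (rd a (decide (gr gm a true ≤ η))) x))
      (univ.filter fun x => Cyc E (finD E l gm η x)) (fun a => filter_subset _ _) (by
        intro a _ x hx
        obtain ⟨hx1, hx2⟩ := mem_filter.1 hx
        rw [mem_filter]
        refine ⟨mem_univ _, ?_⟩
        have e : finD E l gm η x = ball E (decide (gr gm a true ≤ η)) (cl l (some a))
            (rd a (decide (gr gm a true ≤ η))) x := by
          unfold finD
          rw [mem_cl.1 hx1]
        rw [e]; exact hx2)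
  have hsum2 := sum_card_le l (fun a => cl l (some a)) univ (fun a => Finset.Subset.refl _)
    (fun a _ => subset_univ _)
  have hTF : (TF E l : ℝ) = ∑ a ∈ labs l, (fas E (cl l (some a)) : ℝ) := by
    unfold TF
    push_cast
    rfl
  rw [hTF]
  calc ∑ a ∈ labs l, (fas E (cl l (some a)) : ℝ)
      ≤ ∑ a ∈ labs l, (d * (((cl l (some a)).filter fun x =>
          Cyc E (ball E (decide (gr gm a true ≤ η))
          (cl l (some a)) (rd a (decide (gr gm a true ≤ η))) x)).card : ℝ) +
          d * (Real.exp η - 1) * ((cl l (some a)).card : ℝ)) := Finset.sum_le_sum hone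
    _ = d * ∑ a ∈ labs l, (((cl l (some a)).filter fun x =>
          Cyc E (ball E (decide (gr gm a true ≤ η))
          (cl l (some a)) (rd a (decide (gr gm a true ≤ η))) x)).card : ℝ) +
          d * (Real.exp η - 1) * ∑ a ∈ labs l, ((cl l (some a)).card : ℝ) := by
        rw [Finset.sum_add_distrib, Finset.mul_sum, Finset.mul_sum]
    _ ≤ d * (univ.filter fun x => Cyc E (finD E l gm η x)).card +
          d * (2 * η) * (Fintype.card V : ℝ) := by
        refine add_le_add (mul_le_mul_of_nonneg_left hsum1 hd0) ?_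
        have h3 : (0 : ℝ) ≤ Real.exp η - 1 := by
          have := Real.one_le_exp hη.le
          linarith
        have h4 : ∑ a ∈ labs l, ((cl l (some a)).card : ℝ) ≤ (Fintype.card V : ℝ) := by
          simpa using hsum2
        have h5 : (0 : ℝ) ≤ ∑ a ∈ labs l, ((cl l (some a)).card : ℝ) :=
          Finset.sum_nonneg fun _ _ => Nat.cast_nonneg _
        exact mul_le_mul (mul_le_mul_of_nonneg_left (exp_le hη hη1) hd0) h4 h5 (by positivity)
    _ = d * (univ.filter fun x => Cyc E (finD E l gm η x)).card +
          2 * d * η * Fintype.card V := by ring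

end Pool.Agent.AcyUp
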