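import Pool.Agent.AcyUp.Targets2
import Pool.Agent.AcyTest.REL

set_option autoImplicit false

/-!
# Far from acyclic means large feedback arc number
-/

namespace Pool.Agent.AcyUp

open Finset Pool.Agent.AcyTest
open scoped Classical

theorem pFRF : tFRF := by
  intro n d G ε _ hfar
  obtain ⟨rk, hrk⟩ : ∃ rk : Fin n → ℕ, bad G.E univ rk = fas G.E univ :=
    Nat.sInf_mem (Set.range_nonempty (bad G.E univ))
  obtain ⟨G', hG'⟩ := Pool.Agent.AcyTest.tREL (Fin n) d (fun u v => G.E u v ∧ rk u < rk v)
    (fun u => (Set.ncard_le_ncard (fun v hv => hv.1) (Set.toFinite _)).trans (REL.ncard_out G u))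
    (fun v => (Set.ncard_le_ncard (fun u hu => hu.1) (Set.toFinite _)).trans (REL.ncard_inn G v))
    (fun v hv => lt_irrefl _ hv.2)
  have hacy : G'.Acyclic := by
    intro v hv
    have h1 : ∀ u w, Relation.TransGen G'.E u w → rk u < rk w := by
      intro u w h
      induction h with
      | single h => exact ((hG' _ _).1 h).2
      | tail _ h ih => exact ih.trans ((hG' _ _).1 h).2
    exact lt_irrefl _ (h1 v v hv)
  have hd : G.diff G' = fas G.E univ := by
    rw [← hrk]
    unfold DG.diff bad
    rw [← Set.ncard_coe_finset]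
    congr 1
    ext p
    simp only [Set.mem_ofPred_eq, univ_product_univ, coe_filter, mem_univ, true_and, hG']
    constructor
    · intro h
      by_cases h1 : G.E p.1 p.2
      · refine ⟨h1, ?_⟩
        by_contra h2
        push Not at h2
        exact h ⟨fun _ => ⟨h1, h2⟩, fun h => h.1⟩
      · exact (h ⟨fun h2 => absurd h2 h1, fun h2 => h2.1⟩).elim
    · rintro ⟨h1, h2⟩ h
      have := (h.1 h1).2
      omega
  rw [← hd]
  exact hfar G' hacy

end Pool.Agent.AcyUp
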