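import Pool.Agent.AcyUp.Targets2

set_option autoImplicit false

/-! ACU-GDC: the good events are not rare -/

namespace Pool.Agent.AcyUp

open Finset Pool.Agent.AcyTest
open scoped Classical

namespace GDC_

/-- indicator of a proposition -/
noncomputable def ind (q : Prop) : ℝ := if q then 1 else 0

theorem ind_nonneg (q : Prop) : 0 ≤ ind q := by
  unfold ind
  split_ifs <;> norm_num

theorem ind_true {q : Prop} (h : q) : ind q = 1 := if_pos h

theorem ind_false {q : Prop} (h : ¬ q) : ind q = 0 := if_neg h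

theorem card_ind {X : Type} [Fintype X] (P : X → Prop) [DecidablePred P] :
    ((univ.filter P).card : ℝ) = ∑ y, ind (P y) := by
  rw [Finset.natCast_card_filter]
  refine Finset.sum_congr rfl fun y _ => ?_
  by_cases h : P y
  · rw [if_pos h, ind_true h]
  · rw [if_neg h, ind_false h]

theorem card_ind' {N : ℕ} (P : ℕ → Prop) [DecidablePred P] :
    (((range N).filter P).card : ℝ) = ∑ y : Fin N, ind (P y) := by
  rw [Finset.natCast_card_filter, Finset.sum_range]
  refine Finset.sum_congr rfl fun y _ => ?_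
  by_cases h : P y
  · rw [if_pos h, ind_true h]
  · rw [if_neg h, ind_false h]

theorem sum5 {A B C D F : Type} [Fintype A] [Fintype B] [Fintype C] [Fintype D] [Fintype F]
    (f : A × B × C × D × F → ℝ) :
    ∑ y, f y = ∑ a, ∑ b, ∑ c, ∑ d, ∑ e, f (a, b, c, d, e) := by
  simp only [Fintype.sum_prod_type]

/-- few indices have a large value -/
theorem few (n m : ℕ) (ε : ℝ) (hε : 0 < ε) (hn : 0 < n) (f : ℕ → ℕ)
    (h : ∑ o ∈ range m, f o ≤ n) :
    ∑ o : Fin m, ind (¬ (f o.1 : ℝ) ≤ ε * n) ≤ 1 / ε := by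
  have hn' : (0 : ℝ) < n := by exact_mod_cast hn
  have h1 : ∀ o : Fin m, ind (¬ (f o.1 : ℝ) ≤ ε * n) ≤ (f o.1 : ℝ) / (ε * n) := by
    intro o
    by_cases h2 : (f o.1 : ℝ) ≤ ε * n
    · rw [ind_false (not_not.2 h2)]
      positivity
    · rw [ind_true h2, le_div_iff₀ (by positivity), one_mul]
      exact (not_le.1 h2).le
  have h2 : ∑ o : Fin m, (f o.1 : ℝ) ≤ n := by
    rw [← Finset.sum_range (fun o => (f o : ℝ))]
    exact_mod_cast h
  calc ∑ o : Fin m, ind (¬ (f o.1 : ℝ) ≤ ε * n) ≤ ∑ o : Fin m, (f o.1 : ℝ) / (ε * n) :=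
        Finset.sum_le_sum fun o _ => h1 o
    _ = (∑ o : Fin m, (f o.1 : ℝ)) / (ε * n) := by rw [Finset.sum_div]
    _ ≤ n / (ε * n) := by gcongr
    _ = 1 / ε := by field_simp

end GDC_

open GDC_

theorem pGDC (hYBD : tYBD) (hIVD : tIVD) (hWIN : tWIN) (hJSE : tJSE) (hCRO : tCRO)
    (hMON : tMON) : tGDC := by
  intro V _ _ E l d p θ τm θ1 ε1 ε2 ε4 Rm Rm' hR hG
  obtain ⟨hNum, hd, hη, hgm, -, hε1, -, hε4, hh, hmb, hhm, hm2, hi1, hi1M, hkM, hkn, hkε, hsum,
    -, -, -, -⟩ := hR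
  obtain ⟨hNs, hNt, -, -, -, hrad⟩ := hNum
  set n : ℕ := Fintype.card V with hn
  have hn0 : 0 < n := Fintype.card_pos
  have hn0' : (0 : ℝ) < n := by exact_mod_cast hn0
  have hm1 : 1 ≤ p.m := le_trans (Nat.one_le_iff_ne_zero.2 (by positivity)) hhm
  have hM1 : 1 ≤ p.M := by omega
  have hmA : ∀ x a, l x = some a → p.act a → p.m ≤ p.A a := by
    intro x a hx ha
    have h1 : LbOK p.gm Rm a := fun b => by
      obtain ⟨b1, b2, b3, b4, -⟩ := hG x a hx b
      exact ⟨b1, b2, b3, b4⟩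
    have h2 := (hrad a h1 ha).1
    unfold Pm.A
    omega
  set X : ℝ := (2 ^ p.k : ℝ) ^ (2 * p.i1) * Real.exp (-(p.M / (10 * 2 ^ p.k))) with hX
  have hX0 : 0 ≤ X := by positivity
  have hpw : ∀ i : ℕ, i < p.i1 → ((2 : ℝ) ^ p.k) ^ (p.i1 + i) * Real.exp (-(p.M / (10 * 2 ^ p.k)))
      ≤ X := by
    intro i hi
    rw [hX]
    gcongr
    · exact one_le_pow₀ (by norm_num)
    · omega
  -- the events
  let PC : (Fin p.M → V) → Prop := fun ω => Cyc E (seedD E l p (als ω))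
  let P1 : (Fin p.M → V) → ℕ → Prop := fun ω i => ¬ PC ω ∧
    (n : ℝ) / 2 ^ p.k + ((p.i1 + i : ℕ) : ℝ) < (univ.filter fun x => ∃ a, l x = some a ∧
      p.act a ∧ (ctx E l p ω (p.i1 + i)).key p.m x = 0).card
  let P2 : (Fin p.M → V) → ℕ → ℕ → Prop := fun ω i j => ¬ PC ω ∧ ∃ a c, p.act a ∧ Odd c ∧
    65 * (n : ℝ) / 2 ^ p.k < ((ctx E l p ω (p.i1 + i)).nd j a c).card
  let P3 : (Fin p.M → V) → ℕ → ℕ → Prop := fun ω i j =>
    ε4 * n ≤ ((ctx E l p ω (p.i1 + i)).Y j).card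
  let P4 : (Fin p.M → V) → ℕ → ℕ → Prop := fun ω i j =>
    ((univ.filter fun x => (ctx E l p ω (p.i1 + i)).T (j + 1) x <
      (ctx E l p ω (p.i1 + i)).T j x).card : ℝ) * p.mb ≤
    4 * p.k * ((univ.filter fun x => 1 ≤ (ctx E l p ω (p.i1 + i)).T j x).card +
      n / 2 ^ p.h)
  let P5 : (Fin p.M → V) → ℕ → ℕ → ℕ → Prop := fun ω i j o =>
    ¬ (((ctx E l p ω (p.i1 + i)).cr1 j o).card : ℝ) ≤ ε4 * n
  let P6 : (Fin p.M → V) → ℕ → ℕ → ℕ → Prop := fun ω i j o =>
    ¬ (((ctx E l p ω (p.i1 + i)).cr2 j o).card : ℝ) ≤ ε4 * n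
  -- pointwise
  have hpt : ∀ y : (Fin p.M → V) × Fin p.i1 × Fin (p.h * p.mb) × Fin p.m × Fin p.m2,
      ind (P4 y.1 y.2.1 y.2.2.1) ≤ ind (Cyc E (seedD E l p (als y.1)) ∨
        good E l p ε4 y.1 y.2.1 y.2.2.1 y.2.2.2.1 y.2.2.2.2) + ind (P1 y.1 y.2.1) +
        ind (P2 y.1 y.2.1 y.2.2.1) + ind (P3 y.1 y.2.1 y.2.2.1) +
        ind (P5 y.1 y.2.1 y.2.2.1 y.2.2.2.1) + ind (P6 y.1 y.2.1 y.2.2.1 y.2.2.2.2) := by
    intro y
    have n0 := ind_nonneg (Cyc E (seedD E l p (als y.1)) ∨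
        good E l p ε4 y.1 y.2.1 y.2.2.1 y.2.2.2.1 y.2.2.2.2)
    have n1 := ind_nonneg (P1 y.1 y.2.1)
    have n2 := ind_nonneg (P2 y.1 y.2.1 y.2.2.1)
    have n3 := ind_nonneg (P3 y.1 y.2.1 y.2.2.1)
    have n5 := ind_nonneg (P5 y.1 y.2.1 y.2.2.1 y.2.2.2.1)
    have n6 := ind_nonneg (P6 y.1 y.2.1 y.2.2.1 y.2.2.2.2)
    by_cases h4 : P4 y.1 y.2.1 y.2.2.1
    swap
    · rw [ind_false h4]
      positivity
    rw [ind_true h4]
    by_cases h1 : P1 y.1 y.2.1
    · rw [ind_true h1]; linarith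
    by_cases h2 : P2 y.1 y.2.1 y.2.2.1
    · rw [ind_true h2]; linarith
    by_cases h3 : P3 y.1 y.2.1 y.2.2.1
    · rw [ind_true h3]; linarith
    by_cases h5 : P5 y.1 y.2.1 y.2.2.1 y.2.2.2.1
    · rw [ind_true h5]; linarith
    by_cases h6 : P6 y.1 y.2.1 y.2.2.1 y.2.2.2.2
    · rw [ind_true h6]; linarith
    have hgd : Cyc E (seedD E l p (als y.1)) ∨
        good E l p ε4 y.1 y.2.1 y.2.2.1 y.2.2.2.1 y.2.2.2.2 := by
      by_cases hc : Cyc E (seedD E l p (als y.1))
      · exact Or.inl hc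
      · refine Or.inr ⟨?_, ?_, ?_, h4, not_not.1 h5, not_not.1 h6⟩
        · by_contra h
          apply h1
          refine ⟨hc, ?_⟩
          push_cast
          exact not_le.1 h
        · intro a c ha hcd
          by_contra h
          exact h2 ⟨hc, a, c, ha, hcd, not_le.1 h⟩
        · exact (not_le.1 h3).le
    rw [ind_true hgd]
    linarith
  -- the total number
  have hcard : (Fintype.card ((Fin p.M → V) × Fin p.i1 × Fin (p.h * p.mb) × Fin p.m ×
      Fin p.m2) : ℝ) = (n : ℝ) ^ p.M * (p.i1 * ((p.h * p.mb) * (p.m * p.m2))) := by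
    simp only [Fintype.card_prod, Fintype.card_fun, Fintype.card_fin, ← hn]
    push_cast
    ring
  -- lower bound
  have hJ : ∀ (ω : Fin p.M → V) (i : ℕ), (p.mb : ℝ) / 2 ≤
      ∑ j : Fin (p.h * p.mb), ind (P4 ω i j) := by
    intro ω i
    have h1 := hJSE V (fun j x => (ctx E l p ω (p.i1 + i)).T j x) p.k p.h p.mb hh hmb
      (fun j x => (hMON V (ctx E l p ω (p.i1 + i)) x j (j + 1) _ (Nat.le_succ j)
        (Finset.Subset.refl _)).2.2.1)
      (fun x => (hMON V (ctx E l p ω (p.i1 + i)) x 0 0 _ le_rfl (Finset.Subset.refl _)).2.1)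
    have h3 := (Nat.cast_le (α := ℝ)).2 h1
    rw [Nat.cast_mul, Nat.cast_mul, Nat.cast_mul, card_ind'] at h3
    have h2 : (p.h : ℝ) * p.mb ≤ ((2 : ℕ) : ℝ) * p.h *
        ∑ j : Fin (p.h * p.mb), ind (P4 ω i j) := h3
    have hh' : (0 : ℝ) < p.h := by exact_mod_cast hh
    have h4 : (p.h : ℝ) * p.mb ≤ p.h * (2 * ∑ j : Fin (p.h * p.mb), ind (P4 ω i j)) := by
      calc (p.h : ℝ) * p.mb ≤ _ := h2
        _ = _ := by
          push_cast
          ring
    have h5 := le_of_mul_le_mul_left h4 hh'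
    linarith
  have hL : (n : ℝ) ^ p.M * (p.i1 * (p.mb / 2 * (p.m * p.m2))) ≤
      ∑ y : (Fin p.M → V) × Fin p.i1 × Fin (p.h * p.mb) × Fin p.m × Fin p.m2,
        ind (P4 y.1 y.2.1 y.2.2.1) := by
    rw [sum5]
    simp only [Finset.sum_const, Finset.card_univ, Fintype.card_fin, nsmul_eq_mul]
    calc (n : ℝ) ^ p.M * (p.i1 * (p.mb / 2 * (p.m * p.m2))) =
        ∑ _ω : Fin p.M → V, ∑ _i : Fin p.i1, (p.mb / 2 * (p.m * p.m2) : ℝ) := by
          simp only [Finset.sum_const, Finset.card_univ, Fintype.card_fin, Fintype.card_fun,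
            nsmul_eq_mul, ← hn]
          push_cast
          ring
      _ ≤ _ := by
          refine Finset.sum_le_sum fun ω _ => Finset.sum_le_sum fun i _ => ?_
          rw [show ∑ x : Fin (p.h * p.mb), (p.m : ℝ) * (p.m2 * ind (P4 ω i x)) =
            (∑ x : Fin (p.h * p.mb), ind (P4 ω i x)) * (p.m * p.m2) by
              rw [Finset.sum_mul]
              exact Finset.sum_congr rfl fun x _ => by ring]
          gcongr
          exact hJ ω i
  -- invalid vertices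
  have hU1 : ∑ y : (Fin p.M → V) × Fin p.i1 × Fin (p.h * p.mb) × Fin p.m × Fin p.m2,
        ind (P1 y.1 y.2.1) ≤
      (n : ℝ) ^ p.M * (p.i1 * ((p.h * p.mb) * (p.m * p.m2))) * X := by
    rw [sum5]
    simp only [Finset.sum_const, Finset.card_univ, Fintype.card_fin, nsmul_eq_mul]
    rw [Finset.sum_comm]
    calc ∑ i : Fin p.i1, ∑ ω : Fin p.M → V, (((p.h * p.mb : ℕ) : ℝ) * (p.m * (p.m2 *
          ind (P1 ω i)))) ≤ ∑ _i : Fin p.i1, ((p.h * p.mb) * (p.m * p.m2)) * (X * (n : ℝ) ^ p.M) := by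
          refine Finset.sum_le_sum fun i _ => ?_
          rw [show ∑ ω : Fin p.M → V, (((p.h * p.mb : ℕ) : ℝ) * (p.m * (p.m2 *
            ind (P1 ω i)))) = ((p.h * p.mb) * (p.m * p.m2)) * ∑ ω : Fin p.M → V, ind (P1 ω i) by
              rw [Finset.mul_sum]
              push_cast
              exact Finset.sum_congr rfl fun x _ => by ring]
          gcongr
          have h1 := hIVD V E l p (p.i1 + i) (by have := i.2; omega) hM1 hkn hmA
          rw [card_ind] at h1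
          refine h1.trans ?_
          gcongr
          exact hpw i i.2
      _ = _ := by
          simp only [Finset.sum_const, Finset.card_univ, Fintype.card_fin, nsmul_eq_mul]
          ring
  -- windows
  have hU2 : ∑ y : (Fin p.M → V) × Fin p.i1 × Fin (p.h * p.mb) × Fin p.m × Fin p.m2,
        ind (P2 y.1 y.2.1 y.2.2.1) ≤
      (n : ℝ) ^ p.M * (p.i1 * ((p.h * p.mb) * (p.m * p.m2))) * (n * X) := by
    rw [sum5]
    simp only [Finset.sum_const, Finset.card_univ, Fintype.card_fin, nsmul_eq_mul]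
    rw [Finset.sum_comm]
    calc ∑ i : Fin p.i1, ∑ ω : Fin p.M → V, ∑ j : Fin (p.h * p.mb), ((p.m : ℝ) * (p.m2 *
          ind (P2 ω i j))) ≤ ∑ _i : Fin p.i1, ∑ _j : Fin (p.h * p.mb),
            (p.m * p.m2) * (n * X * (n : ℝ) ^ p.M) := by
          refine Finset.sum_le_sum fun i _ => ?_
          rw [Finset.sum_comm]
          refine Finset.sum_le_sum fun j _ => ?_
          rw [show ∑ ω : Fin p.M → V, ((p.m : ℝ) * (p.m2 *
            ind (P2 ω i j))) = (p.m * p.m2) * ∑ ω : Fin p.M → V, ind (P2 ω i j) by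
              rw [Finset.mul_sum]
              exact Finset.sum_congr rfl fun x _ => by ring]
          gcongr
          have h1 := hWIN V E l p (p.i1 + i) j (by have := i.2; omega) hkM hkn
            (by have := j.2; omega) hmA
          rw [card_ind] at h1
          refine h1.trans ?_
          rw [mul_assoc (n : ℝ)]
          gcongr
          exact hpw i i.2
      _ = _ := by
          simp only [Finset.sum_const, Finset.card_univ, Fintype.card_fin, nsmul_eq_mul]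
          push_cast
          ring
  -- the set `Y`
  have hNs' : (0 : ℝ) < p.Ns := by
    have : 0 < p.Ns := by omega
    exact_mod_cast this
  have hi1' : (0 : ℝ) < p.i1 := by exact_mod_cast hi1
  have hU3 : ∑ y : (Fin p.M → V) × Fin p.i1 × Fin (p.h * p.mb) × Fin p.m × Fin p.m2,
        ind (P3 y.1 y.2.1 y.2.2.1) ≤
      (n : ℝ) ^ p.M * (p.i1 * ((p.h * p.mb) * (p.m * p.m2))) *
        (32 * p.k * n / (ε4 * p.Ns * p.i1) + X) := by
    rw [sum5]
    simp only [Finset.sum_const, Finset.card_univ, Fintype.card_fin, nsmul_eq_mul]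
    have hcomm : ∑ ω : Fin p.M → V, ∑ i : Fin p.i1, ∑ j : Fin (p.h * p.mb), ((p.m : ℝ) * (p.m2 *
        ind (P3 ω i j))) = ∑ j : Fin (p.h * p.mb), (p.m * p.m2) * ∑ i : Fin p.i1,
          ∑ ω : Fin p.M → V, ind (P3 ω i j) := by
      rw [Finset.sum_comm]
      rw [Finset.sum_congr rfl (fun i _ => Finset.sum_comm)]
      rw [Finset.sum_comm]
      refine Finset.sum_congr rfl fun j _ => ?_
      rw [Finset.mul_sum]
      refine Finset.sum_congr rfl fun i _ => ?_
      rw [Finset.mul_sum]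
      exact Finset.sum_congr rfl fun x _ => by ring
    rw [hcomm]
    have hj : ∀ j : ℕ, ∑ i : Fin p.i1, ∑ ω : Fin p.M → V, ind (P3 ω i j) ≤
        (n : ℝ) ^ p.M * p.i1 * (32 * p.k * n / (ε4 * p.Ns * p.i1) + X) := by
      intro j
      have h1 := hYBD V E l p j ε4 hε4 (by omega) hi1M hM1 hkn hkε
      have h2 : ∑ i ∈ range p.i1, ((univ.filter fun ω : Fin p.M → V =>
          ε4 * Fintype.card V ≤ ((ctx E l p ω (p.i1 + i)).Y j).card).card : ℝ) =
          ∑ i : Fin p.i1, ∑ ω : Fin p.M → V, ind (P3 ω i j) := by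
        rw [Finset.sum_range]
        refine Finset.sum_congr rfl fun i _ => ?_
        rw [card_ind]
      rw [h2] at h1
      have h3 : 0 < ε4 * p.Ns := by positivity
      rw [← mul_le_mul_iff_of_pos_left h3]
      refine h1.trans (le_of_eq ?_)
      rw [← hX, ← hn]
      field_simp
    calc _ ≤ ∑ _j : Fin (p.h * p.mb), (p.m * p.m2 : ℝ) * ((n : ℝ) ^ p.M * p.i1 *
          (32 * p.k * n / (ε4 * p.Ns * p.i1) + X)) := by
          refine Finset.sum_le_sum fun j _ => ?_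
          gcongr
          exact hj j
      _ = _ := by
          simp only [Finset.sum_const, Finset.card_univ, Fintype.card_fin, nsmul_eq_mul]
          push_cast
          ring
  -- thresholds
  have hm' : (0 : ℝ) < p.m := by exact_mod_cast hm1
  have hm2' : (0 : ℝ) < p.m2 := by exact_mod_cast hm2
  have hU5 : ∑ y : (Fin p.M → V) × Fin p.i1 × Fin (p.h * p.mb) × Fin p.m × Fin p.m2,
        ind (P5 y.1 y.2.1 y.2.2.1 y.2.2.2.1) ≤
      (n : ℝ) ^ p.M * (p.i1 * ((p.h * p.mb) * (p.m * p.m2))) * (1 / (ε4 * p.m)) := by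
    rw [sum5]
    simp only [Finset.sum_const, Finset.card_univ, Fintype.card_fin, nsmul_eq_mul]
    calc _ ≤ ∑ _ω : Fin p.M → V, ∑ _i : Fin p.i1, ∑ _j : Fin (p.h * p.mb),
          (p.m2 : ℝ) * (1 / ε4) := by
          refine Finset.sum_le_sum fun ω _ => Finset.sum_le_sum fun i _ =>
            Finset.sum_le_sum fun j _ => ?_
          rw [← Finset.mul_sum]
          gcongr
          exact few n p.m ε4 hε4 hn0 (fun o => ((ctx E l p ω (p.i1 + i)).cr1 j o).card)
            (hCRO V (ctx E l p ω (p.i1 + i)) j).1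
      _ = _ := by
          simp only [Finset.sum_const, Finset.card_univ, Fintype.card_fin, Fintype.card_fun,
            nsmul_eq_mul, ← hn]
          push_cast
          field_simp
  have hU6 : ∑ y : (Fin p.M → V) × Fin p.i1 × Fin (p.h * p.mb) × Fin p.m × Fin p.m2,
        ind (P6 y.1 y.2.1 y.2.2.1 y.2.2.2.2) ≤
      (n : ℝ) ^ p.M * (p.i1 * ((p.h * p.mb) * (p.m * p.m2))) * (1 / (ε4 * p.m2)) := by
    rw [sum5]
    simp only [Finset.sum_const, Finset.card_univ, Fintype.card_fin, nsmul_eq_mul]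
    calc _ ≤ ∑ _ω : Fin p.M → V, ∑ _i : Fin p.i1, ∑ _j : Fin (p.h * p.mb),
          (p.m : ℝ) * (1 / ε4) := by
          refine Finset.sum_le_sum fun ω _ => Finset.sum_le_sum fun i _ =>
            Finset.sum_le_sum fun j _ => ?_
          gcongr
          exact few n p.m2 ε4 hε4 hn0 (fun o => ((ctx E l p ω (p.i1 + i)).cr2 j o).card)
            (hCRO V (ctx E l p ω (p.i1 + i)) j).2
      _ = _ := by
          simp only [Finset.sum_const, Finset.card_univ, Fintype.card_fin, Fintype.card_fun,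
            nsmul_eq_mul, ← hn]
          push_cast
          field_simp
  -- conclusion
  have hall := Finset.sum_le_sum fun y (_ : y ∈ (univ : Finset ((Fin p.M → V) × Fin p.i1 ×
    Fin (p.h * p.mb) × Fin p.m × Fin p.m2))) => hpt y
  simp only [Finset.sum_add_distrib] at hall
  have hgoal := card_ind (fun y : (Fin p.M → V) × Fin p.i1 × Fin (p.h * p.mb) × Fin p.m ×
    Fin p.m2 => Cyc E (seedD E l p (als y.1)) ∨
      good E l p ε4 y.1 y.2.1 y.2.2.1 y.2.2.2.1 y.2.2.2.2)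
  rw [hcard, hgoal]
  set T : ℝ := (n : ℝ) ^ p.M * (p.i1 * ((p.h * p.mb) * (p.m * p.m2))) with hT
  have hT0 : 0 ≤ T := by positivity
  have hh' : (0 : ℝ) < p.h := by exact_mod_cast hh
  have hL' : T / (2 * p.h) ≤ ∑ y : (Fin p.M → V) × Fin p.i1 × Fin (p.h * p.mb) × Fin p.m ×
      Fin p.m2, ind (P4 y.1 y.2.1 y.2.2.1) := by
    refine le_trans (le_of_eq ?_) hL
    rw [hT]
    field_simp
  have hδ : T * (X + n * X + (32 * p.k * n / (ε4 * p.Ns * p.i1) + X) + 1 / (ε4 * p.m) +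
      1 / (ε4 * p.m2)) ≤ T * (1 / (4 * p.h)) := by
    gcongr
    refine le_trans ?_ hsum
    rw [show ((n : ℝ) + 3) * (2 ^ p.k : ℝ) ^ (2 * p.i1) * Real.exp (-(p.M / (10 * 2 ^ p.k))) =
      (n + 3) * X by rw [hX]; ring]
    linarith
  have hfin : T / (2 * p.h) - T * (1 / (4 * p.h)) ≤ ∑ y : (Fin p.M → V) × Fin p.i1 ×
      Fin (p.h * p.mb) × Fin p.m × Fin p.m2, ind (Cyc E (seedD E l p (als y.1)) ∨
        good E l p ε4 y.1 y.2.1 y.2.2.1 y.2.2.2.1 y.2.2.2.2) := by
    have e1 : T * (X + n * X + (32 * p.k * n / (ε4 * p.Ns * p.i1) + X) + 1 / (ε4 * p.m) +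
      1 / (ε4 * p.m2)) = T * X + T * (n * X) + T * (32 * p.k * n / (ε4 * p.Ns * p.i1) + X) +
        T * (1 / (ε4 * p.m)) + T * (1 / (ε4 * p.m2)) := by ring
    linarith
  have e2 : T / (2 * p.h) - T * (1 / (4 * p.h)) = T / (4 * p.h) := by
    field_simp
    ring
  rw [e2, div_le_iff₀ (by positivity)] at hfin
  linarith

end Pool.Agent.AcyUp
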