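import Pool.Agent.AcyUp.Targets
import Pool.Agent.AcyUp.BAL

set_option autoImplicit false

/-!
# Growth of balls
-/

namespace Pool.Agent.AcyUp

open Finset Pool.Agent.AcyTest
open scoped Classical

namespace GROx

variable {V : Type} [Fintype V] {E : V → V → Prop} {b : Bool} {S : Finset V}

lemma card_zero (x : V) : (ball E b S 0 x).card ≤ 1 := by
  have h : ball E b S 0 x ⊆ {x} := by
    intro y hy
    rw [mem_singleton]
    exact (BALx.mem_zero.1 hy).2
  exact (card_le_card h).trans (card_singleton x).le

lemma nbr {d : ℕ} (hD : Dg E d) (b : Bool) (u : V) :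
    (univ.filter fun y => de E b u y).card ≤ d := by
  cases b with
  | true =>
    refine le_trans (le_of_eq ?_) (hD u).2
    congr 1
  | false =>
    refine le_trans (le_of_eq ?_) (hD u).1
    congr 1

lemma deg {d : ℕ} (hD : Dg E d) (r : ℕ) (x : V) : (ball E b S r x).card ≤ (d + 1) ^ r := by
  induction r with
  | zero => exact card_zero x
  | succ r ih =>
    have h : ball E b S (r + 1) x ⊆
        ball E b S r x ∪ (ball E b S r x).biUnion fun u => univ.filter fun y => de E b u y := by
      intro y hy
      obtain ⟨_, h | ⟨u, hu, hd⟩⟩ := BALx.mem_succ.1 hy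
      · exact mem_union_left _ h
      · refine mem_union_right _ (mem_biUnion.2 ⟨u, hu, ?_⟩)
        rw [mem_filter]
        exact ⟨mem_univ _, hd⟩
    calc (ball E b S (r + 1) x).card
        ≤ (ball E b S r x).card +
          ((ball E b S r x).biUnion fun u => univ.filter fun y => de E b u y).card :=
          (card_le_card h).trans (card_union_le _ _)
      _ ≤ (ball E b S r x).card + (ball E b S r x).card * d :=
          Nat.add_le_add_left (card_biUnion_le_card_mul _ _ _ fun u _ => nbr hD b u) _
      _ = (ball E b S r x).card * (d + 1) := by ring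
      _ ≤ (d + 1) ^ r * (d + 1) := Nat.mul_le_mul_right _ ih
      _ = (d + 1) ^ (r + 1) := (pow_succ _ _).symm

lemma pw {R : ℕ} {B : ℝ} (hB : ∀ x ∈ S, ((ball E b S R x).card : ℝ) ≤ B) (q : ℕ) (x : V)
    (hx : x ∈ S) : ((ball E b S (R * q) x).card : ℝ) ≤ B ^ q := by
  have hB0 : 0 ≤ B := (Nat.cast_nonneg _).trans (hB x hx)
  induction q with
  | zero =>
    rw [Nat.mul_zero, pow_zero]
    exact_mod_cast card_zero (E := E) (b := b) (S := S) x
  | succ q ih =>
    have h : ball E b S (R * (q + 1)) x ⊆
        (ball E b S (R * q) x).biUnion fun y => ball E b S R y := by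
      intro z hz
      rw [Nat.mul_succ] at hz
      obtain ⟨y, hy, hzy⟩ := BALx.split _ _ _ _ hz
      exact mem_biUnion.2 ⟨y, hy, hzy⟩
    have h1 : ((ball E b S (R * (q + 1)) x).card : ℝ) ≤
        ∑ y ∈ ball E b S (R * q) x, ((ball E b S R y).card : ℝ) := by
      exact_mod_cast (card_le_card h).trans card_biUnion_le
    have h2 : ∑ y ∈ ball E b S (R * q) x, ((ball E b S R y).card : ℝ) ≤
        ∑ _y ∈ ball E b S (R * q) x, B :=
      sum_le_sum fun y hy => hB y (BALx.sub _ _ hy)
    rw [sum_const, nsmul_eq_mul] at h2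
    calc ((ball E b S (R * (q + 1)) x).card : ℝ)
        ≤ ((ball E b S (R * q) x).card : ℝ) * B := h1.trans h2
      _ ≤ B ^ q * B := mul_le_mul_of_nonneg_right ih hB0
      _ = B ^ (q + 1) := (pow_succ _ _).symm

end GROx

open GROx in
theorem pGRO : tGRO := by
  intro V _ E b S
  exact ⟨fun d hD r x => deg hD r x, fun R B hB q x hx => pw hB q x hx⟩

end Pool.Agent.AcyUp
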