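import Pool.Agent.AcyUp.H21Nl

set_option autoImplicit false

/-!
# MP_08c6cd_lc, GRW: the new labelling satisfies the growth bounds
-/

namespace Pool.Agent.AcyUp

open Finset Pool.Agent.AcyTest
open scoped Classical

open H21Nl in
theorem pGRW (hB : tBAL) : tGRW := by
  intro V _ C j o o2 Rm Rm' θ hN hη hG ho ho2 x a' hx b
  have hRm : Rm ≤ Rm' := hN.2.2.1
  have hθ1 : θ ≤ 1 := hN.2.2.2.2.1
  obtain ⟨a, hl, h⟩ := changed C j o o2 Rm Rm' θ hN hG ho ho2 x a' hx
  obtain ⟨g1, g2, g3, g4, g5⟩ := hG x a hl b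
  -- growth in an inherited direction
  have inh : ∀ e : ℕ × Bool × ℕ × ℝ,
      ((ball C.E b (cl (C.nl j o o2) (some (e :: a))) (rd a b) x).card : ℝ) ≤
        Real.exp (gr C.p.gm a b * rd a b) := by
    intro e
    refine le_trans ?_ g5
    exact_mod_cast card_le_card ((hB V C.E b _).2.2.2.2.2.2.2.1 _ (rd a b) x
      (cl_sub C j o o2 e a))
  rcases h with ⟨_, rfl⟩ | ⟨hact, hk, b1, r, N, g, hr1, hrR, hN2, hg, hg0, hgθ, hb, rfl, _⟩
  · rw [gr_fin, rd_fin]
    exact ⟨g1, g2, g3, g4.trans hRm, inh _⟩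
  · by_cases hbb : b1 = b
    · subst hbb
      rw [gr_same, rd_same]
      refine ⟨hg0, ?_, hr1, hrR, ?_⟩
      · calc g ≤ θ * gr C.p.gm a b1 := hgθ
          _ ≤ 1 * gr C.p.gm a b1 := mul_le_mul_of_nonneg_right hθ1 g1.le
          _ ≤ C.p.gm := by rw [one_mul]; exact g2
      · have hrpos : (r : ℝ) ≠ 0 := by
          have : (0 : ℝ) < r := by exact_mod_cast hr1
          exact this.ne'
        have hNpos : (0 : ℝ) < N := by
          have : 0 < N := by omega
          exact_mod_cast this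
        have e1 : g * r = Real.log N := by rw [hg, div_mul_cancel₀ _ hrpos]
        rw [e1, Real.exp_log hNpos]
        have := card_le_card ((hB V C.E b1 _).2.2.2.2.2.2.2.1 _ r x
          (cl_nd C j o o2 (C.key j x) hk (b1, r, g) a))
        exact_mod_cast this.trans hb.le
    · rw [gr_other _ _ _ _ _ _ _ hbb, rd_other _ _ _ _ _ _ hbb]
      exact ⟨g1, g2, g3, g4.trans hRm, inh _⟩

end Pool.Agent.AcyUp
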