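import Pool.Agent.AcyUp.Targets

set_option autoImplicit false

/-!
# Inversion of the new label
-/

namespace Pool.Agent.AcyUp

open Finset Pool.Agent.AcyTest
open scoped Classical

namespace H21Nl

variable {V : Type} [Fintype V]

/-- the possible forms of a new label -/
lemma inv (C : Cx V) (j o o2 : ℕ) (x : V) (a' : Lb) (h : C.nl j o o2 x = some a') :
    ∃ a, C.l x = some a ∧
      ((¬ C.p.act a ∧ a' = (0, true, rd a true, gr C.p.gm a true) :: a) ∨
       (C.p.act a ∧ C.key j x ≠ 0 ∧ Even (C.key j x) ∧ ∃ b,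
          (ball C.E b (C.nd j a (C.key j x)) (C.p.r1 a o) x).card < C.p.Ns ∧
          a' = (C.key j x, b, C.p.r1 a o, Real.log C.p.Ns / C.p.r1 a o) :: a) ∨
       (C.p.act a ∧ C.key j x ≠ 0 ∧ Odd (C.key j x) ∧
          (ball C.E (!C.p.dir a) (C.nd j a (C.key j x)) (C.p.r2 a o2) x).card < C.p.Nt ∧
          a' = (C.key j x, !C.p.dir a, C.p.r2 a o2, Real.log C.p.Nt / C.p.r2 a o2) :: a)) := by
  unfold Cx.nl at h
  cases hl : C.l x with
  | none =>
    rw [hl] at h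
    simp at h
  | some a =>
    rw [hl] at h
    refine ⟨a, rfl, ?_⟩
    simp only at h
    by_cases hact : C.p.act a
    · rw [if_neg (not_not.2 hact)] at h
      by_cases hk : C.key j x = 0
      · rw [if_pos hk] at h
        exact absurd h (by simp)
      · rw [if_neg hk] at h
        by_cases hev : Even (C.key j x)
        · rw [if_pos hev] at h
          split_ifs at h with h1 h2
          · exact Or.inr (Or.inl ⟨hact, hk, hev, true, h1, (Option.some.inj h).symm⟩)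
          · exact Or.inr (Or.inl ⟨hact, hk, hev, false, h2, (Option.some.inj h).symm⟩)
        · rw [if_neg hev] at h
          split_ifs at h with h1
          exact Or.inr (Or.inr ⟨hact, hk, Nat.not_even_iff_odd.1 hev, h1,
            (Option.some.inj h).symm⟩)
    · rw [if_pos hact] at h
      exact Or.inl ⟨hact, (Option.some.inj h).symm⟩

lemma mem_cl {α : Type} {l : V → α} {a : α} {x : V} : x ∈ cl l a ↔ l x = a := by
  simp [cl]

lemma mem_nd {C : Cx V} {j : ℕ} {a : Lb} {c : ℕ} {x : V} :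
    x ∈ C.nd j a c ↔ C.l x = some a ∧ C.key j x = c := by
  simp [Cx.nd]

/-- keys are zero outside the unfinished classes -/
lemma key_ne (C : Cx V) (j : ℕ) (x : V) (h : C.key j x ≠ 0) : ∃ a, C.l x = some a ∧ C.p.act a := by
  unfold Cx.key at h
  cases hl : C.l x with
  | none =>
    rw [hl] at h
    simp at h
  | some a =>
    rw [hl] at h
    simp only [ne_eq, ite_eq_right_iff, Classical.not_imp] at h
    exact ⟨a, rfl, h.1⟩

/-- the new class is contained in the old one -/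
lemma cl_sub (C : Cx V) (j o o2 : ℕ) (e : ℕ × Bool × ℕ × ℝ) (a : Lb) :
    cl (C.nl j o o2) (some (e :: a)) ⊆ cl C.l (some a) := by
  intro y hy
  have hy' : C.nl j o o2 y = some (e :: a) := mem_cl.1 hy
  obtain ⟨a1, h1, h2⟩ := inv C j o o2 y _ hy'
  refine mem_cl.2 ?_
  rw [h1]
  rcases h2 with ⟨_, h2⟩ | ⟨_, _, _, b, _, h2⟩ | ⟨_, _, _, _, h2⟩ <;>
    exact congrArg some (List.cons.inj h2).2.symm

/-- the new class is contained in the window or coarse class -/
lemma cl_nd (C : Cx V) (j o o2 : ℕ) (c : ℕ) (hc : c ≠ 0) (e : Bool × ℕ × ℝ) (a : Lb) :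
    cl (C.nl j o o2) (some ((c, e) :: a)) ⊆ C.nd j a c := by
  intro y hy
  have hy' : C.nl j o o2 y = some ((c, e) :: a) := mem_cl.1 hy
  have hl : C.l y = some a := mem_cl.1 (cl_sub C j o o2 (c, e) a hy)
  refine mem_nd.2 ⟨hl, ?_⟩
  obtain ⟨a1, h1, h2⟩ := inv C j o o2 y _ hy'
  rcases h2 with ⟨_, h2⟩ | ⟨_, _, _, b, _, h2⟩ | ⟨_, _, _, _, h2⟩
  · exact absurd (Prod.mk.inj (List.cons.inj h2).1).1 hc
  · exact (Prod.mk.inj (List.cons.inj h2).1).1.symm
  · exact (Prod.mk.inj (List.cons.inj h2).1).1.symm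

lemma gr_same (gm : ℝ) (c : ℕ) (b : Bool) (r : ℕ) (g : ℝ) (a : Lb) :
    gr gm ((c, b, r, g) :: a) b = g := by simp [gr]

lemma gr_other (gm : ℝ) (c : ℕ) (b b' : Bool) (r : ℕ) (g : ℝ) (a : Lb) (h : b ≠ b') :
    gr gm ((c, b, r, g) :: a) b' = gr gm a b' := by simp [gr, h]

lemma rd_same (c : ℕ) (b : Bool) (r : ℕ) (g : ℝ) (a : Lb) :
    rd ((c, b, r, g) :: a) b = r := by simp [rd]

lemma rd_other (c : ℕ) (b b' : Bool) (r : ℕ) (g : ℝ) (a : Lb) (h : b ≠ b') :
    rd ((c, b, r, g) :: a) b' = rd a b' := by simp [rd, h]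

lemma gr_fin (gm : ℝ) (c r : ℕ) (a : Lb) (b : Bool) :
    gr gm ((c, true, r, gr gm a true) :: a) b = gr gm a b := by
  cases b <;> simp [gr]

lemma rd_fin (c : ℕ) (g : ℝ) (a : Lb) (b : Bool) :
    rd ((c, true, rd a true, g) :: a) b = rd a b := by
  cases b <;> simp [rd]

/-- the direction of the saturation step has the smaller rate -/
lemma dir_le (p : Pm) (a : Lb) : gr p.gm a (p.dir a) ≤ gr p.gm a (!p.dir a) := by
  unfold Pm.dir
  by_cases h : gr p.gm a true ≤ gr p.gm a false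
  · simp [h]
  · simpa [h] using (not_le.1 h).le

/-- product of the two rates, in any order -/
lemma prod_dir (gm : ℝ) (a : Lb) (b : Bool) :
    gr gm a b * gr gm a (!b) = gr gm a true * gr gm a false := by
  cases b
  · exact mul_comm _ _
  · rfl

lemma lbOK {C : Cx V} {Rm : ℕ} (h : Gw C.E C.l C.p.gm Rm) {x : V} {a : Lb}
    (hx : C.l x = some a) : LbOK C.p.gm Rm a := fun b =>
  ⟨(h x a hx b).1, (h x a hx b).2.1, (h x a hx b).2.2.1, (h x a hx b).2.2.2.1⟩

/-- facts about the two cases of a changed label -/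
lemma changed (C : Cx V) (j o o2 Rm Rm' : ℕ) (θ : ℝ) (hN : NumOK C.p θ Rm Rm')
    (hG : Gw C.E C.l C.p.gm Rm) (ho : o < C.p.m) (ho2 : o2 < C.p.m2) (x : V) (a' : Lb)
    (h : C.nl j o o2 x = some a') :
    ∃ a, C.l x = some a ∧
      ((¬ C.p.act a ∧ a' = (0, true, rd a true, gr C.p.gm a true) :: a) ∨
       (C.p.act a ∧ C.key j x ≠ 0 ∧ ∃ (b : Bool) (r N : ℕ) (g : ℝ), 1 ≤ r ∧ r ≤ Rm' ∧ 2 ≤ N ∧
          g = Real.log N / r ∧ 0 < g ∧ g ≤ θ * gr C.p.gm a b ∧
          (ball C.E b (C.nd j a (C.key j x)) r x).card < N ∧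
          a' = (C.key j x, b, r, g) :: a ∧
          (Even (C.key j x) → 1 / gr C.p.gm a b + 1 / (2 * C.p.gm) ≤ 1 / g))) := by
  obtain ⟨a, hl, h1⟩ := inv C j o o2 x a' h
  refine ⟨a, hl, ?_⟩
  obtain ⟨hNs, hNt, _, hθ, hθ1, hall⟩ := hN
  rcases h1 with h1 | ⟨hact, hk, hev, b, hb, rfl⟩ | ⟨hact, hk, hodd, hb, rfl⟩
  · exact Or.inl h1
  · right
    obtain ⟨hm1, hm2, hA, hP2, hr1, hr2⟩ := hall a (lbOK hG hl) hact
    obtain ⟨hr, hrr⟩ := hr1 o ho
    have hr1p : 1 ≤ C.p.r1 a o := by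
      unfold Pm.r1
      omega
    have hrpos : (0 : ℝ) < C.p.r1 a o := by exact_mod_cast hr1p
    have hlog : 0 < Real.log C.p.Ns := Real.log_pos (by exact_mod_cast hNs)
    refine ⟨hact, hk, b, C.p.r1 a o, C.p.Ns, _, hr1p, hr, hNs, rfl, div_pos hlog hrpos,
      (hrr b).2, hb, rfl, fun _ => ?_⟩
    rw [one_div_div]
    exact (hrr b).1
  · right
    obtain ⟨hm1, hm2, hA, hP2, hr1, hr2⟩ := hall a (lbOK hG hl) hact
    obtain ⟨hr, hrr⟩ := hr2 o2 ho2
    have hr1p : 1 ≤ C.p.r2 a o2 := by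
      unfold Pm.r2
      omega
    have hrpos : (0 : ℝ) < C.p.r2 a o2 := by exact_mod_cast hr1p
    have hlog : 0 < Real.log C.p.Nt := Real.log_pos (by exact_mod_cast hNt)
    refine ⟨hact, hk, !C.p.dir a, C.p.r2 a o2, C.p.Nt, _, hr1p, hr, hNt, rfl,
      div_pos hlog hrpos, hrr.trans (mul_le_mul_of_nonneg_left (dir_le _ _) hθ.le), hb, rfl,
      fun he => absurd he (Nat.not_even_iff_odd.2 hodd)⟩

end H21Nl

end Pool.Agent.AcyUp
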