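import Pool.Agent.AcyUp.Targets

set_option autoImplicit false

/-!
# HIT: few samples in a large set
-/

namespace Pool.Agent.AcyUp

open Finset Pool.Agent.AcyTest
open scoped Classical

namespace HITx

theorem step {V : Type} [Fintype V] (A I : Finset V) (M : ℕ) (hI : I.card ≤ M)
    (hA : 2 * M ≤ A.card) :
    ∑ v : V, (1 / 2 : ℝ) ^ (insert v I ∩ A).card ≤
      (1 / 2 : ℝ) ^ (I ∩ A).card * ((Fintype.card V : ℝ) - A.card / 4) := by
  have h1 : ∀ v : V, (1 / 2 : ℝ) ^ (insert v I ∩ A).card =
      (1 / 2 : ℝ) ^ (I ∩ A).card * (1 - if v ∈ A \ I then (1 / 2 : ℝ) else 0) := by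
    intro v
    by_cases hv : v ∈ A \ I
    · rw [if_pos hv]
      rw [mem_sdiff] at hv
      rw [insert_inter_of_mem hv.1, card_insert_of_notMem (fun h => hv.2 (mem_inter.1 h).1),
        pow_succ]
      ring
    · rw [if_neg hv, sub_zero, mul_one]
      have : insert v I ∩ A = I ∩ A := by
        by_cases hA : v ∈ A
        · have hI : v ∈ I := by
            by_contra hI
            exact hv (mem_sdiff.2 ⟨hA, hI⟩)
          rw [insert_eq_of_mem hI]
        · rw [insert_inter_of_notMem hA]
      rw [this]
  rw [sum_congr rfl fun v _ => h1 v, ← mul_sum]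
  apply mul_le_mul_of_nonneg_left _ (by positivity)
  rw [sum_sub_distrib, sum_const, nsmul_eq_mul, mul_one, card_univ]
  have h2 : ∑ v : V, (if v ∈ A \ I then (1 / 2 : ℝ) else 0) = (A \ I).card / 2 := by
    rw [← sum_filter, sum_const, nsmul_eq_mul]
    have : (univ.filter fun v => v ∈ A \ I) = A \ I := by
      ext v
      simp
    rw [this]
    ring
  rw [h2]
  have h3 : A.card ≤ (A \ I).card + M := by
    have := card_le_card_sdiff_add_card (s := A) (t := I)
    omega
  have h4 : (A.card : ℝ) ≤ (A \ I).card + M := by exact_mod_cast h3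
  have h5 : 2 * (M : ℝ) ≤ A.card := by exact_mod_cast hA
  linarith

end HITx

theorem pHIT : tHIT := by
  intro V _ M A hA
  induction M with
  | zero => simp
  | succ M ih =>
    have hA' : 2 * M ≤ A.card := by omega
    have ih := ih hA'
    have hc : (A.card : ℝ) ≤ Fintype.card V := by exact_mod_cast card_le_univ A
    have hn : 0 ≤ (Fintype.card V : ℝ) - A.card / 4 := by
      have : (0 : ℝ) ≤ A.card := Nat.cast_nonneg _
      linarith
    have h1 : ∑ ω : Fin (M + 1) → V, (1 / 2 : ℝ) ^ (univ.image ω ∩ A).card =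
        ∑ ω : Fin M → V, ∑ v : V, (1 / 2 : ℝ) ^ (insert v (univ.image ω) ∩ A).card := by
      rw [sum_comm, ← Fintype.sum_prod_type']
      refine (Fintype.sum_equiv (Fin.consEquiv fun _ => V) _ _ ?_).symm
      rintro ⟨v, ω⟩
      have : univ.image (Fin.cons v ω : Fin (M + 1) → V) = insert v (univ.image ω) := by
        ext u
        simp only [mem_image, mem_univ, true_and, mem_insert]
        constructor
        · rintro ⟨i, rfl⟩
          refine Fin.cases ?_ (fun i => ?_) i
          · left
            simp
          · right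
            exact ⟨i, by simp⟩
        · rintro (rfl | ⟨i, rfl⟩)
          · exact ⟨0, by simp⟩
          · exact ⟨i.succ, by simp⟩
      show _ = (1 / 2 : ℝ) ^ (univ.image (Fin.cons v ω : Fin (M + 1) → V) ∩ A).card
      rw [this]
    rw [h1, pow_succ]
    calc ∑ ω : Fin M → V, ∑ v : V, (1 / 2 : ℝ) ^ (insert v (univ.image ω) ∩ A).card
        ≤ ∑ ω : Fin M → V, (1 / 2 : ℝ) ^ (univ.image ω ∩ A).card *
            ((Fintype.card V : ℝ) - A.card / 4) := by
          apply sum_le_sum
          intro ω _
          apply HITx.step A _ M _ hA'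
          refine card_image_le.trans ?_
          simp
      _ ≤ _ := by
          rw [← sum_mul]
          exact mul_le_mul_of_nonneg_right ih hn

end Pool.Agent.AcyUp
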