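import Pool.Agent.AcyUp.Targets

set_option autoImplicit false

/-!
# Few vertices are invalid
-/

namespace Pool.Agent.AcyUp

open Finset Pool.Agent.AcyTest
open scoped Classical

namespace IVDx

variable {V : Type} [Fintype V]

/-- the invalid vertices of a context -/
noncomputable def inv (E : V → V → Prop) (l : V → Option Lb) (p : Pm) (R : Finset V) (f : V → ℕ) :
    Finset V :=
  univ.filter fun x => ∃ a, l x = some a ∧ p.act a ∧ (⟨E, l, p, R, f⟩ : Cx V).key p.m x = 0

omit [Fintype V] in
lemma pre_sub {M : ℕ} (ω : Fin M → V) (i : ℕ) : pre ω i ⊆ als ω := by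
  intro s hs
  unfold pre at hs
  unfold als
  rw [mem_image] at hs ⊢
  obtain ⟨t, _, ht⟩ := hs
  exact ⟨t, mem_univ t, ht⟩

omit [Fintype V] in
lemma pre_card {M : ℕ} (ω : Fin M → V) (i : ℕ) : (pre ω i).card ≤ i := by
  unfold pre
  refine card_image_le.trans ?_
  have h : ((univ.filter fun t : Fin M => t.1 < i).image fun t => t.1) ⊆ range i := by
    intro s hs
    rw [mem_image] at hs
    obtain ⟨t, ht, hts⟩ := hs
    rw [mem_filter] at ht
    rw [mem_range, ← hts]
    exact ht.2
  have h2 := card_le_card h
  rw [card_image_of_injective _ Fin.val_injective, card_range] at h2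
  exact h2

end IVDx

open IVDx in
theorem pIVD (hUCO : tUCO) (hORD : tORD) (hSED : tSED) (hLOC : tLOC) : tIVD := by
  intro V _ E l p i hi hM hN hA
  have hN1 : 0 < Fintype.card V := by
    have : 0 < 2 ^ p.k * (2 * p.M) := by positivity
    omega
  have hNR : (0 : ℝ) < Fintype.card V := by exact_mod_cast hN1
  have hB : (0 : ℝ) < 2 ^ p.k := by positivity
  have hNM : (2 : ℝ) ^ p.k * (2 * p.M) ≤ Fintype.card V := by exact_mod_cast hN
  have hu := hUCO V Unit p.M i (2 ^ p.k) (1 / 2 ^ p.k)
    (fun R f _ => inv E l p R f \ R) (by positivity) (by omega)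
    (by rw [div_mul_eq_mul_div, one_mul, le_div_iff₀ hB]; linarith)
    (by
      intro R f g c hfg
      have h1 : inv E l p R f = inv E l p R g := by
        unfold inv
        refine filter_congr fun x _ => ?_
        have := hLOC V (⟨E, l, p, R, f⟩ : Cx V) g hfg p.m x
        simp only at this
        rw [this]
      simp only [h1])
  refine le_trans ?_ (le_trans hu ?_)
  · have hsub : (univ.filter fun ω : Fin p.M → V => ¬ Cyc E (seedD E l p (als ω)) ∧
        (Fintype.card V : ℝ) / 2 ^ p.k + i < (univ.filter fun x => ∃ a, l x = some a ∧ p.act a ∧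
        (ctx E l p ω i).key p.m x = 0).card) ⊆
        (univ.filter fun ω : Fin p.M → V => ∃ f : V → ℕ, (∀ s, f s < 2 ^ p.k) ∧ ∃ _c : Unit,
        1 / 2 ^ p.k * (Fintype.card V : ℝ) ≤ (inv E l p (pre ω i) f \ pre ω i).card ∧
        (hits ω i (inv E l p (pre ω i) f \ pre ω i) : ℝ) <
        (p.M - i) * (inv E l p (pre ω i) f \ pre ω i).card / (16 * Fintype.card V)) := by
      intro ω hω
      rw [mem_filter] at hω ⊢
      obtain ⟨_, hcyc, hlarge⟩ := hω
      refine ⟨mem_univ _, fR E l p (als ω), ?_, (), ?_, ?_⟩
      · exact (hORD V E l p (als ω) hcyc).2.1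
      all_goals
        have hinv : (univ.filter fun x => ∃ a, l x = some a ∧ p.act a ∧
            (ctx E l p ω i).key p.m x = 0) = inv E l p (pre ω i) (fR E l p (als ω)) := rfl
        rw [hinv] at hlarge
        have hc : ((inv E l p (pre ω i) (fR E l p (als ω))).card : ℝ) ≤
            (inv E l p (pre ω i) (fR E l p (als ω)) \ pre ω i).card + i := by
          have h1 := card_sdiff_add_card (inv E l p (pre ω i) (fR E l p (als ω))) (pre ω i)
          have h2 := card_le_card
            (subset_union_left (s₁ := inv E l p (pre ω i) (fR E l p (als ω))) (s₂ := pre ω i))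
          have h3 := pre_card ω i
          have h4 : (inv E l p (pre ω i) (fR E l p (als ω))).card ≤
            (inv E l p (pre ω i) (fR E l p (als ω)) \ pre ω i).card + i := by omega
          exact_mod_cast h4
        have hpos : 0 < (Fintype.card V : ℝ) / 2 ^ p.k := by positivity
      · rw [div_mul_eq_mul_div, one_mul]
        linarith
      · have hz : hits ω i (inv E l p (pre ω i) (fR E l p (als ω)) \ pre ω i) = 0 := by
          unfold hits
          rw [card_eq_zero, eq_empty_iff_forall_notMem]
          intro s hs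
          rw [mem_inter, mem_sdiff] at hs
          obtain ⟨hs1, hs2, hs3⟩ := hs
          unfold inv at hs2
          rw [mem_filter] at hs2
          obtain ⟨_, a, ha1, ha2, ha3⟩ := hs2
          have hsR : s ∈ als ω := by
            rw [mem_image] at hs1
            obtain ⟨t, _, ht⟩ := hs1
            unfold als
            rw [mem_image]
            exact ⟨t, mem_univ t, ht⟩
          exact (hSED V (ctx E l p ω i) p.m (als ω) s a (hORD V E l p (als ω) hcyc)
            (pre_sub ω i) hsR hs3 ha1 ha2 (hA s a ha1 ha2) le_rfl).1 ha3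
        rw [hz, Nat.cast_zero]
        have h1 : (0 : ℝ) < p.M - i := by
          have : i < p.M := by omega
          have : (i : ℝ) < p.M := by exact_mod_cast this
          linarith
        have h2 : (0 : ℝ) < (inv E l p (pre ω i) (fR E l p (als ω)) \ pre ω i).card := by
          linarith
        positivity
    exact_mod_cast card_le_card hsub
  · rw [Fintype.card_unit]
    push_cast
    rw [one_mul]
    have h1 : 2 * (i : ℝ) ≤ p.M := by exact_mod_cast hi
    have h2 : (p.M : ℝ) / (10 * 2 ^ p.k) ≤ (p.M - i) * (1 / 2 ^ p.k) / 5 := by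
      have e1 : (p.M : ℝ) / (10 * 2 ^ p.k) = (p.M / 2) * (1 / 2 ^ p.k) / 5 := by
        field_simp
        norm_num
      rw [e1]
      have : (p.M : ℝ) / 2 ≤ p.M - i := by linarith
      gcongr
    have h3 : Real.exp (-((p.M - i) * (1 / 2 ^ p.k) / 5)) ≤
        Real.exp (-(p.M / (10 * 2 ^ p.k))) := Real.exp_le_exp.2 (neg_le_neg h2)
    gcongr

end Pool.Agent.AcyUp
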