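import Pool.Agent.AcyUp.Targets

set_option autoImplicit false

/-!
# MP_08c6cd_lc, JSE: choice of the step
-/

namespace Pool.Agent.AcyUp

open Finset Pool.Agent.AcyTest
open scoped Classical

namespace JSEx

lemma drops (T : ℕ → ℕ) (hT : ∀ j, T (j + 1) ≤ T j) (a n : ℕ) :
    (∑ j ∈ range n, if T (a + j + 1) < T (a + j) then 1 else 0) + T (a + n) ≤ T a := by
  induction n with
  | zero => simp
  | succ n ih =>
    rw [sum_range_succ]
    have h1 := hT (a + n)
    have e : a + (n + 1) = a + n + 1 := by omega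
    rw [e]
    split_ifs with h
    · omega
    · omega

lemma anti (T : ℕ → ℕ) (hT : ∀ j, T (j + 1) ≤ T j) {i j : ℕ} (h : i ≤ j) : T j ≤ T i := by
  induction j, h using Nat.le_induction with
  | base => exact le_rfl
  | succ n _ ih => exact (hT n).trans ih

variable {X : Type} [Fintype X] (T : ℕ → X → ℕ)

noncomputable def U (j : ℕ) : ℕ := (univ.filter fun x => T (j + 1) x < T j x).card

noncomputable def c (j : ℕ) : ℕ := (univ.filter fun x => 1 ≤ T j x).card

lemma sumU (hT : ∀ j x, T (j + 1) x ≤ T j x) (k : ℕ) (hk : ∀ x, T 0 x ≤ k) (a n : ℕ) :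
    ∑ j ∈ range n, U T (a + j) ≤ k * c T a := by
  have h1 : ∀ j, U T (a + j) = ∑ x : X, if T (a + j + 1) x < T (a + j) x then 1 else 0 := by
    intro j
    rw [U, card_filter]
  calc ∑ j ∈ range n, U T (a + j)
      = ∑ x : X, ∑ j ∈ range n, if T (a + j + 1) x < T (a + j) x then 1 else 0 := by
        rw [sum_comm]
        exact sum_congr rfl fun j _ => h1 j
    _ ≤ ∑ x : X, if 1 ≤ T a x then k else 0 := by
        refine sum_le_sum fun x _ => ?_
        have h2 := drops (fun j => T j x) (fun j => hT j x) a n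
        have h3 : T a x ≤ k := (anti (fun j => T j x) (fun j => hT j x) (Nat.zero_le a)).trans (hk x)
        split_ifs with h
        · omega
        · omega
    _ = k * c T a := by
        rw [c, card_filter, mul_sum]
        refine sum_congr rfl fun x _ => ?_
        split_ifs <;> simp

lemma c_anti (hT : ∀ j x, T (j + 1) x ≤ T j x) {i j : ℕ} (h : i ≤ j) : c T j ≤ c T i := by
  refine card_le_card fun x hx => ?_
  rw [mem_filter] at hx ⊢
  exact ⟨mem_univ _, hx.2.trans (anti (fun j => T j x) (fun j => hT j x) h)⟩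

/-- a good block -/
lemma block (a : ℕ → ℝ) (N : ℝ) (h : ℕ) (hh : 1 ≤ h) (h0 : a 0 ≤ N) (hN : 0 ≤ N)
    (hp : 0 ≤ a h) : ∃ t < h, a t ≤ 2 * a (t + 1) + 2 * (N / 2 ^ h) := by
  by_contra hc
  push Not at hc
  have key : ∀ t ≤ h, 2 ^ t * a t + (2 ^ (t + 1) - 2) * (N / 2 ^ h) ≤ a 0 ∧
      (1 ≤ t → 2 ^ t * a t + (2 ^ (t + 1) - 2) * (N / 2 ^ h) < a 0) := by
    intro t
    induction t with
    | zero => intro _; constructor
              · simp; 
              · intro h; omega
    | succ t ih =>
      intro ht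
      have h1 := (ih (by omega)).1
      have h2 := hc t (by omega)
      have h3 : (0 : ℝ) < 2 ^ t := by positivity
      have h4 : 2 ^ t * (2 * a (t + 1) + 2 * (N / 2 ^ h)) < 2 ^ t * a t :=
        mul_lt_mul_of_pos_left h2 h3
      have h5 : 2 ^ (t + 1) * a (t + 1) + (2 ^ (t + 1 + 1) - 2) * (N / 2 ^ h) < a 0 := by
        have e1 : (2 : ℝ) ^ (t + 1 + 1) = 4 * 2 ^ t := by ring
        have e2 : (2 : ℝ) ^ (t + 1) = 2 * 2 ^ t := by ring
        rw [e1, e2]
        rw [e2] at h1
        nlinarith
      exact ⟨h5.le, fun _ => h5⟩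
  have h1 := (key h le_rfl).2 hh
  have h2 : (0 : ℝ) < 2 ^ h := by positivity
  have h3 : (2 : ℝ) ≤ 2 ^ h := by
    calc (2 : ℝ) = 2 ^ 1 := by norm_num
      _ ≤ 2 ^ h := pow_le_pow_right₀ (by norm_num) hh
  have h4 : N ≤ (2 ^ (h + 1) - 2) * (N / 2 ^ h) := by
    have e : (2 : ℝ) ^ (h + 1) = 2 * 2 ^ h := by ring
    rw [e]
    have : N = 2 ^ h * (N / 2 ^ h) := by field_simp
    have h5 : 0 ≤ N / 2 ^ h := by positivity
    nlinarith
  have h5 : 0 ≤ 2 ^ h * a h := by positivity
  linarith

end JSEx

open JSEx in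
theorem pJSE : tJSE := by
  intro X _ T k h mb hh hmb hT hk
  obtain ⟨t, ht, hb⟩ := block (fun t => (c T (t * mb) : ℝ)) (Fintype.card X) h hh
    (by exact_mod_cast card_filter_le _ _) (by positivity) (by positivity)
  set N : ℝ := (Fintype.card X : ℝ) / 2 ^ h with hN
  have hN0 : 0 ≤ N := by positivity
  set good : ℕ → Prop := fun j => ((univ.filter fun x => T (j + 1) x < T j x).card : ℝ) * mb ≤
      4 * k * ((univ.filter fun x => 1 ≤ T j x).card + Fintype.card X / 2 ^ h) with hgood
  -- bad steps of the block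
  set B := (range mb).filter fun j => ¬ good (t * mb + j) with hB
  have hsum := sumU T hT k hk (t * mb) mb
  have hbad : 2 * B.card ≤ mb := by
    by_contra hcon
    push Not at hcon
    have hBpos : 0 < B.card := by omega
    obtain ⟨j0, hj0⟩ := card_pos.1 hBpos
    have hlt : ∀ j ∈ B, 2 * (k : ℝ) * c T (t * mb) < U T (t * mb + j) * mb := by
      intro j hj
      rw [hB, mem_filter, mem_range] at hj
      have h1 := hj.2
      rw [hgood] at h1
      simp only [not_le] at h1
      have h2 : c T ((t + 1) * mb) ≤ c T (t * mb + j) := c_anti T hT (by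
        have : (t + 1) * mb = t * mb + mb := by ring
        omega)
      have h3 : (c T ((t + 1) * mb) : ℝ) ≤ c T (t * mb + j) := by exact_mod_cast h2
      have h4 : 4 * (k : ℝ) * ((c T (t * mb + j) : ℝ) + N) < U T (t * mb + j) * mb := h1
      have hk0 : (0 : ℝ) ≤ k := by positivity
      nlinarith
    have hs2 : ∑ j ∈ B, (U T (t * mb + j) : ℝ) ≤ k * c T (t * mb) := by
      calc ∑ j ∈ B, (U T (t * mb + j) : ℝ) ≤ ∑ j ∈ range mb, (U T (t * mb + j) : ℝ) :=
            sum_le_sum_of_subset_of_nonneg (filter_subset _ _) (fun _ _ _ => by positivity)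
        _ ≤ k * c T (t * mb) := by exact_mod_cast hsum
    have hs3 : ∑ _j ∈ B, 2 * (k : ℝ) * c T (t * mb) < ∑ j ∈ B, (U T (t * mb + j) : ℝ) * mb :=
      sum_lt_sum_of_nonempty ⟨j0, hj0⟩ hlt
    rw [sum_const, nsmul_eq_mul, ← sum_mul] at hs3
    have hm0 : (0 : ℝ) ≤ mb := by positivity
    have hs4 : (∑ j ∈ B, (U T (t * mb + j) : ℝ)) * mb ≤ k * c T (t * mb) * mb :=
      mul_le_mul_of_nonneg_right hs2 hm0
    have hcon' : (mb : ℝ) ≤ 2 * B.card := by exact_mod_cast hcon.le
    have hkc : (0 : ℝ) ≤ k * c T (t * mb) := by positivity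
    nlinarith
  have hG : mb ≤ 2 * ((range mb).filter fun j => good (t * mb + j)).card := by
    have h1 := card_filter_add_card_filter_not (s := range mb) (fun j => good (t * mb + j))
    rw [card_range] at h1
    have h2 : ((range mb).filter fun j => ¬ good (t * mb + j)).card = B.card := rfl
    omega
  have hinj : ((range mb).filter fun j => good (t * mb + j)).card ≤
      ((range (h * mb)).filter good).card := by
    refine card_le_card_of_injOn (fun j => t * mb + j) ?_ ?_
    · intro j hj
      have hj' := mem_filter.1 (mem_coe.1 hj)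
      rw [mem_range] at hj'
      refine mem_coe.2 (mem_filter.2 ⟨mem_range.2 ?_, hj'.2⟩)
      have : (t + 1) * mb ≤ h * mb := Nat.mul_le_mul_right _ ht
      have e : (t + 1) * mb = t * mb + mb := by ring
      change t * mb + j < h * mb
      omega
    · intro a _ b _ hab
      simp only at hab
      omega
  have : mb ≤ 2 * ((range (h * mb)).filter good).card := hG.trans (Nat.mul_le_mul_left 2 hinj)
  calc h * mb ≤ h * (2 * ((range (h * mb)).filter good).card) := Nat.mul_le_mul_left h this
    _ = 2 * h * ((range (h * mb)).filter good).card := by ring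

end Pool.Agent.AcyUp
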