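import Pool.Agent.AcyUp.Targets

set_option autoImplicit false

/-!
# MP_08c6cd_lc, sublinear tester: the dyadic tree (target `tKEY`)
-/

namespace Pool.Agent.AcyUp

open Finset Pool.Agent.AcyTest
open scoped Classical

namespace KEYx

/-- Between two numbers of the same 2-adic valuation there is one with a larger valuation. -/
theorem between {t u : ℕ} (ht : 1 ≤ t) (htu : t < u)
    (h : padicValNat 2 t = padicValNat 2 u) :
    ∃ w, t < w ∧ w < u ∧ padicValNat 2 t < padicValNat 2 w := by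
  have ht0 : t ≠ 0 := by omega
  have hu0 : u ≠ 0 := by omega
  set v := padicValNat 2 t with hv
  obtain ⟨t', ht'⟩ : 2 ^ v ∣ t := pow_padicValNat_dvd
  obtain ⟨u', hu'⟩ : 2 ^ v ∣ u := by rw [h]; exact pow_padicValNat_dvd
  have hndt : ¬ 2 ^ (v + 1) ∣ t := pow_succ_padicValNat_not_dvd ht0
  have hndu : ¬ 2 ^ (v + 1) ∣ u := by rw [h]; exact pow_succ_padicValNat_not_dvd hu0
  have hot : ¬ 2 ∣ t' := by
    rintro ⟨s, hs⟩; apply hndt; rw [ht', hs, pow_succ]; exact ⟨s, by ring⟩
  have hou : ¬ 2 ∣ u' := by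
    rintro ⟨s, hs⟩; apply hndu; rw [hu', hs, pow_succ]; exact ⟨s, by ring⟩
  have hpos : 0 < 2 ^ v := by positivity
  have hlt : t' < u' := by
    rw [ht', hu'] at htu
    exact lt_of_mul_lt_mul_left htu (Nat.zero_le _)
  have h2 : t' + 1 < u' := by
    rcases Nat.lt_or_ge (t' + 1) u' with h1 | h1
    · exact h1
    · exfalso; omega
  refine ⟨2 ^ v * (t' + 1), ?_, ?_, ?_⟩
  · conv_lhs => rw [ht']
    exact Nat.mul_lt_mul_of_pos_left (by omega) hpos
  · conv_rhs => rw [hu']
    exact Nat.mul_lt_mul_of_pos_left h2 hpos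
  · have hne : 2 ^ v * (t' + 1) ≠ 0 := by positivity
    have : 2 ^ (v + 1) ∣ 2 ^ v * (t' + 1) := by
      obtain ⟨s, hs⟩ : 2 ∣ t' + 1 := by omega
      rw [hs, pow_succ]; exact ⟨s, by ring⟩
    exact (padicValNat_dvd_iff_le hne).mp this

theorem mv_spec {a b : ℕ} (ha : 1 ≤ a) (hab : a ≤ b) :
    a ≤ mv a b ∧ mv a b ≤ b ∧
    ∀ u, a ≤ u → u ≤ b → u ≠ mv a b → padicValNat 2 u < padicValNat 2 (mv a b) := by
  obtain ⟨t, ht, hmax⟩ := exists_max_image (Icc a b) (fun t => padicValNat 2 t)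
    ⟨a, mem_Icc.mpr ⟨le_refl a, hab⟩⟩
  have ht' := mem_Icc.mp ht
  have hstrict : ∀ u, a ≤ u → u ≤ b → u ≠ t → padicValNat 2 u < padicValNat 2 t := by
    intro u hau hub hne
    refine lt_of_le_of_ne (hmax u (mem_Icc.mpr ⟨hau, hub⟩)) ?_
    intro heq
    rcases Nat.lt_or_gt_of_ne hne with h1 | h1
    · obtain ⟨w, hw1, hw2, hw3⟩ := between (by omega) h1 heq
      have := hmax w (mem_Icc.mpr ⟨by omega, by omega⟩)
      omega
    · obtain ⟨w, hw1, hw2, hw3⟩ := between (by omega) h1 heq.symm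
      have := hmax w (mem_Icc.mpr ⟨by omega, by omega⟩)
      omega
  have hf : ((Icc a b).filter fun t => ∀ u ∈ Icc a b, padicValNat 2 u ≤ padicValNat 2 t) = {t} := by
    ext x
    simp only [mem_filter, mem_singleton]
    constructor
    · rintro ⟨hx, hx2⟩
      by_contra hne
      have hx' := mem_Icc.mp hx
      have h1 := hstrict x hx'.1 hx'.2 hne
      have h2 := hx2 t ht
      omega
    · rintro rfl
      exact ⟨ht, fun u hu => hmax u hu⟩
  have hmv : mv a b = t := by
    unfold mv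
    rw [hf, sup_singleton]
    rfl
  rw [hmv]
  exact ⟨ht'.1, ht'.2, hstrict⟩

theorem mv_self (a : ℕ) (ha : 1 ≤ a) : mv a a = a := by
  have := mv_spec ha (le_refl a)
  omega

theorem kv_of_le {lo hi : ℕ} (h : lo ≤ hi) : kv lo hi = mv (2 * lo + 1) (2 * hi + 1) := by
  unfold kv; rw [if_pos h]

theorem kv_of_lt {lo hi : ℕ} (h : hi < lo) : kv lo hi = 0 := by
  unfold kv; rw [if_neg (by omega)]

theorem kv_bounds {lo hi : ℕ} (h : lo ≤ hi) : 2 * lo + 1 ≤ kv lo hi ∧ kv lo hi ≤ 2 * hi + 1 := by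
  rw [kv_of_le h]
  have := mv_spec (a := 2 * lo + 1) (b := 2 * hi + 1) (by omega) (by omega)
  exact ⟨this.1, this.2.1⟩

end KEYx

open KEYx in
theorem pKEY : tKEY := by
  refine ⟨fun a b ha hab => mv_spec ha hab, ?_, ?_, ?_, ?_, ?_⟩
  · intro a b a' b' ha haa hab hbb
    have h1 := mv_spec (a := a') (b := b') (by omega) hab
    have h2 := mv_spec (a := a) (b := b) ha (by omega)
    by_cases h : mv a' b' = mv a b
    · exact Or.inl h
    · exact Or.inr (h2.2.2 _ (by omega) (by omega) h)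
  · intro lo hi
    constructor
    · intro h
      by_contra hn
      have := kv_bounds (lo := lo) (hi := hi) (by omega)
      omega
    · exact kv_of_lt
  · intro lo hi h
    refine ⟨?_, kv_bounds h⟩
    constructor
    · intro hodd
      by_contra hne
      have hlt : lo < hi := by omega
      rw [kv_of_le h] at hodd
      have hs := mv_spec (a := 2 * lo + 1) (b := 2 * hi + 1) (by omega) (by omega)
      have hne2 : 2 * lo + 2 ≠ mv (2 * lo + 1) (2 * hi + 1) := by
        intro he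
        rw [← he] at hodd
        rcases hodd with ⟨s, hs⟩
        omega
      have h1 := hs.2.2 (2 * lo + 2) (by omega) (by omega) hne2
      have h0 : padicValNat 2 (mv (2 * lo + 1) (2 * hi + 1)) = 0 := by
        apply padicValNat.eq_zero_of_not_dvd
        rcases hodd with ⟨s, hs⟩
        omega
      omega
    · rintro rfl
      rw [kv_of_le h, mv_self _ (by omega)]
      exact ⟨lo, rfl⟩
  · intro c
    rw [kv_of_le (le_refl c), mv_self _ (by omega)]
  · intro lo hi k hk
    have h1 : kv lo hi < 2 ^ (k + 1) := by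
      rcases Nat.lt_or_ge hi lo with h | h
      · rw [kv_of_lt h]; positivity
      · have := (kv_bounds h).2
        rw [pow_succ]; omega
    refine ⟨h1, ?_⟩
    rcases Nat.eq_zero_or_pos (kv lo hi) with h0 | h0
    · rw [h0]; simp
    · have hd : 2 ^ padicValNat 2 (kv lo hi) ∣ kv lo hi := pow_padicValNat_dvd
      have hle := Nat.le_of_dvd h0 hd
      have hlt : 2 ^ padicValNat 2 (kv lo hi) < 2 ^ (k + 1) := lt_of_le_of_lt hle h1
      have := (Nat.pow_lt_pow_iff_right (by norm_num : 1 < 2)).mp hlt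
      omega

end Pool.Agent.AcyUp
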