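import Pool.Agent.AcyUp.Targets

set_option autoImplicit false

/-!
# MP_08c6cd_lc, LOC: keys depend only on the blocks of the seeds
-/

namespace Pool.Agent.AcyUp

open Finset Pool.Agent.AcyTest
open scoped Classical

theorem pLOC : tLOC := by
  intro V _ C g hg j x
  have hlo : ∀ a, ({ C with f := g } : Cx V).lo j a x = C.lo j a x := by
    intro a
    exact Finset.sup_congr rfl (fun s hs => (hg s (Finset.mem_inter.1 hs).2).symm)
  have hhi : ∀ a, ({ C with f := g } : Cx V).hi j a x = C.hi j a x := by
    intro a
    unfold Cx.hi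
    congr 1
    refine Finset.sup_congr rfl (fun s hs => ?_)
    change 2 ^ C.p.k - 1 - g s = 2 ^ C.p.k - 1 - C.f s
    rw [hg s (Finset.mem_inter.1 hs).2]
  unfold Cx.key
  change (match C.l x with
    | none => 0
    | some a => if C.p.act a then kv (({ C with f := g } : Cx V).lo j a x)
        (({ C with f := g } : Cx V).hi j a x) else 0) = _
  simp only [hlo, hhi]
  rfl

end Pool.Agent.AcyUp
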