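import Pool.Agent.AcyUp.Targets

set_option autoImplicit false

/-!
# MP_08c6cd_lc: keys and heights are monotone in the step and in the set of seeds
-/

namespace Pool.Agent.AcyUp

open Finset Pool.Agent.AcyTest
open scoped Classical

namespace MON_

lemma kv_pos {lo hi : ℕ} (h : lo ≤ hi) : kv lo hi = mv (2 * lo + 1) (2 * hi + 1) := if_pos h

/-- intervals which shrink -/
lemma kv_mono (hK : tKEY) {lo hi lo' hi' : ℕ} (h1 : lo ≤ lo') (h2 : hi' ≤ hi) :
    (kv lo hi = 0 → kv lo' hi' = 0) ∧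
    (kv lo' hi' ≠ 0 → kv lo' hi' ≠ kv lo hi →
      padicValNat 2 (kv lo' hi') < padicValNat 2 (kv lo hi)) ∧
    padicValNat 2 (kv lo' hi') ≤ padicValNat 2 (kv lo hi) := by
  obtain ⟨_, k2, k3, _, _, _⟩ := hK
  have hlt : kv lo' hi' ≠ 0 → kv lo' hi' ≠ kv lo hi →
      padicValNat 2 (kv lo' hi') < padicValNat 2 (kv lo hi) := by
    intro h0 hne
    have h3 : lo' ≤ hi' := by
      by_contra hcon
      exact h0 ((k3 lo' hi').2 (not_le.1 hcon))
    have h4 : lo ≤ hi := by omega
    rw [kv_pos h3, kv_pos h4] at hne ⊢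
    rcases k2 (2 * lo + 1) (2 * hi + 1) (2 * lo' + 1) (2 * hi' + 1) (by omega) (by omega)
      (by omega) (by omega) with h | h
    · exact absurd h hne
    · exact h
  refine ⟨fun h => ?_, hlt, ?_⟩
  · rw [k3] at h ⊢
    omega
  · by_cases h0 : kv lo' hi' = 0
    · rw [h0]
      simp
    · by_cases hne : kv lo' hi' = kv lo hi
      · rw [hne]
      · exact (hlt h0 hne).le

variable {V : Type} [Fintype V]

lemma lo_mono (hB : tBAL) (C : Cx V) {R : Finset V} (hR : C.R1 ⊆ R) {j j' : ℕ} (hj : j ≤ j')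
    (a : Lb) (x : V) : C.lo j a x ≤ ({ C with R1 := R } : Cx V).lo j' a x := by
  unfold Cx.lo
  apply Finset.sup_mono
  refine Finset.inter_subset_inter ?_ hR
  exact (hB V C.E false (C.S a)).2.1 _ _ x (Nat.add_le_add_left hj _)

lemma hi_mono (hB : tBAL) (C : Cx V) {R : Finset V} (hR : C.R1 ⊆ R) {j j' : ℕ} (hj : j ≤ j')
    (a : Lb) (x : V) : ({ C with R1 := R } : Cx V).hi j' a x ≤ C.hi j a x := by
  unfold Cx.hi
  apply Nat.sub_le_sub_left
  apply Finset.sup_mono
  refine Finset.inter_subset_inter ?_ hR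
  exact (hB V C.E true (C.S a)).2.1 _ _ x (Nat.add_le_add_left hj _)

lemma key_cases (C : Cx V) (x : V) :
    (∀ (R : Finset V) (j : ℕ), ({ C with R1 := R } : Cx V).key j x = 0) ∨
    ∃ a, ∀ (R : Finset V) (j : ℕ), ({ C with R1 := R } : Cx V).key j x =
      kv (({ C with R1 := R } : Cx V).lo j a x) (({ C with R1 := R } : Cx V).hi j a x) := by
  rcases hl : C.l x with _ | a
  · left
    intro R j
    unfold Cx.key
    simp only [hl]
  · by_cases ha : C.p.act a
    · right
      refine ⟨a, fun R j => ?_⟩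
      unfold Cx.key
      simp only [hl, if_pos ha]
    · left
      intro R j
      unfold Cx.key
      simp only [hl, if_neg ha]

/-- all facts about two steps and two sets of seeds -/
lemma main (hB : tBAL) (hK : tKEY) (C : Cx V) (x : V) {j j' : ℕ} {R : Finset V} (hj : j ≤ j')
    (hR : C.R1 ⊆ R) :
    (C.key j x = 0 → ({ C with R1 := R } : Cx V).key j' x = 0) ∧
    (({ C with R1 := R } : Cx V).key j' x ≠ 0 → ({ C with R1 := R } : Cx V).key j' x ≠ C.key j x →
      ({ C with R1 := R } : Cx V).T j' x < C.T j x) ∧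
    ({ C with R1 := R } : Cx V).T j' x ≤ C.T j x := by
  rcases key_cases C x with h | ⟨a, h⟩
  · have h1 := h R j'
    refine ⟨fun _ => h1, fun h2 => absurd h1 h2, ?_⟩
    unfold Cx.T
    rw [h1]
    simp
  · have h1 := h R j'
    have h2 : C.key j x = kv (C.lo j a x) (C.hi j a x) := h C.R1 j
    unfold Cx.T
    rw [h1, h2]
    exact kv_mono hK (lo_mono hB C hR hj a x) (hi_mono hB C hR hj a x)

lemma bound (hK : tKEY) (C : Cx V) (x : V) (j : ℕ) :
    C.key j x < 2 ^ (C.p.k + 1) ∧ C.T j x ≤ C.p.k := by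
  rcases key_cases C x with h | ⟨a, h⟩
  · have h1 : C.key j x = 0 := h C.R1 j
    unfold Cx.T
    rw [h1]
    simp
  · have h1 : C.key j x = kv (C.lo j a x) (C.hi j a x) := h C.R1 j
    unfold Cx.T
    rw [h1]
    apply hK.2.2.2.2.2
    unfold Cx.hi
    have : 0 < 2 ^ C.p.k := by positivity
    omega

end MON_

/-- MON: keys and heights are monotone in the step and in the set of seeds -/
theorem pMON (hB : tBAL) (hK : tKEY) : tMON := by
  intro V _ C x j j' R hj hR
  have h1 := MON_.main hB hK C x hj (Finset.Subset.refl C.R1)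
  have h2 := MON_.main hB hK C x (le_refl j) hR
  have h3 := MON_.bound hK C x j
  refine ⟨h3.1, h3.2, h1.2.2, h1.1, h1.2.1, ?_, h2.2.2⟩
  intro h0
  unfold Cx.T
  constructor
  · intro he
    exact one_le_padicValNat_of_dvd h0 he.two_dvd
  · intro hv
    exact even_iff_two_dvd.2 (dvd_of_one_le_padicValNat hv)

end Pool.Agent.AcyUp
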