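import Pool.Agent.AcyUp.NUM

set_option autoImplicit false

/-!
# NUM, part 4: the constants
-/

namespace Pool.Agent.AcyUp.XNUM

open Finset Pool.Agent.AcyTest Pool.Agent.AcyUp Filter
open scoped Classical

lemma ev_sq (a C : ℝ) (ha : 0 < a) (hC : 0 ≤ C) :
    ∀ᶠ L : ℝ in atTop, C * L ^ 2 ≤ Real.exp (a * L) := by
  filter_upwards [eventually_ge_atTop (max 1 (C * (256 / a ^ 4)))] with L hL
  have hL1 : 1 ≤ L := le_trans (le_max_left _ _) hL
  have hL2 : C * (256 / a ^ 4) ≤ L := le_trans (le_max_right _ _) hL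
  have h1 : a * L / 4 ≤ Real.exp (a * L / 4) := by
    have := Real.add_one_le_exp (a * L / 4)
    linarith
  have h2 : (a * L / 4) ^ 4 ≤ Real.exp (a * L / 4) ^ 4 := pow_le_pow_left₀ (by positivity) h1 4
  have h3 : Real.exp (a * L / 4) ^ 4 = Real.exp (a * L) := by
    rw [← Real.exp_nat_mul]
    congr 1
    push_cast
    ring
  rw [h3] at h2
  refine le_trans ?_ h2
  have h4 : C ≤ a ^ 4 / 256 * L := by
    have h5 := mul_le_mul_of_nonneg_left hL2 (by positivity : 0 ≤ a ^ 4 / 256)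
    have e : a ^ 4 / 256 * (C * (256 / a ^ 4)) = C := by field_simp
    rw [e] at h5
    exact h5
  have h6 : a ^ 4 / 256 * L ≤ a ^ 4 / 256 * L ^ 2 := by
    apply mul_le_mul_of_nonneg_left _ (by positivity)
    nlinarith
  have h7 := mul_le_mul_of_nonneg_right (le_trans h4 h6) (by positivity : 0 ≤ L ^ 2)
  have e : (a * L / 4) ^ 4 = a ^ 4 / 256 * L ^ 2 * L ^ 2 := by ring
  rw [e]
  exact h7

lemma ev_lin (a C : ℝ) (ha : 0 < a) (hC : 0 ≤ C) :
    ∀ᶠ L : ℝ in atTop, C * L ≤ Real.exp (a * L) := by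
  filter_upwards [ev_sq a C ha hC, eventually_ge_atTop (1 : ℝ)] with L h1 h2
  refine le_trans ?_ h1
  apply mul_le_mul_of_nonneg_left _ hC
  nlinarith

lemma ev_cst (a C : ℝ) (ha : 0 < a) (hC : 0 ≤ C) :
    ∀ᶠ L : ℝ in atTop, C ≤ Real.exp (a * L) := by
  filter_upwards [ev_lin a C ha hC, eventually_ge_atTop (1 : ℝ)] with L h1 h2
  refine le_trans ?_ h1
  nlinarith

lemma ev_mul (a C : ℝ) (ha : 0 < a) : ∀ᶠ L : ℝ in atTop, C ≤ a * L := by
  filter_upwards [eventually_ge_atTop (C / a)] with L hL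
  rw [div_le_iff₀ ha] at hL
  linarith

lemma ev_big (d h : ℕ) (g X κ κ3 ε1 ε2 ε4 c : ℝ) (hX : 0 < X) (hκ : 0 < κ)
    (hκ3 : 0 < κ3) (hε1 : 0 < ε1) (hε2 : 0 < ε2) (hε4 : 0 < ε4) (hc : 0 ≤ c) :
    ∀ᶠ L : ℝ in atTop, Big d h g X κ κ3 ε1 ε2 ε4 c L := by
  have hX40 : 0 < X / 40 := by positivity
  filter_upwards [eventually_ge_atTop (2 : ℝ), eventually_ge_atTop (2 * g), ev_mul X 1 hX,
    ev_mul κ h hκ, ev_mul κ3 1 hκ3, ev_mul (X / 40) 1 hX40,
    ev_cst X (2 / ε4) hX (by positivity), ev_cst X (96 * d / ε2) hX (by positivity),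
    ev_sq (2 * X) (184320 * h / ε4) (by positivity) (by positivity),
    ev_mul (ε4 * κ) (32 * h) (by positivity), ev_mul (ε4 * κ3) (32 * h) (by positivity),
    ev_cst (3 * X / 200) (16 * d / ε1) (by positivity) (by positivity),
    eventually_ge_atTop (40 * (64 * (h : ℝ) + 2)), ev_lin 3 120 (by norm_num) (by norm_num),
    ev_lin (X / 200) (4160 * c) (by positivity) (by positivity), ev_lin 1 c (by norm_num) hc]
    with L a1 a2 a3 a4 a5 a6 a7 a8 a9 a10 a11 a12 a13 a14 a15 a16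
  refine ⟨a1, a2, a3, a4, a5, a6, ?_, ?_, ?_, ?_, ?_, ?_, a13, a14, a15, by simpa using a16⟩
  · rw [div_le_iff₀ hε4] at a7
    linarith
  · rw [div_le_iff₀ hε2] at a8
    linarith
  · rw [div_mul_eq_mul_div, div_le_iff₀ hε4] at a9
    linarith
  · linarith
  · linarith
  · rw [div_le_iff₀ hε1] at a12
    linarith

lemma exists_h (A : ℝ) : ∃ h : ℕ, 1 ≤ h ∧ A * h ≤ 2 ^ h := by
  obtain ⟨j, hj⟩ := exists_nat_ge (2 * A)
  refine ⟨2 * (j + 1), by omega, ?_⟩
  have h1 : ((j + 1 : ℕ) : ℝ) ≤ 2 ^ (j + 1) := by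
    exact_mod_cast (Nat.lt_two_pow_self (n := j + 1)).le
  have h2 : (2 : ℝ) ^ (2 * (j + 1)) = 2 ^ (j + 1) * 2 ^ (j + 1) := by
    rw [two_mul, pow_add]
  rw [h2]
  have h3 : (0 : ℝ) ≤ 2 ^ (j + 1) := by positivity
  push_cast at h1 ⊢
  have h4 : (0 : ℝ) ≤ j := Nat.cast_nonneg j
  have h5 : A * (2 * (j + 1)) ≤ (j + 1 : ℝ) * (j + 1) := by nlinarith
  have h6 : (j + 1 : ℝ) * (j + 1) ≤ 2 ^ (j + 1) * 2 ^ (j + 1) :=
    mul_le_mul h1 h1 (by positivity) h3
  linarith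

end Pool.Agent.AcyUp.XNUM

namespace Pool.Agent.AcyUp

open Finset Pool.Agent.AcyTest Pool.Agent.AcyUp.XNUM Filter
open scoped Classical

theorem pNUM : tNUM := by
  intro d ε hd hε hε1
  have hd1 : (1 : ℝ) ≤ d := by exact_mod_cast hd
  obtain ⟨g, hg⟩ : ∃ g : ℝ, g = Real.log (d + 1) := ⟨_, rfl⟩
  have hg0 : 0 < g := by rw [hg]; exact Real.log_pos (by linarith)
  obtain ⟨η, hη⟩ : ∃ η : ℝ, η = ε / 16 := ⟨_, rfl⟩
  have hη0 : 0 < η := by rw [hη]; positivity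
  have hη1 : η ≤ 1 := by rw [hη]; linarith
  obtain ⟨τm, hτ⟩ : ∃ τm : ℝ, τm = 2 / η + 1 / (2 * g) := ⟨_, rfl⟩
  have hτ0 : 0 < τm := by rw [hτ]; positivity
  obtain ⟨θ1, hθ1⟩ : ∃ θ1 : ℝ, θ1 = ε * d / (8 * τm) := ⟨_, rfl⟩
  have hθ10 : 0 < θ1 := by rw [hθ1]; positivity
  obtain ⟨κ, hκ⟩ : ∃ κ : ℝ, κ = 1 / (16 * g) := ⟨_, rfl⟩
  have hκ0 : 0 < κ := by rw [hκ]; positivity
  obtain ⟨Λ, hΛ⟩ : ∃ Λ : ℝ, Λ = max 1 (Real.log (g ^ 2 / η ^ 2)) := ⟨_, rfl⟩
  have hΛ1 : 1 ≤ Λ := by rw [hΛ]; exact le_max_left _ _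
  have hΛ2 : g ^ 2 / η ^ 2 ≤ Real.exp Λ := by
    have h1 : Real.log (g ^ 2 / η ^ 2) ≤ Λ := by rw [hΛ]; exact le_max_right _ _
    have h2 := Real.exp_le_exp.mpr h1
    rwa [Real.exp_log (by positivity)] at h2
  obtain ⟨h, hh1, hh⟩ := exists_h (7680 * Λ / (κ * ε))
  have hh1' : (1 : ℝ) ≤ h := by exact_mod_cast hh1
  have hhΛ : 7680 * Λ * h ≤ κ * ε * 2 ^ h := by
    rw [div_mul_eq_mul_div, div_le_iff₀ (by positivity)] at hh
    linarith
  obtain ⟨X, hX⟩ : ∃ X : ℝ, X = min (1 / 2) (min (κ * θ1 / (72 * d * g * h)) (η / (80 * g))) :=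
    ⟨_, rfl⟩
  have hX0 : 0 < X := by
    rw [hX]
    apply lt_min (by norm_num) (lt_min (by positivity) (by positivity))
  have hX1 : X ≤ 1 / 2 := by rw [hX]; exact min_le_left _ _
  have hX2 : X ≤ κ * θ1 / (72 * d * g * h) := by
    rw [hX]; exact le_trans (min_le_right _ _) (min_le_left _ _)
  have hX3 : X ≤ η / (80 * g) := by
    rw [hX]; exact le_trans (min_le_right _ _) (min_le_right _ _)
  obtain ⟨K, hK⟩ : ∃ K : ℕ, K = ⌈9 * Λ / X⌉₊ := ⟨_, rfl⟩
  have hK1 : 9 * Λ / X ≤ K := by rw [hK]; exact Nat.le_ceil _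
  have hK2 : (K : ℝ) ≤ 10 * Λ / X := by
    have h1 : (K : ℝ) ≤ 9 * Λ / X + 1 := by
      rw [hK]
      exact (Nat.ceil_lt_add_one (by positivity)).le
    have h2 : 1 ≤ Λ / X := by
      rw [le_div_iff₀ hX0]
      linarith
    have e : 10 * Λ / X = 9 * Λ / X + Λ / X := by ring
    rw [e]
    linarith
  have hK0 : (0 : ℝ) < K := lt_of_lt_of_le (by positivity) hK1
  obtain ⟨ε2, hε2⟩ : ∃ ε2 : ℝ, ε2 = ε * d / (8 * K) := ⟨_, rfl⟩
  have hε20 : 0 < ε2 := by rw [hε2]; positivity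
  have hKε2 : 8 * K * ε2 = ε * d := by rw [hε2]; field_simp
  obtain ⟨ε4, hε4⟩ : ∃ ε4 : ℝ, ε4 = ε2 / (16 * d) := ⟨_, rfl⟩
  have hε40 : 0 < ε4 := by rw [hε4]; positivity
  obtain ⟨G, hG⟩ : ∃ G : ℝ, G = g + 1 := ⟨_, rfl⟩
  have hG0 : 0 < G := by rw [hG]; linarith
  have hG1 : 1 ≤ G := by rw [hG]; linarith
  have hGg : g ≤ G := by rw [hG]; linarith
  obtain ⟨c, hc⟩ : ∃ c : ℝ, c = (2 / η + 3) * (18 * (2 * d + 2)) := ⟨_, rfl⟩
  have hc0 : 0 ≤ c := by rw [hc]; positivity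
  have hK1' : (1 : ℝ) ≤ K := by
    have : 0 < K := by exact_mod_cast hK0
    exact_mod_cast this
  have hε1d : ε2 ≤ 2 * d := by
    rw [hε2, div_le_iff₀ (by positivity)]
    have h1 : ε * d ≤ 1 * d := mul_le_mul_of_nonneg_right hε1 (by positivity)
    have h2 : (d : ℝ) * 1 ≤ d * K := mul_le_mul_of_nonneg_left hK1' (by positivity)
    linarith
  have CC : Cst d h g η X κ (X / (40 * G)) (X / (400 * G)) τm θ1 (ε2 / 8) ε2 ε4 c
      (g * (2 / η + 1) + (2 / η + 1) + 10) := by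
    refine ⟨hd, hh1, hg0, hg, hη0, hX0, hX1, hκ, by positivity, ?_, ?_, by positivity, ?_, ?_, hX3,
      hτ.symm, by positivity, by linarith, hε40, hε20, ?_, ?_, ?_, by ring, hc, ?_, ?_, ?_⟩
    · have e : 400 * (X / (400 * G)) = X / G := by ring
      rw [e, div_le_iff₀ hG0]
      have := mul_le_mul_of_nonneg_left hG1 hX0.le
      linarith
    · apply div_le_div₀ (by norm_num) (by linarith) (by positivity)
      linarith
    · apply div_le_div₀ (by norm_num) (by linarith) (by positivity)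
      linarith
    · have e : g * (X / (400 * G) + X / (40 * G)) = (11 / 400 * X) * (g / G) := by ring
      rw [e]
      have h1 : g / G ≤ 1 := by
        rw [div_le_iff₀ hG0]
        linarith
      have h2 := mul_le_mul_of_nonneg_left h1 (by positivity : 0 ≤ 11 / 400 * X)
      linarith
    · rw [le_div_iff₀ (by positivity)] at hX2
      linarith
    · -- 288 d X h ≤ 3 ε2 (κ 2 ^ h)
      have h1 : ε * d * X ≤ 80 * Λ * ε2 := by
        have h2 : K * X ≤ 10 * Λ := by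
          rw [le_div_iff₀ hX0] at hK2
          exact hK2
        have h3 := mul_le_mul_of_nonneg_right h2 (by positivity : 0 ≤ 8 * ε2)
        rw [← hKε2]
        linarith
      have h2 := mul_le_mul_of_nonneg_left hhΛ (by positivity : 0 ≤ (d : ℝ) * X)
      have h3 := mul_le_mul_of_nonneg_right h1 (by positivity : 0 ≤ κ * 2 ^ h)
      have h4 : Λ * (7680 * (d * X * h)) ≤ Λ * (80 * ε2 * (κ * 2 ^ h)) := by linarith
      have h5 := le_of_mul_le_mul_left h4 (by linarith : 0 < Λ)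
      linarith
    · rw [hε4]
      field_simp
    · have : 0 < g * (2 / η + 1) + (2 / η + 1) := by positivity
      linarith
    · have : 0 < (2 / η + 1) := by positivity
      linarith
    · have : 0 < g * (2 / η + 1) := by positivity
      linarith
  obtain ⟨L0, hL0⟩ := eventually_atTop.mp (ev_big d h g X κ (X / (40 * G)) (ε2 / 8) ε2 ε4 c hX0 hκ0
    (by positivity) (by positivity) hε20 hε40 hc0)
  refine ⟨η, τm, θ1, 1 - X / 8, ε2 / 8, ε2, ε4, X / (400 * G),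
    g * (2 / η + 1) + (2 / η + 1) + 10, L0, K, h, ?_, by positivity, ?_, by positivity, hh1, ?_⟩
  · refine ⟨hη0, hη1, ?_, hθ10.le, by linarith, by linarith, hε20.le, ?_, ?_, hKε2.le, ?_⟩
    · rw [hτ]
      have : 0 < 1 / (2 * g) := by positivity
      linarith
    · rw [← hg]
      have h1 : (1 - X / 8) ^ K ≤ Real.exp (-(9 / 8 * Λ)) := by
        have h2 : 1 - X / 8 ≤ Real.exp (-(X / 8)) := by
          have := Real.add_one_le_exp (-(X / 8))
          linarith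
        have h3 := pow_le_pow_left₀ (by linarith : 0 ≤ 1 - X / 8) h2 K
        refine le_trans h3 ?_
        rw [← Real.exp_nat_mul]
        apply Real.exp_le_exp.mpr
        rw [div_le_iff₀ hX0] at hK1
        linarith
      have h2 : Real.exp (-(9 / 8 * Λ)) < Real.exp (-Λ) := Real.exp_lt_exp.mpr (by linarith)
      have h3 : Real.exp (-Λ) * g ^ 2 ≤ η ^ 2 := by
        rw [div_le_iff₀ (by positivity)] at hΛ2
        rw [Real.exp_neg, ← div_eq_inv_mul, div_le_iff₀ (Real.exp_pos _)]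
        linarith
      have hg2 : 0 < g ^ 2 := by positivity
      have h4 := mul_lt_mul_of_pos_right (lt_of_le_of_lt h1 h2) hg2
      linarith
    · rw [hη]
      linarith
    · have e : 8 * θ1 * τm = ε * d := by rw [hθ1]; field_simp
      exact e.le
  · have : 0 < g * (2 / η + 1) + (2 / η + 1) := by positivity
    linarith
  · intro L n Rm W hL hn hRm hW
    have := XNUM.main CC (hL0 L hL) n Rm W hn hRm hW
    rw [← hg]
    exact this

end Pool.Agent.AcyUp
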