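import Pool.Agent.AcyUp.H21Nl

set_option autoImplicit false

/-!
# MP_08c6cd_lc, PRG: progress of the rates of the unfinished labels
-/

namespace Pool.Agent.AcyUp

open Finset Pool.Agent.AcyTest
open scoped Classical

open H21Nl in
theorem pPRG : tPRG := by
  intro V _ C j o o2 Rm Rm' θ B hN hη hG ho ho2 hB x a' hx hact'
  have hθ : 0 < θ := hN.2.2.2.1
  obtain ⟨hNs, hNt, _, _, _, hall⟩ := hN
  obtain ⟨a, hl, h⟩ := inv C j o o2 x a' hx
  have hpos : ∀ b, 0 < gr C.p.gm a b := fun b => (hG x a hl b).1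
  -- the general step
  have key : ∀ (c : ℕ) (b : Bool) (r : ℕ) (g : ℝ), C.p.act a →
      g * gr C.p.gm a (!b) ≤ θ * (gr C.p.gm a true * gr C.p.gm a false) →
      gr C.p.gm ((c, b, r, g) :: a) true * gr C.p.gm ((c, b, r, g) :: a) false ≤ θ * B := by
    intro c b r g hact hg
    rw [← prod_dir C.p.gm ((c, b, r, g) :: a) b, gr_same,
      gr_other C.p.gm c b (!b) r g a (by cases b <;> simp)]
    exact hg.trans (mul_le_mul_of_nonneg_left (hB x a hl hact) hθ.le)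
  rcases h with ⟨hna, rfl⟩ | ⟨hact, hk, hev, b, hb, rfl⟩ | ⟨hact, hk, hodd, hb, rfl⟩
  · exfalso
    apply hna
    unfold Pm.act at hact' ⊢
    rwa [gr_fin, gr_fin] at hact'
  · apply key _ _ _ _ hact
    obtain ⟨hm1, hm2, hA, hP2, hr1, hr2⟩ := hall a (lbOK hG hl) hact
    obtain ⟨hr, hrr⟩ := hr1 o ho
    rw [← prod_dir C.p.gm a b, ← mul_assoc]
    exact mul_le_mul_of_nonneg_right (hrr b).2 (hpos _).le
  · apply key _ _ _ _ hact
    obtain ⟨hm1, hm2, hA, hP2, hr1, hr2⟩ := hall a (lbOK hG hl) hact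
    obtain ⟨hr, hrr⟩ := hr2 o2 ho2
    rw [← prod_dir C.p.gm a (!C.p.dir a), ← mul_assoc]
    refine mul_le_mul_of_nonneg_right (hrr.trans ?_) (hpos _).le
    exact mul_le_mul_of_nonneg_left (dir_le _ _) hθ.le

end Pool.Agent.AcyUp
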