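import Pool.Agent.AcyUp.Targets2
import Pool.Agent.AcyUp.BAL

set_option autoImplicit false

/-!
# Sizes of the explored balls
-/

namespace Pool.Agent.AcyUp

open Finset Pool.Agent.AcyTest
open scoped Classical

namespace RADx

lemma bound {L g η : ℝ} {d : ℕ} (hL : 0 ≤ L) (hη : 0 < η) (hg : η < g) (hd : 1 ≤ d) :
    ((d * ⌊L / (g * d)⌋₊ : ℕ) : ℝ) ≤ L / η := by
  have hg0 : 0 < g := hη.trans hg
  have hd0 : (0 : ℝ) < d := by exact_mod_cast hd
  have h1 : ((⌊L / (g * d)⌋₊ : ℕ) : ℝ) ≤ L / (g * d) := Nat.floor_le (by positivity)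
  push_cast
  calc (d : ℝ) * (⌊L / (g * d)⌋₊ : ℕ) ≤ d * (L / (g * d)) := by gcongr
    _ = L / g := by field_simp
    _ ≤ L / η := by gcongr

lemma size {V : Type} [Fintype V] (hGRO : tGRO) (E : V → V → Prop) (b : Bool) (S : Finset V)
    {L g : ℝ} {d : ℕ} (hL : 0 ≤ L) (hg : 0 < g) (hd : 1 ≤ d)
    (hS : ∀ x ∈ S, ((ball E b S d x).card : ℝ) ≤ Real.exp (g * d)) (x : V) (hx : x ∈ S) (r : ℕ)
    (hr : r ≤ d * ⌊L / (g * d)⌋₊) : ((ball E b S r x).card : ℝ) ≤ Real.exp L := by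
  have hd0 : (0 : ℝ) < d := by exact_mod_cast hd
  have h1 : ((⌊L / (g * d)⌋₊ : ℕ) : ℝ) ≤ L / (g * d) := Nat.floor_le (by positivity)
  have h2 := (hGRO V E b S).2 d (Real.exp (g * d)) hS ⌊L / (g * d)⌋₊ x hx
  have h3 : (ball E b S r x).card ≤ (ball E b S (d * ⌊L / (g * d)⌋₊) x).card :=
    card_le_card (BALx.mono _ _ _ hr)
  have h4 : ((ball E b S r x).card : ℝ) ≤ (ball E b S (d * ⌊L / (g * d)⌋₊) x).card := by
    exact_mod_cast h3
  refine h4.trans (h2.trans ?_)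
  rw [← Real.exp_nat_mul, Real.exp_le_exp]
  calc ((⌊L / (g * d)⌋₊ : ℕ) : ℝ) * (g * d) ≤ L / (g * d) * (g * d) := by gcongr
    _ = L := by field_simp

end RADx

open RADx in
theorem pRAD (hGRO : tGRO) : tRAD := by
  intro V _ E l p Rm x a b hGw hη hL hL2 hx hact
  obtain ⟨hg0, hgm, hrd, _, _⟩ := hGw x a hx b
  have hg : p.η < gr p.gm a b := by
    cases b
    · exact hact.2
    · exact hact.1
  have hS : ∀ y ∈ cl l (some a),
      ((ball E b (cl l (some a)) (rd a b) y).card : ℝ) ≤ Real.exp (gr p.gm a b * rd a b) := by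
    intro y hy
    have hy' : l y = some a := by
      simpa [cl] using hy
    exact (hGw y a hy' b).2.2.2.2
  have hxS : x ∈ cl l (some a) := by
    simpa [cl] using hx
  exact ⟨⟨bound hL hη hg hrd, bound hL2 hη hg hrd⟩,
    fun r hr => size hGRO E b _ hL hg0 hrd hS x hxS r hr,
    fun r hr => size hGRO E b _ hL2 hg0 hrd hS x hxS r hr⟩

end Pool.Agent.AcyUp
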