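import Pool.Agent.AcyUp.Targets2

set_option autoImplicit false

/-!
# MP_08c6cd_lc, ACU-RTH: one round
-/

namespace Pool.Agent.AcyUp

open Finset Pool.Agent.AcyTest
open scoped Classical

namespace RTHx

/-- the randomness without the saturation step -/
abbrev Ysp (V : Type) (p : Pm) : Type :=
  (Fin p.M → V) × Fin p.i1 × Fin (p.h * p.mb) × Fin p.m × Fin p.m2

/-- reassociation of the randomness -/
def eqv (V : Type) (p : Pm) : Ysp V p × (V × (Fin p.q → V)) ≃ Zr V p where
  toFun := fun z => (z.1.1, z.1.2.1, z.1.2.2.1, z.1.2.2.2.1, z.1.2.2.2.2, z.2.1, z.2.2)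
  invFun := fun z =>
    ((z.1, z.2.1, z.2.2.1, z.2.2.2.1, z.2.2.2.2.1), (z.2.2.2.2.2.1, z.2.2.2.2.2.2))
  left_inv := fun _ => rfl
  right_inv := fun _ => rfl

theorem count {Y W Z : Type} [Fintype Y] [Fintype W] [Fintype Z] (e : Y × W ≃ Z) (G : Y → Prop)
    (P : Z → Prop) [DecidablePred G] [DecidablePred P] (α β : ℝ) (hα : 0 ≤ α) (hβ : 0 ≤ β)
    (h1 : (Fintype.card Y : ℝ) ≤ β * (univ.filter G).card)
    (h2 : ∀ y, G y → α * Fintype.card W ≤ (univ.filter fun w => P (e (y, w))).card) :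
    α * Fintype.card Z ≤ β * (univ.filter P).card := by
  have h3 : (Fintype.card Z : ℝ) = Fintype.card Y * Fintype.card W := by
    rw [← Fintype.card_congr e, Fintype.card_prod]; push_cast; ring
  have h4 : ((univ.filter P).card : ℝ) = ∑ y, ((univ.filter fun w => P (e (y, w))).card : ℝ) := by
    have h : (univ.filter P).card = ∑ y, (univ.filter fun w => P (e (y, w))).card := by
      simp only [Finset.card_filter]
      rw [← Equiv.sum_comp e, Fintype.sum_prod_type]
    rw [h, Nat.cast_sum]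
  have h5 : ((univ.filter G).card : ℝ) * (α * Fintype.card W) ≤
      ∑ y, ((univ.filter fun w => P (e (y, w))).card : ℝ) := by
    calc ((univ.filter G).card : ℝ) * (α * Fintype.card W)
        = ∑ y ∈ univ.filter G, (α * Fintype.card W) := by rw [Finset.sum_const, nsmul_eq_mul]
      _ ≤ ∑ y ∈ univ.filter G, ((univ.filter fun w => P (e (y, w))).card : ℝ) :=
          Finset.sum_le_sum fun y hy => h2 y (Finset.mem_filter.1 hy).2
      _ ≤ ∑ y, ((univ.filter fun w => P (e (y, w))).card : ℝ) :=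
          Finset.sum_le_sum_of_subset_of_nonneg (Finset.filter_subset _ _)
            fun _ _ _ => Nat.cast_nonneg _
  rw [h3, h4]
  calc α * ((Fintype.card Y : ℝ) * Fintype.card W)
      = Fintype.card Y * (α * Fintype.card W) := by ring
    _ ≤ (β * (univ.filter G).card) * (α * Fintype.card W) :=
        mul_le_mul_of_nonneg_right h1 (mul_nonneg hα (Nat.cast_nonneg _))
    _ = β * ((univ.filter G).card * (α * Fintype.card W)) := by ring
    _ ≤ _ := mul_le_mul_of_nonneg_left h5 hβ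

/-- `un` is contained in the drops and the invalid vertices -/
theorem un_card (hMON : tMON) {V : Type} [Fintype V] (C : Cx V) (j : ℕ) (hj : j + 1 ≤ C.p.m) :
    (C.un j).card ≤ (univ.filter fun x => C.T (j + 1) x < C.T j x).card +
      (univ.filter fun x => ∃ a, C.l x = some a ∧ C.p.act a ∧ C.key C.p.m x = 0).card := by
  refine le_trans (Finset.card_le_card ?_) (Finset.card_union_le _ _)
  intro x hx
  rw [Cx.un, Finset.mem_filter] at hx
  obtain ⟨-, a, ha, hact, h⟩ := hx
  rw [Finset.mem_union, Finset.mem_filter, Finset.mem_filter]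
  have hA := hMON V C x j (j + 1) C.R1 (Nat.le_succ j) (Finset.Subset.refl _)
  have hB := hMON V C x j C.p.m C.R1 (le_trans (Nat.le_succ j) hj) (Finset.Subset.refl _)
  have hC := hMON V C x (j + 1) C.p.m C.R1 hj (Finset.Subset.refl _)
  rcases h with h | h
  · by_cases h0 : C.key (j + 1) x = 0
    · exact Or.inr ⟨mem_univ _, a, ha, hact, hC.2.2.2.1 h0⟩
    · exact Or.inl ⟨mem_univ _, hA.2.2.2.2.1 h0 h⟩
  · exact Or.inr ⟨mem_univ _, a, ha, hact, hB.2.2.2.1 h⟩

/-- `LL` is contained in `Y` -/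
theorem LL_card (hBAL : tBAL) {V : Type} [Fintype V] (C : Cx V) (j o : ℕ)
    (hr : ∀ x a, C.l x = some a → C.p.act a → C.p.r1 a o ≤ C.p.A a - C.p.m) :
    (C.LL j o).card ≤ (C.Y j).card := by
  refine Finset.card_le_card ?_
  intro x hx
  rw [Cx.LL, Finset.mem_filter] at hx
  obtain ⟨-, a, ha, hact, h0, he, h⟩ := hx
  rw [Cx.Y, Finset.mem_filter]
  refine ⟨mem_univ _, a, ha, hact, h0, he, fun b => ?_⟩
  refine le_trans (h b) (Finset.card_le_card ?_)
  exact (hBAL V C.E b (C.nd j a (C.key j x))).2.1 _ _ _ (hr x a ha hact)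

/-- the coarse vertices are paid by the potential -/
theorem coarse (hMON : tMON) (hTAU : tTAU) {V : Type} [Fintype V] (C : Cx V)
    (j o o2 Rm Rm' : ℕ) (θ τm : ℝ) (hgm : 0 < C.p.gm)
    (hN : NumOK C.p θ Rm Rm') (hη : 0 < C.p.η) (hG : Gw C.E C.l C.p.gm Rm) (ho : o < C.p.m)
    (ho2 : o2 < C.p.m2) (hτ : 2 / C.p.η + 1 / (2 * C.p.gm) ≤ τm) :
    ((univ.filter fun x => 1 ≤ C.T j x).card : ℝ) ≤
      2 * C.p.gm * (st C.p.gm C.p.η τm (C.nl j o o2) - st C.p.gm C.p.η τm C.l) := by
  have h1 : ∀ x, tau C.p.gm C.p.η τm (C.l x) + (if 1 ≤ C.T j x then 1 / (2 * C.p.gm) else 0) ≤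
      tau C.p.gm C.p.η τm (C.nl j o o2 x) := by
    intro x
    have hx := hTAU V C j o o2 Rm Rm' θ τm hN hη hG ho ho2 hτ x
    split_ifs with hT
    · have h0 : C.key j x ≠ 0 := by
        intro h0
        rw [Cx.T, h0] at hT
        simp at hT
      have hm := hMON V C x j j C.R1 le_rfl (Finset.Subset.refl _)
      exact hx.2.1 h0 ((hm.2.2.2.2.2.1 h0).2 hT)
    · rw [add_zero]; exact hx.1
  have h2 := Finset.sum_le_sum fun x (_ : x ∈ (univ : Finset V)) => h1 x
  rw [Finset.sum_add_distrib, ← Finset.sum_filter, Finset.sum_const, nsmul_eq_mul] at h2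
  unfold st
  have h3 : ((univ.filter fun x => 1 ≤ C.T j x).card : ℝ) * (1 / (2 * C.p.gm)) ≤
      ∑ x, tau C.p.gm C.p.η τm (C.nl j o o2 x) - ∑ x, tau C.p.gm C.p.η τm (C.l x) := by
    linarith
  have h4 := mul_le_mul_of_nonneg_left h3 (show (0 : ℝ) ≤ 2 * C.p.gm by positivity)
  have h5 : 2 * C.p.gm * (((univ.filter fun x => 1 ≤ C.T j x).card : ℝ) * (1 / (2 * C.p.gm))) =
      ((univ.filter fun x => 1 ≤ C.T j x).card : ℝ) := by
    field_simp
  rw [h5] at h4
  exact h4

/-- the numbers -/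
theorem arith {n T T' U D I L c1 c2 HF c S d k mb gm θ1 ε1 ε2 ε4 K H ii : ℝ}
    (hn : 0 < n) (hd : 0 < d) (hk : 0 ≤ k) (hmb : 0 < mb) (hgm : 0 < gm)
    (h0 : T ≤ T' + 3 * d * U + 2 * d * L + d * c1 + d * c2 + HF)
    (h1 : U ≤ D + I) (h2 : I ≤ n / K + ii) (h3 : ii ≤ n / K) (h4 : L ≤ ε4 * n)
    (h5 : c1 ≤ ε4 * n) (h6 : c2 ≤ ε4 * n) (h7 : HF ≤ 2 * ε1 * n)
    (h8 : D * mb ≤ 4 * k * (c + n / H)) (h9 : c ≤ 2 * gm * S) (hc : 0 ≤ c)
    (h10 : 24 * d * gm * (k / mb) ≤ θ1)
    (h11 : 12 * d * (k / mb) / H + 6 * d / K + 4 * d * ε4 + 2 * ε1 ≤ ε2) :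
    T ≤ T' + θ1 * S + ε2 * n := by
  have hS : 0 ≤ S := by
    by_contra hS
    rw [not_le] at hS
    have : 2 * gm * S < 0 := mul_neg_of_pos_of_neg (by positivity) hS
    linarith
  have hD : D ≤ 4 * (k / mb) * (c + n / H) := by
    have h := (le_div_iff₀ hmb).2 h8
    have e : 4 * k * (c + n / H) / mb = 4 * (k / mb) * (c + n / H) := by ring
    rw [e] at h
    exact h
  have hkm : 0 ≤ k / mb := div_nonneg hk hmb.le
  have hE : 3 * d * D ≤ 12 * d * (k / mb) * c + 12 * d * (k / mb) / H * n := by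
    have h := mul_le_mul_of_nonneg_left hD (show 0 ≤ 3 * d by positivity)
    have e : 3 * d * (4 * (k / mb) * (c + n / H)) =
        12 * d * (k / mb) * c + 12 * d * (k / mb) / H * n := by ring
    rw [e] at h
    exact h
  have hF : 12 * d * (k / mb) * c ≤ θ1 * S := by
    have h := mul_le_mul_of_nonneg_left h9 (show 0 ≤ 12 * d * (k / mb) by positivity)
    have e : 12 * d * (k / mb) * (2 * gm * S) = 24 * d * gm * (k / mb) * S := by ring
    rw [e] at h
    exact le_trans h (mul_le_mul_of_nonneg_right h10 hS)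
  have hG : 3 * d * I ≤ 6 * d / K * n := by
    have h : I ≤ n / K + n / K := by linarith
    have h' := mul_le_mul_of_nonneg_left h (show 0 ≤ 3 * d by positivity)
    have e : 3 * d * (n / K + n / K) = 6 * d / K * n := by ring
    rw [e] at h'
    exact h'
  have hU : 3 * d * U ≤ 3 * d * D + 3 * d * I := by
    have h := mul_le_mul_of_nonneg_left h1 (show 0 ≤ 3 * d by positivity)
    linarith
  have hL : 2 * d * L ≤ 2 * d * (ε4 * n) := mul_le_mul_of_nonneg_left h4 (by positivity)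
  have hc1 : d * c1 ≤ d * (ε4 * n) := mul_le_mul_of_nonneg_left h5 hd.le
  have hc2 : d * c2 ≤ d * (ε4 * n) := mul_le_mul_of_nonneg_left h6 hd.le
  have hε := mul_le_mul_of_nonneg_right h11 hn.le
  have e : (12 * d * (k / mb) / H + 6 * d / K + 4 * d * ε4 + 2 * ε1) * n =
      12 * d * (k / mb) / H * n + 6 * d / K * n + 4 * (d * (ε4 * n)) + 2 * ε1 * n := by ring
  rw [e] at hε
  have e2 : 2 * d * (ε4 * n) = 2 * (d * (ε4 * n)) := by ring
  linarith

end RTHx

theorem pRTH (hGDC : tGDC) (hDET : tDET) (hTAU : tTAU) (hSAT : tSAT) (hMON : tMON) (hBAL : tBAL)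
    (hFAS : tFAS) : tRTH := by
  intro V _ _ E l d p θ τm θ1 ε1 ε2 ε4 Rm Rm' hDg hR hGw
  have hgdc := hGDC V E l d p θ τm θ1 ε1 ε2 ε4 Rm Rm' hR hGw
  obtain ⟨hNum, hd, hη, hgm, hτ, hε1, hε1d, hε4, hh, hmb, hhm, hm2, hi1, hM1, hM2, hM3, hk4, hbig,
    hcap, hNt, hθ1, hε2⟩ := hR
  have hd0 : (0 : ℝ) < d := by exact_mod_cast hd
  have hh0 : (0 : ℝ) < p.h := by exact_mod_cast hh
  have hn0 : 0 < Fintype.card V := Fintype.card_pos
  have hn0' : (0 : ℝ) < Fintype.card V := by exact_mod_cast hn0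
  have key := RTHx.count (RTHx.eqv V p)
    (fun y => Cyc E (seedD E l p (als y.1)) ∨
        good E l p ε4 y.1 y.2.1 y.2.2.1 y.2.2.2.1 y.2.2.2.2)
    (fun z => Cyc E (Dz E l p z) ∨ (TF E l : ℝ) ≤ TF E (nlz E l p z) +
      θ1 * (st p.gm p.η τm (nlz E l p z) - st p.gm p.η τm l) + ε2 * Fintype.card V)
    (ε1 / (2 * d)) (4 * p.h) (by positivity) (by positivity) hgdc ?_
  · have h1 := mul_le_mul_of_nonneg_left key (show (0 : ℝ) ≤ 2 * d by positivity)
    have h2 : 2 * (d : ℝ) * (ε1 / (2 * d) * (Fintype.card (Zr V p) : ℝ)) =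
        ε1 * (Fintype.card (Zr V p) : ℝ) := by
      field_simp
    rw [h2] at h1
    refine le_trans h1 (le_of_eq ?_)
    generalize hc : ((univ.filter fun z : Zr V p => Cyc E (Dz E l p z) ∨
      (TF E l : ℝ) ≤ TF E (nlz E l p z) +
      θ1 * (st p.gm p.η τm (nlz E l p z) - st p.gm p.η τm l) + ε2 * Fintype.card V).card : ℝ) = c
    ring
  intro y hy
  have hα1 : ε1 / (2 * d) ≤ 1 := by
    rw [div_le_one (by positivity)]; exact hε1d
  -- all choices of the saturation step work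
  have hall : (∀ w : V × (Fin p.q → V), Cyc E (Dz E l p (RTHx.eqv V p (y, w))) ∨
      (TF E l : ℝ) ≤ TF E (nlz E l p (RTHx.eqv V p (y, w))) +
      θ1 * (st p.gm p.η τm (nlz E l p (RTHx.eqv V p (y, w))) - st p.gm p.η τm l) +
        ε2 * Fintype.card V) →
      ε1 / (2 * d) * (Fintype.card (V × (Fin p.q → V)) : ℝ) ≤
      ((univ.filter fun w : V × (Fin p.q → V) => Cyc E (Dz E l p (RTHx.eqv V p (y, w))) ∨
      (TF E l : ℝ) ≤ TF E (nlz E l p (RTHx.eqv V p (y, w))) +
      θ1 * (st p.gm p.η τm (nlz E l p (RTHx.eqv V p (y, w))) - st p.gm p.η τm l) +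
        ε2 * Fintype.card V).card : ℝ) := by
    intro h
    rw [Finset.filter_true_of_mem fun w _ => h w, Finset.card_univ]
    exact mul_le_of_le_one_left (Nat.cast_nonneg _) hα1
  obtain ⟨ω, i, j, o, o2⟩ := y
  have hfas := hFAS V E d
  rcases hy with hy | hy
  · refine hall fun w => Or.inl ?_
    refine hfas.2.2.2.2.1 _ _ ?_ hy
    exact Finset.subset_union_left
  · -- good events
    obtain ⟨hg1, hg2, hg3, hg4, hg5, hg6⟩ := hy
    simp only at hg1 hg2 hg3 hg4 hg5 hg6
    have hjm : (j : ℕ) + 1 ≤ p.m := le_trans j.2 hhm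
    have hLb : ∀ x a, l x = some a → LbOK p.gm Rm a := by
      intro x a hx b
      have := hGw x a hx b
      exact ⟨this.1, this.2.1, this.2.2.1, this.2.2.2.1⟩
    by_cases hHF : 2 * ε1 * (Fintype.card V : ℝ) <
        ((ctx E l p ω (p.i1 + i)).HF j o2 : ℝ)
    · -- the saturation step finds a cycle
      have hsat := hSAT V (ctx E l p ω (p.i1 + i)) d j o2 (65 * Fintype.card V / 2 ^ p.k) ε1
        hDg hd hg2 (by
          intro x a hx hact
          have hx' : l x = some a := hx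
          have h := (hNum.2.2.2.2.2 a (hLb x a hx') hact).2.2.2.1
          have ho2 : (o2 : ℕ) < p.m2 := o2.2
          change p.P2 a (p.dir a) - p.m2 + o2 ≤ p.P2 a (p.dir a)
          omega) hε1 hHF (by
          change 4 * (p.q : ℝ) * (65 * Fintype.card V / 2 ^ p.k) ≤ Fintype.card V * p.cap
          have h1 : (4 * p.q * 65 : ℝ) ≤ 2 ^ p.k * p.cap := by exact_mod_cast hcap
          have h2 : (0 : ℝ) < 2 ^ p.k := by positivity
          have h3 : 4 * (p.q : ℝ) * (65 * Fintype.card V / 2 ^ p.k) =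
              (4 * p.q * 65 : ℝ) * Fintype.card V / 2 ^ p.k := by ring
          rw [h3, div_le_iff₀ h2]
          have h4 := mul_le_mul_of_nonneg_right h1 hn0'.le
          linarith) hNt
      change ε1 * Fintype.card V * (Fintype.card V : ℝ) ^ p.q ≤ 2 * d *
        ((univ.filter fun z : V × (Fin p.q → V) =>
          Cyc E ((ctx E l p ω (p.i1 + i)).satD j z.1 z.2)).card : ℝ) at hsat
      have hcW : (Fintype.card (V × (Fin p.q → V)) : ℝ) =
          Fintype.card V * (Fintype.card V : ℝ) ^ p.q := by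
        rw [Fintype.card_prod, Fintype.card_fun, Fintype.card_fin]
        push_cast
        ring
      have h5 : ε1 / (2 * d) * (Fintype.card (V × (Fin p.q → V)) : ℝ) ≤
          ((univ.filter fun z : V × (Fin p.q → V) =>
          Cyc E ((ctx E l p ω (p.i1 + i)).satD j z.1 z.2)).card : ℝ) := by
        rw [hcW, div_mul_eq_mul_div, div_le_iff₀ (by positivity)]
        calc ε1 * (Fintype.card V * (Fintype.card V : ℝ) ^ p.q)
            = ε1 * Fintype.card V * (Fintype.card V : ℝ) ^ p.q := by ring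
          _ ≤ _ := hsat
          _ = _ := by ring
      refine le_trans h5 ?_
      refine Nat.cast_le.2 (Finset.card_le_card ?_)
      intro w hw
      rw [Finset.mem_filter] at hw ⊢
      refine ⟨mem_univ _, Or.inl ?_⟩
      refine hfas.2.2.2.2.1 _ _ ?_ hw.2
      exact Finset.subset_union_right
    · -- the account of feedback arcs
      refine hall fun w => Or.inr ?_
      rw [not_lt] at hHF
      have hdet := hDET V (ctx E l p ω (p.i1 + i)) d j o o2 hDg
      change TF E l ≤ TF E ((ctx E l p ω (p.i1 + i)).nl j o o2) + _ + _ + _ + _ + _ at hdet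
      have hnl : nlz E l p (RTHx.eqv V p ((ω, i, j, o, o2), w)) =
          (ctx E l p ω (p.i1 + i)).nl j o o2 := rfl
      rw [hnl]
      have hun := RTHx.un_card hMON (ctx E l p ω (p.i1 + i)) j hjm
      have hLL := RTHx.LL_card hBAL (ctx E l p ω (p.i1 + i)) j o (by
          intro x a hx hact
          have hx' : l x = some a := hx
          have h := (hNum.2.2.2.2.2 a (hLb x a hx') hact).2.2.1
          have ho : (o : ℕ) < p.m := o.2
          change p.A a - 2 * p.m + o ≤ p.A a - p.m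
          omega)
      have hco := RTHx.coarse hMON hTAU (ctx E l p ω (p.i1 + i)) j o o2 Rm Rm' θ τm hgm hNum hη
        hGw o.2 o2.2 hτ
      change _ ≤ 2 * p.gm * (st p.gm p.η τm ((ctx E l p ω (p.i1 + i)).nl j o o2) -
        st p.gm p.η τm l) at hco
      change _ ≤ _ + (univ.filter fun x => ∃ a, l x = some a ∧ p.act a ∧
        (ctx E l p ω (p.i1 + i)).key p.m x = 0).card at hun
      have hii : ((p.i1 : ℝ) + i) ≤ (Fintype.card V : ℝ) / 2 ^ p.k := by
        rw [le_div_iff₀ (by positivity)]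
        have hi : (i : ℕ) < p.i1 := i.2
        have h1 : (p.i1 + (i : ℕ)) * 2 ^ p.k ≤ Fintype.card V := by
          calc (p.i1 + (i : ℕ)) * 2 ^ p.k ≤ (2 * p.M) * 2 ^ p.k :=
                Nat.mul_le_mul_right _ (by omega)
            _ = 2 ^ p.k * (2 * p.M) := Nat.mul_comm _ _
            _ ≤ _ := hM3
        exact_mod_cast h1
      have hmb0 : (0 : ℝ) < p.mb := by exact_mod_cast hmb
      have hdetR : (TF E l : ℝ) ≤ TF E ((ctx E l p ω (p.i1 + i)).nl j o o2) +
          3 * d * (((ctx E l p ω (p.i1 + i)).un j).card : ℝ) +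
          2 * d * (((ctx E l p ω (p.i1 + i)).LL j o).card : ℝ) +
          d * (((ctx E l p ω (p.i1 + i)).cr1 j o).card : ℝ) +
          d * (((ctx E l p ω (p.i1 + i)).cr2 j o2).card : ℝ) +
          ((ctx E l p ω (p.i1 + i)).HF j o2 : ℝ) := by
        exact_mod_cast hdet
      have hunR : (((ctx E l p ω (p.i1 + i)).un j).card : ℝ) ≤
          ((univ.filter fun x => (ctx E l p ω (p.i1 + i)).T (j + 1) x <
            (ctx E l p ω (p.i1 + i)).T j x).card : ℝ) +
          ((univ.filter fun x => ∃ a, l x = some a ∧ p.act a ∧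
            (ctx E l p ω (p.i1 + i)).key p.m x = 0).card : ℝ) := by
        exact_mod_cast hun
      have hLLR : (((ctx E l p ω (p.i1 + i)).LL j o).card : ℝ) ≤ ε4 * Fintype.card V :=
        le_trans (by exact_mod_cast hLL) hg3
      exact RTHx.arith hn0' hd0 (Nat.cast_nonneg p.k) hmb0 hgm
        hdetR hunR hg1 hii hLLR hg5 hg6 hHF hg4 hco
        (Nat.cast_nonneg _) hθ1 hε2

end Pool.Agent.AcyUp
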