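import Pool.Agent.AcyUp.Targets

set_option autoImplicit false

/-!
# MP_08c6cd_lc, sublinear tester: the saturation step (target `tSAT`)
-/

namespace Pool.Agent.AcyUp

open Finset Pool.Agent.AcyTest
open scoped Classical

namespace SATx

theorem card_prod_filter {V Y : Type} [Fintype V] [Fintype Y] (P : V → Y → Prop) :
    (univ.filter fun z : V × Y => P z.1 z.2).card = ∑ v, (univ.filter fun y => P v y).card := by
  simp only [card_filter]
  rw [Fintype.sum_prod_type]

theorem markov {Y : Type} [Fintype Y] (f : Y → ℝ) (hf : ∀ y, 0 ≤ f y) (t : ℝ) :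
    t * ((univ.filter fun y => t ≤ f y).card : ℝ) ≤ ∑ y, f y := by
  calc t * ((univ.filter fun y => t ≤ f y).card : ℝ)
      = ∑ _y ∈ univ.filter (fun y => t ≤ f y), t := by rw [sum_const, nsmul_eq_mul, mul_comm]
    _ ≤ ∑ y ∈ univ.filter (fun y => t ≤ f y), f y :=
        sum_le_sum fun y hy => (mem_filter.mp hy).2
    _ ≤ ∑ y, f y := sum_le_sum_of_subset_of_nonneg (filter_subset _ _) fun y _ _ => hf y

/-- functions whose value at `t` lies in `W` -/
theorem card_at {V : Type} [Fintype V] {q : ℕ} (W : Finset V) (t : Fin q) :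
    Fintype.card V * (univ.filter fun Q : Fin q → V => Q t ∈ W).card =
      W.card * Fintype.card V ^ q := by
  have h1 : (univ.filter fun Q : Fin q → V => Q t ∈ W) =
      Fintype.piFinset (fun s => if s = t then W else univ) := by
    ext Q
    simp only [mem_filter, mem_univ, true_and, Fintype.mem_piFinset]
    constructor
    · intro h s
      by_cases hs : s = t
      · rw [if_pos hs, hs]; exact h
      · rw [if_neg hs]; exact mem_univ _
    · intro h
      have := h t
      rwa [if_pos rfl] at this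
  rw [h1, Fintype.card_piFinset]
  have h2 := (mul_prod_erase univ (fun s : Fin q => (if s = t then W else univ : Finset V).card)
    (mem_univ t)).symm
  rw [h2]
  have h3 : ∏ x ∈ univ.erase t, (if x = t then W else univ : Finset V).card =
      Fintype.card V ^ (q - 1) := by
    rw [prod_congr rfl (fun x hx => by rw [if_neg (ne_of_mem_erase hx), card_univ])]
    rw [prod_const, card_erase_of_mem (mem_univ t), card_univ, Fintype.card_fin]
  rw [h3, if_pos rfl]
  have hq : 0 < q := lt_of_le_of_lt (Nat.zero_le _) t.2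
  obtain ⟨r, rfl⟩ : ∃ r, q = r + 1 := ⟨q - 1, by omega⟩
  rw [Nat.add_sub_cancel, pow_succ]; ring

/-- functions avoiding `B` -/
theorem card_avoid {V : Type} [Fintype V] {q : ℕ} (B : Finset V) :
    (univ.filter fun Q : Fin q → V => ∀ t, Q t ∉ B).card = Bᶜ.card ^ q := by
  have h1 : (univ.filter fun Q : Fin q → V => ∀ t, Q t ∉ B) =
      Fintype.piFinset (fun _ => Bᶜ) := by
    ext Q
    simp only [mem_filter, mem_univ, true_and, Fintype.mem_piFinset, mem_compl]
  rw [h1, Fintype.card_piFinset, prod_const, card_univ, Fintype.card_fin]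

theorem sum_card_le {α V : Type} [Fintype V] (s : Finset α) (F : α → Finset V) (T : Finset V)
    (hF : ∀ p ∈ s, F p ⊆ T) (hd : ∀ p ∈ s, ∀ p' ∈ s, p ≠ p' → Disjoint (F p) (F p')) :
    ∑ p ∈ s, (F p).card ≤ T.card := by
  rw [← card_biUnion hd]
  exact card_le_card (biUnion_subset.mpr hF)

end SATx

open SATx in
theorem pSAT (hF : tFAS) (hB : tBAL) : tSAT := by
  intro V _ C d j o w ε hDg hd hw hP hε hHF hcap hexp
  obtain ⟨-, -, hfmono, hf0, hcyc, hfd, hfrem, -⟩ := hF V C.E d
  have hfd := hfd hDg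
  have hfrem := hfrem hDg
  set n : ℝ := (Fintype.card V : ℝ) with hn
  have hn0 : 0 ≤ n := Nat.cast_nonneg _
  have hd1 : (1 : ℝ) ≤ d := by exact_mod_cast hd
  -- the vertices in good windows
  set GV : Finset V := univ.filter fun v => ∃ a, C.l v = some a ∧ C.p.act a ∧
    Odd (C.key j v) ∧ ε * ((C.nd j a (C.key j v)).card : ℝ) ≤ (fas C.E (C.HH j o a (C.key j v)) : ℝ)
    with hGV
  have hHH : ∀ a c, C.HH j o a c ⊆ C.nd j a c := fun a c => filter_subset _ _
  have hmem : ∀ a c y, y ∈ C.nd j a c ↔ C.l y = some a ∧ C.key j y = c := by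
    intro a c y; simp [Cx.nd]
  have hGVbig : ε * n < d * (GV.card : ℝ) := by
    set I := ((labs C.l).filter C.p.act) ×ˢ ((range (2 ^ (C.p.k + 1))).filter Odd) with hI
    have h1 : ((C.HF j o : ℕ) : ℝ) = ∑ p ∈ I, (fas C.E (C.HH j o p.1 p.2) : ℝ) := by
      unfold Cx.HF
      push_cast
      rw [hI, sum_product]
    have hdisj : ∀ p ∈ I, ∀ p' ∈ I, p ≠ p' → Disjoint (C.nd j p.1 p.2) (C.nd j p'.1 p'.2) := by
      intro p _ p' _ hne
      rw [disjoint_left]
      intro y hy hy'
      rw [hmem] at hy hy'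
      apply hne
      have e1 : p.1 = p'.1 := by
        have := hy.1.symm.trans hy'.1
        exact Option.some.inj this
      exact Prod.ext e1 (hy.2.symm.trans hy'.2)
    have h2 : ∑ p ∈ I, (C.nd j p.1 p.2).card ≤ (univ : Finset V).card :=
      sum_card_le I (fun p => C.nd j p.1 p.2) univ (fun p _ => subset_univ _) hdisj
    have h2' : ∑ p ∈ I, ((C.nd j p.1 p.2).card : ℝ) ≤ n := by
      rw [card_univ] at h2
      rw [hn]; exact_mod_cast h2
    set J := I.filter fun p => ε * ((C.nd j p.1 p.2).card : ℝ) ≤ (fas C.E (C.HH j o p.1 p.2) : ℝ)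
      with hJ
    have h3 : ∑ p ∈ J, (C.nd j p.1 p.2).card ≤ GV.card := by
      refine sum_card_le J (fun p => C.nd j p.1 p.2) GV ?_ ?_
      · intro p hp y hy
        rw [hJ, mem_filter, hI, mem_product, mem_filter, mem_filter] at hp
        obtain ⟨⟨⟨-, ha⟩, -, hc⟩, hg⟩ := hp
        rw [hmem] at hy
        rw [hGV, mem_filter]
        refine ⟨mem_univ _, p.1, hy.1, ha, ?_, ?_⟩
        · rw [hy.2]; exact hc
        · rw [hy.2]; exact hg
      · intro p hp p' hp' hne
        exact hdisj p (mem_filter.mp hp).1 p' (mem_filter.mp hp').1 hne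
    have h3' : ∑ p ∈ J, ((C.nd j p.1 p.2).card : ℝ) ≤ GV.card := by exact_mod_cast h3
    have h4 : ∑ p ∈ I, (fas C.E (C.HH j o p.1 p.2) : ℝ) ≤
        ∑ p ∈ I, (ε * ((C.nd j p.1 p.2).card : ℝ) +
          if ε * ((C.nd j p.1 p.2).card : ℝ) ≤ (fas C.E (C.HH j o p.1 p.2) : ℝ) then
            d * ((C.nd j p.1 p.2).card : ℝ) else 0) := by
      refine sum_le_sum fun p _ => ?_
      split_ifs with h
      · have e1 : fas C.E (C.HH j o p.1 p.2) ≤ d * (C.nd j p.1 p.2).card :=
          (hfd _).trans (Nat.mul_le_mul_left d (card_le_card (hHH _ _)))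
        have e2 : (fas C.E (C.HH j o p.1 p.2) : ℝ) ≤ d * ((C.nd j p.1 p.2).card : ℝ) := by
          exact_mod_cast e1
        have e3 : 0 ≤ ε * ((C.nd j p.1 p.2).card : ℝ) := by positivity
        linarith
      · push Not at h
        linarith
    rw [sum_add_distrib, ← mul_sum, ← sum_filter, ← mul_sum] at h4
    have h5 : ε * ∑ p ∈ I, ((C.nd j p.1 p.2).card : ℝ) ≤ ε * n :=
      mul_le_mul_of_nonneg_left h2' hε.le
    have h6 : (d : ℝ) * ∑ p ∈ J, ((C.nd j p.1 p.2).card : ℝ) ≤ d * GV.card :=
      mul_le_mul_of_nonneg_left h3' (by linarith)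
    have h7 : 2 * ε * n < ∑ p ∈ I, (fas C.E (C.HH j o p.1 p.2) : ℝ) := by
      rw [← h1]; exact hHF
    have h8 := h7.trans_le h4
    have h9 : (d : ℝ) * ∑ p ∈ I.filter (fun p => ε * ((C.nd j p.1 p.2).card : ℝ) ≤
        (fas C.E (C.HH j o p.1 p.2) : ℝ)), ((C.nd j p.1 p.2).card : ℝ) ≤ d * GV.card := h6
    linarith
  -- a vertex of a good window
  have hmain : ∀ v ∈ GV, n ^ C.p.q ≤ 2 *
      ((univ.filter fun Q : Fin C.p.q → V => Cyc C.E (C.satD j v Q)).card : ℝ) := by
    intro v hv
    rw [hGV, mem_filter] at hv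
    obtain ⟨-, a, hla, hact, hodd, hgood⟩ := hv
    set c := C.key j v with hc
    set W := C.nd j a c with hW
    set H := C.HH j o a c with hH
    set N : ℝ := n ^ C.p.q with hN
    have hvW : v ∈ W := by rw [hW, hmem]; exact ⟨hla, rfl⟩
    have hWpos : (0 : ℝ) < W.card := by exact_mod_cast card_pos.mpr ⟨v, hvW⟩
    have hnpos : 0 < n := by
      rw [hn]; exact_mod_cast Fintype.card_pos_iff.mpr ⟨v⟩
    have hNpos : 0 < N := pow_pos hnpos _
    have hfpos : (0 : ℝ) < fas C.E H := lt_of_lt_of_le (by positivity) hgood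
    have hWw : (W.card : ℝ) ≤ w := hw a c hact hodd
    have hcardQ : ((univ : Finset (Fin C.p.q → V)).card : ℝ) = N := by
      rw [card_univ, Fintype.card_fun, Fintype.card_fin]; push_cast; rfl
    -- first bad event
    set f : (Fin C.p.q → V) → ℝ := fun Q => ((univ.filter fun t => Q t ∈ W).card : ℝ) with hf
    have hfsum : n * ∑ Q, f Q = C.p.q * W.card * N := by
      have e1 : ∑ Q, f Q = ∑ t : Fin C.p.q,
          ((univ.filter fun Q : Fin C.p.q → V => Q t ∈ W).card : ℝ) := by
        simp only [hf, card_filter]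
        push_cast
        rw [sum_comm]
      rw [e1, mul_sum]
      have e2 : ∀ t : Fin C.p.q, n * ((univ.filter fun Q : Fin C.p.q → V => Q t ∈ W).card : ℝ) =
          W.card * N := by
        intro t
        have := card_at W t
        rw [hN, hn]; exact_mod_cast this
      rw [sum_congr rfl (fun t _ => e2 t), sum_const, card_univ, Fintype.card_fin, nsmul_eq_mul]
      ring
    have hb1 : ((univ.filter fun Q : Fin C.p.q → V => ((C.p.cap : ℝ) + 1) ≤ f Q).card : ℝ) ≤
        N / 4 := by
      have m1 := markov f (fun Q => Nat.cast_nonneg _) ((C.p.cap : ℝ) + 1)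
      have m2 : 4 * ∑ Q, f Q ≤ C.p.cap * N := by
        have e1 : n * (4 * ∑ Q, f Q) ≤ n * (C.p.cap * N) := by
          have e2 : (C.p.q : ℝ) * W.card ≤ C.p.q * w :=
            mul_le_mul_of_nonneg_left hWw (Nat.cast_nonneg _)
          have e3 : 4 * (C.p.q * w) * N ≤ n * C.p.cap * N := by
            apply mul_le_mul_of_nonneg_right _ hNpos.le
            linarith
          nlinarith
        exact le_of_mul_le_mul_left e1 hnpos
      have hcap0 : (0 : ℝ) ≤ C.p.cap := Nat.cast_nonneg _
      set x := ((univ.filter fun Q : Fin C.p.q → V => ((C.p.cap : ℝ) + 1) ≤ f Q).card : ℝ)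
      have e4 : ((C.p.cap : ℝ) + 1) * x ≤ ((C.p.cap : ℝ) + 1) * (N / 4) := by nlinarith
      exact le_of_mul_le_mul_left e4 (by linarith)
    -- second bad event
    set B : V → Finset V := fun y => ball C.E (!C.p.dir a) W (C.p.r2 a o) y with hBdef
    set U : (Fin C.p.q → V) → Finset V := fun Q => H.filter fun y => ∀ t, Q t ∉ B y with hU
    have hBN : ∀ y ∈ H, C.p.Nt ≤ (B y).card := by
      intro y hy
      exact (mem_filter.mp hy).2
    have hUsum : ∑ Q, ((U Q).card : ℝ) ≤ W.card * (N * Real.exp (-(C.p.Nt * C.p.q / n))) := by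
      have e1 : ∑ Q, ((U Q).card : ℝ) = ∑ y ∈ H,
          ((univ.filter fun Q : Fin C.p.q → V => ∀ t, Q t ∉ B y).card : ℝ) := by
        simp only [hU, card_filter]
        push_cast
        rw [sum_comm]
      have e2 : ∀ y ∈ H, ((univ.filter fun Q : Fin C.p.q → V => ∀ t, Q t ∉ B y).card : ℝ) ≤
          N * Real.exp (-(C.p.Nt * C.p.q / n)) := by
        intro y hy
        rw [card_avoid, card_compl]
        have h1 : (B y).card ≤ Fintype.card V := card_le_univ _
        push_cast [Nat.cast_sub h1]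
        have h2 : (C.p.Nt : ℝ) ≤ (B y).card := by exact_mod_cast hBN y hy
        have h3 : (0 : ℝ) ≤ n - (B y).card := by
          have : ((B y).card : ℝ) ≤ n := by rw [hn]; exact_mod_cast h1
          linarith
        have h4 : n - (B y).card ≤ n * Real.exp (-(C.p.Nt / n)) := by
          have h5 := Real.add_one_le_exp (-(C.p.Nt / n : ℝ))
          have h6 := mul_le_mul_of_nonneg_left h5 hnpos.le
          have h7 : n * (-(C.p.Nt / n : ℝ) + 1) = n - C.p.Nt := by
            field_simp; ring
          linarith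
        have h8 := pow_le_pow_left₀ h3 h4 C.p.q
        refine h8.trans (le_of_eq ?_)
        rw [mul_pow, ← Real.exp_nat_mul]
        congr 2
        field_simp
      rw [e1]
      refine (sum_le_sum e2).trans ?_
      rw [sum_const, nsmul_eq_mul]
      apply mul_le_mul_of_nonneg_right
      · exact_mod_cast card_le_card (hHH a c)
      · positivity
    have hb2 : ((univ.filter fun Q : Fin C.p.q → V =>
        (fas C.E H : ℝ) ≤ 2 * d * (U Q).card).card : ℝ) ≤ N / 4 := by
      have m1 := markov (fun Q : Fin C.p.q → V => 2 * d * ((U Q).card : ℝ))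
        (fun Q => by positivity) (fas C.E H : ℝ)
      rw [← mul_sum] at m1
      have e1 : 2 * (d : ℝ) * ∑ Q, ((U Q).card : ℝ) ≤ fas C.E H * (N / 4) := by
        have e2 := mul_le_mul_of_nonneg_left hUsum (by positivity : (0 : ℝ) ≤ 2 * d)
        have e3 : 2 * (d : ℝ) * (W.card * (N * Real.exp (-(C.p.Nt * C.p.q / n)))) =
            (W.card * N / 4) * (8 * d * Real.exp (-(C.p.Nt * C.p.q / n))) := by ring
        have e4 : (W.card * N / 4) * (8 * d * Real.exp (-(C.p.Nt * C.p.q / n))) ≤
            (W.card * N / 4) * ε := mul_le_mul_of_nonneg_left hexp (by positivity)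
        have e5 : (ε * W.card) * (N / 4) ≤ fas C.E H * (N / 4) :=
          mul_le_mul_of_nonneg_right hgood (by positivity)
        calc 2 * (d : ℝ) * ∑ Q, ((U Q).card : ℝ) ≤ _ := e2
          _ = _ := e3
          _ ≤ _ := e4
          _ = (ε * W.card) * (N / 4) := by ring
          _ ≤ _ := e5
      exact le_of_mul_le_mul_left (m1.trans e1) hfpos
    -- the other samples
    have hcover : (univ : Finset (Fin C.p.q → V)) ⊆
        (univ.filter fun Q : Fin C.p.q → V => Cyc C.E (C.satD j v Q)) ∪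
        ((univ.filter fun Q : Fin C.p.q → V => ((C.p.cap : ℝ) + 1) ≤ f Q) ∪
        (univ.filter fun Q : Fin C.p.q → V => (fas C.E H : ℝ) ≤ 2 * d * (U Q).card)) := by
      intro Q _
      by_cases h1 : ((C.p.cap : ℝ) + 1) ≤ f Q
      · exact mem_union_right _ (mem_union_left _ (mem_filter.mpr ⟨mem_univ _, h1⟩))
      by_cases h2 : (fas C.E H : ℝ) ≤ 2 * d * (U Q).card
      · exact mem_union_right _ (mem_union_right _ (mem_filter.mpr ⟨mem_univ _, h2⟩))
      refine mem_union_left _ (mem_filter.mpr ⟨mem_univ _, ?_⟩)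
      have h1' : (univ.filter fun t => Q t ∈ W).card ≤ C.p.cap := by
        push Not at h1
        rw [hf] at h1
        simp only at h1
        have : (univ.filter fun t => Q t ∈ W).card < C.p.cap + 1 := by exact_mod_cast h1
        omega
      have h3 : 0 < fas C.E (H \ U Q) := by
        push Not at h2
        have h4 := hfrem H (U Q)
        have h5 : 2 * d * (U Q).card < fas C.E H := by exact_mod_cast h2
        omega
      have h6 : Cyc C.E (H \ U Q) := by
        by_contra hno
        have := (hf0 (H \ U Q)).mpr hno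
        omega
      refine hcyc _ _ ?_ h6
      have hsat : C.satD j v Q = (univ.filter fun t => Q t ∈ W).biUnion fun t =>
          ball C.E (C.p.dir a) (C.S a) (C.p.P2 a (C.p.dir a)) (Q t) := by
        unfold Cx.satD
        rw [hla]
        simp only
        rw [if_pos ⟨hact, hodd, h1'⟩]
      rw [hsat]
      intro y hy
      rw [mem_sdiff] at hy
      obtain ⟨hyH, hyU⟩ := hy
      have hyt : ∃ t, Q t ∈ B y := by
        by_contra hno
        push Not at hno
        exact hyU (mem_filter.mpr ⟨hyH, hno⟩)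
      obtain ⟨t, ht⟩ := hyt
      obtain ⟨hsub, -, -, -, -, -, hdual, -, -⟩ := hB V C.E (!C.p.dir a) W
      have hQW : Q t ∈ W := hsub _ _ ht
      have h7 := hdual _ _ _ ht
      rw [Bool.not_not] at h7
      obtain ⟨-, -, -, -, -, -, -, hmono, -⟩ := hB V C.E (C.p.dir a) W
      obtain ⟨-, hrad, -, -, -, -, -, -, -⟩ := hB V C.E (C.p.dir a) (C.S a)
      have hWS : W ⊆ C.S a := by
        intro z hz
        rw [hW, hmem] at hz
        simpa [Cx.S, cl] using hz.1
      have h8 := hrad _ _ (Q t) (hP v a hla hact) (hmono _ _ (Q t) hWS h7)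
      exact mem_biUnion.mpr ⟨t, mem_filter.mpr ⟨mem_univ _, hQW⟩, h8⟩
    have h9 := (card_le_card hcover).trans ((card_union_le _ _).trans
      (Nat.add_le_add_left (card_union_le _ _) _))
    have h10 : N ≤ ((univ.filter fun Q : Fin C.p.q → V => Cyc C.E (C.satD j v Q)).card : ℝ) +
        (((univ.filter fun Q : Fin C.p.q → V => ((C.p.cap : ℝ) + 1) ≤ f Q).card : ℝ) +
        ((univ.filter fun Q : Fin C.p.q → V =>
          (fas C.E H : ℝ) ≤ 2 * d * (U Q).card).card : ℝ)) := by
      rw [← hcardQ]; exact_mod_cast h9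
    linarith
  -- sum over the good vertices
  have hcount : ((univ.filter fun z : V × (Fin C.p.q → V) => Cyc C.E (C.satD j z.1 z.2)).card : ℝ)
      = ∑ v, ((univ.filter fun Q : Fin C.p.q → V => Cyc C.E (C.satD j v Q)).card : ℝ) := by
    rw [card_prod_filter (fun v Q => Cyc C.E (C.satD j v Q))]
    push_cast
    rfl
  rw [hcount]
  have h1 : ∑ v ∈ GV, n ^ C.p.q ≤ ∑ v ∈ GV, 2 *
      ((univ.filter fun Q : Fin C.p.q → V => Cyc C.E (C.satD j v Q)).card : ℝ) :=
    sum_le_sum hmain
  have h2 : ∑ v ∈ GV, 2 *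
      ((univ.filter fun Q : Fin C.p.q → V => Cyc C.E (C.satD j v Q)).card : ℝ) ≤
      ∑ v, 2 * ((univ.filter fun Q : Fin C.p.q → V => Cyc C.E (C.satD j v Q)).card : ℝ) :=
    sum_le_sum_of_subset_of_nonneg (subset_univ _) fun v _ _ => by positivity
  rw [sum_const, nsmul_eq_mul] at h1
  have h2' : ∑ v, 2 *
      ((univ.filter fun Q : Fin C.p.q → V => Cyc C.E (C.satD j v Q)).card : ℝ) =
      2 * ∑ v, ((univ.filter fun Q : Fin C.p.q → V => Cyc C.E (C.satD j v Q)).card : ℝ) := by
    rw [mul_sum]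
  rw [h2'] at h2
  have h3 : 0 ≤ n ^ C.p.q := pow_nonneg hn0 _
  have h4 := mul_le_mul_of_nonneg_right hGVbig.le h3
  have h5 := mul_le_mul_of_nonneg_left (h1.trans h2) (by linarith : (0 : ℝ) ≤ d)
  calc ε * n * n ^ C.p.q ≤ d * GV.card * n ^ C.p.q := h4
    _ = d * (GV.card * n ^ C.p.q) := by ring
    _ ≤ _ := h5
    _ = _ := by ring

end Pool.Agent.AcyUp
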