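import Pool.Agent.AcyUp.Targets

set_option autoImplicit false

/-! The keys of the later seeds. -/

namespace Pool.Agent.AcyUp

open Finset Pool.Agent.AcyTest
open scoped Classical

namespace SEDx

lemma key_eq {V : Type} [Fintype V] (C : Cx V) (j : ℕ) {s : V} {a : Lb} (hl : C.l s = some a)
    (ha : C.p.act a) : C.key j s = kv (C.lo j a s) (C.hi j a s) := by
  unfold Cx.key
  rw [hl]
  exact if_pos ha

lemma mem_cl {V : Type} [Fintype V] {α : Type} {l : V → α} {a : α} {x : V} (h : x ∈ cl l a) :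
    l x = a := (mem_filter.1 h).2

end SEDx

open SEDx in
theorem pSED (hB : tBAL) (hK : tKEY) : tSED := by
  intro V _ C j R s a hF hR hs hs1 hl ha hm hj
  obtain ⟨hF1, hF2, _⟩ := hF
  obtain ⟨_, _, hK3, hK4, hK5, _⟩ := hK
  have hr : C.p.A a - C.p.m + j ≤ C.p.A a := by omega
  have hlo : C.lo j a s ≤ C.f s := by
    unfold Cx.lo
    refine Finset.sup_le fun s' hs' => ?_
    obtain ⟨h1, h2⟩ := mem_inter.1 hs'
    obtain ⟨b1, b2, _, _, _, _, b7, _⟩ := hB V C.E false (C.S a)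
    have h3 : s ∈ ball C.E true (C.S a) (C.p.A a - C.p.m + j) s' := b7 _ _ _ h1
    have h4 : s ∈ ball C.E true (C.S a) (C.p.A a) s' :=
      (hB V C.E true (C.S a)).2.1 _ _ _ hr h3
    have h5 : C.l s' = some a := mem_cl (b1 _ _ h1)
    refine hF1 s' (hR h2) s hs ⟨hR h2, hs, ?_, a, h5, hl, ha, h4⟩
    rintro rfl
    exact hs1 h2
  have hhi : C.f s ≤ C.hi j a s := by
    unfold Cx.hi
    have hsup : ((ball C.E true (C.S a) (C.p.A a - C.p.m + j) s ∩ C.R1).sup
        fun s => 2 ^ C.p.k - 1 - C.f s) ≤ 2 ^ C.p.k - 1 - C.f s := by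
      refine Finset.sup_le fun s' hs' => ?_
      obtain ⟨h1, h2⟩ := mem_inter.1 hs'
      have h4 : s' ∈ ball C.E true (C.S a) (C.p.A a) s :=
        (hB V C.E true (C.S a)).2.1 _ _ _ hr h1
      have h5 : C.l s' = some a := mem_cl ((hB V C.E true (C.S a)).1 _ _ h1)
      have h6 : C.f s ≤ C.f s' := by
        refine hF1 s hs s' (hR h2) ⟨hs, hR h2, ?_, a, hl, h5, ha, h4⟩
        rintro rfl
        exact hs1 h2
      omega
    have h7 := hF2 s
    omega
  have hle : C.lo j a s ≤ C.hi j a s := hlo.trans hhi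
  rw [key_eq C j hl ha]
  refine ⟨fun h0 => ?_, fun c hc => ?_⟩
  · have := (hK3 _ _).1 h0
    omega
  · have hodd : Odd (kv (C.lo j a s) (C.hi j a s)) := ⟨c, hc⟩
    have heq := ((hK4 _ _ hle).1).1 hodd
    have hfl : C.lo j a s = C.f s := by omega
    rw [← heq, hfl, hK5] at hc
    omega

end Pool.Agent.AcyUp
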