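import Pool.Agent.AcyUp.H21Nl

set_option autoImplicit false

/-!
# MP_08c6cd_lc, TAU: the potential grows at coarse vertices
-/

namespace Pool.Agent.AcyUp

open Finset Pool.Agent.AcyTest
open scoped Classical

namespace H21Tau

variable {gm η τm : ℝ}

lemma tau_none : tau gm η τm none = τm := rfl

lemma tau_act {a : Lb} (h : η < gr gm a true ∧ η < gr gm a false) :
    tau gm η τm (some a) = 1 / gr gm a true + 1 / gr gm a false := if_pos h

lemma tau_nact {a : Lb} (h : ¬ (η < gr gm a true ∧ η < gr gm a false)) :
    tau gm η τm (some a) = τm := if_neg h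

lemma tau_lt (hη : 0 < η) {a : Lb} (h : η < gr gm a true ∧ η < gr gm a false) :
    tau gm η τm (some a) ≤ 2 / η := by
  rw [tau_act h]
  have h1 : 1 / gr gm a true ≤ 1 / η := one_div_le_one_div_of_le hη h.1.le
  have h2 : 1 / gr gm a false ≤ 1 / η := one_div_le_one_div_of_le hη h.2.le
  have h3 : (2 : ℝ) / η = 1 / η + 1 / η := by ring
  rw [h3]
  exact add_le_add h1 h2

/-- sum of the two inverse rates, in any order -/
lemma sum_dir (a : Lb) (b : Bool) :
    1 / gr gm a b + 1 / gr gm a (!b) = 1 / gr gm a true + 1 / gr gm a false := by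
  cases b
  · exact add_comm _ _
  · rfl

end H21Tau

open H21Nl H21Tau in
theorem pTAU : tTAU := by
  intro V _ C j o o2 Rm Rm' θ τm hN hη hG ho ho2 hτ x
  have hθ : 0 < θ := hN.2.2.2.1
  have hθ1 : θ ≤ 1 := hN.2.2.2.2.1
  -- the last bound, given the positivity of the largest rate
  have hup : ∀ y : Option Lb, (0 ≤ C.p.gm ∨ y = none) → tau C.p.gm C.p.η τm y ≤ τm := by
    intro y hy
    cases y with
    | none => exact le_refl _
    | some a =>
      by_cases h : C.p.η < gr C.p.gm a true ∧ C.p.η < gr C.p.gm a false
      · have hgm : 0 ≤ C.p.gm := by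
          rcases hy with h | h
          · exact h
          · cases h
        have h1 : (0 : ℝ) ≤ 1 / (2 * C.p.gm) := by positivity
        have := tau_lt (τm := τm) hη h
        linarith
      · rw [tau_nact h]
  cases hl : C.l x with
  | none =>
    have hn : C.nl j o o2 x = none := by
      unfold Cx.nl
      rw [hl]
    have hk : C.key j x = 0 := by
      unfold Cx.key
      rw [hl]
    rw [hn]
    exact ⟨le_refl _, fun h => absurd hk h, le_refl _⟩
  | some a =>
    have hgm : 0 ≤ C.p.gm := ((hG x a hl true).1.trans_le (hG x a hl true).2.1).le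
    have h2gm : (0 : ℝ) ≤ 1 / (2 * C.p.gm) := by positivity
    refine ⟨?_, ?_, hup _ (Or.inl hgm)⟩
    · cases hn : C.nl j o o2 x with
      | none => exact hup _ (Or.inl hgm)
      | some a' =>
        by_cases hact' : C.p.η < gr C.p.gm a' true ∧ C.p.η < gr C.p.gm a' false
        swap
        · rw [tau_nact hact']
          exact hup _ (Or.inl hgm)
        obtain ⟨a1, hl1, h⟩ := changed C j o o2 Rm Rm' θ hN hG ho ho2 x a' hn
        have : a = a1 := by
          rw [hl] at hl1
          exact Option.some.inj hl1
        subst this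
        rcases h with ⟨hna, rfl⟩ | ⟨hact, hk, b, r, N, g, _, _, _, _, hg0, hgθ, _, rfl, _⟩
        · exfalso
          apply hna
          rw [gr_fin, gr_fin] at hact'
          exact hact'
        · have ha : C.p.η < gr C.p.gm a true ∧ C.p.η < gr C.p.gm a false := hact
          rw [tau_act ha, tau_act hact', ← sum_dir a b, ← sum_dir ((C.key j x, b, r, g) :: a) b,
            gr_same, gr_other C.p.gm _ b (!b) r g a (by cases b <;> simp)]
          have h1 : g ≤ gr C.p.gm a b := by
            have h3 := (hG x a hl b).1
            calc g ≤ θ * gr C.p.gm a b := hgθ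
              _ ≤ 1 * gr C.p.gm a b := mul_le_mul_of_nonneg_right hθ1 h3.le
              _ = gr C.p.gm a b := one_mul _
          have := one_div_le_one_div_of_le hg0 h1
          linarith
    · intro hk hev
      have hact : C.p.act a := by
        obtain ⟨a1, h1, h2⟩ := key_ne C j x hk
        rw [hl] at h1
        rw [Option.some.inj h1]
        exact h2
      have ha : C.p.η < gr C.p.gm a true ∧ C.p.η < gr C.p.gm a false := hact
      have hlow : tau C.p.gm C.p.η τm (some a) + 1 / (2 * C.p.gm) ≤ τm :=
        (add_le_add (tau_lt hη ha) le_rfl).trans hτ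
      cases hn : C.nl j o o2 x with
      | none => exact hlow
      | some a' =>
        by_cases hact' : C.p.η < gr C.p.gm a' true ∧ C.p.η < gr C.p.gm a' false
        swap
        · rw [tau_nact hact']
          exact hlow
        obtain ⟨a1, hl1, h⟩ := changed C j o o2 Rm Rm' θ hN hG ho ho2 x a' hn
        have : a = a1 := by
          rw [hl] at hl1
          exact Option.some.inj hl1
        subst this
        rcases h with ⟨hna, rfl⟩ | ⟨_, _, b, r, N, g, _, _, _, _, hg0, hgθ, _, rfl, hE⟩
        · exact absurd hact hna
        · rw [tau_act ha, tau_act hact', ← sum_dir a b, ← sum_dir ((C.key j x, b, r, g) :: a) b,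
            gr_same, gr_other C.p.gm _ b (!b) r g a (by cases b <;> simp)]
          have := hE hev
          linarith

end Pool.Agent.AcyUp
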