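import Pool.Agent.AcyUp.Targets2

set_option autoImplicit false

namespace Pool.Agent.AcyUp

open Finset Pool.Agent.AcyTest

namespace TST_

variable {V : Type} {d : ℕ} {α : Type}

/-- the answers about a vertex in a table -/
def info (t : Table V d) (v : V) : Info V d :=
  (fun i => (t (true, v, i)).join, fun i => (t (false, v, i)).join)

/-- all queries about `v` are answered -/
def Known (t : Table V d) (v : V) : Prop := ∀ b i, (t (b, v, i)).isSome

/-- all answers in the table are right -/
def Ok (G : DG V d) (t : Table V d) : Prop := ∀ x y, t x = some y → y = G.ans x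

lemma ans_of_known {G : DG V d} {t : Table V d} (h : Ok G t) {v : V} (hk : Known t v)
    (b : Bool) (i : Fin d) : t (b, v, i) = some (G.ans (b, v, i)) := by
  obtain ⟨y, hy⟩ := Option.isSome_iff_exists.1 (hk b i)
  rw [hy, h _ _ hy]

lemma info_eq {G : DG V d} {t : Table V d} (h : Ok G t) {v : V} (hk : Known t v) :
    info t v = (G.out v, G.inn v) := by
  have h1 := ans_of_known h hk
  unfold info
  refine Prod.ext ?_ ?_
  · funext i
    change (t (true, v, i)).join = G.out v i
    rw [h1 true i]
    rfl
  · funext i
    change (t (false, v, i)).join = G.inn v i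
    rw [h1 false i]
    rfl

open scoped Classical in
/-- the program which remains if the table is known -/
noncomputable def rest : Prog V d α → Table V d → Prog V d α
  | .ret a, _ => .ret a
  | .ask v k, t => if Known t v then rest (k (info t v)) t else .ask v k

lemma rest_ret (a : α) (t : Table V d) : rest (Prog.ret a : Prog V d α) t = .ret a := rfl

lemma rest_pos {v : V} {t : Table V d} (k : Info V d → Prog V d α) (h : Known t v) :
    rest (.ask v k) t = rest (k (info t v)) t := by
  rw [rest, if_pos h]

lemma rest_neg {v : V} {t : Table V d} (k : Info V d → Prog V d α) (h : ¬ Known t v) :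
    rest (.ask v k) t = .ask v k := by
  rw [rest, if_neg h]

lemma rest_rest {G : DG V d} {t t' : Table V d} (h : Ok G t) (h' : Ok G t')
    (hle : ∀ v, Known t v → Known t' v) (p : Prog V d α) : rest p t' = rest (rest p t) t' := by
  induction p with
  | ret a => rfl
  | ask v k ih =>
    by_cases hv : Known t v
    · rw [rest_pos k hv, rest_pos k (hle v hv), ← ih, info_eq h hv, info_eq h' (hle v hv)]
    · rw [rest_neg k hv]

lemma len_rest_le {G : DG V d} {t : Table V d} (h : Ok G t) (p : Prog V d α) :
    (rest p t).len G ≤ p.len G := by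
  induction p with
  | ret a => exact le_rfl
  | ask v k ih =>
    by_cases hv : Known t v
    · rw [rest_pos k hv, info_eq h hv]
      exact (ih _).trans (Nat.le_succ _)
    · rw [rest_neg k hv]

lemma asked_known {G : DG V d} {t : Table V d} (h : Ok G t) (p : Prog V d α) (a : α)
    (hp : rest p t = .ret a) : ∀ v ∈ p.asked G, Known t v := by
  induction p with
  | ret b => intro v hv; exact absurd hv (Set.notMem_empty _)
  | ask v k ih =>
    by_cases hv : Known t v
    · rw [rest_pos k hv, info_eq h hv] at hp
      intro u hu
      rcases Set.mem_insert_iff.1 hu with rfl | hu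
      · exact hv
      · exact ih _ hp u hu
    · rw [rest_neg k hv] at hp
      exact absurd hp (by simp)

/-- the queries about `v` -/
def qs (d : ℕ) (v : V) : Finset (Query V d) :=
  (univ : Finset (Bool × Fin d)).map ⟨fun x => (x.1, v, x.2), by
    rintro ⟨a, b⟩ ⟨a', b'⟩ h
    simp only [Prod.mk.injEq, true_and] at h
    exact Prod.ext h.1 h.2⟩

lemma mem_qs (v : V) (b : Bool) (i : Fin d) : (b, v, i) ∈ qs d v :=
  Finset.mem_map.2 ⟨(b, i), mem_univ _, rfl⟩

lemma card_qs (v : V) : (qs d v).card = 2 * d := by
  unfold qs
  rw [Finset.card_map, Finset.card_univ, Fintype.card_prod, Fintype.card_bool, Fintype.card_fin]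

/-- the queries about the first vertex of a program -/
def hq (p : Prog V d α) : Finset (Query V d) :=
  match p with
  | .ret _ => ∅
  | .ask v _ => qs d v

lemma card_hq (p : Prog V d α) : (hq p).card ≤ 2 * d := by
  cases p with
  | ret a => simp [hq]
  | ask v k => exact (card_qs v).le

/-- known edges -/
def ke (t : Table V d) (u w : V) : Prop := ∃ i, t (true, u, i) = some (some w)

open scoped Classical in
/-- the algorithm which follows a program -/
noncomputable def alg (p : Prog V d α) : RAlg V d where
  ask := fun _ t => hq (rest p t)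
  acc := fun t => decide (¬ ∃ v, Relation.TransGen (ke t) v v)

lemma acc_iff (p : Prog V d α) (t : Table V d) :
    (alg p).acc t = true ↔ ¬ ∃ v, Relation.TransGen (ke t) v v := by
  unfold alg
  simp only [decide_eq_true_eq]

lemma ke_E {G : DG V d} {t : Table V d} (h : Ok G t) {u w : V} (hk : ke t u w) : G.E u w := by
  obtain ⟨i, hi⟩ := hk
  exact ⟨i, (h _ _ hi).symm⟩

lemma E_ke {G : DG V d} {t : Table V d} (h : Ok G t) {u w : V} (hk : Known t u)
    (hE : G.E u w) : ke t u w := by
  obtain ⟨i, hi⟩ := hE
  refine ⟨i, ?_⟩
  rw [ans_of_known h hk]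
  exact congrArg some hi

variable [DecidableEq V]

lemma table_succ (p : Prog V d α) (G : DG V d) (k : ℕ) (x : Query V d) :
    (alg p).table G (k + 1) x = if x ∈ hq (rest p ((alg p).table G k)) then some (G.ans x)
      else (alg p).table G k x := rfl

lemma ok_table (p : Prog V d α) (G : DG V d) (k : ℕ) : Ok G ((alg p).table G k) := by
  induction k with
  | zero => intro x y h; exact absurd h (by simp [RAlg.table])
  | succ k ih =>
    intro x y h
    rw [table_succ] at h
    split_ifs at h with hx
    · exact (Option.some.inj h).symm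
    · exact ih x y h

lemma known_succ (p : Prog V d α) (G : DG V d) (k : ℕ) (v : V)
    (h : Known ((alg p).table G k) v) : Known ((alg p).table G (k + 1)) v := by
  intro b i
  rw [table_succ]
  split_ifs
  · rfl
  · exact h b i

lemma known_ask (p : Prog V d α) (G : DG V d) (k : ℕ) (v : V) (q : Info V d → Prog V d α)
    (h : rest p ((alg p).table G k) = .ask v q) : Known ((alg p).table G (k + 1)) v := by
  intro b i
  rw [table_succ, if_pos]
  · rfl
  · rw [h]
    exact mem_qs v b i

lemma step (p : Prog V d α) (G : DG V d) (k : ℕ) :
    (rest p ((alg p).table G (k + 1))).len G ≤ (rest p ((alg p).table G k)).len G - 1 := by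
  rw [rest_rest (ok_table p G k) (ok_table p G (k + 1)) (known_succ p G k) p]
  rcases hr : rest p ((alg p).table G k) with a | ⟨v, q⟩
  · rw [rest_ret]
    exact Nat.zero_le _
  · have hk := known_ask p G k v q hr
    rw [rest_pos q hk, info_eq (ok_table p G (k + 1)) hk]
    refine (len_rest_le (ok_table p G (k + 1)) _).trans ?_
    rw [Prog.len]
    exact le_rfl

lemma len_table (p : Prog V d α) (G : DG V d) (k : ℕ) :
    (rest p ((alg p).table G k)).len G ≤ p.len G - k := by
  induction k with
  | zero => exact len_rest_le (ok_table p G 0) p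
  | succ k ih =>
    have := step p G k
    omega

lemma done (p : Prog V d α) (G : DG V d) (c : ℕ) (hc : p.len G ≤ c) :
    ∀ v ∈ p.asked G, Known ((alg p).table G c) v := by
  have h := len_table p G c
  rcases hr : rest p ((alg p).table G c) with a | ⟨v, q⟩
  · exact asked_known (ok_table p G c) p a hr
  · rw [hr, Prog.len] at h
    omega

lemma cost (p : Prog V d α) (G : DG V d) (c : ℕ) : (alg p).cost G c ≤ 2 * d * c := by
  unfold RAlg.cost
  calc _ ≤ ∑ k ∈ range c, 2 * d := Finset.sum_le_sum fun k _ => card_hq _
    _ = 2 * d * c := by rw [Finset.sum_const, Finset.card_range, smul_eq_mul, mul_comm]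

end TST_

open TST_

open scoped Classical in
theorem pTST : tTST := by
  intro n d c Ω _ _ D hD
  choose p hp using hD
  have hΩ : (0 : ℝ) < Fintype.card Ω := by exact_mod_cast Fintype.card_pos
  refine ⟨{ ι := Ω, alg := fun ω => alg (p ω), w := fun _ => 1 / (Fintype.card Ω : ℝ),
            w_nonneg := fun _ => by positivity
            w_sum := by
              rw [Finset.sum_const, Finset.card_univ, nsmul_eq_mul]
              field_simp
            cost_le := fun ω G => cost (p ω) G c }, ?_, ?_⟩
  · intro G hG
    unfold Tester.prob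
    have h1 : ∀ ω : Ω, (alg (p ω)).acc ((alg (p ω)).table G c) = true := by
      intro ω
      rw [acc_iff]
      rintro ⟨v, hv⟩
      exact hG v (Relation.TransGen.mono (fun a b h => ke_E (ok_table (p ω) G c) h) v v hv)
    simp only [h1, if_true]
    rw [Finset.sum_const, Finset.card_univ, nsmul_eq_mul]
    field_simp
  · intro G
    unfold Tester.prob
    have h1 : ∀ ω : Ω, (alg (p ω)).acc ((alg (p ω)).table G c) = true →
        ¬ Cyc G.E (D ω G) := by
      intro ω hω hc
      rw [acc_iff] at hω
      apply hω
      obtain ⟨v, hv⟩ := hc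
      refine ⟨v, Relation.TransGen.mono (fun a b h => ?_) v v hv⟩
      obtain ⟨hE, ha, -⟩ := h
      have h2 := (hp ω G (Set.mem_univ _))
      exact E_ke (ok_table (p ω) G c)
        (done (p ω) G c h2.2.2 a (h2.2.1 (Finset.mem_coe.2 ha))) hE
    have h2 : (∑ ω : Ω, if (alg (p ω)).acc ((alg (p ω)).table G c) = true then
        1 / (Fintype.card Ω : ℝ) else 0) * Fintype.card Ω =
        ((univ.filter fun ω : Ω => (alg (p ω)).acc ((alg (p ω)).table G c) = true).card : ℝ) := by
      rw [← Finset.sum_filter, Finset.sum_const, nsmul_eq_mul]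
      field_simp
    refine (le_of_eq h2).trans ?_
    norm_cast
    apply Finset.card_le_card
    intro ω hω
    simp only [mem_filter, mem_univ, true_and] at hω ⊢
    exact h1 ω hω

end Pool.Agent.AcyUp
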