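import Pool.Agent.AcyUp.Targets

set_option autoImplicit false

namespace Pool.Agent.AcyUp

open Finset Pool.Agent.AcyTest
open scoped Classical

namespace UCO_

/-- few hits of a fixed large set -/
lemma fixed (hT : tHIT) (V : Type) [Fintype V] (M : ℕ) (A : Finset V) (ζ : ℝ)
    (hn : 0 < Fintype.card V) (hA : ζ * Fintype.card V ≤ A.card)
    (hM : 2 * (M : ℝ) ≤ ζ * Fintype.card V) :
    ((univ.filter fun τ : Fin M → V => ((univ.image τ ∩ A).card : ℝ) <
      M * A.card / (16 * Fintype.card V)).card : ℝ) ≤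
      Real.exp (-(M * ζ / 5)) * (Fintype.card V : ℝ) ^ M := by
  have h1 := hT V M A (by exact_mod_cast hM.trans hA)
  have hAle : (A.card : ℝ) ≤ (Fintype.card V : ℝ) := by exact_mod_cast Finset.card_le_univ A
  have hn0 : (0 : ℝ) < (Fintype.card V : ℝ) := by exact_mod_cast hn
  generalize (Fintype.card V : ℝ) = n at *
  obtain ⟨a, ha'⟩ : ∃ a : ℝ, a = A.card / n := ⟨_, rfl⟩
  have hAa : (A.card : ℝ) = a * n := by rw [ha']; exact (div_mul_cancel₀ _ hn0.ne').symm
  have ha : ζ ≤ a := by rw [ha', le_div_iff₀ hn0]; exact hA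
  have ha1 : a ≤ 1 := by rw [ha', div_le_one hn0]; exact hAle
  have ha0 : 0 ≤ a := by rw [ha']; exact div_nonneg (Nat.cast_nonneg _) hn0.le
  rw [hAa] at h1 ⊢
  have hx : (M : ℝ) * (a * n) / (16 * n) = M * a / 16 := by
    rw [div_eq_div_iff (by positivity) (by norm_num)]
    ring
  rw [hx]
  have h2 : ((univ.filter fun τ : Fin M → V => ((univ.image τ ∩ A).card : ℝ) <
      M * a / 16).card : ℝ) * Real.exp (-(Real.log 2 * (M * a / 16))) ≤
      ∑ ω : Fin M → V, (1 / 2 : ℝ) ^ (univ.image ω ∩ A).card := by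
    rw [← nsmul_eq_mul, ← Finset.sum_const]
    refine (Finset.sum_le_sum (g := fun ω : Fin M → V => (1 / 2 : ℝ) ^ (univ.image ω ∩ A).card)
      ?_).trans (Finset.sum_le_sum_of_subset_of_nonneg (Finset.subset_univ _) ?_)
    · intro τ hτ
      have hlt := (Finset.mem_filter.1 hτ).2
      have h12 : (1 / 2 : ℝ) = Real.exp (-Real.log 2) := by
        rw [Real.exp_neg, Real.exp_log (by norm_num)]; norm_num
      rw [h12, ← Real.exp_nat_mul]
      apply Real.exp_le_exp.2
      have hl : 0 < Real.log 2 := Real.log_pos (by norm_num)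
      nlinarith
    · intro τ _ _
      positivity
  have h3 : (n - a * n / 4) ^ M ≤ n ^ M * Real.exp (-(a * M / 4)) := by
    have h4 : n - a * n / 4 = n * (1 - a / 4) := by ring
    rw [h4, mul_pow]
    refine mul_le_mul_of_nonneg_left ?_ (by positivity)
    calc (1 - a / 4) ^ M ≤ (Real.exp (-(a / 4))) ^ M := by
          apply pow_le_pow_left₀ (by linarith)
          have := Real.add_one_le_exp (-(a / 4))
          linarith
      _ = Real.exp (-(a * M / 4)) := by
          rw [← Real.exp_nat_mul]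
          congr 1
          ring
  have h5 := (h2.trans h1).trans h3
  have h6 : (0 : ℝ) < Real.exp (-(Real.log 2 * (M * a / 16))) := Real.exp_pos _
  have hl2 : Real.log 2 < 0.6931471808 := Real.log_two_lt_d9
  calc _ ≤ n ^ M * Real.exp (-(a * M / 4)) / Real.exp (-(Real.log 2 * (M * a / 16))) := by
        rw [le_div_iff₀ h6]; exact h5
    _ = n ^ M * Real.exp (-(a * M / 4) + Real.log 2 * (M * a / 16)) := by
        rw [mul_div_assoc, ← Real.exp_sub]
        congr 2
        ring
    _ ≤ n ^ M * Real.exp (-(M * ζ / 5)) := by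
        refine mul_le_mul_of_nonneg_left ?_ (by positivity)
        apply Real.exp_le_exp.2
        have hMa : 0 ≤ (M : ℝ) * a := by positivity
        have h7 : (M : ℝ) * ζ ≤ M * a := by
          exact mul_le_mul_of_nonneg_left ha (Nat.cast_nonneg _)
        have h8 : Real.log 2 * (M * a / 16) ≤ 0.7 * (M * a / 16) := by
          apply mul_le_mul_of_nonneg_right (by linarith) (by positivity)
        nlinarith
    _ = Real.exp (-(M * ζ / 5)) * n ^ M := mul_comm _ _

/-- a function recovered from its values at the seeds -/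
noncomputable def fx {V : Type} {i K : ℕ} (σ : Fin i → V) (g : Fin i → Fin K) (s : V) : ℕ :=
  if h : ∃ t, σ t = s then (g h.choose : ℕ) else 0

lemma fx_eq {V : Type} {i K : ℕ} (σ : Fin i → V) (f : V → ℕ) (hf : ∀ s, f s < K) (s : V)
    (hs : s ∈ univ.image σ) : f s = fx σ (fun t => (⟨f (σ t), hf _⟩ : Fin K)) s := by
  have h : ∃ t, σ t = s := by simpa using hs
  unfold fx
  rw [dif_pos h]
  change f s = f (σ h.choose)
  rw [h.choose_spec]

lemma pre_append {V : Type} {i m : ℕ} (σ : Fin i → V) (τ : Fin m → V) :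
    pre (Fin.append σ τ) i = univ.image σ := by
  ext s
  unfold pre
  simp only [mem_image, mem_filter, mem_univ, true_and]
  constructor
  · rintro ⟨t, ht, rfl⟩
    refine ⟨⟨t.1, ht⟩, ?_⟩
    have : t = Fin.castAdd m ⟨t.1, ht⟩ := by ext; rfl
    conv_rhs => rw [this]
    rw [Fin.append_left]
  · rintro ⟨t, rfl⟩
    exact ⟨Fin.castAdd m t, by simp, Fin.append_left _ _ _⟩

lemma hits_append {V : Type} [Fintype V] {i m : ℕ} (σ : Fin i → V) (τ : Fin m → V)
    (A : Finset V) : hits (Fin.append σ τ) i A = (univ.image τ ∩ A).card := by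
  unfold hits
  congr 2
  ext s
  simp only [mem_image, mem_filter, mem_univ, true_and]
  constructor
  · rintro ⟨t, ht, rfl⟩
    refine ⟨⟨t.1 - i, by omega⟩, ?_⟩
    have : t = Fin.natAdd i ⟨t.1 - i, by omega⟩ := by ext; simp; omega
    conv_rhs => rw [this]
    rw [Fin.append_right]
  · rintro ⟨t, rfl⟩
    exact ⟨Fin.natAdd i t, by simp, Fin.append_right _ _ _⟩

end UCO_

open UCO_ in
theorem pUCO (hT : tHIT) : tUCO := by
  intro V ι _ _ M i K ζ F hζ hi hM hF
  obtain ⟨m, rfl⟩ := Nat.exists_eq_add_of_le hi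
  rcases Nat.eq_zero_or_pos (Fintype.card V) with h0 | hn
  · rw [Finset.filter_false_of_mem]
    · simp only [card_empty, Nat.cast_zero]
      positivity
    · rintro ω - ⟨f, -, c, -, hlt⟩
      rw [h0] at hlt
      simp only [Nat.cast_zero, mul_zero, div_zero] at hlt
      exact absurd hlt (not_lt.2 (Nat.cast_nonneg _))
  set Q : (Fin i → V) × (Fin i → Fin K) × ι → Finset (Fin m → V) := fun x =>
    univ.filter fun τ => ζ * Fintype.card V ≤ (F (univ.image x.1) (fx x.1 x.2.1) x.2.2).card ∧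
      ((univ.image τ ∩ F (univ.image x.1) (fx x.1 x.2.1) x.2.2).card : ℝ) <
      m * (F (univ.image x.1) (fx x.1 x.2.1) x.2.2).card / (16 * Fintype.card V) with hQ
  have hm : (((i + m : ℕ) : ℝ) - i) = m := by push_cast; ring
  have hm2 : 2 * (m : ℝ) ≤ ζ * Fintype.card V := by
    refine le_trans ?_ hM
    push_cast
    have : (0 : ℝ) ≤ i := Nat.cast_nonneg _
    linarith
  have hQb : ∀ x, ((Q x).card : ℝ) ≤ Real.exp (-(m * ζ / 5)) * (Fintype.card V : ℝ) ^ m := by
    intro x
    by_cases hA : ζ * Fintype.card V ≤ ((F (univ.image x.1) (fx x.1 x.2.1) x.2.2).card : ℝ)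
    · refine le_trans ?_ (fixed hT V m _ ζ hn hA hm2)
      rw [hQ]
      norm_cast
      apply Finset.card_le_card
      intro τ hτ
      simp only [mem_filter, mem_univ, true_and] at hτ ⊢
      exact hτ.2
    · have : Q x = ∅ := by
        rw [hQ]
        apply Finset.filter_false_of_mem
        rintro τ - ⟨h, -⟩
        exact hA h
      rw [this]
      simp only [card_empty, Nat.cast_zero]
      positivity
  have hsub : (univ.filter fun ω : Fin (i + m) → V => ∃ f : V → ℕ, (∀ s, f s < K) ∧ ∃ c,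
      ζ * Fintype.card V ≤ (F (pre ω i) f c).card ∧
      (hits ω i (F (pre ω i) f c) : ℝ) <
        (((i + m : ℕ) : ℝ) - i) * (F (pre ω i) f c).card / (16 * Fintype.card V)) ⊆
      (univ : Finset ((Fin i → V) × (Fin i → Fin K) × ι)).biUnion fun x =>
        (Q x).image fun τ => Fin.append x.1 τ := by
    intro ω hω
    obtain ⟨f, hf, c, h1, h2⟩ := (mem_filter.1 hω).2
    obtain ⟨σ, τ, rfl⟩ : ∃ (σ : Fin i → V) (τ : Fin m → V), ω = Fin.append σ τ :=
      ⟨fun t => ω (Fin.castAdd m t), fun t => ω (Fin.natAdd i t),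
        (Fin.append_castAdd_natAdd).symm⟩
    rw [pre_append, hits_append, hm] at h2
    rw [pre_append] at h1
    have hFe : F (univ.image σ) f c =
        F (univ.image σ) (fx σ (fun t => (⟨f (σ t), hf _⟩ : Fin K))) c :=
      hF _ _ _ _ (fun s hs => fx_eq σ f hf s hs)
    rw [hFe] at h1 h2
    refine mem_biUnion.2 ⟨(σ, (fun t => (⟨f (σ t), hf _⟩ : Fin K)), c), mem_univ _, ?_⟩
    refine mem_image.2 ⟨τ, ?_, rfl⟩
    rw [hQ]
    exact mem_filter.2 ⟨mem_univ _, h1, h2⟩
  calc _ ≤ ((((univ : Finset ((Fin i → V) × (Fin i → Fin K) × ι)).biUnion fun x =>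
        (Q x).image fun τ => Fin.append x.1 τ).card : ℕ) : ℝ) := by
        exact_mod_cast Finset.card_le_card hsub
    _ ≤ ((∑ x : (Fin i → V) × (Fin i → Fin K) × ι, (Q x).card : ℕ) : ℝ) := by
        refine Nat.cast_le.2 (Finset.card_biUnion_le.trans ?_)
        exact Finset.sum_le_sum fun x _ => Finset.card_image_le
    _ = ∑ x : (Fin i → V) × (Fin i → Fin K) × ι, ((Q x).card : ℝ) := by push_cast; rfl
    _ ≤ ∑ x : (Fin i → V) × (Fin i → Fin K) × ι,
        Real.exp (-(m * ζ / 5)) * (Fintype.card V : ℝ) ^ m :=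
        Finset.sum_le_sum fun x _ => hQb x
    _ = _ := by
        rw [Finset.sum_const, Finset.card_univ, nsmul_eq_mul, hm]
        simp only [Fintype.card_prod, Fintype.card_fun, Fintype.card_fin]
        push_cast
        ring

end Pool.Agent.AcyUp
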