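import Pool.Agent.AcyUp.Targets

set_option autoImplicit false

/-!
# MP_08c6cd_lc, sublinear tester: WIN (windows are small)
-/

namespace Pool.Agent.AcyUp

open Finset Pool.Agent.AcyTest
open scoped Classical

namespace WINx

variable {V : Type} [Fintype V]

/-- the window of `v` without the first seeds -/
noncomputable def FW (E : V → V → Prop) (l : V → Option Lb) (p : Pm) (j : ℕ) (R : Finset V)
    (f : V → ℕ) (v : V) : Finset V :=
  (univ.filter fun y => ∃ a, l v = some a ∧ l y = some a ∧ p.act a ∧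
    Odd ((⟨E, l, p, R, f⟩ : Cx V).key j v) ∧
    (⟨E, l, p, R, f⟩ : Cx V).key j y = (⟨E, l, p, R, f⟩ : Cx V).key j v) \ R

lemma FW_loc (hL : tLOC) (E : V → V → Prop) (l : V → Option Lb) (p : Pm) (j : ℕ) (R : Finset V)
    (f g : V → ℕ) (v : V) (h : ∀ s ∈ R, f s = g s) : FW E l p j R f v = FW E l p j R g v := by
  have h1 : ∀ x, (⟨E, l, p, R, g⟩ : Cx V).key j x = (⟨E, l, p, R, f⟩ : Cx V).key j x :=
    fun x => hL V (⟨E, l, p, R, f⟩ : Cx V) g h j x
  unfold FW
  simp only [h1]

lemma FW_nd (E : V → V → Prop) (l : V → Option Lb) (p : Pm) (j : ℕ) (R : Finset V)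
    (f : V → ℕ) (v : V) (a : Lb) (c : ℕ) (ha : p.act a) (hc : Odd c)
    (hv : v ∈ (⟨E, l, p, R, f⟩ : Cx V).nd j a c) :
    FW E l p j R f v = (⟨E, l, p, R, f⟩ : Cx V).nd j a c \ R := by
  rw [Cx.nd, mem_filter] at hv
  obtain ⟨-, hv1, hv2⟩ := hv
  have hv1' : l v = some a := hv1
  unfold FW Cx.nd
  congr 1
  refine filter_congr fun y _ => ?_
  constructor
  · rintro ⟨b, hb, hy, -, -, hk⟩
    have : b = a := by
      rw [hv1'] at hb
      exact (Option.some.inj hb).symm
    subst this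
    exact ⟨hy, hk.trans hv2⟩
  · rintro ⟨hy, hk⟩
    exact ⟨a, hv1', hy, ha, by rw [hv2]; exact hc, hk.trans hv2.symm⟩

omit [Fintype V] in
lemma card_pre {M : ℕ} (ω : Fin M → V) (i : ℕ) : (pre ω i).card ≤ i := by
  unfold pre
  refine card_image_le.trans ?_
  have : (univ.filter fun t : Fin M => t.1 < i).card ≤ (range i).card := by
    refine card_le_card_of_injOn (fun t => t.1) ?_ ?_
    · intro t ht
      have := (mem_filter.1 (mem_coe.1 ht)).2
      exact mem_coe.2 (mem_range.2 this)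
    · intro a _ b _ hab
      exact Fin.ext hab
  rwa [card_range] at this

omit [Fintype V] in
lemma card_als {M : ℕ} (ω : Fin M → V) : (als ω).card ≤ M := by
  unfold als
  refine card_image_le.trans ?_
  rw [card_univ, Fintype.card_fin]

omit [Fintype V] in
lemma pre_sub {M : ℕ} (ω : Fin M → V) (i : ℕ) : pre ω i ⊆ als ω := by
  unfold pre als
  exact image_subset_image (filter_subset _ _)

lemma hits_le (hS : tSED) (E : V → V → Prop) (l : V → Option Lb) (p : Pm) (i j : ℕ)
    (hj : j ≤ p.m) (hA : ∀ x a, l x = some a → p.act a → p.m ≤ p.A a) (ω : Fin p.M → V)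
    (hF : IsF p.k (als ω) (rsl (als ω) l) (rsr (als ω) (lk E l p)) (fR E l p (als ω)))
    (a : Lb) (c : ℕ) (ha : p.act a) (hc : Odd c) :
    hits ω i ((ctx E l p ω i).nd j a c \ pre ω i) * 2 ^ p.k ≤ p.M + 2 ^ p.k := by
  obtain ⟨c', hc'⟩ := hc
  have hsub : (univ.filter fun t : Fin p.M => i ≤ t.1).image ω ∩
      ((ctx E l p ω i).nd j a c \ pre ω i) ⊆
      (als ω).filter fun s => rsl (als ω) l s = some a ∧ fR E l p (als ω) s = c' := by
    intro s hs
    rw [mem_inter, mem_sdiff, Cx.nd, mem_filter] at hs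
    obtain ⟨hs1, ⟨-, hs2, hs3⟩, hs4⟩ := hs
    have hs2' : l s = some a := hs2
    have hsR : s ∈ als ω := by
      unfold als
      exact image_subset_image (filter_subset _ _) hs1
    refine mem_filter.2 ⟨hsR, ?_, ?_⟩
    · rw [rsl, if_pos hsR]
      exact hs2'
    · have h1 := hS V (ctx E l p ω i) j (als ω) s a hF (pre_sub ω i) hsR hs4 hs2 ha
        (hA s a hs2' ha) hj
      exact h1.2 c' (hs3.trans hc')
  have h2 := card_le_card hsub
  have h3 := hF.2.2 a c'
  have h4 : ((als ω).filter fun s => rsl (als ω) l s = some a).card ≤ p.M :=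
    (card_filter_le _ _).trans (card_als ω)
  unfold hits
  calc _ ≤ ((als ω).filter fun s => rsl (als ω) l s = some a ∧
        fR E l p (als ω) s = c').card * 2 ^ p.k := Nat.mul_le_mul_right _ h2
    _ ≤ _ := h3
    _ ≤ _ := Nat.add_le_add_right h4 _

end WINx

open WINx in
theorem pWIN (hU : tUCO) (hO : tORD) (hS : tSED) (hL : tLOC) : tWIN := by
  intro V _ E l p i j hi hk hn hj hA
  have h2k : (0 : ℝ) < 2 ^ p.k := by positivity
  have hn' : (2 : ℝ) ^ p.k * (2 * p.M) ≤ Fintype.card V := by exact_mod_cast hn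
  have hM1 : (1 : ℝ) ≤ p.M := by
    have h1 : 1 ≤ p.M := le_trans Nat.one_le_two_pow hk
    exact_mod_cast h1
  have hkM : (2 : ℝ) ^ p.k ≤ p.M := by exact_mod_cast hk
  have hi' : 2 * (i : ℝ) ≤ p.M := by exact_mod_cast hi
  have hn0 : (0 : ℝ) < Fintype.card V := by
    have : (0 : ℝ) < 2 ^ p.k * (2 * p.M) := by positivity
    linarith
  have key := hU V V p.M i (2 ^ p.k) (1 / 2 ^ p.k) (FW E l p j) (by positivity) (by omega)
    (by
      rw [div_mul_eq_mul_div, one_mul, le_div_iff₀ h2k]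
      linarith)
    (fun R f g c h => FW_loc hL E l p j R f g c h)
  have hle : ((univ.filter fun ω : Fin p.M → V => ¬ Cyc E (seedD E l p (als ω)) ∧ ∃ a c, p.act a ∧
      Odd c ∧ 65 * (Fintype.card V : ℝ) / 2 ^ p.k < ((ctx E l p ω i).nd j a c).card).card : ℝ) ≤
      ((univ.filter fun ω : Fin p.M → V => ∃ f : V → ℕ, (∀ s, f s < 2 ^ p.k) ∧ ∃ c,
      1 / 2 ^ p.k * (Fintype.card V : ℝ) ≤ (FW E l p j (pre ω i) f c).card ∧
      (hits ω i (FW E l p j (pre ω i) f c) : ℝ) <
        (p.M - i) * (FW E l p j (pre ω i) f c).card / (16 * Fintype.card V)).card : ℝ) := by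
    refine Nat.cast_le.2 (card_le_card fun ω hω => ?_)
    rw [mem_filter] at hω ⊢
    obtain ⟨-, hcyc, a, c, ha, hc, hW⟩ := hω
    refine ⟨mem_univ _, fR E l p (als ω), ?_⟩
    have hF := hO V E l p (als ω) hcyc
    refine ⟨hF.2.1, ?_⟩
    have hW0 : (0 : ℝ) < ((ctx E l p ω i).nd j a c).card := lt_of_le_of_lt (by positivity) hW
    have hW1 : 0 < ((ctx E l p ω i).nd j a c).card := by exact_mod_cast hW0
    obtain ⟨v, hv⟩ := card_pos.1 hW1
    refine ⟨v, ?_⟩
    have he : FW E l p j (pre ω i) (fR E l p (als ω)) v =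
        (ctx E l p ω i).nd j a c \ pre ω i :=
      FW_nd E l p j (pre ω i) (fR E l p (als ω)) v a c ha hc hv
    rw [he]
    set W := (ctx E l p ω i).nd j a c with hWdef
    have hcard : (W.card : ℝ) ≤ (W \ pre ω i).card + i := by
      have h1 : W.card ≤ (W \ pre ω i).card + (pre ω i).card := card_le_card_sdiff_add_card
      have h2 := card_pre ω i
      have h3 : W.card ≤ (W \ pre ω i).card + i := by omega
      exact_mod_cast h3
    have hh := hits_le hS E l p i j hj hA ω hF a c ha hc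
    rw [← hWdef] at hh
    have hh' : (hits ω i (W \ pre ω i) : ℝ) * 2 ^ p.k ≤ p.M + 2 ^ p.k := by exact_mod_cast hh
    rw [div_lt_iff₀ h2k] at hW
    set w : ℝ := ((W \ pre ω i).card : ℝ) with hw
    have hw64 : 64 * (Fintype.card V : ℝ) < w * 2 ^ p.k := by
      have h1 : (W.card : ℝ) * 2 ^ p.k ≤ (w + i) * 2 ^ p.k :=
        mul_le_mul_of_nonneg_right hcard h2k.le
      have h2 : (i : ℝ) * 2 ^ p.k ≤ Fintype.card V := by
        have : (i : ℝ) * 2 ^ p.k ≤ p.M * 2 ^ p.k :=
          mul_le_mul_of_nonneg_right (by linarith [Nat.cast_nonneg (α := ℝ) i]) h2k.le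
        nlinarith
      nlinarith
    constructor
    · rw [div_mul_eq_mul_div, one_mul, div_le_iff₀ h2k]
      linarith
    · rw [lt_div_iff₀ (by positivity)]
      have h1 : (hits ω i (W \ pre ω i) : ℝ) * 2 ^ p.k ≤ 2 * p.M := by linarith
      have h2 : (p.M : ℝ) / 2 ≤ p.M - i := by linarith
      have h3 : (p.M : ℝ) / 2 * (64 * Fintype.card V) < (p.M - i) * (w * 2 ^ p.k) := by
        calc (p.M : ℝ) / 2 * (64 * Fintype.card V) < (p.M : ℝ) / 2 * (w * 2 ^ p.k) :=
              mul_lt_mul_of_pos_left hw64 (by linarith)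
          _ ≤ (p.M - i) * (w * 2 ^ p.k) :=
              mul_le_mul_of_nonneg_right h2 (by positivity)
      have h4 : (hits ω i (W \ pre ω i) : ℝ) * (16 * Fintype.card V) * 2 ^ p.k <
          (p.M - i) * w * 2 ^ p.k := by
        calc (hits ω i (W \ pre ω i) : ℝ) * (16 * Fintype.card V) * 2 ^ p.k
            = (hits ω i (W \ pre ω i) : ℝ) * 2 ^ p.k * (16 * Fintype.card V) := by ring
          _ ≤ 2 * p.M * (16 * Fintype.card V) := mul_le_mul_of_nonneg_right h1 (by positivity)
          _ = (p.M : ℝ) / 2 * (64 * Fintype.card V) := by ring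
          _ < (p.M - i) * (w * 2 ^ p.k) := h3
          _ = _ := by ring
      exact lt_of_mul_lt_mul_right h4 h2k.le
  refine hle.trans (key.trans ?_)
  have hexp : Real.exp (-((p.M - i) * (1 / 2 ^ p.k) / 5)) ≤ Real.exp (-(p.M / (10 * 2 ^ p.k))) := by
    rw [Real.exp_le_exp, neg_le_neg_iff]
    have e1 : (p.M : ℝ) / (10 * 2 ^ p.k) = (p.M / 2) * (1 / 2 ^ p.k) / 5 := by
      field_simp
      ring
    rw [e1]
    have h2 : (p.M : ℝ) / 2 ≤ p.M - i := by linarith
    have h3 : (0 : ℝ) ≤ 1 / 2 ^ p.k := by positivity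
    have := mul_le_mul_of_nonneg_right h2 h3
    linarith
  push_cast
  refine mul_le_mul_of_nonneg_right ?_ (by positivity)
  exact mul_le_mul_of_nonneg_left hexp (by positivity)

end Pool.Agent.AcyUp
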