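import Pool.Agent.AcyUp.Targets2

set_option autoImplicit false

/-!
# XBA: no unfinished labels
-/

namespace Pool.Agent.AcyUp

open Finset Pool.Agent.AcyTest
open scoped Classical

theorem pXBA (hF : tFIN) (hC : tCFD) : tXBA := by
  intro V _ _ d gm η τm θ1 Rm B W e hd hη hη1 hB hθ1 hτm he
  refine ⟨V, inferInstance, inferInstance, fun x E l => finD E l gm η x, ?_, ?_⟩
  · intro x K l hl hG
    exact hC V d K l W Rm gm η x hl hG
  · intro E l hDg hGw hprod hTF
    have hfin : ∀ x a, l x = some a → ¬ (η < gr gm a true ∧ η < gr gm a false) := by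
      rintro x a hx ⟨h1, h2⟩
      have h3 := hprod x a hx ⟨h1, h2⟩
      nlinarith
    have hst : st gm η τm l = τm * Fintype.card V := by
      have h1 : ∀ x : V, tau gm η τm (l x) = τm := by
        intro x
        rcases hx : l x with _ | a
        · rfl
        · simp only [tau]
          rw [if_neg (hfin x a hx)]
      rw [st, sum_congr rfl fun x _ => h1 x, sum_const, nsmul_eq_mul, card_univ, mul_comm]
    rw [hst, sub_self, mul_zero, add_zero] at hTF
    have h1 := hF V E d l gm η Rm hDg hGw hη hη1 hfin
    have hd0 : (0 : ℝ) < d := by exact_mod_cast hd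
    rw [div_mul_eq_mul_div, div_le_iff₀ hd0]
    nlinarith

end Pool.Agent.AcyUp
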