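import Pool.Agent.AcyUp.Targets2

set_option autoImplicit false

/-!
# One more round
-/

namespace Pool.Agent.AcyUp

open Finset Pool.Agent.AcyTest
open scoped Classical

namespace XSTx

/-- double counting on a product -/
lemma count {A B : Type} [Fintype A] [Fintype B] (P : A → Prop) (Q : A → B → Prop) (t : ℝ)
    (h : ∀ a, P a → t ≤ ((univ.filter fun b => Q a b).card : ℝ)) :
    ((univ.filter fun a => P a).card : ℝ) * t ≤
      ((univ.filter fun x : A × B => Q x.1 x.2).card : ℝ) := by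
  have h1 : (univ.filter fun x : A × B => Q x.1 x.2).card =
      ∑ a, (univ.filter fun b => Q a b).card := by
    rw [Finset.card_filter, Fintype.sum_prod_type]
    exact Finset.sum_congr rfl fun a _ => (Finset.card_filter _ _).symm
  rw [h1]
  push_cast
  calc ((univ.filter fun a => P a).card : ℝ) * t
      = ∑ a ∈ univ.filter (fun a => P a), t := by rw [Finset.sum_const, nsmul_eq_mul]
    _ ≤ ∑ a ∈ univ.filter (fun a => P a), ((univ.filter fun b => Q a b).card : ℝ) :=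
        Finset.sum_le_sum fun a ha => h a (Finset.mem_filter.1 ha).2
    _ ≤ ∑ a, ((univ.filter fun b => Q a b).card : ℝ) :=
        Finset.sum_le_sum_of_subset_of_nonneg (Finset.filter_subset _ _)
          fun _ _ _ => Nat.cast_nonneg _

lemma zr_nonempty {V : Type} [Nonempty V] (p : Pm) (h1 : 1 ≤ p.i1) (h2 : 1 ≤ p.h)
    (h3 : 1 ≤ p.mb) (h4 : p.h * p.mb ≤ p.m) (h5 : 1 ≤ p.m2) : Nonempty (Zr V p) := by
  have h6 : 1 ≤ p.h * p.mb := Nat.mul_pos h2 h3
  have v : V := Classical.choice inferInstance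
  exact ⟨(fun _ => v, ⟨0, h1⟩, ⟨0, h6⟩, ⟨0, h6.trans h4⟩, ⟨0, h5⟩, v, fun _ => v)⟩

/-- the new labelling of a round satisfies the growth bounds -/
lemma grw (hG : tGRW) {V : Type} [Fintype V] (E : V → V → Prop) (l : V → Option Lb) (p : Pm)
    (θ : ℝ) (Rm Rm' : ℕ) (hN : NumOK p θ Rm Rm') (hη : 0 < p.η) (hGw : Gw E l p.gm Rm)
    (z : Zr V p) : Gw E (nlz E l p z) p.gm Rm' :=
  hG V (ctx E l p z.1 (p.i1 + z.2.1.1)) z.2.2.1.1 z.2.2.2.1.1 z.2.2.2.2.1.1 Rm Rm' θ hN hη hGw
    z.2.2.2.1.2 z.2.2.2.2.1.2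

/-- the product of the rates of unfinished labels drops -/
lemma prg (hP : tPRG) {V : Type} [Fintype V] (E : V → V → Prop) (l : V → Option Lb) (p : Pm)
    (θ B : ℝ) (Rm Rm' : ℕ) (hN : NumOK p θ Rm Rm') (hη : 0 < p.η) (hGw : Gw E l p.gm Rm)
    (hB : ∀ x a, l x = some a → p.act a → gr p.gm a true * gr p.gm a false ≤ B)
    (z : Zr V p) : ∀ x a, nlz E l p z x = some a → p.act a →
      gr p.gm a true * gr p.gm a false ≤ θ * B :=
  hP V (ctx E l p z.1 (p.i1 + z.2.1.1)) z.2.2.1.1 z.2.2.2.1.1 z.2.2.2.2.1.1 Rm Rm' θ B hN hη hGw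
    z.2.2.2.1.2 z.2.2.2.2.1.2 hB

end XSTx

theorem pXST (hR : tRTH) (hC : tCRD) (hG : tGRW) (hP : tPRG) (hF : tFAS) : tXST := by
  intro V _ _ d p θ τm θ1 ε1 ε2 ε4 Rm Rm' N N2 P0 P1 B W c e pr hRnd hL hL2 hN hN2 hP0 hP1 hP1'
    hpr0 hpr1 hX
  obtain ⟨Ω, iF, iN, D, hcost, hprob⟩ := hX
  obtain ⟨hNum, hd, hη, -, -, hε1, -, -, hh, hmb, hhm, hm2, hi1, -⟩ := id hRnd
  have iZ : Nonempty (Zr V p) := XSTx.zr_nonempty p hi1 hh hmb hhm hm2
  refine ⟨Zr V p × Ω, inferInstance, inferInstance,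
    fun y E l => Dz E l p y.1 ∪ D y.2 E (nlz E l p y.1), ?_, ?_⟩
  · rintro ⟨z, ω⟩ K l hl hGw
    have h1 := hC V d K l W Rm Rm' N N2 P0 P1 c p θ z
      (fun G => (D ω G.E (nlz G.E (l G) p z) : Set V)) hl hGw hNum hη hL hL2 hN hN2 hP0 hP1 hP1'
      hhm fun K' hK' hl' => hcost ω K' (fun G => nlz G.E (l G) p z) hl' fun G hGK =>
        XSTx.grw hG G.E (l G) p θ Rm Rm' hNum hη (hGw G (hK' hGK)) z
    have h2 : (fun G : DG V d => ((Dz G.E (l G) p z ∪ D ω G.E (nlz G.E (l G) p z) : Finset V) :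
        Set V)) = fun G => (Dz G.E (l G) p z : Set V) ∪ (D ω G.E (nlz G.E (l G) p z) : Set V) :=
      funext fun G => Finset.coe_union _ _
    show Cmp K (fun _ => ()) (fun G : DG V d =>
      ((Dz G.E (l G) p z ∪ D ω G.E (nlz G.E (l G) p z) : Finset V) : Set V)) _
    rw [h2]
    exact h1
  · intro E l hE hGw hB hTF
    have hpos : (0 : ℝ) < 8 * d * p.h := by
      have h1 : (0 : ℝ) < d := by exact_mod_cast hd
      have h2 : (0 : ℝ) < p.h := by exact_mod_cast hh
      positivity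
    have hround := hR V E l d p θ τm θ1 ε1 ε2 ε4 Rm Rm' hE hRnd hGw
    have key := XSTx.count (A := Zr V p) (B := Ω)
      (fun z => Cyc E (Dz E l p z) ∨ (TF E l : ℝ) ≤ TF E (nlz E l p z) +
        θ1 * (st p.gm p.η τm (nlz E l p z) - st p.gm p.η τm l) + ε2 * Fintype.card V)
      (fun z ω => Cyc E (Dz E l p z ∪ D ω E (nlz E l p z))) (pr * Fintype.card Ω) (by
        intro z hz
        rcases hz with hz | hz
        · have h1 : (univ.filter fun ω => Cyc E (Dz E l p z ∪ D ω E (nlz E l p z))) = univ :=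
            Finset.filter_true_of_mem fun ω _ =>
              (hF V E d).2.2.2.2.1 _ _ Finset.subset_union_left hz
          rw [h1, Finset.card_univ]
          have h2 : (0 : ℝ) ≤ Fintype.card Ω := Nat.cast_nonneg _
          nlinarith
        · refine (hprob E (nlz E l p z) hE
            (XSTx.grw hG E l p θ Rm Rm' hNum hη hGw z)
            (XSTx.prg hP E l p θ B Rm Rm' hNum hη hGw hB z) ?_).trans ?_
          · nlinarith
          · exact_mod_cast Finset.card_le_card (Finset.monotone_filter_right _ fun ω _ h =>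
              (hF V E d).2.2.2.2.1 _ _ Finset.subset_union_right h))
    refine le_trans ?_ key
    have hcard : (Fintype.card (Zr V p × Ω) : ℝ) = Fintype.card (Zr V p) * Fintype.card Ω := by
      rw [Fintype.card_prod]; push_cast; ring
    rw [hcard]
    have h3 : ε1 / (8 * d * p.h) * Fintype.card (Zr V p) ≤
        ((univ.filter fun z : Zr V p => Cyc E (Dz E l p z) ∨ (TF E l : ℝ) ≤ TF E (nlz E l p z) +
        θ1 * (st p.gm p.η τm (nlz E l p z) - st p.gm p.η τm l) +
          ε2 * Fintype.card V).card : ℝ) := by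
      rw [div_mul_eq_mul_div, div_le_iff₀ hpos]
      linarith
    have h4 : (0 : ℝ) ≤ pr * Fintype.card Ω := mul_nonneg hpr0 (Nat.cast_nonneg _)
    calc pr * (ε1 / (8 * d * p.h)) * (Fintype.card (Zr V p) * Fintype.card Ω)
        = (ε1 / (8 * d * p.h) * Fintype.card (Zr V p)) * (pr * Fintype.card Ω) := by ring
      _ ≤ _ := (mul_le_mul_of_nonneg_right h3 h4).trans (le_of_eq (by congr))

end Pool.Agent.AcyUp
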