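import Pool.Agent.AcyUp.Targets

set_option autoImplicit false

/-!
# MP_08c6cd_lc, YBD: `Y` is small for most seeds
-/

namespace Pool.Agent.AcyUp

open Finset Pool.Agent.AcyTest
open scoped Classical

namespace YBD_

variable {V : Type} [Fintype V]

lemma fR_lt (E : V → V → Prop) (l : V → Option Lb) (p : Pm) (R : Finset V) (t : V) :
    fR E l p R t < 2 ^ p.k := by
  unfold fR chF
  split_ifs with h
  · exact h.choose_spec.2.1 t
  · positivity

lemma Y_congr (hLOC : tLOC) (E : V → V → Prop) (l : V → Option Lb) (p : Pm) (R : Finset V)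
    (f g : V → ℕ) (j : ℕ) (h : ∀ s ∈ R, f s = g s) :
    (⟨E, l, p, R, f⟩ : Cx V).Y j = (⟨E, l, p, R, g⟩ : Cx V).Y j := by
  have hk : ∀ x, (⟨E, l, p, R, g⟩ : Cx V).key j x = (⟨E, l, p, R, f⟩ : Cx V).key j x :=
    hLOC V ⟨E, l, p, R, f⟩ g h j
  have hnd : ∀ a c, (⟨E, l, p, R, g⟩ : Cx V).nd j a c = (⟨E, l, p, R, f⟩ : Cx V).nd j a c := by
    intro a c
    unfold Cx.nd
    apply Finset.filter_congr
    intro y _
    rw [hk y]
  unfold Cx.Y
  apply Finset.filter_congr
  intro x _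
  simp only [hk, hnd]

end YBD_

open YBD_ in
theorem pYBD (hEXC : tEXC) (hUCO : tUCO) (hDRP : tDRP) (hMON : tMON) (hLOC : tLOC) : tYBD := by
  intro V _ E l p j ε hε hNs hM4 hM1 hn hkε
  set n : ℕ := Fintype.card V with hnd
  have hMpos : (0 : ℝ) < p.M := by exact_mod_cast hM1
  have hn0 : 0 < n := by
    have h1 : 1 * (2 * 1) ≤ 2 ^ p.k * (2 * p.M) := by
      apply Nat.mul_le_mul (Nat.one_le_two_pow)
      omega
    omega
  have hnR : (0 : ℝ) < n := by exact_mod_cast hn0
  set YY : Finset V → (V → ℕ) → Finset V := fun R f => (⟨E, l, p, R, f⟩ : Cx V).Y j with hYY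
  -- telescoping
  have h1 := hEXC V p.M p.i1 p.Ns (p.k * n) (fR E l p) YY
    (fun R f => ∑ x, (⟨E, l, p, R, f⟩ : Cx V).T j x) (by omega)
    (by
      intro R f
      calc ∑ x, (⟨E, l, p, R, f⟩ : Cx V).T j x ≤ ∑ _x : V, p.k := by
            apply Finset.sum_le_sum
            intro x _
            exact (hMON V ⟨E, l, p, R, f⟩ x j j R le_rfl (Finset.Subset.refl R)).2.1
        _ = p.k * n := by
            rw [Finset.sum_const, Finset.card_univ, smul_eq_mul, mul_comm])
    (by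
      intro R R' f hRR'
      apply Finset.sum_le_sum
      intro x _
      exact (hMON V ⟨E, l, p, R, f⟩ x j j R' le_rfl hRR').2.2.2.2.2.2)
    (by
      intro R R' s hs
      exact hDRP V ⟨E, l, p, R, fR E l p R'⟩ j s (fun t => fR_lt E l p R' t) hs)
  -- the exceptional sets
  set X : ℕ → Finset (Fin p.M → V) := fun i => univ.filter fun ω : Fin p.M → V =>
    ∃ f : V → ℕ, (∀ s, f s < 2 ^ p.k) ∧ ∃ _c : Unit,
      (1 / 2 ^ p.k : ℝ) * Fintype.card V ≤ (YY (pre ω (p.i1 + i)) f).card ∧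
      (hits ω (p.i1 + i) (YY (pre ω (p.i1 + i)) f) : ℝ) <
        (p.M - (p.i1 + i : ℕ)) * (YY (pre ω (p.i1 + i)) f).card / (16 * Fintype.card V) with hX
  have h2 : ∀ i ∈ range p.i1, ((X i).card : ℝ) ≤
      (2 ^ p.k) ^ (2 * p.i1) * Real.exp (-(p.M / (10 * 2 ^ p.k))) * n ^ p.M := by
    intro i hi
    have hi' : i < p.i1 := Finset.mem_range.1 hi
    have hle : 2 * (p.M : ℝ) ≤ 1 / 2 ^ p.k * Fintype.card V := by
      have : ((2 ^ p.k * (2 * p.M) : ℕ) : ℝ) ≤ n := by exact_mod_cast hn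
      push_cast at this
      rw [one_div, ← hnd, inv_mul_eq_div, le_div_iff₀ (by positivity)]
      linarith
    have h := hUCO V Unit p.M (p.i1 + i) (2 ^ p.k) (1 / 2 ^ p.k) (fun R f _ => YY R f)
      (by positivity) (by omega) hle
      (by
        intro R f g _ hfg
        exact Y_congr hLOC E l p R f g j hfg)
    refine h.trans ?_
    rw [Fintype.card_unit, Nat.cast_one, one_mul, ← hnd]
    have e1 : (((2 ^ p.k : ℕ) : ℝ)) ^ (p.i1 + i) ≤ (2 ^ p.k) ^ (2 * p.i1) := by
      push_cast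
      exact pow_le_pow_right₀ (one_le_pow₀ (by norm_num)) (by omega)
    have e2 : Real.exp (-(((p.M : ℝ) - ((p.i1 + i : ℕ) : ℝ)) * (1 / 2 ^ p.k) / 5)) ≤
        Real.exp (-(p.M / (10 * 2 ^ p.k))) := by
      apply Real.exp_le_exp.2
      have e3 : (p.M : ℝ) / 2 ≤ (p.M : ℝ) - ((p.i1 + i : ℕ) : ℝ) := by
        have : 2 * (p.i1 + i) ≤ p.M := by omega
        have : (2 : ℝ) * ((p.i1 + i : ℕ) : ℝ) ≤ p.M := by exact_mod_cast this
        linarith
      have e4 : (p.M : ℝ) / (10 * 2 ^ p.k) = (p.M : ℝ) / 2 * (1 / 2 ^ p.k) / 5 := by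
        field_simp
        ring
      rw [e4]
      have : (0 : ℝ) < 1 / 2 ^ p.k := by positivity
      apply neg_le_neg
      gcongr
    gcongr
  -- the good sets
  set A : ℕ → Finset (Fin p.M → V) := fun i => univ.filter fun ω : Fin p.M → V =>
      ε * Fintype.card V ≤ ((ctx E l p ω (p.i1 + i)).Y j).card with hA
  have h3 : ∀ i ∈ range p.i1, (p.M * ε / 32) * ((A i \ X i).card : ℝ) ≤
      ∑ ω : Fin p.M → V, (hits ω (p.i1 + i) (YY (pre ω (p.i1 + i)) (fR E l p (als ω))) : ℝ) := by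
    intro i hi
    have hi' : i < p.i1 := Finset.mem_range.1 hi
    calc (p.M * ε / 32) * ((A i \ X i).card : ℝ) = ∑ _ω ∈ A i \ X i, (p.M * ε / 32) := by
          rw [Finset.sum_const, nsmul_eq_mul, mul_comm]
      _ ≤ ∑ ω ∈ A i \ X i,
          (hits ω (p.i1 + i) (YY (pre ω (p.i1 + i)) (fR E l p (als ω))) : ℝ) := by
          apply Finset.sum_le_sum
          intro ω hω
          rw [Finset.mem_sdiff, Finset.mem_filter, Finset.mem_filter] at hω
          obtain ⟨⟨_, hω1⟩, hω2⟩ := hω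
          have hω1' : ε * Fintype.card V ≤
              (YY (pre ω (p.i1 + i)) (fR E l p (als ω))).card := hω1
          have e5 : (1 / 2 ^ p.k : ℝ) ≤ ε := by
            rw [div_le_iff₀ (by positivity)]
            linarith
          have e6 : (1 / 2 ^ p.k : ℝ) * Fintype.card V ≤
              (YY (pre ω (p.i1 + i)) (fR E l p (als ω))).card := by
            refine le_trans ?_ hω1'
            gcongr
          have e7 : ((p.M : ℝ) - ((p.i1 + i : ℕ) : ℝ)) *
              (YY (pre ω (p.i1 + i)) (fR E l p (als ω))).card / (16 * Fintype.card V) ≤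
              (hits ω (p.i1 + i) (YY (pre ω (p.i1 + i)) (fR E l p (als ω))) : ℝ) := by
            by_contra hcon
            rw [not_le] at hcon
            exact hω2 ⟨Finset.mem_univ _, fR E l p (als ω), fun t => fR_lt E l p _ t, (),
              e6, hcon⟩
          refine le_trans ?_ e7
          have e3 : (p.M : ℝ) / 2 ≤ (p.M : ℝ) - ((p.i1 + i : ℕ) : ℝ) := by
            have : 2 * (p.i1 + i) ≤ p.M := by omega
            have : (2 : ℝ) * ((p.i1 + i : ℕ) : ℝ) ≤ p.M := by exact_mod_cast this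
            linarith
          rw [le_div_iff₀ (by rw [← hnd]; positivity)]
          calc (p.M : ℝ) * ε / 32 * (16 * Fintype.card V) =
                (p.M : ℝ) / 2 * (ε * Fintype.card V) := by ring
            _ ≤ ((p.M : ℝ) - ((p.i1 + i : ℕ) : ℝ)) *
                (YY (pre ω (p.i1 + i)) (fR E l p (als ω))).card := by
                apply mul_le_mul e3 hω1' (by positivity)
                linarith
      _ ≤ _ := by
          apply Finset.sum_le_sum_of_subset_of_nonneg (Finset.subset_univ _)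
          intro ω _ _
          positivity
  have h4 : (p.Ns : ℝ) * ∑ i ∈ range p.i1, ∑ ω : Fin p.M → V,
      (hits ω (p.i1 + i) (YY (pre ω (p.i1 + i)) (fR E l p (als ω))) : ℝ) ≤
      p.M * (p.k * n) * n ^ p.M := by exact_mod_cast h1
  have hNs0 : (0 : ℝ) ≤ p.Ns := by positivity
  have h5 : ε * p.Ns * ∑ i ∈ range p.i1, ((A i \ X i).card : ℝ) ≤ 32 * p.k * n * n ^ p.M := by
    have e1 : (p.Ns : ℝ) * ∑ i ∈ range p.i1, (p.M * ε / 32) * ((A i \ X i).card : ℝ) ≤
        p.M * (p.k * n) * n ^ p.M :=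
      (mul_le_mul_of_nonneg_left (Finset.sum_le_sum h3) hNs0).trans h4
    rw [← Finset.mul_sum] at e1
    have e2 : (p.M : ℝ) * (ε * p.Ns * ∑ i ∈ range p.i1, ((A i \ X i).card : ℝ)) ≤
        p.M * (32 * p.k * n * n ^ p.M) := by linarith
    exact le_of_mul_le_mul_left e2 hMpos
  have h6 : ∑ i ∈ range p.i1, ((X i).card : ℝ) ≤
      p.i1 * ((2 ^ p.k) ^ (2 * p.i1) * Real.exp (-(p.M / (10 * 2 ^ p.k))) * n ^ p.M) := by
    calc ∑ i ∈ range p.i1, ((X i).card : ℝ) ≤ ∑ _i ∈ range p.i1,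
          ((2 ^ p.k) ^ (2 * p.i1) * Real.exp (-(p.M / (10 * 2 ^ p.k))) * n ^ p.M) :=
          Finset.sum_le_sum h2
      _ = _ := by rw [Finset.sum_const, Finset.card_range, nsmul_eq_mul]
  have h7 : ∑ i ∈ range p.i1, ((A i).card : ℝ) ≤
      ∑ i ∈ range p.i1, ((A i \ X i).card : ℝ) + ∑ i ∈ range p.i1, ((X i).card : ℝ) := by
    rw [← Finset.sum_add_distrib]
    apply Finset.sum_le_sum
    intro i _
    have : (A i).card ≤ (A i \ X i).card + (X i).card := by
      have e1 : A i ⊆ (A i \ X i) ∪ X i := by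
        intro ω hω
        rw [Finset.mem_union, Finset.mem_sdiff]
        by_cases h : ω ∈ X i
        · exact Or.inr h
        · exact Or.inl ⟨hω, h⟩
      exact (Finset.card_le_card e1).trans (Finset.card_union_le _ _)
    exact_mod_cast this
  have hεN : 0 ≤ ε * p.Ns := by positivity
  calc ε * p.Ns * ∑ i ∈ range p.i1, ((A i).card : ℝ)
      ≤ ε * p.Ns * (∑ i ∈ range p.i1, ((A i \ X i).card : ℝ) +
          ∑ i ∈ range p.i1, ((X i).card : ℝ)) := mul_le_mul_of_nonneg_left h7 hεN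
    _ = ε * p.Ns * ∑ i ∈ range p.i1, ((A i \ X i).card : ℝ) +
          ε * p.Ns * ∑ i ∈ range p.i1, ((X i).card : ℝ) := by ring
    _ ≤ 32 * p.k * n * n ^ p.M + ε * p.Ns *
          (p.i1 * ((2 ^ p.k) ^ (2 * p.i1) * Real.exp (-(p.M / (10 * 2 ^ p.k))) * n ^ p.M)) :=
        add_le_add h5 (mul_le_mul_of_nonneg_left h6 hεN)
    _ = _ := by ring

end Pool.Agent.AcyUp
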