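import Pool.Agent.AcyUp.ALL
import Pool.Agent.AcyUp.AMP
import Pool.Agent.AcyUp.BAL
import Pool.Agent.AcyUp.CBL
import Pool.Agent.AcyUp.CFD
import Pool.Agent.AcyUp.CKY
import Pool.Agent.AcyUp.CMP
import Pool.Agent.AcyUp.CNL
import Pool.Agent.AcyUp.CRD
import Pool.Agent.AcyUp.CRO
import Pool.Agent.AcyUp.CRV
import Pool.Agent.AcyUp.CSD
import Pool.Agent.AcyUp.CST
import Pool.Agent.AcyUp.DET
import Pool.Agent.AcyUp.DRP
import Pool.Agent.AcyUp.EDG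
import Pool.Agent.AcyUp.END
import Pool.Agent.AcyUp.EXC
import Pool.Agent.AcyUp.FAS
import Pool.Agent.AcyUp.FIN
import Pool.Agent.AcyUp.FRF
import Pool.Agent.AcyUp.GDC
import Pool.Agent.AcyUp.GRO
import Pool.Agent.AcyUp.GRW
import Pool.Agent.AcyUp.HIT
import Pool.Agent.AcyUp.IVD
import Pool.Agent.AcyUp.JSE
import Pool.Agent.AcyUp.KEY
import Pool.Agent.AcyUp.LOC
import Pool.Agent.AcyUp.MON
import Pool.Agent.AcyUp.NUM4
import Pool.Agent.AcyUp.ORD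
import Pool.Agent.AcyUp.PRG
import Pool.Agent.AcyUp.RAD
import Pool.Agent.AcyUp.RTH
import Pool.Agent.AcyUp.SAT
import Pool.Agent.AcyUp.SED
import Pool.Agent.AcyUp.TAU
import Pool.Agent.AcyUp.TST
import Pool.Agent.AcyUp.UCO
import Pool.Agent.AcyUp.WIN
import Pool.Agent.AcyUp.XBA
import Pool.Agent.AcyUp.XST
import Pool.Agent.AcyUp.YBD

set_option autoImplicit false

/-!
# A sublinear one-sided tester for acyclicity: assembly
-/

namespace Pool.Agent.AcyUp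

theorem aMON : tMON := pMON pBAL pKEY
theorem aDRP : tDRP := pDRP pBAL pKEY aMON
theorem aORD : tORD := pORD pBAL
theorem aSED : tSED := pSED pBAL pKEY
theorem aUCO : tUCO := pUCO pHIT
theorem aCBL : tCBL := pCBL pCMP pBAL
theorem aRAD : tRAD := pRAD pGRO

theorem aRTH : tRTH :=
  pRTH (pGDC (pYBD pEXC aUCO aDRP aMON pLOC) (pIVD aUCO aORD aSED pLOC)
    (pWIN aUCO aORD aSED pLOC) pJSE (pCRO pBAL) aMON)
    (pDET pFAS pBAL aMON (pEDG pBAL pKEY)) pTAU (pSAT pFAS pBAL) aMON pBAL pFAS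

theorem aCRD : tCRD :=
  pCRD pCMP (pCSD pCMP aCBL aRAD) (pCKY pCMP aCBL aRAD pBAL) (pCNL pCMP aCBL pGRO)
    (pCST pCMP aCBL aRAD)

theorem aALL : tALL :=
  pALL (pXBA (pFIN (pCRV pFAS pBAL)) (pCFD pCMP aCBL pGRO))
    (pXST aRTH aCRD (pGRW pBAL) pPRG pFAS) pNUM

theorem aEND : tEND := pEND aALL (pAMP pCMP pFAS) pTST pFRF pCMP pGRO

end Pool.Agent.AcyUp
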