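import Pool.Agent.AcyUp.NUM3

set_option autoImplicit false

/-!
# NUM: parameters of a round
-/

namespace Pool.Agent.AcyUp.XNUM

open Finset Pool.Agent.AcyTest Pool.Agent.AcyUp
open scoped Classical

/-- the parameters of a round -/
noncomputable def par (g η L X κ κ3 : ℝ) (h n : ℕ) : Pm where
  gm := g
  η := η
  L := L
  L2 := (1 + X / 2) * L
  k := ⌊X * L / Real.log 2⌋₊
  m := h * ⌊κ * L / h⌋₊
  m2 := ⌊κ3 * L⌋₊
  Ns := ⌈Real.exp ((1 + 4 * X) * L)⌉₊
  Nt := ⌈Real.exp ((1 + X / 40) * L)⌉₊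
  M := ⌊n * Real.exp (-((1 + X / 100) * L))⌋₊
  i1 := ⌊(⌊n * Real.exp (-((1 + X / 100) * L))⌋₊ : ℝ) /
    (40 * ⌊X * L / Real.log 2⌋₊ * 2 ^ ⌊X * L / Real.log 2⌋₊)⌋₊
  h := h
  mb := ⌊κ * L / h⌋₊
  q := ⌊n * Real.exp (-((1 + X / 100) * L))⌋₊
  cap := ⌈260 * (⌊n * Real.exp (-((1 + X / 100) * L))⌋₊ : ℝ) / 2 ^ ⌊X * L / Real.log 2⌋₊⌉₊

/-- what is needed from `L` -/
structure Big (d h : ℕ) (g X κ κ3 ε1 ε2 ε4 c : ℝ) (L : ℝ) : Prop where
  two : 2 ≤ L
  gg : 2 * g ≤ L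
  X1 : 1 ≤ X * L
  hk : (h : ℝ) ≤ κ * L
  k3 : 1 ≤ κ3 * L
  X40 : 1 ≤ X / 40 * L
  e4 : 2 ≤ ε4 * Real.exp (X * L)
  e2 : 96 * (d : ℝ) ≤ ε2 * Real.exp (X * L)
  ns : 184320 * (h : ℝ) * L ^ 2 ≤ ε4 * Real.exp (2 * X * L)
  hm : 32 * (h : ℝ) ≤ ε4 * (κ * L)
  hm2 : 32 * (h : ℝ) ≤ ε4 * (κ3 * L)
  e1 : 16 * (d : ℝ) ≤ ε1 * Real.exp (3 * X / 200 * L)
  hh : 40 * (64 * (h : ℝ) + 2) ≤ L
  L3 : 120 * L ≤ Real.exp (3 * L)
  c1 : 4160 * c * L ≤ Real.exp (X / 200 * L)
  c2 : c * L ≤ Real.exp L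

/-- what is needed from the constants -/
structure Cst (d h : ℕ) (g η X κ κ3 x τm θ1 ε1 ε2 ε4 c Cc : ℝ) : Prop where
  d1 : 1 ≤ d
  h1 : 1 ≤ h
  g0 : 0 < g
  hg : g = Real.log (d + 1)
  hη0 : 0 < η
  hX0 : 0 < X
  hX1 : X ≤ 1 / 2
  hκ : κ = 1 / (16 * g)
  x0 : 0 < x
  xX : 400 * x ≤ X
  xg : x ≤ 1 / (16 * g)
  κ30 : 0 < κ3
  κ3g : κ3 ≤ 1 / (16 * g)
  gx : g * (x + κ3) ≤ 11 / 400 * X
  Xη : X ≤ η / (80 * g)
  hτ : 2 / η + 1 / (2 * g) = τm
  ε10 : 0 < ε1
  ε11 : ε1 ≤ 2 * d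
  ε40 : 0 < ε4
  ε20 : 0 < ε2
  hθ1 : 72 * d * g * X * h ≤ θ1 * κ
  hε2 : 288 * d * X * h ≤ 3 * ε2 * (κ * 2 ^ h)
  hε4 : 16 * d * ε4 = ε2
  hε1 : 8 * ε1 = ε2
  hc : c = (2 / η + 3) * (18 * (2 * d + 2))
  Cc1 : 10 ≤ Cc
  Cc2 : g * (2 / η + 1) + 5 ≤ Cc
  Cc3 : 2 / η + 1 ≤ Cc

lemma main {d h : ℕ} {g η X κ κ3 x τm θ1 ε1 ε2 ε4 c Cc : ℝ}
    (C : Cst d h g η X κ κ3 x τm θ1 ε1 ε2 ε4 c Cc) {L : ℝ} (B : Big d h g X κ κ3 ε1 ε2 ε4 c L)
    (n Rm W : ℕ) (hn : Real.exp (Cc * L) ≤ n) (hRm : (Rm : ℝ) ≤ x * L)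
    (hW : (W : ℝ) ≤ Real.exp (x * L)) :
    ∃ (p : Pm) (Rm' N N2 P0 P1 : ℕ), p.gm = g ∧ p.η = η ∧ p.h = h ∧
        RndOK n d p (1 - X / 8) τm θ1 ε1 ε2 ε4 Rm Rm' ∧ 0 ≤ p.L ∧ 0 ≤ p.L2 ∧ Real.exp p.L ≤ N ∧
        Real.exp p.L2 ≤ N2 ∧ p.L / p.η ≤ P0 ∧ p.L2 / p.η ≤ P1 ∧ 2 * p.L / p.η ≤ P1 ∧
        (Rm' : ℝ) ≤ Cc * L ∧ (W2 d W P0 P1 N : ℝ) ≤ Real.exp (Cc * L) ∧
        (cR d W P0 P1 N N2 p : ℝ) ≤ n * Real.exp (-(x * L)) := by
  have hL2 : 2 ≤ L := B.two
  have hL1 : 1 ≤ L := by linarith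
  have hL0 : 0 ≤ L := by linarith
  have hX0 := C.hX0
  have hX1 := C.hX1
  have hη := C.hη0
  have hg := C.g0
  have hκ0 : 0 < κ := by rw [C.hκ]; positivity
  have hh1 : (1 : ℝ) ≤ h := by exact_mod_cast C.h1
  have hd1 : (1 : ℝ) ≤ d := by exact_mod_cast C.d1
  have hx0 := C.x0
  have hXL : X * L ≤ L / 2 := by
    have := mul_le_mul_of_nonneg_right hX1 hL0
    linarith
  have hXL0 : 0 < X * L := by have := B.X1; linarith
  -- the numbers
  set k := ⌊X * L / Real.log 2⌋₊ with hkdef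
  set Y : ℝ := n * Real.exp (-((1 + X / 100) * L)) with hYdef
  set T : ℝ := 2 ^ k with hTdef
  set M := ⌊Y⌋₊ with hMdef
  set i1 := ⌊(M : ℝ) / (40 * k * T)⌋₊ with hi1def
  set mb := ⌊κ * L / h⌋₊ with hmbdef
  set m2 := ⌊κ3 * L⌋₊ with hm2def
  set Ns := ⌈Real.exp ((1 + 4 * X) * L)⌉₊ with hNsdef
  set Nt := ⌈Real.exp ((1 + X / 40) * L)⌉₊ with hNtdef
  set cap := ⌈260 * (M : ℝ) / T⌉₊ with hcapdef
  obtain ⟨hk1, hk2, hk3, hk4⟩ := k_facts (X * L) B.X1
  have hT0 : 0 < T := by positivity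
  have hk1' : (1 : ℝ) ≤ k := by exact_mod_cast hk1
  have hkL : (k : ℝ) ≤ 3 / 4 * L := by linarith
  have hn10 : Real.exp (10 * L) ≤ n := by
    refine le_trans (Real.exp_le_exp.mpr ?_) hn
    exact mul_le_mul_of_nonneg_right C.Cc1 hL0
  have hn0 : (0 : ℝ) < n := lt_of_lt_of_le (Real.exp_pos _) hn10
  have hY0 : 0 < Y := by positivity
  have hnY : (n : ℝ) = Y * Real.exp ((1 + X / 100) * L) := by
    rw [hYdef, mul_assoc, ← Real.exp_add]
    simp
  -- square root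
  set s := Real.sqrt n with hsdef
  have hs2 : (n : ℝ) = s ^ 2 := (Real.sq_sqrt hn0.le).symm
  have hs5 : Real.exp (5 * L) ≤ s := by
    apply Real.le_sqrt_of_sq_le
    rw [← Real.exp_nat_mul]
    refine le_trans (Real.exp_le_exp.mpr ?_) hn10
    push_cast
    linarith
  have hs1 : 1 ≤ s := le_trans (Real.one_le_exp (by linarith)) hs5
  have hTs : T * (s * Real.exp (3 * L)) ≤ Y := by
    have h1 : Real.exp (X * L) * Real.exp (3 * L) ≤ s * Real.exp (-((1 + X / 100) * L)) := by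
      have h2 := mul_le_mul_of_nonneg_right hs5 (Real.exp_pos (-((1 + X / 100) * L))).le
      refine le_trans ?_ h2
      rw [← Real.exp_add, ← Real.exp_add]
      apply Real.exp_le_exp.mpr
      linarith
    have h3 := mul_le_mul_of_nonneg_right hk3 (by positivity : 0 ≤ s * Real.exp (3 * L))
    have h4 := mul_le_mul_of_nonneg_left h1 (by linarith : 0 ≤ s)
    rw [hYdef, hs2]
    linarith
  have hTe : T * Real.exp (3 * L) ≤ Y := by
    refine le_trans ?_ hTs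
    have := mul_le_mul_of_nonneg_right hs1 (by positivity : 0 ≤ T * Real.exp (3 * L))
    linarith
  have hTL : 120 * L * T ≤ Y := by
    have := mul_le_mul_of_nonneg_left B.L3 hT0.le
    linarith
  have hT1 : 1 ≤ T := one_le_pow₀ (by norm_num)
  have hY1 : 1 ≤ Y := by
    have : 1 * 1 ≤ 120 * L * T := mul_le_mul (by linarith) hT1 (by norm_num) (by linarith)
    linarith
  obtain ⟨hM1, hM2, hM3⟩ := floor_half Y hY1
  rw [← hMdef] at hM1 hM2 hM3
  have hM60 : 60 * L * T ≤ M := by linarith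
  have hi : 1 ≤ (M : ℝ) / (40 * k * T) := by
    rw [le_div_iff₀ (by positivity)]
    have := mul_le_mul_of_nonneg_right hkL hT0.le
    have h2 : 0 ≤ L * T := by positivity
    linarith
  obtain ⟨hi1, hi2, hi3⟩ := floor_half _ hi
  rw [← hi1def] at hi1 hi2 hi3
  have hi4 : (i1 : ℝ) * (40 * k * T) ≤ M := by
    rwa [le_div_iff₀ (by positivity)] at hi2
  have hi5 : (M : ℝ) ≤ i1 * (80 * k * T) := by
    rw [div_div, div_le_iff₀ (by positivity)] at hi1
    linarith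
  have hmbL : 1 ≤ κ * L / h := by
    rw [le_div_iff₀ (by positivity)]
    have := B.hk
    linarith
  obtain ⟨hmb1, hmb2, hmb3⟩ := floor_half _ hmbL
  rw [← hmbdef] at hmb1 hmb2 hmb3
  have hmb1' : κ * L ≤ 2 * (h * mb) := by
    rw [div_div, div_le_iff₀ (by positivity)] at hmb1
    linarith
  have hmb2' : (h : ℝ) * mb ≤ κ * L := by
    rw [le_div_iff₀ (by positivity)] at hmb2
    linarith
  have hmb3' : (1 : ℝ) ≤ mb := by exact_mod_cast hmb3
  obtain ⟨hm21, hm22, hm23⟩ := floor_half _ B.k3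
  rw [← hm2def] at hm21 hm22 hm23
  have hm23' : (1 : ℝ) ≤ m2 := by exact_mod_cast hm23
  have heNs : 1 ≤ Real.exp ((1 + 4 * X) * L) := Real.one_le_exp (by positivity)
  have heNt : 1 ≤ Real.exp ((1 + X / 40) * L) := Real.one_le_exp (by positivity)
  obtain ⟨hNs1, hNs2⟩ := ceil_two _ heNs
  obtain ⟨hNt1, hNt2⟩ := ceil_two _ heNt
  rw [← hNsdef] at hNs1 hNs2
  rw [← hNtdef] at hNt1 hNt2
  have h2exp : ∀ y : ℝ, L ≤ y → 2 ≤ Real.exp y := fun y hy => by
    have := Real.add_one_le_exp y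
    linarith
  have hNs3 : 2 ≤ Ns := by
    have h1 : (2 : ℝ) ≤ Ns := le_trans (h2exp _ (by linarith)) hNs1
    exact_mod_cast h1
  have hNt3 : 2 ≤ Nt := by
    have h1 : (2 : ℝ) ≤ Nt := le_trans (h2exp _ (by linarith)) hNt1
    exact_mod_cast h1
  have hlog2 : Real.log 2 ≤ 1 := by
    have := Real.log_two_lt_d9
    linarith
  have hNs4 : Real.log Ns ≤ (1 + 5 * X) * L := by
    have h1 : (0 : ℝ) < Ns := by positivity
    have h2 := Real.log_le_log h1 hNs2
    rw [Real.log_mul (by norm_num) (Real.exp_pos _).ne', Real.log_exp] at h2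
    have := B.X1
    linarith
  have hNt4 : Real.log Nt ≤ (1 + X / 20) * L := by
    have h1 : (0 : ℝ) < Nt := by positivity
    have h2 := Real.log_le_log h1 hNt2
    rw [Real.log_mul (by norm_num) (Real.exp_pos _).ne', Real.log_exp] at h2
    have := B.X40
    linarith
  have hcap1 : 260 * (M : ℝ) / T ≤ cap := Nat.le_ceil _
  have hcap2 : (cap : ℝ) ≤ 260 * (M : ℝ) / T + 1 := (Nat.ceil_lt_add_one (by positivity)).le
  have hrat : (k : ℝ) / mb ≤ 3 * X * h / κ := by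
    rw [div_le_div_iff₀ (by linarith) hκ0]
    have h1 := mul_le_mul_of_nonneg_right hk2 hκ0.le
    have h2 := mul_le_mul_of_nonneg_left hmb1' (by positivity : 0 ≤ 3 / 2 * X)
    linarith
  have hpow : (0 : ℝ) < 2 ^ h := by positivity
  -- the parameters
  let p : Pm := par g η L X κ κ3 h n
  have pk : p.k = k := rfl
  have pM : p.M = M := rfl
  have pi1 : p.i1 = i1 := rfl
  have pq : p.q = M := rfl
  have pm : p.m = h * mb := rfl
  have pmb : p.mb = mb := rfl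
  have ph : p.h = h := rfl
  have pm2 : p.m2 = m2 := rfl
  have pNs : p.Ns = Ns := rfl
  have pNt : p.Nt = Nt := rfl
  have pL : p.L = L := rfl
  have pL2 : p.L2 = (1 + X / 2) * L := rfl
  have pη : p.η = η := rfl
  have pgm : p.gm = g := rfl
  have pcap : p.cap = cap := rfl
  have hL2L : (1 + X / 2) * L ≤ 2 * L := mul_le_mul_of_nonneg_right (by linarith) hL0
  have hceil : ∀ y : ℝ, 0 ≤ y → (⌈y⌉₊ : ℝ) ≤ y + 1 := fun y hy => (Nat.ceil_lt_add_one hy).le
  have h2Lη : 0 ≤ 2 * L / η := by positivity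
  have hP1 := hceil _ h2Lη
  have hRm'1 : (max Rm ⌈2 * L / η⌉₊ : ℕ) ≤ Cc * L := by
    push_cast
    apply max_le
    · have h1 : x * L ≤ 10 * L := by
        have : x ≤ 10 := by have := C.xX; linarith
        exact mul_le_mul_of_nonneg_right this hL0
      have h2 := mul_le_mul_of_nonneg_right C.Cc1 hL0
      linarith
    · have h2 := mul_le_mul_of_nonneg_right C.Cc3 hL0
      have e : 2 * L / η = 2 / η * L := by ring
      rw [e] at hP1 ⊢
      linarith
  refine ⟨p, max Rm ⌈2 * L / η⌉₊, ⌈Real.exp L⌉₊, ⌈Real.exp ((1 + X / 2) * L)⌉₊, ⌈L / η⌉₊,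
    ⌈2 * L / η⌉₊, pgm, pη, ph, ?_, hL0, ?_, Nat.le_ceil _, Nat.le_ceil _, Nat.le_ceil _, ?_, Nat.le_ceil _,
    hRm'1, ?_, ?_⟩
  · -- RndOK
    have hprob1 := prob1 n h i1 k M T s L hs2 hs1 hL0 B.hh hT0 rfl (Nat.cast_nonneg _) hi4 C.h1
      (by linarith)
    have hprob2 := prob2 n h k Ns i1 T Y L X ε4 C.ε40 C.h1 hL1 hX0 (by linarith) hk2 hk1 hT0 hk3 hY0
      hnY hNs1 (by linarith) B.ns
    have hprob3 : 1 / (ε4 * (h * mb : ℕ)) ≤ 1 / (16 * h) := by
      apply one_div_le_one_div_of_le (by positivity)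
      push_cast
      have h1 := mul_le_mul_of_nonneg_left hmb1' C.ε40.le
      have := B.hm
      linarith
    have hprob4 : 1 / (ε4 * m2) ≤ 1 / (16 * h) := by
      apply one_div_le_one_div_of_le (by positivity)
      have h1 := mul_le_mul_of_nonneg_left hm21 C.ε40.le
      have := B.hm2
      linarith
    have hsat := sat1 n d Nt M Y L X ε1 C.ε10 C.d1 hnY hY0 hNt1 (by linarith) B.e1
    refine ⟨?_, C.d1, hη, hg, C.hτ.le, C.ε10, C.ε11, C.ε40, C.h1, hmb3, le_refl _, hm23, hi3, ?_, ?_, ?_,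
      ?_, ?_, ?_, hsat, ?_, ?_⟩
    · apply numOK p g η X x κ κ3 Rm _ pgm pη hg hη hX0 hX1 (by rw [pL2, pL]) (by rw [pL]; exact hL1)
        (by rw [pL]; have := B.gg; linarith) (by rw [pL]; exact B.gg) (by rw [pm, pL]; push_cast; exact hmb2')
        (by rw [pm2, pL]; exact hm22) C.hκ C.xg hx0.le C.κ30.le C.gx C.Xη ?_
        (by rw [pNs]; exact hNs3) (by rw [pNt]; exact hNt3) (by rw [pNs, pL]; exact hNs4)
        (by rw [pNt, pL]; exact hNt4) (by rw [pL]; exact hRm) (le_max_left _ _) ?_ C.κ3g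
      · have h1 := C.Xη
        rw [le_div_iff₀ (by positivity)] at h1
        have e : X * (1 / η) * 80 = (X * (80 * g)) / η * (1 / g) := by
          field_simp
        rw [e]
        have h2 : (X * (80 * g)) / η ≤ 1 := by
          rw [div_le_iff₀ hη]
          linarith
        have h3 := mul_le_mul_of_nonneg_right h2 (by positivity : 0 ≤ 1 / g)
        linarith
      · rw [pL]
        push_cast
        exact le_trans (Nat.le_ceil _) (le_max_right _ _)
    · -- 4 i1 ≤ M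
      have h1 : 4 * (i1 : ℝ) ≤ M := by
        refine le_trans ?_ hi4
        have h2 : (1 : ℝ) ≤ k * T := by
          have := mul_le_mul hk1' hT1 (by norm_num) (by linarith)
          linarith
        have h3 := mul_le_mul_of_nonneg_left h2 (Nat.cast_nonneg i1 : (0 : ℝ) ≤ i1)
        have h4 : (0 : ℝ) ≤ i1 := Nat.cast_nonneg i1
        linarith
      have h2 : 4 * i1 ≤ M := by exact_mod_cast h1
      exact h2
    · have h1 : T ≤ M := by
        have : 1 * T ≤ 60 * L * T := mul_le_mul_of_nonneg_right (by linarith) hT0.le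
        linarith
      have h2 : 2 ^ k ≤ M := by
        rw [hTdef] at h1
        exact_mod_cast h1
      exact h2
    · have h1 : T * (2 * M) ≤ n := by
        have h2 : T * (2 * M) ≤ Real.exp (X * L) * (2 * Y) :=
          mul_le_mul hk3 (by linarith) (by positivity) (by positivity)
        have h3 : 2 * Real.exp (X * L) ≤ Real.exp ((1 + X / 100) * L) := by
          have h4 : 2 ≤ Real.exp (L / 2) := by
            have := Real.add_one_le_exp (L / 2)
            linarith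
          have h5 := mul_le_mul_of_nonneg_right h4 (Real.exp_pos (X * L)).le
          refine le_trans h5 ?_
          rw [← Real.exp_add]
          apply Real.exp_le_exp.mpr
          linarith
        have h4 := mul_le_mul_of_nonneg_left h3 hY0.le
        rw [hnY]
        linarith
      have h2 : 2 ^ k * (2 * M) ≤ n := by
        rw [hTdef] at h1
        exact_mod_cast h1
      exact h2
    · -- 1 ≤ 2^k ε4
      have h1 := mul_le_mul_of_nonneg_left hk4 C.ε40.le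
      have h2 := B.e4
      have h3 : 1 ≤ T * ε4 := by linarith
      exact h3
    · have e : (1 : ℝ) / (4 * h) = 1 / (16 * h) + 1 / (16 * h) + 1 / (16 * h) + 1 / (16 * h) := by
        field_simp
        norm_num
      have h4 : ((n : ℝ) + 3) * ((2 : ℝ) ^ k) ^ (2 * i1) * Real.exp (-((M : ℝ) / (10 * 2 ^ k))) +
          32 * k * n / (ε4 * Ns * i1) + 1 / (ε4 * (h * mb : ℕ)) + 1 / (ε4 * m2) ≤ 1 / (4 * h) := by
        rw [e]
        linarith
      exact h4
    · -- cap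
      have h1 : 4 * (M : ℝ) * 65 ≤ T * cap := by
        rw [div_le_iff₀ hT0] at hcap1
        linarith
      have h2 : 4 * M * 65 ≤ 2 ^ k * cap := by
        rw [hTdef] at h1
        exact_mod_cast h1
      exact h2
    · have h1 : 24 * (d : ℝ) * g * (k / mb) ≤ θ1 := by
        have h2 := mul_le_mul_of_nonneg_left hrat (by positivity : 0 ≤ 24 * (d : ℝ) * g)
        refine le_trans h2 ?_
        have e : 24 * (d : ℝ) * g * (3 * X * h / κ) = 72 * d * g * X * h / κ := by ring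
        rw [e, div_le_iff₀ hκ0]
        exact C.hθ1
      exact h1
    · have h1 : 12 * (d : ℝ) * (k / mb) / 2 ^ h + 6 * d / 2 ^ k + 4 * d * ε4 + 2 * ε1 ≤ ε2 := by
        have h2 : 12 * (d : ℝ) * (k / mb) / 2 ^ h ≤ 3 / 8 * ε2 := by
          rw [div_le_iff₀ hpow]
          have h3 := mul_le_mul_of_nonneg_left hrat (by positivity : 0 ≤ 12 * (d : ℝ))
          refine le_trans h3 ?_
          have e : 12 * (d : ℝ) * (3 * X * h / κ) = 36 * d * X * h / κ := by ring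
          rw [e, div_le_iff₀ hκ0]
          have := C.hε2
          linarith
        have h3 : 6 * (d : ℝ) / 2 ^ k ≤ 1 / 8 * ε2 := by
          rw [div_le_iff₀ (by positivity)]
          have h4 := mul_le_mul_of_nonneg_left hk4 C.ε20.le
          have h5 := B.e2
          linarith
        have h4 := C.hε4
        have h5 := C.hε1
        linarith
      exact h1
  · show 0 ≤ (1 + X / 2) * L
    positivity
  · show (1 + X / 2) * L / η ≤ (⌈2 * L / η⌉₊ : ℝ)
    refine le_trans ?_ (Nat.le_ceil _)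
    exact div_le_div_of_nonneg_right hL2L hη.le
  · -- W2
    apply W2_le d W _ _ _ L x η g Cc hL1 hx0.le (by have := C.xX; linarith) hη C.hg C.d1
    · have h1 := hceil (L / η) (by positivity)
      have h2 : L / η ≤ 2 * L / η := div_le_div_of_nonneg_right (by linarith) hη.le
      linarith
    · exact hP1
    · exact (ceil_two _ (Real.one_le_exp hL0)).2
    · exact hW
    · exact C.Cc2
    · have := B.c2
      rw [C.hc] at this
      exact this
  · -- cR
    have hW1 := W1_le d W ⌈L / η⌉₊ ⌈Real.exp L⌉₊ L x η hL1 hx0.le hη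
      (by
        have h1 := hceil (L / η) (by positivity)
        have h2 : L / η ≤ 2 * L / η := div_le_div_of_nonneg_right (by linarith) hη.le
        linarith) (ceil_two _ (Real.one_le_exp hL0)).2 hW
    rw [← C.hc] at hW1
    have hc0 : 0 ≤ c := by rw [C.hc]; positivity
    have h8 : 8 * c * L ≤ Real.exp (X / 200 * L) := by
      have h1 := B.c1
      have h2 : 0 ≤ c * L := by positivity
      linarith
    have hc1 := cost1 d n M _ Y c L X x hL1 hX0 hx0.le C.xX hc0 hnY hY0 (by linarith)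
      (Nat.cast_nonneg _) hW1 h8
    have hc2 := cost1 d n (M + 1) _ Y c L X x hL1 hX0 hx0.le C.xX hc0 hnY hY0 (by linarith)
      (by positivity) hW1 h8
    have hcB := cB_le d W ⌈2 * L / η⌉₊ ⌈Real.exp ((1 + X / 2) * L)⌉₊ L (1 + X / 2) x η hL1 hx0.le hP1
      hη (by positivity) (ceil_two _ (Real.one_le_exp (by positivity))).2 hW
    have hcB' : (cB d W ⌈2 * L / η⌉₊ ⌈Real.exp ((1 + X / 2) * L)⌉₊ : ℝ) ≤
        c * L * Real.exp ((1 + X / 2 + x) * L) := by
      refine le_trans hcB ?_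
      have e : Real.exp ((1 + X / 2) * L) * Real.exp (x * L) = Real.exp ((1 + X / 2 + x) * L) := by
        rw [← Real.exp_add]
        congr 1
        ring
      rw [e]
      apply mul_le_mul_of_nonneg_right _ (Real.exp_pos _).le
      apply mul_le_mul_of_nonneg_right _ hL0
      rw [C.hc]
      apply mul_le_mul_of_nonneg_left _ (by positivity)
      have : (0 : ℝ) ≤ 2 * d + 2 := by positivity
      linarith
    have hc3 := cost2 n cap M T _ Y c L X x hL1 hX0 hX1 hx0.le C.xX hc0 (Nat.cast_nonneg _) hnY hY0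
      hM2 hT0 hk4 hcap2 (Nat.cast_nonneg _) hcB'
      (le_trans (Real.exp_le_exp.mpr (by linarith)) hn10) B.c1
    have hfin : (cR d W ⌈L / η⌉₊ ⌈2 * L / η⌉₊ ⌈Real.exp L⌉₊ ⌈Real.exp ((1 + X / 2) * L)⌉₊ p : ℝ) =
        M * W1 d W ⌈L / η⌉₊ ⌈Real.exp L⌉₊ + ((M + 1) * W1 d W ⌈L / η⌉₊ ⌈Real.exp L⌉₊ +
          cap * cB d W ⌈2 * L / η⌉₊ ⌈Real.exp ((1 + X / 2) * L)⌉₊) := by
      unfold cR
      rw [pM, pq, pcap]
      push_cast
      ring
    rw [hfin]
    have : 0 ≤ (n : ℝ) * Real.exp (-(x * L)) := by positivity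
    linarith

end Pool.Agent.AcyUp.XNUM
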