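import Pool.Agent.AcyUp.Targets2

set_option autoImplicit false

/-!
# NUM, part 1: radii and rates
-/

namespace Pool.Agent.AcyUp.XNUM

open Finset Pool.Agent.AcyTest Pool.Agent.AcyUp
open scoped Classical

lemma floor_rad (L g : ℝ) (r : ℕ) (hL : 0 ≤ L) (hg : 0 < g) (hr : 1 ≤ r) :
    ((r * ⌊L / (g * r)⌋₊ : ℕ) : ℝ) ≤ L * (1 / g) ∧
      L * (1 / g) - r ≤ ((r * ⌊L / (g * r)⌋₊ : ℕ) : ℝ) := by
  have hr' : (0 : ℝ) < r := by exact_mod_cast hr
  have e : (r : ℝ) * (L / (g * r)) = L * (1 / g) := by field_simp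
  have h0 : 0 ≤ L / (g * r) := by positivity
  have h1 := Nat.floor_le h0
  have h2 := Nat.lt_floor_add_one (L / (g * r))
  push_cast
  constructor
  · rw [← e]
    exact mul_le_mul_of_nonneg_left h1 hr'.le
  · have := mul_le_mul_of_nonneg_left h2.le hr'.le
    rw [e] at this
    linarith

/-- the radii of a round -/
lemma numOK (p : Pm) (g η X x κ κ3 : ℝ) (Rm Rm' : ℕ) (hgm : p.gm = g) (hη : p.η = η)
    (hg : 0 < g) (hη0 : 0 < η) (hX : 0 < X) (hX1 : X ≤ 1 / 2)
    (hL2 : p.L2 = (1 + X / 2) * p.L) (hL1 : 1 ≤ p.L) (hLg : g ≤ p.L)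
    (hLg2 : 2 * g ≤ p.L)
    (hm : (p.m : ℝ) ≤ κ * p.L) (hm2 : (p.m2 : ℝ) ≤ κ3 * p.L)
    (hκ : κ = 1 / (16 * g)) (hx : x ≤ 1 / (16 * g)) (hx0 : 0 ≤ x) (hκ30 : 0 ≤ κ3)
    (hxX : g * (x + κ3) ≤ 11 / 400 * X) (hX2 : X ≤ η / (80 * g))
    (hX3 : X * (1 / η) * 80 ≤ 1 / g)
    (hNs : 2 ≤ p.Ns) (hNt : 2 ≤ p.Nt) (hNs1 : Real.log p.Ns ≤ (1 + 5 * X) * p.L)
    (hNt1 : Real.log p.Nt ≤ (1 + X / 20) * p.L) (hRm : (Rm : ℝ) ≤ x * p.L) (hRR : Rm ≤ Rm')
    (hRm' : 2 * p.L / η ≤ Rm') (hκ3 : κ3 ≤ 1 / (16 * g)) :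
    NumOK p (1 - X / 8) Rm Rm' := by
  have hNs0 : 0 < Real.log p.Ns := Real.log_pos (by exact_mod_cast (by omega : 1 < p.Ns))
  have hNt0 : 0 < Real.log p.Nt := Real.log_pos (by exact_mod_cast (by omega : 1 < p.Nt))
  refine ⟨hNs, hNt, hRR, by linarith, by linarith, ?_⟩
  intro a hok hact
  have hL0 : 0 ≤ p.L := by linarith
  have hL20 : 0 ≤ p.L2 := by rw [hL2]; positivity
  set L := p.L with hLdef
  -- rates
  have hu : ∀ b, η < gr p.gm a b := by
    intro b
    have h1 := hact.1
    have h2 := hact.2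
    rw [hη] at h1 h2
    cases b
    · exact h2
    · exact h1
  have hgr0 : ∀ b, 0 < gr p.gm a b := fun b => (hok b).1
  have hgrg : ∀ b, gr p.gm a b ≤ g := fun b => le_trans (hok b).2.1 hgm.le
  have hv : ∀ b, 1 / g ≤ 1 / gr p.gm a b := fun b => one_div_le_one_div_of_le (hgr0 b) (hgrg b)
  have hw : ∀ b, 1 / gr p.gm a b ≤ 1 / η := fun b => one_div_le_one_div_of_le hη0 (hu b).le
  have hrd : ∀ b, (rd a b : ℝ) ≤ x * L := fun b => by
    have h1 : rd a b ≤ Rm := (hok b).2.2.2
    have h2 : (rd a b : ℝ) ≤ Rm := by exact_mod_cast h1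
    linarith
  have hP : ∀ b, (p.P a b : ℝ) ≤ L * (1 / gr p.gm a b) ∧
      L * (1 / gr p.gm a b) - x * L ≤ (p.P a b : ℝ) := by
    intro b
    have h := floor_rad L (gr p.gm a b) (rd a b) hL0 (hgr0 b) (hok b).2.2.1
    have h2 := hrd b
    refine ⟨h.1, ?_⟩
    have h3 := h.2
    unfold Pm.P
    linarith
  have hP2 : (p.P2 a (p.dir a) : ℝ) ≤ p.L2 * (1 / gr p.gm a (p.dir a)) ∧
      p.L2 * (1 / gr p.gm a (p.dir a)) - x * L ≤ (p.P2 a (p.dir a) : ℝ) := by
    have h := floor_rad p.L2 (gr p.gm a (p.dir a)) (rd a (p.dir a)) hL20 (hgr0 _) (hok _).2.2.1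
    have h2 := hrd (p.dir a)
    refine ⟨h.1, ?_⟩
    have h3 := h.2
    unfold Pm.P2
    linarith
  set v := 1 / g with hvdef
  have hv0 : 0 < v := by positivity
  have hgv : g * v = 1 := by rw [hvdef]; field_simp
  have hκv : κ = v / 16 := by rw [hκ, hvdef]; field_simp
  have hxv : x ≤ v / 16 := by
    have : (1 : ℝ) / (16 * g) = v / 16 := by rw [hvdef]; field_simp
    linarith
  have hκ3v : κ3 ≤ v / 16 := by
    have : (1 : ℝ) / (16 * g) = v / 16 := by rw [hvdef]; field_simp
    linarith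
  have hLv : 1 ≤ L * v := by
    rw [hvdef, mul_one_div, le_div_iff₀ hg]
    linarith
  have hLv2 : 2 ≤ L * v := by
    rw [hvdef, mul_one_div, le_div_iff₀ hg]
    linarith
  have hPm : ∀ b, (p.m : ℝ) ≤ p.P a b := by
    intro b
    have h1 := (hP b).2
    have h2 := mul_le_mul_of_nonneg_left (hv b) hL0
    rw [hκv] at hm
    have h3 := mul_le_mul_of_nonneg_right hxv hL0
    linarith
  have hPm' : ∀ b, p.m ≤ p.P a b := fun b => by exact_mod_cast hPm b
  have hA : ((p.A a : ℕ) : ℝ) = p.P a true + p.P a false := by unfold Pm.A; push_cast; ring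
  have hAlow : L * (1 / gr p.gm a true) + L * (1 / gr p.gm a false) - 2 * (x * L) ≤ (p.A a : ℝ) := by
    rw [hA]
    have h1 := (hP true).2
    have h2 := (hP false).2
    linarith
  have hAup : (p.A a : ℝ) ≤ 2 * L / η := by
    rw [hA]
    have h1 := (hP true).1
    have h2 := (hP false).1
    have h3 := mul_le_mul_of_nonneg_left (hw true) hL0
    have h4 := mul_le_mul_of_nonneg_left (hw false) hL0
    have e : 2 * L / η = L * (1 / η) + L * (1 / η) := by ring
    rw [e]
    linarith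
  have h2m : 2 * p.m + 1 ≤ p.A a := by
    have h1 : (2 * p.m + 1 : ℝ) ≤ p.A a := by
      have h2 := mul_le_mul_of_nonneg_left (hv true) hL0
      have h2' := mul_le_mul_of_nonneg_left (hv false) hL0
      rw [hκv] at hm
      have h3 := mul_le_mul_of_nonneg_right hxv hL0
      linarith
    exact_mod_cast h1
  have hP2low : 1 + (p.m2 : ℝ) ≤ (p.P2 a (p.dir a) : ℝ) := by
    have h1 := hP2.2
    have h2 := mul_le_mul_of_nonneg_left (hv (p.dir a)) hL0
    have h3 := mul_le_mul_of_nonneg_right hxv hL0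
    have h4 := mul_le_mul_of_nonneg_right hκ3v hL0
    have h5 : L * (1 / gr p.gm a (p.dir a)) ≤ p.L2 * (1 / gr p.gm a (p.dir a)) := by
      apply mul_le_mul_of_nonneg_right _ (one_div_pos.mpr (hgr0 _)).le
      rw [hL2]
      have := mul_nonneg (by linarith : 0 ≤ X / 2) hL0
      linarith
    linarith
  have hP2low' : p.m2 + 1 ≤ p.P2 a (p.dir a) := by
    have : (p.m2 + 1 : ℝ) ≤ p.P2 a (p.dir a) := by linarith
    exact_mod_cast this
  refine ⟨hPm' true, hPm' false, h2m, hP2low', ?_, ?_⟩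
  · intro o ho
    have hr1 : ((p.r1 a o : ℕ) : ℝ) = p.A a - 2 * p.m + o := by
      unfold Pm.r1
      push_cast [Nat.cast_sub (by omega : 2 * p.m ≤ p.A a)]
      ring
    have ho' : (o : ℝ) ≤ p.m := by exact_mod_cast ho.le
    have hm0 : (0 : ℝ) ≤ p.m := Nat.cast_nonneg _
    have hr1pos : (0 : ℝ) < p.r1 a o := by
      have : 1 ≤ p.r1 a o := by unfold Pm.r1; omega
      exact_mod_cast this
    refine ⟨?_, ?_⟩
    · have : ((p.r1 a o : ℕ) : ℝ) ≤ Rm' := by
        rw [hr1]
        linarith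
      exact_mod_cast this
    · intro b
      have hkey : (1 / gr p.gm a b + v / 2) * Real.log p.Ns ≤ p.r1 a o := by
        have h1 : (1 / gr p.gm a b + v / 2) * Real.log p.Ns ≤
            (1 / gr p.gm a b + v / 2) * ((1 + 5 * X) * L) :=
          mul_le_mul_of_nonneg_left hNs1
            (add_nonneg (one_div_pos.mpr (hgr0 b)).le (by linarith))
        have h2 : (1 / gr p.gm a b + v / 2) * (1 + 5 * X) ≤
            1 / gr p.gm a true + 1 / gr p.gm a false - 2 * x - 2 * κ := by
          have h3 : 1 / gr p.gm a b + v ≤ 1 / gr p.gm a true + 1 / gr p.gm a false := by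
            cases b
            · have := hv true; linarith
            · have := hv false; linarith
          have h4 : 5 * X * (1 / gr p.gm a b + v / 2) ≤ v / 8 := by
            have h5 : v ≤ 1 / gr p.gm a b := hv b
            have h6 := mul_le_mul_of_nonneg_left (hw b) hX.le
            have h7 : X * (1 / gr p.gm a b) * 80 ≤ v := by linarith
            have h8 := mul_le_mul_of_nonneg_left h5 hX.le
            linarith
          rw [hκv]
          linarith
        have h3 := mul_le_mul_of_nonneg_right h2 hL0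
        have ho0 : (0 : ℝ) ≤ o := Nat.cast_nonneg _
        rw [hr1]
        linarith
      have e1 : 1 / (2 * p.gm) = v / 2 := by rw [hgm, hvdef]; field_simp
      refine ⟨?_, ?_⟩
      · rw [e1, le_div_iff₀ hNs0]
        exact hkey
      · rw [div_le_iff₀ hr1pos]
        have hg0 := hgr0 b
        have h1 : (1 + gr p.gm a b * (v / 2)) * Real.log p.Ns ≤ gr p.gm a b * p.r1 a o := by
          have := mul_le_mul_of_nonneg_left hkey hg0.le
          have e2 : gr p.gm a b * ((1 / gr p.gm a b + v / 2) * Real.log p.Ns) =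
              (1 + gr p.gm a b * (v / 2)) * Real.log p.Ns := by
            field_simp
          rw [e2] at this
          exact this
        have h2 : (1 + η * (v / 2)) * Real.log p.Ns ≤ gr p.gm a b * p.r1 a o := by
          refine le_trans (mul_le_mul_of_nonneg_right ?_ hNs0.le) h1
          have := mul_le_mul_of_nonneg_right (hu b).le (by linarith : (0 : ℝ) ≤ v / 2)
          linarith
        have h3 : 1 ≤ (1 - X / 8) * (1 + η * (v / 2)) := by
          have h4 : X ≤ η * v / 80 := by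
            have : η / (80 * g) = η * v / 80 := by rw [hvdef]; field_simp
            linarith
          have h5 : 0 < η * v := by positivity
          have h6 := mul_le_mul_of_nonneg_right hX1 h5.le
          linarith
        have hθ0 : 0 ≤ 1 - X / 8 := by linarith
        calc Real.log p.Ns = 1 * Real.log p.Ns := by ring
          _ ≤ ((1 - X / 8) * (1 + η * (v / 2))) * Real.log p.Ns :=
            mul_le_mul_of_nonneg_right h3 hNs0.le
          _ = (1 - X / 8) * ((1 + η * (v / 2)) * Real.log p.Ns) := by ring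
          _ ≤ (1 - X / 8) * (gr p.gm a b * p.r1 a o) := mul_le_mul_of_nonneg_left h2 hθ0
          _ = (1 - X / 8) * gr p.gm a b * p.r1 a o := by ring
  · intro o ho
    have hr2 : ((p.r2 a o : ℕ) : ℝ) = p.P2 a (p.dir a) - p.m2 + o := by
      unfold Pm.r2
      push_cast [Nat.cast_sub (by omega : p.m2 ≤ p.P2 a (p.dir a))]
      ring
    have ho' : (o : ℝ) ≤ p.m2 := by exact_mod_cast ho.le
    have ho0 : (0 : ℝ) ≤ o := Nat.cast_nonneg _
    have hr2pos : (0 : ℝ) < p.r2 a o := by
      have : 1 ≤ p.r2 a o := by unfold Pm.r2; omega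
      exact_mod_cast this
    refine ⟨?_, ?_⟩
    · have : ((p.r2 a o : ℕ) : ℝ) ≤ Rm' := by
        rw [hr2]
        have h1 := hP2.1
        have h3 := mul_le_mul_of_nonneg_left (hw (p.dir a)) hL20
        have h4 : p.L2 * (1 / η) ≤ 2 * L / η := by
          rw [mul_one_div]
          apply div_le_div_of_nonneg_right _ hη0.le
          rw [hL2]
          have := mul_le_mul_of_nonneg_right (by linarith : 1 + X / 2 ≤ 2) hL0
          linarith
        linarith
      exact_mod_cast this
    · rw [div_le_iff₀ hr2pos]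
      set w := gr p.gm a (p.dir a) with hwdef
      have hw0 : 0 < w := hgr0 _
      have hwg : w ≤ g := hgrg _
      have h1 : (1 + X / 2 - 11 / 400 * X) * L ≤ w * p.r2 a o := by
        have h2 : p.L2 * (1 / w) - x * L - κ3 * L ≤ p.r2 a o := by
          rw [hr2]
          have := hP2.2
          linarith
        have h3 := mul_le_mul_of_nonneg_left h2 hw0.le
        have e3 : w * (p.L2 * (1 / w) - x * L - κ3 * L) = p.L2 - w * (x + κ3) * L := by
          field_simp
          ring
        rw [e3, hL2] at h3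
        have h4 : w * (x + κ3) ≤ 11 / 400 * X :=
          le_trans (mul_le_mul_of_nonneg_right hwg (by linarith)) hxX
        have h5 := mul_le_mul_of_nonneg_right h4 hL0
        linarith
      have h2 : (1 + X / 20) ≤ (1 - X / 8) * (1 + X / 2 - 11 / 400 * X) := by
        have h6 := mul_le_mul_of_nonneg_left hX1 hX.le
        linarith
      have hθ0 : 0 ≤ 1 - X / 8 := by linarith
      calc Real.log p.Nt ≤ (1 + X / 20) * L := hNt1
        _ ≤ ((1 - X / 8) * (1 + X / 2 - 11 / 400 * X)) * L := mul_le_mul_of_nonneg_right h2 hL0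
        _ = (1 - X / 8) * ((1 + X / 2 - 11 / 400 * X) * L) := by ring
        _ ≤ (1 - X / 8) * (w * p.r2 a o) := mul_le_mul_of_nonneg_left h1 hθ0
        _ = (1 - X / 8) * w * p.r2 a o := by ring

end Pool.Agent.AcyUp.XNUM
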