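import Pool.Agent.AcyUp.NUM1

set_option autoImplicit false

/-!
# NUM, part 2: the pieces of `RndOK`
-/

namespace Pool.Agent.AcyUp.XNUM

open Finset Pool.Agent.AcyTest Pool.Agent.AcyUp
open scoped Classical

lemma floor_half (y : ℝ) (hy : 1 ≤ y) :
    y / 2 ≤ (⌊y⌋₊ : ℝ) ∧ (⌊y⌋₊ : ℝ) ≤ y ∧ 1 ≤ ⌊y⌋₊ := by
  have h1 := Nat.floor_le (by linarith : 0 ≤ y)
  have h2 := Nat.lt_floor_add_one y
  have h3 : 1 ≤ ⌊y⌋₊ := Nat.le_floor (by simpa using hy)
  have h4 : (1 : ℝ) ≤ ⌊y⌋₊ := by exact_mod_cast h3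
  exact ⟨by linarith, h1, h3⟩

lemma ceil_two (y : ℝ) (hy : 1 ≤ y) : y ≤ (⌈y⌉₊ : ℝ) ∧ (⌈y⌉₊ : ℝ) ≤ 2 * y := by
  have h1 := Nat.le_ceil y
  have h2 := Nat.ceil_lt_add_one (by linarith : 0 ≤ y)
  exact ⟨h1, by linarith⟩

lemma k_facts (y : ℝ) (hy : 1 ≤ y) :
    1 ≤ ⌊y / Real.log 2⌋₊ ∧ (⌊y / Real.log 2⌋₊ : ℝ) ≤ 3 / 2 * y ∧
      (2 : ℝ) ^ ⌊y / Real.log 2⌋₊ ≤ Real.exp y ∧
      Real.exp y ≤ 2 * (2 : ℝ) ^ ⌊y / Real.log 2⌋₊ := by
  have hl : 0.6931471803 < Real.log 2 := Real.log_two_gt_d9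
  have hl' : Real.log 2 < 0.6931471808 := Real.log_two_lt_d9
  have hl0 : 0 < Real.log 2 := by linarith
  have h1 : 1 ≤ y / Real.log 2 := by
    rw [le_div_iff₀ hl0]
    linarith
  have h2 := Nat.floor_le (by linarith : 0 ≤ y / Real.log 2)
  have h3 := Nat.lt_floor_add_one (y / Real.log 2)
  have h4 : (⌊y / Real.log 2⌋₊ : ℝ) * Real.log 2 ≤ y := by
    rwa [← le_div_iff₀ hl0]
  have h5 : y < ((⌊y / Real.log 2⌋₊ : ℝ) + 1) * Real.log 2 := by
    rwa [← div_lt_iff₀ hl0]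
  have e : (2 : ℝ) ^ ⌊y / Real.log 2⌋₊ = Real.exp ((⌊y / Real.log 2⌋₊ : ℝ) * Real.log 2) := by
    rw [mul_comm, Real.exp_mul, Real.exp_log (by norm_num), Real.rpow_natCast]
  refine ⟨Nat.le_floor (by simpa using h1), ?_, ?_, ?_⟩
  · refine le_trans h2 ?_
    rw [div_le_iff₀ hl0]
    nlinarith
  · rw [e]
    exact Real.exp_le_exp.mpr h4
  · rw [e]
    have h6 : Real.exp y ≤ Real.exp ((⌊y / Real.log 2⌋₊ : ℝ) * Real.log 2 + Real.log 2) :=
      Real.exp_le_exp.mpr (by linarith)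
    rw [Real.exp_add, Real.exp_log (by norm_num)] at h6
    linarith

/-- `n = s ^ 2`, the number of samples per block is large -/
lemma prob1 (n h i1 k : ℕ) (M T s L : ℝ) (hs : (n : ℝ) = s ^ 2) (hs1 : 1 ≤ s) (hL : 0 ≤ L)
    (hh : 40 * (64 * (h : ℝ) + 2) ≤ L) (hT : 0 < T) (hT2 : T = (2 : ℝ) ^ k)
    (hM : 0 ≤ M) (hi : (i1 : ℝ) * (40 * k * T) ≤ M) (h1 : 1 ≤ h)
    (hMT : T * (s * Real.exp (3 * L)) ≤ 2 * M) :
    ((n : ℝ) + 3) * ((2 : ℝ) ^ k) ^ (2 * i1) * Real.exp (-(M / (10 * 2 ^ k))) ≤ 1 / (16 * h) := by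
  have hh1 : (1 : ℝ) ≤ h := by exact_mod_cast h1
  have hl' : Real.log 2 < 0.6931471808 := Real.log_two_lt_d9
  have hl : 0.6931471803 < Real.log 2 := Real.log_two_gt_d9
  have e1 : ((2 : ℝ) ^ k) ^ (2 * i1) = Real.exp ((2 * i1 * k : ℝ) * Real.log 2) := by
    rw [← pow_mul, mul_comm ((2 * i1 * k : ℝ)) (Real.log 2), Real.exp_mul,
      Real.exp_log (by norm_num)]
    have : (2 * i1 * k : ℝ) = ((k * (2 * i1) : ℕ) : ℝ) := by push_cast; ring
    rw [this, Real.rpow_natCast]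
  have e2 : Real.exp ((2 * i1 * k : ℝ) * Real.log 2) * Real.exp (-(M / (10 * 2 ^ k))) ≤
      Real.exp (-(M / (20 * T))) := by
    rw [← Real.exp_add]
    apply Real.exp_le_exp.mpr
    rw [← hT2]
    have h3 : (2 * i1 * k : ℝ) * Real.log 2 ≤ M / (20 * T) := by
      rw [le_div_iff₀ (by positivity)]
      have h4 : (2 * i1 * k : ℝ) * Real.log 2 ≤ (2 * i1 * k : ℝ) * 1 :=
        mul_le_mul_of_nonneg_left (by linarith) (by positivity)
      have h5 := mul_le_mul_of_nonneg_right h4 (by positivity : (0 : ℝ) ≤ 20 * T)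
      linarith
    have h4 : M / (10 * T) = M / (20 * T) + M / (20 * T) := by
      field_simp
      ring
    linarith
  have e3 : s * (64 * h + 2) ≤ M / (20 * T) := by
    rw [le_div_iff₀ (by positivity)]
    have h5 : L ≤ Real.exp (3 * L) := by
      have := Real.add_one_le_exp (3 * L)
      linarith
    have h6 : 40 * (64 * (h : ℝ) + 2) ≤ Real.exp (3 * L) := le_trans hh h5
    have h7 := mul_le_mul_of_nonneg_left h6 (by positivity : (0 : ℝ) ≤ T * s)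
    nlinarith
  have e4 : 16 * (h : ℝ) * (n + 3) ≤ Real.exp (s * (64 * h + 2)) := by
    have h5 : Real.exp (s * (64 * h + 2)) = Real.exp s * Real.exp s * Real.exp (s * (64 * h)) := by
      rw [← Real.exp_add, ← Real.exp_add]
      congr 1
      ring
    have h6 : s ≤ Real.exp s := by have := Real.add_one_le_exp s; linarith
    have h7 : 64 * (h : ℝ) ≤ Real.exp (s * (64 * h)) := by
      have h8 := Real.add_one_le_exp (s * (64 * h))
      have h9 := mul_le_mul_of_nonneg_right hs1 (by positivity : (0 : ℝ) ≤ 64 * h)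
      linarith
    rw [h5]
    have hs0 : 0 ≤ s := by linarith
    have h8 : s * s ≤ Real.exp s * Real.exp s := mul_le_mul h6 h6 hs0 (Real.exp_pos _).le
    have h9 : (s * s) * (64 * h) ≤ Real.exp s * Real.exp s * Real.exp (s * (64 * h)) :=
      mul_le_mul h8 h7 (by positivity) (by positivity)
    have h10 : 1 ≤ s * s := by nlinarith
    have h11 := mul_le_mul_of_nonneg_right h10 (by positivity : (0 : ℝ) ≤ 48 * h)
    rw [hs]
    linarith
  rw [mul_assoc, e1]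
  have e5 : Real.exp (-(M / (20 * T))) ≤ 1 / (16 * h * (n + 3)) := by
    rw [Real.exp_neg, ← one_div]
    apply one_div_le_one_div_of_le (by positivity)
    exact le_trans e4 (Real.exp_le_exp.mpr e3)
  have e6 : ((n : ℝ) + 3) * (1 / (16 * h * (n + 3))) = 1 / (16 * h) := by
    field_simp
  calc _ ≤ ((n : ℝ) + 3) * (1 / (16 * h * (n + 3))) :=
        mul_le_mul_of_nonneg_left (le_trans e2 e5) (by positivity)
    _ = _ := e6

lemma prob2 (n h k : ℕ) (Ns i1 T Y L X ε4 : ℝ) (hε4 : 0 < ε4) (h1 : 1 ≤ h) (hL : 1 ≤ L)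
    (hX : 0 < X) (hX1 : X ≤ 1) (hk : (k : ℝ) ≤ 3 / 2 * (X * L)) (hk1 : 1 ≤ k)
    (hT0 : 0 < T) (hT : T ≤ Real.exp (X * L)) (hY : 0 < Y)
    (hn : (n : ℝ) = Y * Real.exp ((1 + X / 100) * L))
    (hNs : Real.exp ((1 + 4 * X) * L) ≤ Ns) (hi1 : Y ≤ i1 * (160 * k * T))
    (hbig : 184320 * (h : ℝ) * L ^ 2 ≤ ε4 * Real.exp (2 * X * L)) :
    32 * k * n / (ε4 * Ns * i1) ≤ 1 / (16 * h) := by
  have hh1 : (1 : ℝ) ≤ h := by exact_mod_cast h1
  have hk1' : (1 : ℝ) ≤ k := by exact_mod_cast hk1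
  have hNs0 : 0 < Ns := lt_of_lt_of_le (Real.exp_pos _) hNs
  have hi0 : 0 < i1 := by
    by_contra hcon
    push Not at hcon
    have := mul_nonpos_of_nonpos_of_nonneg hcon (by positivity : 0 ≤ 160 * (k : ℝ) * T)
    linarith
  rw [div_le_div_iff₀ (by positivity) (by positivity), one_mul]
  -- 32 k n 16 h ≤ ε4 Ns i1
  have hXL : X * L ≤ L := by nlinarith
  have hk2 : (k : ℝ) * k ≤ 9 / 4 * L ^ 2 := by
    have h2 : (k : ℝ) ≤ 3 / 2 * L := by linarith
    have h3 := mul_le_mul h2 h2 (by positivity) (by positivity)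
    linarith
  have hexp : Real.exp (X * L) * Real.exp ((1 + X / 100) * L) * Real.exp (2 * X * L) ≤
      Real.exp ((1 + 4 * X) * L) := by
    rw [← Real.exp_add, ← Real.exp_add]
    apply Real.exp_le_exp.mpr
    have : 0 ≤ X * L := by positivity
    linarith
  have key : 16 * (h : ℝ) * (32 * k) * Real.exp ((1 + X / 100) * L) * (160 * k * T) ≤
      ε4 * Real.exp ((1 + 4 * X) * L) := by
    have h2 : 16 * (h : ℝ) * (32 * k) * Real.exp ((1 + X / 100) * L) * (160 * k * T) ≤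
        81920 * h * (9 / 4 * L ^ 2) * Real.exp ((1 + X / 100) * L) * Real.exp (X * L) := by
      have h3 : (k : ℝ) * k * T ≤ 9 / 4 * L ^ 2 * Real.exp (X * L) :=
        mul_le_mul hk2 hT hT0.le (by positivity)
      have h4 := mul_le_mul_of_nonneg_left h3
        (by positivity : (0 : ℝ) ≤ 81920 * h * Real.exp ((1 + X / 100) * L))
      nlinarith
    have h5 : 81920 * (h : ℝ) * (9 / 4 * L ^ 2) ≤ ε4 * Real.exp (2 * X * L) := by linarith
    have h6 := mul_le_mul_of_nonneg_right h5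
      (by positivity : (0 : ℝ) ≤ Real.exp ((1 + X / 100) * L) * Real.exp (X * L))
    have h7 := mul_le_mul_of_nonneg_left hexp hε4.le
    linarith
  have h8 : 32 * (k : ℝ) * n * (16 * h) =
      (16 * (h : ℝ) * (32 * k) * Real.exp ((1 + X / 100) * L)) * Y := by
    rw [hn]
    ring
  rw [h8]
  have h9 := mul_le_mul_of_nonneg_left hi1
    (by positivity : (0 : ℝ) ≤ 16 * (h : ℝ) * (32 * k) * Real.exp ((1 + X / 100) * L))
  have h10 := mul_le_mul_of_nonneg_right key hi0.le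
  have h11 := mul_le_mul_of_nonneg_left hNs hε4.le
  have h12 := mul_le_mul_of_nonneg_right h11 hi0.le
  linarith

lemma sat1 (n d : ℕ) (Nt q Y L X ε1 : ℝ) (hε1 : 0 < ε1) (hd : 1 ≤ d)
    (hn : (n : ℝ) = Y * Real.exp ((1 + X / 100) * L)) (hY : 0 < Y)
    (hNt : Real.exp ((1 + X / 40) * L) ≤ Nt) (hq : Y ≤ 2 * q)
    (hbig : 16 * (d : ℝ) ≤ ε1 * Real.exp (3 * X / 200 * L)) :
    8 * d * Real.exp (-(Nt * q / n)) ≤ ε1 := by
  have hd1 : (1 : ℝ) ≤ d := by exact_mod_cast hd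
  have hn0 : (0 : ℝ) < n := by rw [hn]; positivity
  have hNt0 : 0 < Nt := lt_of_lt_of_le (Real.exp_pos _) hNt
  have h1 : Real.exp (3 * X / 200 * L) / 2 ≤ Nt * q / n := by
    rw [div_le_div_iff₀ (by norm_num) hn0, hn]
    have e : Real.exp (3 * X / 200 * L) * Real.exp ((1 + X / 100) * L) =
        Real.exp ((1 + X / 40) * L) := by
      rw [← Real.exp_add]
      congr 1
      ring
    have h2 : Real.exp (3 * X / 200 * L) * (Y * Real.exp ((1 + X / 100) * L)) =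
        Real.exp ((1 + X / 40) * L) * Y := by rw [← e]; ring
    rw [h2]
    have h3 := mul_le_mul hNt hq hY.le hNt0.le
    linarith
  have h2 : 8 * d / ε1 ≤ Real.exp (Nt * q / n) := by
    have h3 : 8 * d / ε1 ≤ Real.exp (3 * X / 200 * L) / 2 := by
      rw [div_le_div_iff₀ hε1 (by norm_num)]
      linarith
    have h4 := Real.add_one_le_exp (Nt * q / n)
    linarith
  rw [Real.exp_neg, ← div_eq_mul_inv, div_le_iff₀ (Real.exp_pos _)]
  rw [div_le_iff₀ hε1] at h2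
  linarith

end Pool.Agent.AcyUp.XNUM
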