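import Pool.Agent.AcyUp.NUM2

set_option autoImplicit false

/-!
# NUM, part 3: the costs
-/

namespace Pool.Agent.AcyUp.XNUM

open Finset Pool.Agent.AcyTest Pool.Agent.AcyUp
open scoped Classical

lemma cB_le (d W r s : ℕ) (L a b η : ℝ) (hL : 1 ≤ L) (hb0 : 0 ≤ b)
    (hr : (r : ℝ) ≤ 2 * L / η + 1) (hη : 0 < η) (ha0 : 0 ≤ a)
    (hs : (s : ℝ) ≤ 2 * Real.exp (a * L)) (hW : (W : ℝ) ≤ Real.exp (b * L)) :
    (cB d W r s : ℝ) ≤
      (2 / η + 3) * (6 * (2 * d + 2)) * L * (Real.exp (a * L) * Real.exp (b * L)) := by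
  have h1 : ((r : ℝ) + 2) ≤ (2 / η + 3) * L := by
    have e : 2 * L / η = 2 / η * L := by ring
    rw [e] at hr
    linarith
  have hL0 : 0 ≤ L := by linarith
  have ea : 1 ≤ Real.exp (a * L) := Real.one_le_exp (mul_nonneg ha0 hL0)
  have eb : 1 ≤ Real.exp (b * L) := Real.one_le_exp (mul_nonneg hb0 hL0)
  have h2 : ((s : ℝ) + 1) ≤ 3 * Real.exp (a * L) := by linarith
  have h3 : ((W : ℝ) + 1) ≤ 2 * Real.exp (b * L) := by linarith
  unfold cB
  push_cast
  have hd0 : (0 : ℝ) ≤ 2 * d + 2 := by positivity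
  have h4 := mul_le_mul_of_nonneg_left h3 hd0
  have h5 := mul_le_mul h1 h2 (by positivity) (by positivity)
  have h6 := mul_le_mul h5 h4 (by positivity) (by positivity)
  refine le_trans h6 (le_of_eq ?_)
  ring

/-- the cost of a key -/
lemma W1_le (d W P0 N : ℕ) (L x η : ℝ) (hL : 1 ≤ L) (hx : 0 ≤ x) (hη : 0 < η)
    (hP0 : (P0 : ℝ) ≤ 2 * L / η + 1) (hN : (N : ℝ) ≤ 2 * Real.exp L)
    (hW : (W : ℝ) ≤ Real.exp (x * L)) :
    (W1 d W P0 N : ℝ) ≤ (2 / η + 3) * (18 * (2 * d + 2)) * L * Real.exp ((1 + x) * L) := by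
  have h1 := cB_le d W P0 N L 1 x η hL hx hP0 hη (by norm_num) (by simpa using hN) hW
  have e : Real.exp (1 * L) * Real.exp (x * L) = Real.exp ((1 + x) * L) := by
    rw [← Real.exp_add]
    congr 1
    ring
  rw [e] at h1
  have h2 : Real.exp (x * L) ≤ Real.exp ((1 + x) * L) := Real.exp_le_exp.mpr (by linarith)
  unfold W1
  push_cast
  have h3 : (1 : ℝ) ≤ (2 / η + 3) * (6 * (2 * d + 2)) * L := by
    have : (0 : ℝ) < 2 / η := by positivity
    have hd0 : (0 : ℝ) ≤ d := by positivity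
    have h4 : (1 : ℝ) ≤ (2 / η + 3) := by linarith
    have h5 : (1 : ℝ) ≤ 6 * (2 * d + 2) := by linarith
    have h6 := mul_le_mul h4 h5 (by norm_num) (by linarith)
    have h7 := mul_le_mul h6 hL (by norm_num) (by positivity)
    linarith
  have h4 := mul_le_mul_of_nonneg_right h3 (Real.exp_pos ((1 + x) * L)).le
  linarith

/-- the cost of the seeds and of the vertices of the saturation step -/
lemma cost1 (d n : ℕ) (M w Y c1 L X x : ℝ) (hL : 1 ≤ L) (hX : 0 < X) (hx : 0 ≤ x)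
    (hxX : 400 * x ≤ X) (hc1 : 0 ≤ c1)
    (hn : (n : ℝ) = Y * Real.exp ((1 + X / 100) * L)) (hY : 0 < Y)
    (hM : M ≤ 2 * Y) (hM0 : 0 ≤ M) (hw : w ≤ c1 * L * Real.exp ((1 + x) * L))
    (hbig : 8 * c1 * L ≤ Real.exp (X / 200 * L)) :
    M * w ≤ n * Real.exp (-(x * L)) / 4 := by
  have h1 : M * w ≤ 2 * Y * (c1 * L * Real.exp ((1 + x) * L)) := by
    have h2 := mul_le_mul_of_nonneg_left hw hM0
    have h3 := mul_le_mul_of_nonneg_right hM
      (by positivity : 0 ≤ c1 * L * Real.exp ((1 + x) * L))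
    linarith
  have h4 : Real.exp (X / 200 * L) * Real.exp ((1 + x) * L) ≤
      Real.exp ((1 + X / 100) * L) * Real.exp (-(x * L)) := by
    rw [← Real.exp_add, ← Real.exp_add]
    apply Real.exp_le_exp.mpr
    have : 0 ≤ (X - 400 * x) * L := mul_nonneg (by linarith) (by linarith)
    linarith
  have h5 := mul_le_mul_of_nonneg_right hbig (Real.exp_pos ((1 + x) * L)).le
  have h6 := mul_le_mul_of_nonneg_left (le_trans h5 h4) hY.le
  rw [hn]
  linarith

/-- the cost of the balls of the saturation step -/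
lemma cost2 (n : ℕ) (cap q T w Y c2 L X x : ℝ) (hL : 1 ≤ L) (hX : 0 < X) (hX1 : X ≤ 1 / 2)
    (hx : 0 ≤ x) (hxX : 400 * x ≤ X) (hc2 : 0 ≤ c2) (hq0 : 0 ≤ q)
    (hn : (n : ℝ) = Y * Real.exp ((1 + X / 100) * L)) (hY : 0 < Y) (hq : q ≤ Y)
    (hT0 : 0 < T) (hT : Real.exp (X * L) ≤ 2 * T) (hcap : cap ≤ 260 * q / T + 1) (hw0 : 0 ≤ w)
    (hw : w ≤ c2 * L * Real.exp ((1 + X / 2 + x) * L)) (hn4 : Real.exp (4 * L) ≤ n)
    (hbig : 4160 * c2 * L ≤ Real.exp (X / 200 * L)) :
    cap * w ≤ n * Real.exp (-(x * L)) / 4 := by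
  have hn0 : (0 : ℝ) < n := by rw [hn]; positivity
  have hL0 : 0 ≤ L := by linarith
  have h1 : cap ≤ 520 * Y * Real.exp (-(X * L)) + 1 := by
    have h2 : 260 * q / T ≤ 520 * Y * Real.exp (-(X * L)) := by
      rw [div_le_iff₀ hT0]
      have h3 : 1 ≤ Real.exp (-(X * L)) * (2 * T) := by
        have h4 := mul_le_mul_of_nonneg_left hT (Real.exp_pos (-(X * L))).le
        rw [← Real.exp_add] at h4
        simpa using h4
      have h5 := mul_le_mul_of_nonneg_left h3 (by positivity : 0 ≤ 260 * Y)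
      linarith
    linarith
  have h2 : cap * w ≤ (520 * Y * Real.exp (-(X * L)) + 1) *
      (c2 * L * Real.exp ((1 + X / 2 + x) * L)) := by
    have h3 := mul_le_mul_of_nonneg_right h1 hw0
    have h4 := mul_le_mul_of_nonneg_left hw
      (by positivity : 0 ≤ 520 * Y * Real.exp (-(X * L)) + 1)
    linarith
  have h3 : (520 * Y * Real.exp (-(X * L))) * (c2 * L * Real.exp ((1 + X / 2 + x) * L)) ≤
      n * Real.exp (-(x * L)) / 8 := by
    have h4 : Real.exp (X / 200 * L) * (Real.exp (-(X * L)) * Real.exp ((1 + X / 2 + x) * L)) ≤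
        Real.exp ((1 + X / 100) * L) * Real.exp (-(x * L)) := by
      rw [← Real.exp_add, ← Real.exp_add, ← Real.exp_add]
      apply Real.exp_le_exp.mpr
      have : 0 ≤ (X - 400 * x) * L := mul_nonneg (by linarith) (by linarith)
      have h6 : 0 ≤ X * L := by positivity
      linarith
    have h5 := mul_le_mul_of_nonneg_right hbig
      (by positivity : 0 ≤ Real.exp (-(X * L)) * Real.exp ((1 + X / 2 + x) * L))
    have h6 := mul_le_mul_of_nonneg_left (le_trans h5 h4) hY.le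
    rw [hn]
    linarith
  have h4 : c2 * L * Real.exp ((1 + X / 2 + x) * L) ≤ n * Real.exp (-(x * L)) / 8 := by
    have h5 : 8 * c2 * L ≤ Real.exp (2 * L) := by
      have h6 : 8 * c2 * L ≤ 4160 * c2 * L := by
        have : 0 ≤ c2 * L := by positivity
        linarith
      have h7 : Real.exp (X / 200 * L) ≤ Real.exp (2 * L) :=
        Real.exp_le_exp.mpr (mul_le_mul_of_nonneg_right (by linarith) hL0)
      linarith
    have h6 := mul_le_mul_of_nonneg_right h5 (Real.exp_pos ((1 + X / 2 + x) * L)).le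
    have h7 : Real.exp (2 * L) * Real.exp ((1 + X / 2 + x) * L) ≤
        Real.exp (4 * L) * Real.exp (-(x * L)) := by
      rw [← Real.exp_add, ← Real.exp_add]
      apply Real.exp_le_exp.mpr
      have h8 : (X / 2 + 2 * x) * L ≤ 1 * L := mul_le_mul_of_nonneg_right (by linarith) hL0
      linarith
    have h8 := mul_le_mul_of_nonneg_right hn4 (Real.exp_pos (-(x * L))).le
    linarith
  linarith

/-- the cost of a new label -/
lemma W2_le (d W P0 P1 N : ℕ) (L x η g Cc : ℝ) (hL : 1 ≤ L) (hx : 0 ≤ x) (hx1 : x ≤ 1)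
    (hη : 0 < η) (hg : g = Real.log (d + 1)) (hd : 1 ≤ d)
    (hP0 : (P0 : ℝ) ≤ 2 * L / η + 1) (hP1 : (P1 : ℝ) ≤ 2 * L / η + 1)
    (hN : (N : ℝ) ≤ 2 * Real.exp L) (hW : (W : ℝ) ≤ Real.exp (x * L))
    (hCc : g * (2 / η + 1) + 5 ≤ Cc)
    (hbig : (2 / η + 3) * (18 * (2 * d + 2)) * L ≤ Real.exp L) :
    (W2 d W P0 P1 N : ℝ) ≤ Real.exp (Cc * L) := by
  have hd1 : (1 : ℝ) ≤ d := by exact_mod_cast hd
  have hg0 : 0 ≤ g := by rw [hg]; exact Real.log_nonneg (by linarith)
  have hL0 : 0 ≤ L := by linarith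
  set c := (2 / η + 3) * (18 * (2 * (d : ℝ) + 2)) with hc
  have hc0 : 0 ≤ c := by positivity
  have h1 := W1_le d W P0 N L x η hL hx hη hP0 hN hW
  have h2 : (W1 d W P0 N : ℝ) ≤ Real.exp (3 * L) := by
    refine le_trans h1 ?_
    have h3 := mul_le_mul_of_nonneg_right hbig (Real.exp_pos ((1 + x) * L)).le
    have h4 : Real.exp L * Real.exp ((1 + x) * L) ≤ Real.exp (3 * L) := by
      rw [← Real.exp_add]
      apply Real.exp_le_exp.mpr
      have := mul_le_mul_of_nonneg_right hx1 hL0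
      linarith
    linarith
  have h3 : (((d + 1) ^ P1 : ℕ) : ℝ) ≤ 2 * Real.exp (g * (2 / η + 1) * L) := by
    have e1 : (((d + 1) ^ P1 : ℕ) : ℝ) = Real.exp (g * P1) := by
      push_cast
      rw [hg, Real.exp_mul, Real.exp_log (by positivity), Real.rpow_natCast]
    rw [e1]
    have h4 : g * P1 ≤ g * (2 / η + 1) * L := by
      have h5 : (P1 : ℝ) ≤ (2 / η + 1) * L := by
        have e : 2 * L / η = 2 / η * L := by ring
        rw [e] at hP1
        linarith
      have := mul_le_mul_of_nonneg_left h5 hg0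
      linarith
    have h5 := Real.exp_le_exp.mpr h4
    have h6 := Real.exp_pos (g * (2 / η + 1) * L)
    linarith
  have h4 := cB_le d (W1 d W P0 N) P1 ((d + 1) ^ P1) L (g * (2 / η + 1)) 3 η hL (by norm_num) hP1 hη
    (by positivity) h3 h2
  set a := g * (2 / η + 1) with ha
  have ha0 : 0 ≤ a := by positivity
  have h5 : (W2 d W P0 P1 N : ℝ) ≤ Real.exp (3 * L) +
      2 * ((2 / η + 3) * (6 * (2 * d + 2)) * L * (Real.exp (a * L) * Real.exp (3 * L))) := by
    unfold W2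
    push_cast at h4 ⊢
    linarith
  have e2 : Real.exp (a * L) * Real.exp (3 * L) = Real.exp ((a + 3) * L) := by
    rw [← Real.exp_add]
    congr 1
    ring
  rw [e2] at h5
  have h6 : Real.exp (3 * L) ≤ Real.exp ((a + 3) * L) := by
    apply Real.exp_le_exp.mpr
    have := mul_nonneg ha0 hL0
    linarith
  have h7 : (1 : ℝ) ≤ (2 / η + 3) * (6 * (2 * d + 2)) * L := by
    have : (0 : ℝ) < 2 / η := by positivity
    have h4 : (1 : ℝ) ≤ (2 / η + 3) := by linarith
    have h5 : (1 : ℝ) ≤ 6 * (2 * d + 2) := by linarith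
    have h6 := mul_le_mul h4 h5 (by norm_num) (by linarith)
    have h7 := mul_le_mul h6 hL (by norm_num) (by positivity)
    linarith
  have h8 := mul_le_mul_of_nonneg_right h7 (Real.exp_pos ((a + 3) * L)).le
  have h9 : (W2 d W P0 P1 N : ℝ) ≤ (c * L) * Real.exp ((a + 3) * L) := by
    rw [hc]
    linarith
  have h10 := mul_le_mul_of_nonneg_right hbig (Real.exp_pos ((a + 3) * L)).le
  have h11 : Real.exp L * Real.exp ((a + 3) * L) ≤ Real.exp (Cc * L) := by
    rw [← Real.exp_add]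
    apply Real.exp_le_exp.mpr
    have := mul_le_mul_of_nonneg_right hCc hL0
    linarith
  linarith

end Pool.Agent.AcyUp.XNUM
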