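import Pool.Agent.AcyUp.Targets

set_option autoImplicit false

/-!
# MP_08c6cd_lc, ORD: topological order of the seeds and equal blocks
-/

namespace Pool.Agent.AcyUp

open Finset Pool.Agent.AcyTest
open scoped Classical

namespace H21Ord

variable {V : Type} {E : V → V → Prop} {S : Finset V}

/-- edges inside `D` -/
def inE (E : V → V → Prop) (D : Finset V) (u w : V) : Prop := E u w ∧ u ∈ D ∧ w ∈ D

lemma path_true (D : Finset V) (r : ℕ) (x z : V) (h : z ∈ ball E true S r x)
    (hD : ball E true S r x ⊆ D) : Relation.ReflTransGen (inE E D) x z := by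
  induction r generalizing z with
  | zero =>
    have : z = x := by
      have := h
      simp only [ball, mem_filter] at this
      exact this.2
    rw [this]
  | succ r ih =>
    have hsub : ball E true S r x ⊆ ball E true S (r + 1) x := by
      intro y hy
      have hyS : y ∈ S := by
        cases r with
        | zero => exact (mem_filter.1 hy).1
        | succ r => exact (mem_filter.1 hy).1
      exact mem_filter.2 ⟨hyS, Or.inl hy⟩
    have h' := h
    simp only [ball, mem_filter] at h'
    rcases h'.2 with h1 | ⟨u, hu, hd⟩
    · exact ih z h1 (hsub.trans hD)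
    · refine (ih u hu (hsub.trans hD)).tail ⟨?_, hD (hsub hu), hD h⟩
      simpa [de] using hd

lemma path_false (D : Finset V) (r : ℕ) (x z : V) (h : z ∈ ball E false S r x)
    (hD : ball E false S r x ⊆ D) : Relation.ReflTransGen (inE E D) z x := by
  induction r generalizing z with
  | zero =>
    have : z = x := by
      have := h
      simp only [ball, mem_filter] at this
      exact this.2
    rw [this]
  | succ r ih =>
    have hsub : ball E false S r x ⊆ ball E false S (r + 1) x := by
      intro y hy
      have hyS : y ∈ S := by
        cases r with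
        | zero => exact (mem_filter.1 hy).1
        | succ r => exact (mem_filter.1 hy).1
      exact mem_filter.2 ⟨hyS, Or.inl hy⟩
    have h' := h
    simp only [ball, mem_filter] at h'
    rcases h'.2 with h1 | ⟨u, hu, hd⟩
    · exact ih z h1 (hsub.trans hD)
    · refine Relation.ReflTransGen.head ⟨?_, hD h, hD (hsub hu)⟩ (ih u hu (hsub.trans hD))
      simpa [de] using hd

variable [Fintype V]

/-- linked seeds are joined by a path inside the explored set -/
lemma lk_trans (hB : tBAL) (l : V → Option Lb) (p : Pm) (R : Finset V) (s s' : V)
    (hs : s ∈ R) (hs' : s' ∈ R) (h : lk E l p s s') :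
    Relation.TransGen (inE E (seedD E l p R)) s s' := by
  obtain ⟨hne, a, h1, h2, hact, hb⟩ := h
  have hsubT : ball E true (cl l (some a)) (p.P a true) s ⊆ seedD E l p R := by
    intro y hy
    refine mem_biUnion.2 ⟨s, hs, ?_⟩
    rw [h1]
    simp only
    rw [if_pos hact]
    exact mem_union_left _ hy
  have hsubF : ball E false (cl l (some a)) (p.P a false) s' ⊆ seedD E l p R := by
    intro y hy
    refine mem_biUnion.2 ⟨s', hs', ?_⟩
    rw [h2]
    simp only
    rw [if_pos hact]
    exact mem_union_right _ hy
  obtain ⟨_, _, _, _, _, hsplit, hdual, _⟩ := hB V E true (cl l (some a))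
  obtain ⟨y, hy1, hy2⟩ := hsplit (p.P a true) (p.P a false) s s' hb
  have hy3 := hdual _ _ _ hy2
  have p1 := path_true _ _ _ _ hy1 hsubT
  have p2 := path_false _ _ _ _ hy3 hsubF
  have p3 := p1.trans p2
  rcases Relation.reflTransGen_iff_eq_or_transGen.1 p3 with h | h
  · exact absurd h.symm hne
  · exact h

/-- injective numbering of the vertices which increases along an acyclic relation -/
lemma numbering (T : V → V → Prop) (hac : ∀ v, ¬ Relation.TransGen T v v) :
    ∃ num : V → ℕ, Function.Injective num ∧ ∀ u v, Relation.TransGen T u v → num u < num v := by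
  set n := Fintype.card V
  let e : V ≃ Fin n := Fintype.equivFin V
  let rk : V → ℕ := fun v => (univ.filter fun u => Relation.TransGen T u v).card
  refine ⟨fun v => rk v * n + (e v : ℕ), ?_, ?_⟩
  · intro u v h
    simp only at h
    have h1 : ((e u : ℕ)) = (e v : ℕ) := by
      have := congrArg (fun x => x % n) h
      simp only [Nat.mul_add_mod_self_right] at this
      rwa [Nat.mod_eq_of_lt (e u).2, Nat.mod_eq_of_lt (e v).2] at this
    exact e.injective (Fin.ext h1)
  · intro u v h
    have h1 : rk u < rk v := by
      apply card_lt_card
      refine ⟨fun w hw => ?_, fun hsub => ?_⟩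
      · simp only [mem_filter, mem_univ, true_and] at hw ⊢
        exact hw.trans h
      · have : u ∈ (univ.filter fun w => Relation.TransGen T w u) :=
          hsub (by simpa using h)
        simp only [mem_filter, mem_univ, true_and] at this
        exact hac u this
    have h2 : (e u : ℕ) < n := (e u).2
    calc rk u * n + (e u : ℕ) < rk u * n + n := by omega
      _ = (rk u + 1) * n := by ring
      _ ≤ rk v * n := Nat.mul_le_mul_right _ h1
      _ ≤ rk v * n + (e v : ℕ) := Nat.le_add_right _ _

/-- few numbers below `N` have the same quotient -/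
lemma quot_count (N K c : ℕ) (hN : 0 < N) (hK : 0 < K) :
    ((range N).filter fun p => p * K / N = c).card * K ≤ N + K := by
  have hsub : ((range N).filter fun p => p * K / N = c) ⊆
      Icc ((c * N + K - 1) / K) ((c * N + K - 1) / K + N / K) := by
    intro p hp
    obtain ⟨_, hp⟩ := mem_filter.1 hp
    have h1 : c * N ≤ p * K := by
      rw [← hp]
      exact Nat.div_mul_le_self _ _
    have h2 : p * K < (c + 1) * N := by
      rw [← hp]
      exact Nat.lt_mul_of_div_lt (Nat.lt_succ_self _) hN
    set a := (c * N + K - 1) / K with ha
    have h3 : c * N + K - 1 < (a + 1) * K := Nat.lt_mul_of_div_lt (Nat.lt_succ_self _) hK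
    have h4 : a * K ≤ c * N + K - 1 := Nat.div_mul_le_self _ _
    have h5 : (a + 1) * K = a * K + K := by ring
    have h6 : (c + 1) * N = c * N + N := by ring
    have h7 : c * N ≤ a * K := by omega
    refine mem_Icc.2 ⟨?_, ?_⟩
    · by_contra hlt
      have h8 : p + 1 ≤ a := by omega
      have h9 : (p + 1) * K ≤ a * K := Nat.mul_le_mul_right _ h8
      have h10 : (p + 1) * K = p * K + K := by ring
      omega
    · have h8 : p - a ≤ N / K := by
        rw [Nat.le_div_iff_mul_le hK, Nat.sub_mul]
        omega
      omega
  calc ((range N).filter fun p => p * K / N = c).card * K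
      ≤ (Icc ((c * N + K - 1) / K) ((c * N + K - 1) / K + N / K)).card * K :=
        Nat.mul_le_mul_right _ (card_le_card hsub)
    _ = (N / K + 1) * K := by
        rw [Nat.card_Icc]
        congr 1
        generalize N / K = q
        omega
    _ = N / K * K + K := by ring
    _ ≤ N + K := Nat.add_le_add_right (Nat.div_mul_le_self _ _) _

end H21Ord

open H21Ord in
theorem pORD (hB : tBAL) : tORD := by
  intro V _ E l p R hcyc
  have hex : ∃ f, IsF p.k R (rsl R l) (rsr R (lk E l p)) f := by
    obtain ⟨num, hinj, hnum⟩ := numbering (inE E (seedD E l p R)) (by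
      intro v hv
      exact hcyc ⟨v, hv⟩)
    have hK : 0 < 2 ^ p.k := Nat.two_pow_pos _
    -- the class of a seed and its position
    let cls : V → Finset V := fun s => R.filter fun t => l t = l s
    let pos : V → ℕ := fun s => ((cls s).filter fun t => num t < num s).card
    have hpos : ∀ s ∈ R, pos s < (cls s).card := by
      intro s hs
      apply card_lt_card
      refine ⟨filter_subset _ _, fun h => ?_⟩
      have h1 : s ∈ cls s := mem_filter.2 ⟨hs, rfl⟩
      exact lt_irrefl _ (mem_filter.1 (h h1)).2
    have hmono : ∀ s s', l s = l s' → num s ≤ num s' → pos s ≤ pos s' := by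
      intro s s' h1 h2
      apply card_le_card
      intro t ht
      obtain ⟨ht1, ht2⟩ := mem_filter.1 ht
      refine mem_filter.2 ⟨?_, ht2.trans_le h2⟩
      have : cls s = cls s' := by
        simp only [cls, h1]
      rwa [← this]
    have hstrict : ∀ s ∈ R, ∀ s' ∈ R, l s = l s' → num s < num s' → pos s < pos s' := by
      intro s hs s' hs' h1 h2
      apply card_lt_card
      refine ⟨fun t ht => ?_, fun h => ?_⟩
      · obtain ⟨ht1, ht2⟩ := mem_filter.1 ht
        refine mem_filter.2 ⟨?_, ht2.trans h2⟩
        have : cls s = cls s' := by
          simp only [cls, h1]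
        rwa [← this]
      · have h3 : s ∈ (cls s').filter fun t => num t < num s' :=
          mem_filter.2 ⟨mem_filter.2 ⟨hs, h1⟩, h2⟩
        exact lt_irrefl _ (mem_filter.1 (h h3)).2
    refine ⟨fun s => if s ∈ R then pos s * 2 ^ p.k / (cls s).card else 0, ?_, ?_, ?_⟩
    · intro s hs s' hs' hrel
      have hlk := hrel.2.2
      have hl : l s = l s' := by
        obtain ⟨_, a, h1, h2, _⟩ := hlk
        rw [h1, h2]
      have hlt := hnum _ _ (lk_trans hB l p R s s' hs hs' hlk)
      have hc : cls s = cls s' := by
        simp only [cls, hl]
      simp only [if_pos hs, if_pos hs', hc]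
      exact Nat.div_le_div_right (Nat.mul_le_mul_right _ (hmono s s' hl hlt.le))
    · intro s
      by_cases hs : s ∈ R
      · simp only [if_pos hs]
        rw [Nat.div_lt_iff_lt_mul (lt_of_le_of_lt (Nat.zero_le _) (hpos s hs)), mul_comm]
        exact Nat.mul_lt_mul_of_pos_left (hpos s hs) hK
      · simp only [if_neg hs]
        exact hK
    · intro a c
      rcases (R.filter fun s => rsl R l s = some a).eq_empty_or_nonempty with he | ⟨s0, hs0⟩
      · have : (R.filter fun s => rsl R l s = some a ∧
            (if s ∈ R then pos s * 2 ^ p.k / (cls s).card else 0) = c) = ∅ := by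
          rw [eq_empty_iff_forall_notMem]
          intro t ht
          obtain ⟨h1, h2, _⟩ := mem_filter.1 ht
          have : t ∈ R.filter fun s => rsl R l s = some a := mem_filter.2 ⟨h1, h2⟩
          rw [he] at this
          exact notMem_empty _ this
        rw [this, card_empty, Nat.zero_mul]
        exact Nat.zero_le _
      · have hmem : ∀ s ∈ R, rsl R l s = some a → l s = some a := by
          intro s hs h
          rwa [rsl, if_pos hs] at h
        have hcl : ∀ s ∈ R, rsl R l s = some a →
            cls s = R.filter fun s => rsl R l s = some a := by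
          intro s hs h
          ext t
          simp only [cls, mem_filter]
          refine and_congr_right fun ht => ?_
          rw [hmem s hs h, rsl, if_pos ht]
        set N := (R.filter fun s => rsl R l s = some a).card with hN
        have hNpos : 0 < N := card_pos.2 ⟨s0, hs0⟩
        refine le_trans (Nat.mul_le_mul_right _ ?_) (quot_count N (2 ^ p.k) c hNpos hK)
        apply card_le_card_of_injOn pos
        · intro s hs
          obtain ⟨h1, h2, h3⟩ := mem_filter.1 (mem_coe.1 hs)
          simp only [if_pos h1, hcl s h1 h2] at h3
          refine mem_coe.2 (mem_filter.2 ⟨?_, h3⟩)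
          have := hpos s h1
          rw [hcl s h1 h2] at this
          exact mem_range.2 this
        · intro s hs t ht hst
          obtain ⟨h1, h2, _⟩ := mem_filter.1 (mem_coe.1 hs)
          obtain ⟨h3, h4, _⟩ := mem_filter.1 (mem_coe.1 ht)
          have hll : l s = l t := by rw [hmem s h1 h2, hmem t h3 h4]
          rcases lt_trichotomy (num s) (num t) with h | h | h
          · exact absurd hst (hstrict s h1 t h3 hll h).ne
          · exact hinj h
          · exact absurd hst (hstrict t h3 s h1 hll.symm h).ne'
  have : fR E l p R = hex.choose := by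
    unfold fR chF
    rw [dif_pos hex]
  rw [this]
  exact hex.choose_spec

end Pool.Agent.AcyUp
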