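import Pool.Agent.AcyUp.Defs

set_option autoImplicit false

/-!
# MP_08c6cd_lc, sublinear tester: exact targets of the jobs ACU-*

Proofs: `Blueprint.lean.txt`.
-/

namespace Pool.Agent.AcyUp

open Finset Pool.Agent.AcyTest
open scoped Classical

/-! ## A. Balls, feedback arcs, keys -/

/-- BAL: basic facts about balls -/
def tBAL : Prop := ∀ (V : Type) [Fintype V] (E : V → V → Prop) (b : Bool) (S : Finset V),
  (∀ r x, ball E b S r x ⊆ S) ∧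
  (∀ r s x, r ≤ s → ball E b S r x ⊆ ball E b S s x) ∧
  (∀ r x, x ∈ S → x ∈ ball E b S r x) ∧
  (∀ r x, x ∉ S → ball E b S r x = ∅) ∧
  (∀ r s x y z, y ∈ ball E b S r x → z ∈ ball E b S s y → z ∈ ball E b S (r + s) x) ∧
  (∀ r s x z, z ∈ ball E b S (r + s) x → ∃ y ∈ ball E b S r x, z ∈ ball E b S s y) ∧
  (∀ r x y, y ∈ ball E b S r x → x ∈ ball E (!b) S r y) ∧
  (∀ (S' : Finset V) r x, S ⊆ S' → ball E b S r x ⊆ ball E b S' r x) ∧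
  ∀ r x y, x ∈ S → y ∈ S → de E b x y → ball E b S r y ⊆ ball E b S (r + 1) x

/-- GRO: growth of balls -/
def tGRO : Prop := ∀ (V : Type) [Fintype V] (E : V → V → Prop) (b : Bool) (S : Finset V),
  (∀ d : ℕ, Dg E d → ∀ r x, (ball E b S r x).card ≤ (d + 1) ^ r) ∧
  ∀ (R : ℕ) (B : ℝ), (∀ x ∈ S, ((ball E b S R x).card : ℝ) ≤ B) →
    ∀ q, ∀ x ∈ S, ((ball E b S (R * q) x).card : ℝ) ≤ B ^ q

/-- FAS: feedback arc numbers -/
def tFAS : Prop := ∀ (V : Type) [Fintype V] (E : V → V → Prop) (d : ℕ),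
  (∀ S : Finset V, ∃ rk : V → ℕ, bad E S rk = fas E S) ∧
  (∀ (S : Finset V) (rk : V → ℕ), fas E S ≤ bad E S rk) ∧
  (∀ S S' : Finset V, S ⊆ S' → fas E S ≤ fas E S') ∧
  (∀ S : Finset V, fas E S = 0 ↔ ¬ Cyc E S) ∧
  (∀ S S' : Finset V, S ⊆ S' → Cyc E S → Cyc E S') ∧
  (Dg E d → ∀ S : Finset V, fas E S ≤ d * S.card) ∧
  (Dg E d → ∀ S T : Finset V, fas E S ≤ fas E (S \ T) + 2 * d * T.card) ∧
  ∀ (S : Finset V) (key : V → ℕ), fas E S ≤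
    (∑ c ∈ S.image key, fas E (S.filter fun x => key x = c)) +
      ((S ×ˢ S).filter fun p => E p.1 p.2 ∧ key p.2 < key p.1).card

/-- CRV: carving of balls -/
def tCRV : Prop := ∀ (V : Type) [Fintype V] (E : V → V → Prop) (d : ℕ) (b : Bool) (S : Finset V)
    (R : ℕ) (η : ℝ), Dg E d → 1 ≤ R → 0 ≤ η →
  (∀ x ∈ S, ((ball E b S R x).card : ℝ) ≤ Real.exp (η * R)) →
  (fas E S : ℝ) ≤ d * (S.filter fun x => Cyc E (ball E b S R x)).card +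
    d * (Real.exp η - 1) * S.card

/-- FIN: the last step -/
def tFIN : Prop := ∀ (V : Type) [Fintype V] (E : V → V → Prop) (d : ℕ) (l : V → Option Lb)
    (gm η : ℝ) (Rm : ℕ), Dg E d → Gw E l gm Rm → 0 < η → η ≤ 1 →
  (∀ x a, l x = some a → ¬ (η < gr gm a true ∧ η < gr gm a false)) →
  (TF E l : ℝ) ≤ d * (univ.filter fun x => Cyc E (finD E l gm η x)).card +
    2 * d * η * Fintype.card V

/-- KEY: the dyadic tree -/
def tKEY : Prop :=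
  (∀ a b : ℕ, 1 ≤ a → a ≤ b → a ≤ mv a b ∧ mv a b ≤ b ∧
    ∀ u, a ≤ u → u ≤ b → u ≠ mv a b → padicValNat 2 u < padicValNat 2 (mv a b)) ∧
  (∀ a b a' b' : ℕ, 1 ≤ a → a ≤ a' → a' ≤ b' → b' ≤ b →
    mv a' b' = mv a b ∨ padicValNat 2 (mv a' b') < padicValNat 2 (mv a b)) ∧
  (∀ lo hi : ℕ, kv lo hi = 0 ↔ hi < lo) ∧
  (∀ lo hi : ℕ, lo ≤ hi → (Odd (kv lo hi) ↔ lo = hi) ∧
    2 * lo + 1 ≤ kv lo hi ∧ kv lo hi ≤ 2 * hi + 1) ∧
  (∀ c : ℕ, kv c c = 2 * c + 1) ∧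
  ∀ lo hi k : ℕ, hi < 2 ^ k → kv lo hi < 2 ^ (k + 1) ∧ padicValNat 2 (kv lo hi) ≤ k

/-- MON: keys and heights are monotone in the step and in the set of seeds -/
def tMON : Prop := ∀ (V : Type) [Fintype V] (C : Cx V) (x : V) (j j' : ℕ) (R : Finset V), j ≤ j' →
  C.R1 ⊆ R →
  C.key j x < 2 ^ (C.p.k + 1) ∧ C.T j x ≤ C.p.k ∧
  C.T j' x ≤ C.T j x ∧
  (C.key j x = 0 → C.key j' x = 0) ∧
  (C.key j' x ≠ 0 → C.key j' x ≠ C.key j x → C.T j' x < C.T j x) ∧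
  (C.key j x ≠ 0 → (Even (C.key j x) ↔ 1 ≤ C.T j x)) ∧
  ({ C with R1 := R } : Cx V).T j x ≤ C.T j x

/-- EDG: edges between vertices with stable keys -/
def tEDG : Prop := ∀ (V : Type) [Fintype V] (C : Cx V) (u v : V) (j : ℕ) (a : Lb),
  C.l u = some a → C.l v = some a → C.E u v →
  C.key j u ≠ 0 → C.key j v ≠ 0 → C.key (j + 1) u = C.key j u → C.key (j + 1) v = C.key j v →
  C.key j u ≤ C.key j v

/-- LOC: keys depend only on the blocks of the seeds -/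
def tLOC : Prop := ∀ (V : Type) [Fintype V] (C : Cx V) (g : V → ℕ), (∀ s ∈ C.R1, C.f s = g s) →
  ∀ j x, ({ C with f := g } : Cx V).key j x = C.key j x

/-- DRP: a new seed in `Y` lowers the sum of the heights -/
def tDRP : Prop := ∀ (V : Type) [Fintype V] (C : Cx V) (j : ℕ) (s : V), (∀ t, C.f t < 2 ^ C.p.k) →
  s ∈ C.Y j →
  (∑ x, ({ C with R1 := insert s C.R1 } : Cx V).T j x) + C.p.Ns ≤ ∑ x, C.T j x

/-- SED: the keys of the later seeds -/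
def tSED : Prop := ∀ (V : Type) [Fintype V] (C : Cx V) (j : ℕ) (R : Finset V) (s : V) (a : Lb),
  IsF C.p.k R (rsl R C.l) (rsr R (lk C.E C.l C.p)) C.f → C.R1 ⊆ R → s ∈ R → s ∉ C.R1 →
  C.l s = some a → C.p.act a → C.p.m ≤ C.p.A a → j ≤ C.p.m →
  C.key j s ≠ 0 ∧ ∀ c, C.key j s = 2 * c + 1 → C.f s = c

/-- ORD: if the explored set has no cycle there is a good distribution into blocks -/
def tORD : Prop := ∀ (V : Type) [Fintype V] (E : V → V → Prop) (l : V → Option Lb) (p : Pm)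
    (R : Finset V), ¬ Cyc E (seedD E l p R) →
  IsF p.k R (rsl R l) (rsr R (lk E l p)) (fR E l p R)

/-- DET: the feedback arc account of a round -/
def tDET : Prop := ∀ (V : Type) [Fintype V] (C : Cx V) (d j o o2 : ℕ), Dg C.E d →
  TF C.E C.l ≤ TF C.E (C.nl j o o2) + 3 * d * (C.un j).card + 2 * d * (C.LL j o).card +
    d * (C.cr1 j o).card + d * (C.cr2 j o2).card + C.HF j o2

/-- bounds of a label -/
def LbOK (gm : ℝ) (Rm : ℕ) (a : Lb) : Prop :=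
  ∀ b, 0 < gr gm a b ∧ gr gm a b ≤ gm ∧ 1 ≤ rd a b ∧ rd a b ≤ Rm

/-- the numerical conditions on the radii of a round -/
def NumOK (p : Pm) (θ : ℝ) (Rm Rm' : ℕ) : Prop :=
  2 ≤ p.Ns ∧ 2 ≤ p.Nt ∧ Rm ≤ Rm' ∧ 0 < θ ∧ θ ≤ 1 ∧ ∀ a, LbOK p.gm Rm a → p.act a →
    p.m ≤ p.P a true ∧ p.m ≤ p.P a false ∧ 2 * p.m + 1 ≤ p.A a ∧ p.m2 + 1 ≤ p.P2 a (p.dir a) ∧
    (∀ o < p.m, p.r1 a o ≤ Rm' ∧
      ∀ b, 1 / gr p.gm a b + 1 / (2 * p.gm) ≤ p.r1 a o / Real.log p.Ns ∧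
        Real.log p.Ns / p.r1 a o ≤ θ * gr p.gm a b) ∧
    ∀ o < p.m2, p.r2 a o ≤ Rm' ∧ Real.log p.Nt / p.r2 a o ≤ θ * gr p.gm a (p.dir a)

/-- GRW: the new labelling satisfies the growth bounds -/
def tGRW : Prop := ∀ (V : Type) [Fintype V] (C : Cx V) (j o o2 Rm Rm' : ℕ) (θ : ℝ),
  NumOK C.p θ Rm Rm' → 0 < C.p.η → Gw C.E C.l C.p.gm Rm → o < C.p.m → o2 < C.p.m2 →
  Gw C.E (C.nl j o o2) C.p.gm Rm'

/-- PRG: progress of the unfinished labels -/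
def tPRG : Prop := ∀ (V : Type) [Fintype V] (C : Cx V) (j o o2 Rm Rm' : ℕ) (θ B : ℝ),
  NumOK C.p θ Rm Rm' → 0 < C.p.η → Gw C.E C.l C.p.gm Rm → o < C.p.m → o2 < C.p.m2 →
  (∀ x a, C.l x = some a → C.p.act a → gr C.p.gm a true * gr C.p.gm a false ≤ B) →
  ∀ x a, C.nl j o o2 x = some a → C.p.act a → gr C.p.gm a true * gr C.p.gm a false ≤ θ * B

/-- TAU: the potential grows at coarse vertices -/
def tTAU : Prop := ∀ (V : Type) [Fintype V] (C : Cx V) (j o o2 Rm Rm' : ℕ) (θ τm : ℝ),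
  NumOK C.p θ Rm Rm' → 0 < C.p.η → Gw C.E C.l C.p.gm Rm → o < C.p.m → o2 < C.p.m2 →
  2 / C.p.η + 1 / (2 * C.p.gm) ≤ τm → ∀ x,
  tau C.p.gm C.p.η τm (C.l x) ≤ tau C.p.gm C.p.η τm (C.nl j o o2 x) ∧
  (C.key j x ≠ 0 → Even (C.key j x) →
    tau C.p.gm C.p.η τm (C.l x) + 1 / (2 * C.p.gm) ≤ tau C.p.gm C.p.η τm (C.nl j o o2 x)) ∧
  tau C.p.gm C.p.η τm (C.nl j o o2 x) ≤ τm

/-! ## B. Counting -/

/-- HIT: few samples in a large set -/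
def tHIT : Prop := ∀ (V : Type) [Fintype V] (M : ℕ) (A : Finset V), 2 * M ≤ A.card →
  ∑ ω : Fin M → V, (1 / 2 : ℝ) ^ (univ.image ω ∩ A).card ≤
    ((Fintype.card V : ℝ) - A.card / 4) ^ M

/-- number of different elements of `A` among the seeds with numbers `≥ i` -/
noncomputable def hits {V : Type} [Fintype V] {M : ℕ} (ω : Fin M → V) (i : ℕ) (A : Finset V) : ℕ :=
  ((univ.filter fun t : Fin M => i ≤ t.1).image ω ∩ A).card

/-- UCO: uniform convergence -/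
def tUCO : Prop := ∀ (V ι : Type) [Fintype V] [Fintype ι] (M i K : ℕ) (ζ : ℝ)
    (F : Finset V → (V → ℕ) → ι → Finset V), 0 < ζ → i ≤ M → 2 * (M : ℝ) ≤ ζ * Fintype.card V →
  (∀ R f g c, (∀ s ∈ R, f s = g s) → F R f c = F R g c) →
  ((univ.filter fun ω : Fin M → V => ∃ f : V → ℕ, (∀ s, f s < K) ∧ ∃ c,
      ζ * Fintype.card V ≤ (F (pre ω i) f c).card ∧
      (hits ω i (F (pre ω i) f c) : ℝ) <
        (M - i) * (F (pre ω i) f c).card / (16 * Fintype.card V)).card : ℝ) ≤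
    Fintype.card ι * K ^ i * Real.exp (-((M - i) * ζ / 5)) * Fintype.card V ^ M

/-- EXC: exchangeability and telescoping -/
def tEXC : Prop := ∀ (V : Type) [Fintype V] (M i1 N B : ℕ)
    (F : Finset V → V → ℕ) (Y : Finset V → (V → ℕ) → Finset V) (Φ : Finset V → (V → ℕ) → ℕ),
  2 * i1 ≤ M →
  (∀ R f, Φ R f ≤ B) →
  (∀ R R' f, R ⊆ R' → Φ R' f ≤ Φ R f) →
  (∀ R R' s, s ∈ Y R (F R') → Φ (insert s R) (F R') + N ≤ Φ R (F R')) →
  N * ∑ i ∈ range i1, ∑ ω : Fin M → V, hits ω (i1 + i) (Y (pre ω (i1 + i)) (F (als ω))) ≤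
    M * B * Fintype.card V ^ M

/-- YBD: `Y` is small for most seeds -/
def tYBD : Prop := ∀ (V : Type) [Fintype V] (E : V → V → Prop) (l : V → Option Lb) (p : Pm) (j : ℕ)
    (ε : ℝ), 0 < ε → 1 ≤ p.Ns → 4 * p.i1 ≤ p.M → 1 ≤ p.M → 2 ^ p.k * (2 * p.M) ≤ Fintype.card V →
  1 ≤ 2 ^ p.k * ε →
  ε * p.Ns * ∑ i ∈ range p.i1, ((univ.filter fun ω : Fin p.M → V =>
      ε * Fintype.card V ≤ ((ctx E l p ω (p.i1 + i)).Y j).card).card : ℝ) ≤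
    (32 * p.k * Fintype.card V + p.i1 * (ε * p.Ns) * ((2 ^ p.k) ^ (2 * p.i1) *
      Real.exp (-(p.M / (10 * 2 ^ p.k))))) * Fintype.card V ^ p.M

/-- IVD: few vertices are invalid -/
def tIVD : Prop := ∀ (V : Type) [Fintype V] (E : V → V → Prop) (l : V → Option Lb) (p : Pm) (i : ℕ),
  2 * i ≤ p.M → 1 ≤ p.M → 2 ^ p.k * (2 * p.M) ≤ Fintype.card V →
  (∀ x a, l x = some a → p.act a → p.m ≤ p.A a) →
  ((univ.filter fun ω : Fin p.M → V => ¬ Cyc E (seedD E l p (als ω)) ∧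
    (Fintype.card V : ℝ) / 2 ^ p.k + i < (univ.filter fun x => ∃ a, l x = some a ∧ p.act a ∧
      (ctx E l p ω i).key p.m x = 0).card).card : ℝ) ≤
    (2 ^ p.k) ^ i * Real.exp (-(p.M / (10 * 2 ^ p.k))) * Fintype.card V ^ p.M

/-- WIN: windows are small -/
def tWIN : Prop := ∀ (V : Type) [Fintype V] (E : V → V → Prop) (l : V → Option Lb) (p : Pm)
    (i j : ℕ), 2 * i ≤ p.M → 2 ^ p.k ≤ p.M → 2 ^ p.k * (2 * p.M) ≤ Fintype.card V → j ≤ p.m →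
  (∀ x a, l x = some a → p.act a → p.m ≤ p.A a) →
  ((univ.filter fun ω : Fin p.M → V => ¬ Cyc E (seedD E l p (als ω)) ∧ ∃ a c, p.act a ∧ Odd c ∧
    65 * (Fintype.card V : ℝ) / 2 ^ p.k < ((ctx E l p ω i).nd j a c).card).card : ℝ) ≤
    Fintype.card V * (2 ^ p.k) ^ i * Real.exp (-(p.M / (10 * 2 ^ p.k))) * Fintype.card V ^ p.M

/-- JSE: choice of the step -/
def tJSE : Prop := ∀ (X : Type) [Fintype X] (T : ℕ → X → ℕ) (k h mb : ℕ), 1 ≤ h → 1 ≤ mb →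
  (∀ j x, T (j + 1) x ≤ T j x) → (∀ x, T 0 x ≤ k) →
  h * mb ≤ 2 * h * ((range (h * mb)).filter fun j =>
    ((univ.filter fun x => T (j + 1) x < T j x).card : ℝ) * mb ≤
      4 * k * ((univ.filter fun x => 1 ≤ T j x).card + Fintype.card X / 2 ^ h)).card

/-- CRO: thresholds are crossed once -/
def tCRO : Prop := ∀ (V : Type) [Fintype V] (C : Cx V) (j : ℕ),
  ∑ o ∈ range C.p.m, (C.cr1 j o).card ≤ Fintype.card V ∧
  ∑ o ∈ range C.p.m2, (C.cr2 j o).card ≤ Fintype.card V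

/-- SAT: the saturation step -/
def tSAT : Prop := ∀ (V : Type) [Fintype V] (C : Cx V) (d j o : ℕ) (w ε : ℝ), Dg C.E d → 1 ≤ d →
  (∀ a c, C.p.act a → Odd c → ((C.nd j a c).card : ℝ) ≤ w) →
  (∀ x a, C.l x = some a → C.p.act a → C.p.r2 a o ≤ C.p.P2 a (C.p.dir a)) →
  0 < ε → 2 * ε * Fintype.card V < C.HF j o → 4 * C.p.q * w ≤ Fintype.card V * C.p.cap →
  8 * d * Real.exp (-(C.p.Nt * C.p.q / Fintype.card V)) ≤ ε →
  ε * Fintype.card V * Fintype.card V ^ C.p.q ≤ 2 * d *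
    ((univ.filter fun z : V × (Fin C.p.q → V) => Cyc C.E (C.satD j z.1 z.2)).card : ℝ)

end Pool.Agent.AcyUp
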