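import Pool.Agent.AcyUp.Targets

set_option autoImplicit false

/-!
# MP_08c6cd_lc, sublinear tester: targets of the jobs ACU-*, part 2 (algorithms, assembly)
-/

namespace Pool.Agent.AcyUp

open Finset Pool.Agent.AcyTest
open scoped Classical

/-! ## C. Adaptive explorations -/

/-- CMP: rules for `Cmp` -/
def tCMP : Prop := ∀ (V : Type) (d : ℕ) (K : Set (DG V d)),
  (∀ (α : Type) (a : α), Cmp K (fun _ => a) (fun _ => ∅) fun _ => 0) ∧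
  (∀ v, Cmp K (fun G => (G.out v, G.inn v)) (fun _ => {v}) fun _ => 1) ∧
  (∀ (α β : Type) (F : DG V d → α) (H : DG V d → β) (D D' : DG V d → Set V) (c c' : DG V d → ℕ),
    Cmp K F D c → (∀ a, Cmp {G | G ∈ K ∧ F G = a} H D' c') →
    Cmp K H (fun G => D G ∪ D' G) fun G => c G + c' G) ∧
  (∀ (α : Type) (F F' : DG V d → α) (D D' : DG V d → Set V) (c c' : DG V d → ℕ)
    (K' : Set (DG V d)), Cmp K F D c → K' ⊆ K →
    (∀ G ∈ K', F G = F' G ∧ D' G ⊆ D G ∧ c G ≤ c' G) → Cmp K' F' D' c') ∧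
  (∀ (α β : Type) (F : DG V d → α) (D : DG V d → Set V) (c : DG V d → ℕ) (h : α → β),
    Cmp K F D c → Cmp K (fun G => h (F G)) D c) ∧
  ∀ (ι α : Type) (T : Finset ι) (F : ι → DG V d → α) (D : ι → DG V d → Set V)
    (c : ι → DG V d → ℕ), (∀ x ∈ T, Cmp K (F x) (D x) (c x)) →
    Cmp K (fun G x => if x ∈ T then some (F x G) else none) (fun G => ⋃ x ∈ T, D x G)
      fun G => ∑ x ∈ T, c x G

/-- cost of the exploration of a ball of radius at most `r` with at most `s` vertices, if a label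
costs `W` -/
def cB (d W r s : ℕ) : ℕ := (r + 2) * (s + 1) * ((2 * d + 2) * (W + 1))

/-- CBL: exploration of a ball -/
def tCBL : Prop := ∀ (V α : Type) [Fintype V] (d : ℕ) (K : Set (DG V d)) (l : DG V d → V → α)
    (W : ℕ), (∀ x, Cmp K (fun G => l G x) (fun _ => ∅) fun _ => W) →
  ∀ (b : Bool) (a : α) (r : ℕ) (x : V), Cmp K (fun G => ball G.E b (cl (l G) a) r x)
    (fun G => (ball G.E b (cl (l G) a) r x : Set V))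
    fun G => cB d W r (ball G.E b (cl (l G) a) r x).card

/-- the data of the seeds -/
noncomputable def sdat {V : Type} [Fintype V] (E : V → V → Prop) (l : V → Option Lb) (p : Pm)
    (R : Finset V) (s : V) : Option (Option Lb × (Bool → Finset V)) :=
  if s ∈ R then some (l s, fun b => match l s with
    | none => ∅
    | some a => if p.act a then ball E b (cl l (some a)) (p.P a b) s else ∅)
  else none

/-- RAD: sizes of the explored balls -/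
def tRAD : Prop := ∀ (V : Type) [Fintype V] (E : V → V → Prop) (l : V → Option Lb) (p : Pm)
    (Rm : ℕ) (x : V) (a : Lb) (b : Bool), Gw E l p.gm Rm → 0 < p.η → 0 ≤ p.L → 0 ≤ p.L2 →
  l x = some a → p.act a →
  ((p.P a b : ℝ) ≤ p.L / p.η ∧ (p.P2 a b : ℝ) ≤ p.L2 / p.η) ∧
  (∀ r ≤ p.P a b, ((ball E b (cl l (some a)) r x).card : ℝ) ≤ Real.exp p.L) ∧
  ∀ r ≤ p.P2 a b, ((ball E b (cl l (some a)) r x).card : ℝ) ≤ Real.exp p.L2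

/-- CSD: exploration of the seeds -/
def tCSD : Prop := ∀ (V : Type) [Fintype V] (d : ℕ) (K : Set (DG V d))
    (l : DG V d → V → Option Lb) (W Rm N P0 : ℕ) (p : Pm) (R : Finset V),
  (∀ x, Cmp K (fun G => l G x) (fun _ => ∅) fun _ => W) → (∀ G ∈ K, Gw G.E (l G) p.gm Rm) →
  0 < p.η → 0 ≤ p.L → 0 ≤ p.L2 → Real.exp p.L ≤ N → p.L / p.η ≤ P0 →
  Cmp K (fun G => sdat G.E (l G) p R) (fun G => (seedD G.E (l G) p R : Set V))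
    fun _ => R.card * (W + 2 * cB d W P0 N)

/-- CKY: computation of a key -/
def tCKY : Prop := ∀ (V : Type) [Fintype V] (d : ℕ) (K : Set (DG V d))
    (l : DG V d → V → Option Lb) (W Rm N P0 : ℕ) (p : Pm) (ω : Fin p.M → V) (i j : ℕ)
    (D : V → Option (Option Lb × (Bool → Finset V))),
  (∀ x, Cmp K (fun G => l G x) (fun _ => ∅) fun _ => W) → (∀ G ∈ K, Gw G.E (l G) p.gm Rm) →
  0 < p.η → 0 ≤ p.L → 0 ≤ p.L2 → Real.exp p.L ≤ N → p.L / p.η ≤ P0 → j ≤ p.m →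
  (∀ a, LbOK p.gm Rm a → p.act a → ∀ b, p.m ≤ p.P a b) →
  (∀ G ∈ K, sdat G.E (l G) p (als ω) = D) →
  ∀ x, Cmp K (fun G => (l G x, (ctx G.E (l G) p ω i).key j x)) (fun _ => ∅)
    fun _ => W + 2 * cB d W P0 N

/-- CNL: computation of the new labels -/
def tCNL : Prop := ∀ (V : Type) [Fintype V] (d : ℕ) (K : Set (DG V d)) (C : DG V d → Cx V)
    (W Rm P1 j o o2 : ℕ) (p : Pm),
  (∀ G ∈ K, (C G).E = G.E ∧ (C G).p = p ∧ Gw G.E (C G).l p.gm Rm) →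
  (∀ x, Cmp K (fun G => ((C G).l x, (C G).key j x)) (fun _ => ∅) fun _ => W) →
  (∀ a, LbOK p.gm Rm a → p.act a → p.r1 a o ≤ P1 ∧ p.r2 a o2 ≤ P1) →
  ∀ x, Cmp K (fun G => (C G).nl j o o2 x) (fun _ => ∅)
    fun _ => W + 2 * cB d W P1 ((d + 1) ^ P1)

/-- CST: the saturation step (`W`: cost of a label, `Wk`: cost of a label with its key) -/
def tCST : Prop := ∀ (V : Type) [Fintype V] (d : ℕ) (K : Set (DG V d)) (C : DG V d → Cx V)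
    (W Wk Rm N P1 j : ℕ) (p : Pm) (v : V) (Q : Fin p.q → V),
  (∀ G ∈ K, (C G).E = G.E ∧ (C G).p = p ∧ Gw G.E (C G).l p.gm Rm) →
  (∀ x, Cmp K (fun G => ((C G).l x, (C G).key j x)) (fun _ => ∅) fun _ => Wk) →
  (∀ x, Cmp K (fun G => (C G).l x) (fun _ => ∅) fun _ => W) →
  0 < p.η → 0 ≤ p.L → 0 ≤ p.L2 → Real.exp p.L2 ≤ N → p.L2 / p.η ≤ P1 →
  Cmp K (fun _ => ()) (fun G => ((C G).satD j v Q : Set V))
    fun _ => (p.q + 1) * Wk + p.cap * cB d W P1 N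

/-- CFD: the exploration at the end -/
def tCFD : Prop := ∀ (V : Type) [Fintype V] (d : ℕ) (K : Set (DG V d))
    (l : DG V d → V → Option Lb) (W Rm : ℕ) (gm η : ℝ) (x : V),
  (∀ x, Cmp K (fun G => l G x) (fun _ => ∅) fun _ => W) → (∀ G ∈ K, Gw G.E (l G) gm Rm) →
  Cmp K (fun _ => ()) (fun G => (finD G.E (l G) gm η x : Set V))
    fun _ => W + cB d W Rm ((d + 1) ^ Rm)

/-- cost of a key -/
def W1 (d W P0 N : ℕ) : ℕ := W + 2 * cB d W P0 N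

/-- cost of a new label -/
def W2 (d W P0 P1 N : ℕ) : ℕ := W1 d W P0 N + 2 * cB d (W1 d W P0 N) P1 ((d + 1) ^ P1)

/-- cost of a round -/
def cR (d W P0 P1 N N2 : ℕ) (p : Pm) : ℕ :=
  p.M * W1 d W P0 N + ((p.q + 1) * W1 d W P0 N + p.cap * cB d W P1 N2)

/-- CRD: the explorations of a round -/
def tCRD : Prop := ∀ (V : Type) [Fintype V] (d : ℕ) (K : Set (DG V d))
    (l : DG V d → V → Option Lb) (W Rm Rm' N N2 P0 P1 c : ℕ) (p : Pm) (θ : ℝ) (z : Zr V p)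
    (D : DG V d → Set V),
  (∀ x, Cmp K (fun G => l G x) (fun _ => ∅) fun _ => W) → (∀ G ∈ K, Gw G.E (l G) p.gm Rm) →
  NumOK p θ Rm Rm' → 0 < p.η → 0 ≤ p.L → 0 ≤ p.L2 → Real.exp p.L ≤ N → Real.exp p.L2 ≤ N2 →
  p.L / p.η ≤ P0 → p.L2 / p.η ≤ P1 → 2 * p.L / p.η ≤ P1 → p.h * p.mb ≤ p.m →
  (∀ K' ⊆ K, (∀ x, Cmp K' (fun G => nlz G.E (l G) p z x) (fun _ => ∅) fun _ => W2 d W P0 P1 N) →
    Cmp K' (fun _ => ()) D fun _ => c) →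
  Cmp K (fun _ => ()) (fun G => (Dz G.E (l G) p z : Set V) ∪ D G)
    fun _ => cR d W P0 P1 N N2 p + c

/-! ## D. One round -/

/-- the sum of the potentials -/
noncomputable def st {V : Type} [Fintype V] (gm η τm : ℝ) (l : V → Option Lb) : ℝ :=
  ∑ x, tau gm η τm (l x)

/-- the numerical conditions of a round on `n` vertices -/
def RndOK (n d : ℕ) (p : Pm) (θ τm θ1 ε1 ε2 ε4 : ℝ) (Rm Rm' : ℕ) : Prop :=
  NumOK p θ Rm Rm' ∧ 1 ≤ d ∧ 0 < p.η ∧ 0 < p.gm ∧ 2 / p.η + 1 / (2 * p.gm) ≤ τm ∧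
  0 < ε1 ∧ ε1 ≤ 2 * d ∧ 0 < ε4 ∧
  1 ≤ p.h ∧ 1 ≤ p.mb ∧ p.h * p.mb ≤ p.m ∧ 1 ≤ p.m2 ∧ 1 ≤ p.i1 ∧
  4 * p.i1 ≤ p.M ∧ 2 ^ p.k ≤ p.M ∧ 2 ^ p.k * (2 * p.M) ≤ n ∧ 1 ≤ 2 ^ p.k * ε4 ∧
  (n + 3) * (2 ^ p.k : ℝ) ^ (2 * p.i1) * Real.exp (-(p.M / (10 * 2 ^ p.k))) +
    32 * p.k * n / (ε4 * p.Ns * p.i1) + 1 / (ε4 * p.m) + 1 / (ε4 * p.m2) ≤ 1 / (4 * p.h) ∧
  4 * p.q * 65 ≤ 2 ^ p.k * p.cap ∧ 8 * d * Real.exp (-(p.Nt * p.q / n)) ≤ ε1 ∧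
  24 * d * p.gm * (p.k / p.mb) ≤ θ1 ∧
  12 * d * (p.k / p.mb) / 2 ^ p.h + 6 * d / 2 ^ p.k + 4 * d * ε4 + 2 * ε1 ≤ ε2

/-- the good events of a round -/
def good {V : Type} [Fintype V] (E : V → V → Prop) (l : V → Option Lb) (p : Pm) (ε4 : ℝ)
    (ω : Fin p.M → V) (i j o o2 : ℕ) : Prop :=
  ((univ.filter fun x => ∃ a, l x = some a ∧ p.act a ∧
      (ctx E l p ω (p.i1 + i)).key p.m x = 0).card : ℝ) ≤
        (Fintype.card V : ℝ) / 2 ^ p.k + (p.i1 + i) ∧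
  (∀ a c, p.act a → Odd c → (((ctx E l p ω (p.i1 + i)).nd j a c).card : ℝ) ≤
    65 * Fintype.card V / 2 ^ p.k) ∧
  (((ctx E l p ω (p.i1 + i)).Y j).card : ℝ) ≤ ε4 * Fintype.card V ∧
  ((univ.filter fun x => (ctx E l p ω (p.i1 + i)).T (j + 1) x <
      (ctx E l p ω (p.i1 + i)).T j x).card : ℝ) * p.mb ≤
    4 * p.k * ((univ.filter fun x => 1 ≤ (ctx E l p ω (p.i1 + i)).T j x).card +
      Fintype.card V / 2 ^ p.h) ∧
  (((ctx E l p ω (p.i1 + i)).cr1 j o).card : ℝ) ≤ ε4 * Fintype.card V ∧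
  (((ctx E l p ω (p.i1 + i)).cr2 j o2).card : ℝ) ≤ ε4 * Fintype.card V

/-- GDC: the good events are not rare -/
def tGDC : Prop := ∀ (V : Type) [Fintype V] [Nonempty V] (E : V → V → Prop) (l : V → Option Lb)
    (d : ℕ) (p : Pm) (θ τm θ1 ε1 ε2 ε4 : ℝ) (Rm Rm' : ℕ),
  RndOK (Fintype.card V) d p θ τm θ1 ε1 ε2 ε4 Rm Rm' → Gw E l p.gm Rm →
  (Fintype.card ((Fin p.M → V) × Fin p.i1 × Fin (p.h * p.mb) × Fin p.m × Fin p.m2) : ℝ) ≤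
    4 * p.h * (univ.filter fun y : (Fin p.M → V) × Fin p.i1 × Fin (p.h * p.mb) × Fin p.m ×
      Fin p.m2 => Cyc E (seedD E l p (als y.1)) ∨
        good E l p ε4 y.1 y.2.1 y.2.2.1 y.2.2.2.1 y.2.2.2.2).card

/-- RTH: one round -/
def tRTH : Prop := ∀ (V : Type) [Fintype V] [Nonempty V] (E : V → V → Prop) (l : V → Option Lb)
    (d : ℕ) (p : Pm) (θ τm θ1 ε1 ε2 ε4 : ℝ) (Rm Rm' : ℕ), Dg E d →
  RndOK (Fintype.card V) d p θ τm θ1 ε1 ε2 ε4 Rm Rm' → Gw E l p.gm Rm →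
  ε1 * (Fintype.card (Zr V p) : ℝ) ≤ 8 * d * p.h * (univ.filter fun z : Zr V p =>
    Cyc E (Dz E l p z) ∨ (TF E l : ℝ) ≤ TF E (nlz E l p z) +
      θ1 * (st p.gm p.η τm (nlz E l p z) - st p.gm p.η τm l) + ε2 * Fintype.card V).card

/-! ## E. All rounds -/

/-- There is a random exploration which, started with a labelling with growth bounds `Rm`, product
of the rates at most `B` and cost `W` of a label, asks at most `c` questions and finds a cycle with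
probability at least `pr` if the classes are far from acyclic. -/
def XOK (V : Type) [Fintype V] (d : ℕ) (gm η τm θ1 : ℝ) (Rm : ℕ) (B : ℝ) (W c : ℕ)
    (e pr : ℝ) : Prop :=
  ∃ (Ω : Type) (_ : Fintype Ω) (_ : Nonempty Ω)
    (D : Ω → (V → V → Prop) → (V → Option Lb) → Finset V),
    (∀ (ω : Ω) (K : Set (DG V d)) (l : DG V d → V → Option Lb),
      (∀ x, Cmp K (fun G => l G x) (fun _ => ∅) fun _ => W) → (∀ G ∈ K, Gw G.E (l G) gm Rm) →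
      Cmp K (fun _ => ()) (fun G => (D ω G.E (l G) : Set V)) fun _ => c) ∧
    ∀ (E : V → V → Prop) (l : V → Option Lb), Dg E d → Gw E l gm Rm →
      (∀ x a, l x = some a → η < gr gm a true ∧ η < gr gm a false →
        gr gm a true * gr gm a false ≤ B) →
      e * Fintype.card V + θ1 * (τm * Fintype.card V - st gm η τm l) ≤ TF E l →
      pr * Fintype.card Ω ≤ (univ.filter fun ω => Cyc E (D ω E l)).card

/-- XBA: no unfinished labels -/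
def tXBA : Prop := ∀ (V : Type) [Fintype V] [Nonempty V] (d : ℕ) (gm η τm θ1 : ℝ) (Rm : ℕ) (B : ℝ)
    (W : ℕ) (e : ℝ), 1 ≤ d → 0 < η → η ≤ 1 → B < η ^ 2 → 0 ≤ θ1 → 2 / η ≤ τm → 2 * d * η ≤ e →
  XOK V d gm η τm θ1 Rm B W (W + cB d W Rm ((d + 1) ^ Rm)) e ((e - 2 * d * η) / d)

/-- XST: one more round -/
def tXST : Prop := ∀ (V : Type) [Fintype V] [Nonempty V] (d : ℕ) (p : Pm)
    (θ τm θ1 ε1 ε2 ε4 : ℝ) (Rm Rm' N N2 P0 P1 : ℕ) (B : ℝ) (W c : ℕ) (e pr : ℝ),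
  RndOK (Fintype.card V) d p θ τm θ1 ε1 ε2 ε4 Rm Rm' → 0 ≤ p.L → 0 ≤ p.L2 → Real.exp p.L ≤ N →
  Real.exp p.L2 ≤ N2 → p.L / p.η ≤ P0 → p.L2 / p.η ≤ P1 → 2 * p.L / p.η ≤ P1 → 0 ≤ pr → pr ≤ 1 →
  XOK V d p.gm p.η τm θ1 Rm' (θ * B) (W2 d W P0 P1 N) c e pr →
  XOK V d p.gm p.η τm θ1 Rm B W (cR d W P0 P1 N N2 p + c) (e + ε2) (pr * (ε1 / (8 * d * p.h)))

/-! ## F. Testers -/

/-- AMP: amplification -/
def tAMP : Prop := ∀ (V : Type) [Fintype V] (d c : ℕ) (pr : ℝ) (Ω : Type) [Fintype Ω] [Nonempty Ω]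
    (D : Ω → DG V d → Finset V) (t : ℕ) (G0 : Set (DG V d)), 0 ≤ pr →
  (∀ ω, Cmp Set.univ (fun _ => ()) (fun G => (D ω G : Set V)) fun _ => c) →
  (∀ G ∈ G0, pr * Fintype.card Ω ≤ (univ.filter fun ω => Cyc G.E (D ω G)).card) →
  ∃ (Ω' : Type) (_ : Fintype Ω') (_ : Nonempty Ω') (D' : Ω' → DG V d → Finset V),
    (∀ ω, Cmp Set.univ (fun _ => ()) (fun G => (D' ω G : Set V)) fun _ => t * c) ∧
    ∀ G ∈ G0, ((univ.filter fun ω => ¬ Cyc G.E (D' ω G)).card : ℝ) ≤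
      (1 - pr) ^ t * Fintype.card Ω'

/-- TST: testers from explorations -/
def tTST : Prop := ∀ (n d c : ℕ) (Ω : Type) [Fintype Ω] [Nonempty Ω]
    (D : Ω → DG (Fin n) d → Finset (Fin n)),
  (∀ ω, Cmp Set.univ (fun _ => ()) (fun G => (D ω G : Set (Fin n))) fun _ => c) →
  ∃ T : Tester n d c (2 * d * c), (∀ G : DG (Fin n) d, G.Acyclic → T.prob G = 1) ∧
    ∀ G : DG (Fin n) d, T.prob G * Fintype.card Ω ≤ (univ.filter fun ω => ¬ Cyc G.E (D ω G)).card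

/-- FRF: far from acyclic means large feedback arc number -/
def tFRF : Prop := ∀ (n d : ℕ) (G : DG (Fin n) d) (ε : ℝ), 0 ≤ ε → G.Far ε →
  ε * d * n < fas G.E univ

/-! ## G. Numbers and the theorem -/

/-- the constants of the rounds -/
def CstOK (d : ℕ) (ε η τm θ1 θ ε2 : ℝ) (K : ℕ) : Prop :=
  0 < η ∧ η ≤ 1 ∧ 2 / η ≤ τm ∧ 0 ≤ θ1 ∧ 0 < θ ∧ θ ≤ 1 ∧ 0 ≤ ε2 ∧
  θ ^ K * Real.log (d + 1) ^ 2 < η ^ 2 ∧ 16 * η ≤ ε ∧
  8 * K * ε2 ≤ ε * d ∧ 8 * θ1 * τm ≤ ε * d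

/-- NUM: parameters of a round at the scale `exp L` -/
def tNUM : Prop := ∀ (d : ℕ) (ε : ℝ), 1 ≤ d → 0 < ε → ε ≤ 1 →
  ∃ (η τm θ1 θ ε1 ε2 ε4 x Cc L0 : ℝ) (K h : ℕ), CstOK d ε η τm θ1 θ ε2 K ∧ 0 < x ∧ 1 ≤ Cc ∧
    0 < ε1 ∧ 1 ≤ h ∧
    ∀ (L : ℝ) (n Rm W : ℕ), L0 ≤ L → Real.exp (Cc * L) ≤ n → (Rm : ℝ) ≤ x * L →
      (W : ℝ) ≤ Real.exp (x * L) →
      ∃ (p : Pm) (Rm' N N2 P0 P1 : ℕ), p.gm = Real.log (d + 1) ∧ p.η = η ∧ p.h = h ∧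
        RndOK n d p θ τm θ1 ε1 ε2 ε4 Rm Rm' ∧ 0 ≤ p.L ∧ 0 ≤ p.L2 ∧ Real.exp p.L ≤ N ∧
        Real.exp p.L2 ≤ N2 ∧ p.L / p.η ≤ P0 ∧ p.L2 / p.η ≤ P1 ∧ 2 * p.L / p.η ≤ P1 ∧
        (Rm' : ℝ) ≤ Cc * L ∧ (W2 d W P0 P1 N : ℝ) ≤ Real.exp (Cc * L) ∧
        (cR d W P0 P1 N N2 p : ℝ) ≤ n * Real.exp (-(x * L))

/-- ALL: all rounds together -/
def tALL : Prop := ∀ (d : ℕ) (ε : ℝ), 1 ≤ d → 0 < ε → ε ≤ 1 →
  ∃ (η τm θ1 e pr c : ℝ) (n0 : ℕ), 0 < pr ∧ 0 < c ∧ 0 < η ∧ 0 ≤ θ1 ∧ 0 ≤ τm ∧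
    e + θ1 * τm ≤ ε * d ∧
    ∀ n ≥ n0, ∃ Q : ℕ, (Q : ℝ) ≤ (n : ℝ) ^ (1 - c) ∧
      XOK (Fin n) d (Real.log (d + 1)) η τm θ1 1 (Real.log (d + 1) ^ 2) 0 Q e pr

/-- END: the theorem -/
def tEND : Prop := ∀ (d : ℕ) (ε : ℝ), 1 ≤ d → 0 < ε → ε ≤ 1 → ∃ c : ℝ, 0 < c ∧ ∃ n0 : ℕ, ∀ n ≥ n0,
  ∃ (r q : ℕ) (T : Tester n d r q), (q : ℝ) ≤ (n : ℝ) ^ (1 - c) ∧ T.IsOneSided ε

end Pool.Agent.AcyUp
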